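import Pool.Agent.H52.CIC.StA

/-! Module ATOM3 of project CIC (helper5). -/

namespace Pool.Agent.H52.CIC

open Pool.Agent.H11.ZDE

variable {P : Type} {O : Po P} {L : Type} [AddCommGroup L] {R : RootLat L}

theorem atom3 (S : SLG O R) : Atom3St S := by
  intro x a b c ha hb hc hlab
  obtain ⟨w, w', hx⟩ := S.hx1 ha hb (S.E_cov hc.1 hc.2) hlab
  obtain ⟨-, -, -, -, e1, -, -, -, e2, -⟩ := hx
  obtain ⟨k1, h1⟩ := S.E_odd ha
  obtain ⟨k2, h2⟩ := S.E_odd e1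
  obtain ⟨k3, h3⟩ := S.E_odd e2
  have := hc.2
  omega

end Pool.Agent.H52.CIC
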