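import Pool.Agent.H52.CIC.StB

/-! Module AVOID of project CIC (helper5). -/

namespace Pool.Agent.H52.CIC

theorem avoid : AvoidSt := by
  classical
  intro V _ _ ι s l hl
  have h := Subspace.biUnion_ne_univ_of_top_notMem (k := ℝ) (E := V)
    (s := s.image (fun i => LinearMap.ker (l i))) (by
      rw [Finset.mem_image]
      rintro ⟨i, hi, he⟩
      exact hl i hi (LinearMap.ker_eq_top.1 he))
  rw [Set.ne_univ_iff_exists_notMem] at h
  obtain ⟨v, hv⟩ := h
  refine ⟨v, fun i hi h0 => hv ?_⟩
  simp only [Set.mem_iUnion]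
  exact ⟨LinearMap.ker (l i), Finset.mem_image_of_mem _ hi, h0⟩

end Pool.Agent.H52.CIC
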