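import Pool.Agent.H52.CIC.StA

/-! Project CIC: BAD. -/

namespace Pool.Agent.H52.CIC

open Pool.Agent.H11.ZDE

variable {P : Type} {O : Po P} {L L' : Type} [AddCommGroup L] [AddCommGroup L'] {R : RootLat L}
  {R' : RootLat L'}

theorem bad (S : SLG O R) (S' : SLG O R') (hp : PathExSt S') (hc : CrownSt S') (h2 : FpK2St S')
    (h3 : FpK3St S') : BadSt S S' := by
  classical
  intro x y a hxa hay hr hg
  have r0 := hxa.2
  have hne : a ≠ y := by
    rintro rfl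
    omega
  obtain ⟨v1, p1, p2, p3⟩ := O.up hay hne
  have hne1 : v1 ≠ y := by
    rintro rfl
    omega
  obtain ⟨b1, q1, q2, q3⟩ := O.up p2 hne1
  have c1 : Cv O a v1 := ⟨p1, p3⟩
  have c2 : Cv O v1 b1 := ⟨q1, q3⟩
  have c3 : Cv O b1 y := ⟨q2, by omega⟩
  obtain ⟨v2, n2, e1, e2, -⟩ := S'.sq (S'.E_cov c1.1 c1.2) (S'.E_cov c2.1 c2.2)
  obtain ⟨k, hk⟩ := S'.E_odd e1
  obtain ⟨m, hm⟩ := S'.E_odd e2
  have c4 : Cv O a v2 := ⟨S'.E_le e1, by omega⟩
  have c5 : Cv O v2 b1 := ⟨S'.E_le e2, by omega⟩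
  obtain ⟨a0, a3, b0, b2, hP⟩ := hp a y v1 v2 b1 (by omega) c1 c4 n2.symm c2 c5 c3
  rcases hc _ _ _ _ _ _ _ _ _ hP with h | h | ⟨b3, h⟩
  · exact absurd ((h2 _ _ _ _ _ _ _ _ _ hP h).1 _) hg
  · exact absurd ((h3 _ _ _ _ _ _ _ _ _ hP h).1 _) hg
  · obtain ⟨g1, g2, g3, -, -, -, -, -, -, -, g4, -⟩ := h
    have e : {v | Cv O a v ∧ O.Le v y} = ((({a0, v1, v2, a3} : Finset P)) : Set P) := by
      ext v
      simp only [Set.mem_ofPred_eq, Finset.coe_insert, Finset.coe_singleton,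
        Set.mem_insert_iff, Set.mem_singleton_iff]
      constructor
      · rintro ⟨h5, h6⟩
        exact g4 v h5 h6
      · rintro (rfl | rfl | rfl | rfl)
        · exact ⟨hP.x0, O.trans hP.i00.1 hP.y0.1⟩
        · exact ⟨hP.x1, p2⟩
        · exact ⟨hP.x2, O.trans hP.i21.1 hP.y1.1⟩
        · exact ⟨hP.x3, O.trans hP.i32.1 hP.y2.1⟩
    rw [e, Set.ncard_coe_finset]
    have m1 := hP.na0
    have m2 := hP.na1
    have m3 := hP.na2
    rw [Finset.card_insert_of_notMem, Finset.card_insert_of_notMem,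
      Finset.card_insert_of_notMem, Finset.card_singleton]
    · simpa using m3
    · simp only [Finset.mem_insert, Finset.mem_singleton, not_or]
      exact ⟨m2, g3⟩
    · simp only [Finset.mem_insert, Finset.mem_singleton, not_or]
      exact ⟨m1, g1, g2⟩

end Pool.Agent.H52.CIC
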