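import Pool.Agent.H52.CIC.Defs

/-!
# Project CIC: statements of the abstract part (the polynomials)
-/

namespace Pool.Agent.H52.CIC

open Pool.Agent.H11.ZDE Polynomial

/-- AVOID: finitely many nonzero linear forms do not vanish at a common vector -/
def AvoidSt : Prop := ∀ (V : Type) [AddCommGroup V] [Module ℝ V] (ι : Type) (s : Finset ι) (l : ι → V →ₗ[ℝ] ℝ),
  (∀ i ∈ s, l i ≠ 0) → ∃ v, ∀ i ∈ s, l i v ≠ 0

/-- ENDW: a function on `[0, 1]` which is locally constant outside a set `T` near every point has the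
same values at the end points -/
def EndwSt : Prop := ∀ (α : Type) (F : ℝ → α) (T : Set ℝ), T.Finite → (0 : ℝ) ∉ T → (1 : ℝ) ∉ T →
  (∀ t ∈ Set.Icc (0 : ℝ) 1, ∃ δ > 0, ∀ t1 ∈ Set.Icc (0 : ℝ) 1, ∀ t2 ∈ Set.Icc (0 : ℝ) 1,
    |t1 - t| < δ → |t2 - t| < δ → t1 ∉ T → t2 ∉ T → F t1 = F t2) → F 0 = F 1

variable {P : Type} [Fintype P] {O : Po P} {L : Type} [AddCommGroup L] {R : RootLat L}

/-- FSMONO: restriction -/
def FsMonoSt (S : SLG O R) : Prop := ∀ x y u w h, O.Le x u → O.Le w y → h ∈ FS S x y → h ∈ FS S u w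

/-- TRV: the value of an element which vanishes at `u → a` on the edges `a → w` -/
def TrvSt (S : SLG O R) : Prop := ∀ u y a w h, h ∈ FS S u y → a ∈ out S y u → w ∈ out S y a → h u a = 0 →
  ∃ c ∈ out S y u, c ≠ a ∧ S.E c w ∧ h a w = h u c

/-- SEP2: two different out-edges can be given arbitrary values -/
def Sep2St (S : SLG O R) : Prop := ∀ x a b, S.E x a → S.E x b → a ≠ b → ∀ r t : ℝ,
  ∃ φ : L →+ ℝ, glob S φ x a = r ∧ glob S φ x b = t

/-- SEP3: three different out-edges, none of which has as label the sum of the two others -/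
def Sep3St (S : SLG O R) : Prop := ∀ x a b c, S.E x a → S.E x b → S.E x c → a ≠ b → a ≠ c → b ≠ c →
  S.lab x a ≠ S.lab x b + S.lab x c → S.lab x b ≠ S.lab x a + S.lab x c → S.lab x c ≠ S.lab x a + S.lab x b →
  ∀ r t v : ℝ, ∃ φ : L →+ ℝ, glob S φ x a = r ∧ glob S φ x b = t ∧ glob S φ x c = v

/-- HT: the height is a positive element -/
def HtSt (S : SLG O R) : Prop := ∃ φ : L →+ ℝ, ∀ u y, Ps S y u (glob S φ)

/-- TIEG: there are positive elements without ties -/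
def TiegSt (S : SLG O R) : Prop := ∀ u y (s : Finset (P → P → ℝ)), ∃ g, Ps S y u g ∧
  ∀ μ ∈ s, ∀ b ∈ out S y u, ∀ c ∈ out S y u, b ≠ c → (μ u b ≠ 0 ∨ μ u c ≠ 0) → μ u b * g u c ≠ μ u c * g u b

/-- J1: crossing of one edge -/
def J1St (S : SLG O R) : Prop := ∀ y φ a w μ kp km, O.Le a y → PhiAt S y φ a → w ∈ out S y a →
  μ ∈ FS S a y → μ a w = 0 → (∀ b ∈ out S y a, b ≠ w → μ a b ≠ 0) → Gn S y a kp → Gn S y a km →
  (∀ b ∈ out S y a, b ≠ w → (0 < kp a b ↔ 0 < μ a b) ∧ (0 < km a b ↔ 0 < μ a b)) →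
  0 < kp a w → km a w < 0 → φ a kp = φ a km + X * φ w μ

/-- crossing of two edges `w1`, `w2` at `a`: the conditions on `m1`, `m2` -/
structure J2c (S : SLG O R) (y w1 w2 : P) (μ m1 m2 : P → P → ℝ) : Prop where
  g1 : Gn S y w1 m1
  g2 : Gn S y w2 m2
  s1 : ∀ z ∈ out S y w1, S.E w2 z → 0 < m1 w1 z
  s1' : ∀ z ∈ out S y w1, ¬ S.E w2 z → (0 < m1 w1 z ↔ 0 < μ w1 z)
  s2 : ∀ z ∈ out S y w2, S.E w1 z → m2 w2 z < 0
  s2' : ∀ z ∈ out S y w2, ¬ S.E w1 z → (0 < m2 w2 z ↔ 0 < μ w2 z)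

/-- J2 -/
def J2St (S : SLG O R) : Prop := ∀ y φ a w1 w2 μ, O.Le a y → (∀ u, O.Le a u → O.Le u y → PhiAt S y φ u) →
  w1 ∈ out S y a → w2 ∈ out S y a → w1 ≠ w2 → μ ∈ FS S a y → μ a w1 = 0 → μ a w2 = 0 →
  (∀ b ∈ out S y a, b ≠ w1 → b ≠ w2 → μ a b ≠ 0) →
  ∃ m1 m2, J2c S y w1 w2 μ m1 m2 ∧ ∀ kp km, Gn S y a kp → Gn S y a km →
    (∀ b ∈ out S y a, b ≠ w1 → b ≠ w2 → (0 < kp a b ↔ 0 < μ a b) ∧ (0 < km a b ↔ 0 < μ a b)) →
    0 < kp a w1 → 0 < kp a w2 → km a w1 < 0 → km a w2 < 0 →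
    φ a kp = φ a km + X * (φ w1 m1 + φ w2 m2)

/-- sign condition at `a` for the partner `b` -/
def Sgp (S : SLG O R) (y a b : P) (κ k : P → P → ℝ) : Prop :=
  ∀ w ∈ out S y a, (S.E b w → 0 < k a w) ∧ (¬ S.E b w → (0 < k a w ↔ 0 < κ a w))

/-- sign condition at `a` for the partner `b`, negative version -/
def Sgm (S : SLG O R) (y a b : P) (κ k : P → P → ℝ) : Prop :=
  ∀ w ∈ out S y a, (S.E b w → k a w < 0) ∧ (¬ S.E b w → (0 < k a w ↔ 0 < κ a w))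

/-- JUMP: crossing of the plane of the edges `x → a`, `x → b` -/
def JumpSt (S : SLG O R) : Prop := ∀ x y φ a b κ, O.Le x y → (∀ u, O.Le x u → u ≠ x → O.Le u y → PhiAt S y φ u) →
  a ∈ out S y x → b ∈ out S y x → a ≠ b → κ ∈ FS S x y → κ x a = 0 → κ x b = 0 →
  (∃ w, S.E a w ∧ S.E b w ∧ O.Le w y) →
  (∀ c ∈ out S y x, c ≠ a → c ≠ b → κ x c = 0 → ∀ w, O.Le w y → S.E c w → ¬ S.E a w ∧ ¬ S.E b w) →
  ∀ ka ka' kb kb', Gn S y a ka → Gn S y a ka' → Gn S y b kb → Gn S y b kb' →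
    Sgp S y a b κ ka → Sgm S y a b κ ka' → Sgp S y b a κ kb → Sgm S y b a κ kb' →
    φ a ka + φ b kb' = φ a ka' + φ b kb

/-- all ties are coplanar -/
def Cop (S : SLG O R) (y x : P) (f g : P → P → ℝ) : Prop :=
  ∀ a ∈ out S y x, ∀ b ∈ out S y x, ∀ c ∈ out S y x, a ≠ b → a ≠ c → b ≠ c →
    f x a * g x b = f x b * g x a → f x a * g x c = f x c * g x a →
    S.lab x a = S.lab x b + S.lab x c ∨ S.lab x b = S.lab x a + S.lab x c ∨ S.lab x c = S.lab x a + S.lab x b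

/-- `(f', g')` is tie-free and close to `(f, g)` -/
structure Near (S : SLG O R) (y x : P) (f g f' g' : P → P → ℝ) : Prop where
  gn : Gn S y x f'
  ps : Ps S y x g'
  tf : TF S y x f' g'
  sg : Sg S y x f f'
  nr : ∀ a ∈ out S y x, ∀ b ∈ out S y x, f x a * g x b < f x b * g x a → f' x a * g' x b < f' x b * g' x a

/-- CROSS -/
def CrossSt (S : SLG O R) : Prop := ∀ x y φ f g f1 g1 f2 g2, O.Le x y →
  (∀ u, O.Le x u → u ≠ x → O.Le u y → PhiAt S y φ u) → Gn S y x f → Ps S y x g → Cop S y x f g →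
  Near S y x f g f1 g1 → Near S y x f g f2 g2 → Zs S y x φ f1 g1 = Zs S y x φ f2 g2

/-- PATH: moving along a line -/
def PathSt (S : SLG O R) : Prop := ∀ x y φ f0 g0 f1 g1, O.Le x y →
  (∀ u, O.Le x u → u ≠ x → O.Le u y → PhiAt S y φ u) → Gn S y x f0 → Gn S y x f1 → Sg S y x f0 f1 →
  Ps S y x g0 → Ps S y x g1 → TF S y x f0 g0 → TF S y x f1 g1 →
  (∀ t ∈ Set.Icc (0 : ℝ) 1, Cop S y x ((1 - t) • f0 + t • f1) ((1 - t) • g0 + t • g1)) →
  Zs S y x φ f0 g0 = Zs S y x φ f1 g1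

/-- ZSG: the sum depends only on the signs and the order -/
def ZsgSt (S : SLG O R) : Prop := ∀ x y φ f g f' g', O.Le x y →
  (∀ u, O.Le x u → u ≠ x → O.Le u y → PhiAt S y φ u) → Gn S y x f → Ps S y x g → TF S y x f g →
  Near S y x f g f' g' → Zs S y x φ f g = Zs S y x φ f' g'

/-- LING: changing `g` -/
def LingSt (S : SLG O R) : Prop := ∀ x y φ f g g', O.Le x y →
  (∀ u, O.Le x u → u ≠ x → O.Le u y → PhiAt S y φ u) → Gn S y x f → Ps S y x g → Ps S y x g' →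
  TF S y x f g → TF S y x f g' → Zs S y x φ f g = Zs S y x φ f g'

/-- LINK: changing `f` -/
def LinkSt (S : SLG O R) : Prop := ∀ x y φ f f' g, O.Le x y →
  (∀ u, O.Le x u → u ≠ x → O.Le u y → PhiAt S y φ u) → Gn S y x f → Gn S y x f' → Sg S y x f f' →
  Ps S y x g → TF S y x f g → TF S y x f' g → Zs S y x φ f g = Zs S y x φ f' g

/-- T3: the functions exist -/
def T3St (S : SLG O R) : Prop := ∀ y, ∃ φ, ∀ u, O.Le u y → PhiAt S y φ u

end Pool.Agent.H52.CIC
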