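import Pool.Agent.H52.CIC.StA
import Pool.Agent.H52.CIC.StB

/-!
# Project CIC: rank at least five (module BIG)
-/

namespace Pool.Agent.H52.CIC

open Pool.Agent.H11.ZDE

variable {P : Type} {O : Po P} {L L' : Type} [AddCommGroup L] [AddCommGroup L'] {R : RootLat L} {R' : RootLat L'}

theorem big_mono (S : SLG O R) {x y u w : P} {h : P → P → ℝ} (hu : O.Le x u) (hw : O.Le w y)
    (hh : h ∈ FS S x y) : h ∈ FS S u w :=
  fun u' w' hu' hw' => hh u' w' (O.trans hu hu') (O.trans hw' hw)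

theorem big_Erk (S : SLG O R) {u w : P} (h : S.E u w) : O.rk u < O.rk w := by
  obtain ⟨k, hk⟩ := S.E_odd h
  omega

theorem big (S : SLG O R) (S' : SLG O R') (he : EdgeSt S S') (hg : GlueSt S')
    (hc : CfbSt S S') (hglob : GlobSt S) (hs : Sep2St S) : BigSt S S' := by
  intro x y hxy hrk HT a hxa hay
  have Exa : S.E x a := S.E_cov hxa.1 hxa.2
  have ra := hxa.2
  apply hg a y (cf S S' x a) hay (by omega)
  · intro b hab hby
    have rb := hby.2
    have hxb := O.trans hxa.1 hab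
    apply hc x a b hxa hab (by omega)
    · apply HT x b (O.refl x) hxb hby.1
      rintro ⟨-, h⟩
      rw [h] at rb
      omega
    · apply HT a b hxa.1 hab hby.1
      rintro ⟨h, -⟩
      rw [h] at ra
      omega
  · intro v hav hvy
    have rv := hav.2
    have Eav : S.E a v := S.E_cov hav.1 hav.2
    obtain ⟨a', naa, Exa', Ea'v, -⟩ := S.sq Exa Eav
    obtain ⟨k1, hk1⟩ := S.E_odd Exa'
    obtain ⟨k2, hk2⟩ := S.E_odd Ea'v
    have hxa' : Cv O x a' := ⟨S.E_le Exa', by omega⟩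
    have hav' : Cv O a' v := ⟨S.E_le Ea'v, by omega⟩
    obtain ⟨φ, f1, f2⟩ := hs x a a' Exa Exa' (fun h => naa h.symm) 1 0
    have hay' : O.Le a' y := O.trans hav'.1 hvy
    have nxa : a ≠ x := fun h => by rw [h] at ra; omega
    have nxa' : a' ≠ x := fun h => by have := hxa'.2; rw [h] at this; omega
    -- the two elements
    obtain ⟨ka, ka1, ka2⟩ := (HT a y hxa.1 hay (O.refl y) (fun h => nxa h.1) _).mp
      ⟨glob S φ, hglob a y φ, fun _ _ _ => rfl⟩
    obtain ⟨kb, kb1, kb2⟩ := (HT a' y hxa'.1 hay' (O.refl y) (fun h => nxa' h.1) _).mp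
      ⟨glob S φ, hglob a' y φ, fun _ _ _ => rfl⟩
    refine ⟨ka - kb, Submodule.sub_mem _ (big_mono S' hav.1 (O.refl y) ka1)
      (big_mono S' hav'.1 (O.refl y) kb1), ?_⟩
    intro w a2 Evw hwy hne Eaa2 Ea2w na2
    have Eav' : S'.E a v := (he a v).mp Eav
    have Ea'v' : S'.E a' v := (he a' v).mp Ea'v
    have Exa0 : S'.E x a := (he x a).mp Exa
    have Exa0' : S'.E x a' := (he x a').mp Exa'
    obtain ⟨w2, nw2, Eaw2, Ew2w, -⟩ := S'.sq Ea'v' Evw
    have hvw := S'.E_le Evw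
    have haw : O.Le a w := O.trans hav.1 hvw
    have haw' : O.Le a' w := O.trans hav'.1 hvw
    have hxw : O.Le x w := O.trans hxa.1 haw
    -- the element for x, w
    obtain ⟨k, kw1, kw2⟩ := (HT x w (O.refl x) hxw hwy (fun h => hne h.2) _).mp
      ⟨glob S φ, hglob x w φ, fun _ _ _ => rfl⟩
    -- values at a
    have va : ∀ u, S'.E a u → O.Le u w → k a u = glob S φ a u - cf S S' x a u := by
      intro u Eu huw
      obtain ⟨p, np, Exp, Epu, -⟩ := S'.sq Exa0 Eu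
      have q1 := (kw1 x u (O.refl x) huw).1 a p Exa0 Eu Exp Epu (fun h => np h.symm)
      have q2 := (hglob x u φ x u (O.refl x) (O.refl u)).1 a p Exa ((he a u).mpr Eu)
        ((he x p).mpr Exp) ((he p u).mpr Epu) (fun h => np h.symm)
      rw [q1, q2, kw2 p Exp (O.trans (S'.E_le Epu) huw), kw2 a Exa0 haw, f1]
      simp only [cf]
      ring
    have vb : ∀ u, S'.E a' u → O.Le u w → k a' u = glob S φ a' u := by
      intro u Eu huw
      obtain ⟨p, np, Exp, Epu, -⟩ := S'.sq Exa0' Eu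
      have q1 := (kw1 x u (O.refl x) huw).1 a' p Exa0' Eu Exp Epu (fun h => np h.symm)
      have q2 := (hglob x u φ x u (O.refl x) (O.refl u)).1 a' p Exa' ((he a' u).mpr Eu)
        ((he x p).mpr Exp) ((he p u).mpr Epu) (fun h => np h.symm)
      rw [q1, q2, kw2 p Exp (O.trans (S'.E_le Epu) huw), kw2 a' Exa0' haw', f2]
      ring
    -- values at v
    have na2' : v ≠ a2 := fun h => na2 h.symm
    have nw2' : v ≠ w2 := fun h => nw2 h.symm
    have e1 := (kw1 a w hxa.1 (O.refl w)).1 v a2 Eav' Evw Eaa2 Ea2w na2'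
    have e2 := (kw1 a' w hxa'.1 (O.refl w)).1 v w2 Ea'v' Evw Eaw2 Ew2w nw2'
    have e3 := (ka1 a w (O.refl a) hwy).1 v a2 Eav' Evw Eaa2 Ea2w na2'
    have e4 := (kb1 a' w (O.refl a') hwy).1 v w2 Ea'v' Evw Eaw2 Ew2w nw2'
    rw [va a2 Eaa2 (S'.E_le Ea2w), va v Eav' hvw] at e1
    rw [vb w2 Eaw2 (S'.E_le Ew2w), vb v Ea'v' hvw] at e2
    rw [ka2 a2 Eaa2 (O.trans (S'.E_le Ea2w) hwy), ka2 v Eav' hvy] at e3
    rw [kb2 w2 Eaw2 (O.trans (S'.E_le Ew2w) hwy), kb2 v Ea'v' hvy] at e4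
    simp only [Pi.sub_apply]
    linear_combination e3 - e4 - e1 + e2

end Pool.Agent.H52.CIC
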