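import Pool.Agent.H52.CIC.StA

/-! Project CIC: CFB. -/

namespace Pool.Agent.H52.CIC

open Pool.Agent.H11.ZDE

variable {P : Type} {O : Po P} {L L' : Type} [AddCommGroup L] [AddCommGroup L'] {R : RootLat L}
  {R' : RootLat L'}

theorem cfb (S : SLG O R) (S' : SLG O R') (he : EdgeSt S S') (hg : GlobSt S) (h2 : Ind2St R) :
    CfbSt S S' := by
  intro x a b hxa hab hr t1 t2
  have e0 : S.E x a := S.E_cov hxa.1 hxa.2
  have hr0 := hxa.2
  -- a second edge at `x`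
  have hne : a ≠ b := by
    rintro rfl
    omega
  obtain ⟨w, w1, w2, w3⟩ := O.up hab hne
  obtain ⟨a2, n2, e2, -, -⟩ := S.sq e0 (S.E_cov w1 w3)
  obtain ⟨φ, hφ, -⟩ := h2 (S.lab x a) (S.lab x a2) (S.lab_root e0).1 (S.lab_root e0).2
    (S.lab_root e2).1 (S.lab_root e2).2 (fun h => n2 (S.lab_inj e0 e2 h).symm) 1 0
  have hh : glob S φ ∈ FS S x b := hg x b φ
  have hxa1 : glob S φ x a = 1 := hφ
  obtain ⟨h', m', v'⟩ := (t1 (fun c => glob S φ x c)).1 ⟨glob S φ, hh, fun _ _ _ => rfl⟩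
  obtain ⟨h'', m'', v''⟩ := (t2 (fun c => glob S φ a c)).1 ⟨glob S φ, hg a b φ, fun _ _ _ => rfl⟩
  have m1 : h' ∈ FS S' a b := fun u w hu hw => m' u w (O.trans hxa.1 hu) hw
  refine ⟨h'' - h', (FS S' a b).sub_mem m'' m1, ?_⟩
  intro c ec hc
  have ec0 : S.E a c := (he a c).2 ec
  obtain ⟨a', na, ea1, ea2, -⟩ := S.sq e0 ec0
  have e1 : glob S φ a c = glob S φ x a' + S.tt x a c * glob S φ x a :=
    (hh x c (O.refl x) hc).1 a a' e0 ec0 ea1 ea2 na.symm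
  have e3 : h' a c = h' x a' + S'.tt x a c * h' x a :=
    (m' x c (O.refl x) hc).1 a a' ((he x a).1 e0) ec ((he x a').1 ea1) ((he a' c).1 ea2) na.symm
  have f1 : h'' a c = glob S φ a c := v'' c ec hc
  have f2 : h' x a = glob S φ x a := v' a ((he x a).1 e0) hab
  have f3 : h' x a' = glob S φ x a' := v' a' ((he x a').1 ea1) (O.trans (S.E_le ea2) hc)
  simp only [Pi.sub_apply]
  rw [f1, e1, e3, f2, f3, hxa1]
  unfold cf
  ring

end Pool.Agent.H52.CIC
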