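import Pool.Agent.H52.CIC.StC

/-! Project CIC: CMP. -/

namespace Pool.Agent.H52.CIC

open Pool.Agent.H11.ZDE Polynomial

namespace CmpAux

section one

variable {P : Type} [Fintype P] {O : Po P} {L : Type} [AddCommGroup L] {R : RootLat L}

theorem mem_out {S : SLG O R} {y u a : P} : a ∈ out S y u ↔ S.E u a ∧ O.Le a y := by
  classical
  simp [out]

omit [Fintype P] in
theorem fsmono (S : SLG O R) {x y u w : P} {h : P → P → ℝ} (h1 : O.Le x u) (h2 : O.Le w y)
    (h3 : h ∈ FS S x y) : h ∈ FS S u w :=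
  fun a b ha hb => h3 a b (O.trans h1 ha) (O.trans hb h2)

theorem trv (S : SLG O R) {u y a w : P} {h : P → P → ℝ} (hF : h ∈ FS S u y)
    (ha : a ∈ out S y u) (hw : w ∈ out S y a) (h0 : h u a = 0) :
    ∃ c ∈ out S y u, c ≠ a ∧ S.E c w ∧ h a w = h u c := by
  obtain ⟨a1, -⟩ := mem_out.1 ha
  obtain ⟨b1, b2⟩ := mem_out.1 hw
  obtain ⟨c, c1, c2, c3, -⟩ := S.sq a1 b1
  refine ⟨c, mem_out.2 ⟨c2, O.trans (S.E_le c3) b2⟩, c1, c3, ?_⟩
  rw [(hF u w (O.refl u) b2).1 a c a1 b1 c2 c3 (Ne.symm c1), h0, mul_zero, add_zero]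

/-- removing the edge `a` -/
theorem gn_sub (S : SLG O R) {y u a : P} {h g : P → P → ℝ} (hh : Gn S y u h) (hg : Ps S y u g)
    (ht : TF S y u h g) (ha : a ∈ out S y u) : Gn S y a (h - (h u a / g u a) • g) := by
  have hga := hg.pos a ha
  have hm : h - (h u a / g u a) • g ∈ FS S u y :=
    (FS S u y).sub_mem hh.mem ((FS S u y).smul_mem _ hg.mem)
  have h0 : (h - (h u a / g u a) • g) u a = 0 := by
    simp only [Pi.sub_apply, Pi.smul_apply, smul_eq_mul]
    field_simp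
    ring
  refine ⟨fsmono S (S.E_le (mem_out.1 ha).1) (O.refl y) hm, fun w hw => ?_⟩
  obtain ⟨c, c1, c2, c3, c4⟩ := trv S hm ha hw h0
  rw [c4]
  simp only [Pi.sub_apply, Pi.smul_apply, smul_eq_mul]
  intro h1
  apply ht a ha c c1 c2.symm
  have h2 : h u c = h u a / g u a * g u c := by linarith
  rw [h2]
  field_simp

theorem val_sub (S : SLG O R) {y u a : P} {h g : P → P → ℝ} (hg : Ps S y u g)
    (ha : a ∈ out S y u) : (h - (h u a / g u a) • g) u a = 0 := by
  have hga := hg.pos a ha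
  simp only [Pi.sub_apply, Pi.smul_apply, smul_eq_mul]
  field_simp
  ring

end one

variable {P V : Type} [Fintype V] {OP : Po P} {O : Po V} {L : Type} [AddCommGroup L]
  {R : RootLat L} {f : P → V}

theorem out_im (S : SLG O R) (hf : Emb OP O f) {p q : P} {v : V} :
    v ∈ out S (f q) (f p) ↔ ∃ a, S.E (f p) (f a) ∧ OP.Le a q ∧ f a = v := by
  rw [mem_out]
  constructor
  · rintro ⟨h1, h2⟩
    obtain ⟨r, rfl⟩ := hf.conv p q v (S.E_le h1) h2
    exact ⟨r, h1, (hf.le r q).2 h2, rfl⟩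
  · rintro ⟨a, h1, h2, rfl⟩
    exact ⟨h1, (hf.le a q).1 h2⟩

theorem zs_im (S : SLG O R) (hf : Emb OP O f) [Fintype P] [DecidableEq P] {p q : P}
    (φ : V → (V → V → ℝ) → ℤ[X]) (h g : V → V → ℝ) (A : Finset P)
    (hA : ∀ a, a ∈ A ↔ S.E (f p) (f a) ∧ OP.Le a q ∧ 0 < h (f p) (f a)) :
    Zs S (f q) (f p) φ h g =
      ∑ a ∈ A, φ (f a) (h - (h (f p) (f a) / g (f p) (f a)) • g) := by
  classical
  unfold Zs
  have e : (out S (f q) (f p)).filter (fun a => 0 < h (f p) a) = A.image f := by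
    ext v
    rw [Finset.mem_filter, out_im S hf, Finset.mem_image]
    constructor
    · rintro ⟨⟨a, h1, h2, rfl⟩, h3⟩
      exact ⟨a, (hA a).2 ⟨h1, h2, h3⟩, rfl⟩
    · rintro ⟨a, h1, rfl⟩
      obtain ⟨h2, h3, h4⟩ := (hA a).1 h1
      exact ⟨⟨a, h2, h3, rfl⟩, h4⟩
  rw [Finset.sum_congr (by convert e) (fun _ _ => rfl),
    Finset.sum_image fun a _ b _ hab => hf.inj hab]

end CmpAux

open CmpAux in
theorem cmpp (h2 : T2WSt) (hT : ∀ (V L : Type) [Fintype V] [AddCommGroup L] (R : RootLat L)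
    (O : Po V) (S : SLG O R), TiegSt S) : CmpSt := by
  classical
  intro P V V' L L' _ _ _ _ _ R R' OP O O' f f' S S' hf hf' hG hG' q φ φ' hφ hφ'
  cases nonempty_fintype P
  obtain ⟨hE, hFS⟩ := h2 P V V' L L' R R' OP O O' f f' S S' hf hf' hG hG'
  suffices H : ∀ n p h h', OP.rk q ≤ OP.rk p + n → OP.Le p q → Gn S (f q) (f p) h →
      Gn S' (f' q) (f' p) h' →
      (∀ a, S.E (f p) (f a) → OP.Le a q → (0 < h (f p) (f a) ↔ 0 < h' (f' p) (f' a))) →
      φ (f p) h = φ' (f' p) h' by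
    intro p h h' hpq hh hh' hs
    exact H (OP.rk q) p h h' (by omega) hpq hh hh' hs
  intro n
  induction n with
  | zero =>
    intro p h h' hn hpq hh hh' hs
    have hpq' : p = q := by
      by_contra hne
      have := OP.rk_lt hpq hne
      omega
    subst hpq'
    rw [(hφ (f p) (O.refl _)).at_top rfl, (hφ' (f' p) (O'.refl _)).at_top rfl]
  | succ n ih =>
    intro p h h' hn hpq hh hh' hs
    by_cases hpq' : p = q
    · subst hpq'
      rw [(hφ (f p) (O.refl _)).at_top rfl, (hφ' (f' p) (O'.refl _)).at_top rfl]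
    · have hfpq : O.Le (f p) (f q) := (hf.le p q).1 hpq
      have hfpq' : O'.Le (f' p) (f' q) := (hf'.le p q).1 hpq
      obtain ⟨g, hg, hgt⟩ := hT V L R O S (f p) (f q) {h}
      have htf : TF S (f q) (f p) h g := fun a ha b hb hab =>
        hgt h (Finset.mem_singleton_self h) a ha b hb hab (Or.inl (hh.ne a ha))
      obtain ⟨k, hk, hkv⟩ := hFS p q hpq h hh.mem
      obtain ⟨g2, hg2, hg2v⟩ := hFS p q hpq g hg.mem
      have hkG : Gn S' (f' q) (f' p) k := by
        refine ⟨hk, fun v hv => ?_⟩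
        obtain ⟨a, a1, a2, rfl⟩ := (out_im S' hf').1 hv
        rw [hkv a ((hE p a).2 a1) a2]
        exact hh.ne _ ((out_im S hf).2 ⟨a, (hE p a).2 a1, a2, rfl⟩)
      have hgP : Ps S' (f' q) (f' p) g2 := by
        refine ⟨hg2, fun v hv => ?_⟩
        obtain ⟨a, a1, a2, rfl⟩ := (out_im S' hf').1 hv
        rw [hg2v a ((hE p a).2 a1) a2]
        exact hg.pos _ ((out_im S hf).2 ⟨a, (hE p a).2 a1, a2, rfl⟩)
      have htf' : TF S' (f' q) (f' p) k g2 := by
        intro v hv v' hv' hne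
        obtain ⟨a, a1, a2, rfl⟩ := (out_im S' hf').1 hv
        obtain ⟨b, b1, b2, rfl⟩ := (out_im S' hf').1 hv'
        rw [hkv a ((hE p a).2 a1) a2, hg2v a ((hE p a).2 a1) a2, hkv b ((hE p b).2 b1) b2,
          hg2v b ((hE p b).2 b1) b2]
        refine htf _ ((out_im S hf).2 ⟨a, (hE p a).2 a1, a2, rfl⟩) _
          ((out_im S hf).2 ⟨b, (hE p b).2 b1, b2, rfl⟩) ?_
        intro h0
        exact hne (congrArg f' (hf.inj h0))
      have e1 : φ' (f' p) h' = φ' (f' p) k := by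
        refine (hφ' (f' p) hfpq').sign h' k hh' hkG fun v hv => ?_
        obtain ⟨a, a1, a2, rfl⟩ := (out_im S' hf').1 hv
        rw [hkv a ((hE p a).2 a1) a2]
        exact (hs a ((hE p a).2 a1) a2).symm
      rw [e1, (hφ (f p) hfpq).step (fun h0 => hpq' (hf.inj h0)) h g hh hg htf,
        (hφ' (f' p) hfpq').step (fun h0 => hpq' (hf'.inj h0)) k g2 hkG hgP htf']
      congr 1
      set A : Finset P := Finset.univ.filter
        (fun a => S.E (f p) (f a) ∧ OP.Le a q ∧ 0 < h (f p) (f a)) with hA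
      have hA1 : ∀ a, a ∈ A ↔ S.E (f p) (f a) ∧ OP.Le a q ∧ 0 < h (f p) (f a) := by
        intro a
        rw [hA, Finset.mem_filter]
        simp
      have hA2 : ∀ a, a ∈ A ↔ S'.E (f' p) (f' a) ∧ OP.Le a q ∧ 0 < k (f' p) (f' a) := by
        intro a
        rw [hA1, ← hE p a]
        constructor
        · rintro ⟨b1, b2, b3⟩
          exact ⟨b1, b2, by rw [hkv a b1 b2]; exact b3⟩
        · rintro ⟨b1, b2, b3⟩
          exact ⟨b1, b2, by rw [hkv a b1 b2] at b3; exact b3⟩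
      rw [zs_im S hf φ h g A hA1, zs_im S' hf' φ' k g2 A hA2]
      refine Finset.sum_congr rfl fun a haA => ?_
      obtain ⟨a1, a2, a3⟩ := (hA1 a).1 haA
      have ha : f a ∈ out S (f q) (f p) := (out_im S hf).2 ⟨a, a1, a2, rfl⟩
      have ha' : f' a ∈ out S' (f' q) (f' p) := (out_im S' hf').2 ⟨a, (hE p a).1 a1, a2, rfl⟩
      have hpa : OP.Le p a := (hf.le p a).2 (S.E_le a1)
      have hpa' : p ≠ a := by
        rintro rfl
        obtain ⟨m, hm⟩ := S.E_odd a1
        omega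
      have hrk := OP.rk_lt hpa hpa'
      refine ih a _ _ (by omega) a2 (gn_sub S hh hg htf ha) (gn_sub S' hkG hgP htf' ha') ?_
      intro w w1 w2
      have hw : f w ∈ out S (f q) (f a) := (out_im S hf).2 ⟨w, w1, w2, rfl⟩
      have hw' : f' w ∈ out S' (f' q) (f' a) := (out_im S' hf').2 ⟨w, (hE a w).1 w1, w2, rfl⟩
      have hm : h - (h (f p) (f a) / g (f p) (f a)) • g ∈ FS S (f p) (f q) :=
        (FS S (f p) (f q)).sub_mem hh.mem ((FS S (f p) (f q)).smul_mem _ hg.mem)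
      have hm' : k - (k (f' p) (f' a) / g2 (f' p) (f' a)) • g2 ∈ FS S' (f' p) (f' q) :=
        (FS S' (f' p) (f' q)).sub_mem hk ((FS S' (f' p) (f' q)).smul_mem _ hg2)
      obtain ⟨c, c1, c2, c3, c4⟩ := trv S hm ha hw (val_sub S hg ha)
      obtain ⟨d, d1, d2, d3, d4⟩ := trv S' hm' ha' hw' (val_sub S' hgP ha')
      obtain ⟨c0, c5, c6, rfl⟩ := (out_im S hf).1 c1
      obtain ⟨d0, d5, d6, rfl⟩ := (out_im S' hf').1 d1
      have hcd : c0 = d0 := by
        obtain ⟨m, -, -, -, hu⟩ := S.sq a1 w1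
        have hc := hu (f c0) c5 c3
        have hd := hu (f d0) ((hE p d0).2 d5) ((hE d0 w).2 d3)
        have hc' : f c0 = m := by
          rcases hc with h1 | h1
          · exact absurd h1 c2
          · exact h1
        have hd' : f d0 = m := by
          rcases hd with h1 | h1
          · exact absurd (congrArg f' (hf.inj h1)) d2
          · exact h1
        exact hf.inj (hc'.trans hd'.symm)
      subst hcd
      rw [c4, d4]
      simp only [Pi.sub_apply, Pi.smul_apply, smul_eq_mul]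
      rw [hkv a a1 a2, hg2v a a1 a2, hkv c0 c5 c6, hg2v c0 c5 c6]

end Pool.Agent.H52.CIC
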