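import Pool.Agent.H52.CIC.StG
import Pool.Agent.H11.Ism.GeoB

/-!
# Project CIC, module CONN: the atoms of a Bruhat interval are connected
-/

namespace Pool.Agent.H52.CIC

open Pool.Agent.H11.ZDE Pool.Agent.H29.Ism Pool.Agent.H29.Ism.BSys

section abs
variable {W : Type} [Group W] (B : BSys W)

/-- two atoms of `[x, y]` with a common cover -/
def ConA (x y c d : W) : Prop := B.Cov x c ∧ B.Cov x d ∧
  ∃ v, B.Le c v ∧ B.Le d v ∧ B.len v = B.len x + 2 ∧ B.Le v y

theorem conA_symm (x y c d : W) (h : ConA B x y c d) : ConA B x y d c := by
  obtain ⟨h1, h2, v, h3, h4, h5⟩ := h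
  exact ⟨h2, h1, v, h4, h3, h5⟩

theorem conA_rev (x y a b : W) (h : Relation.ReflTransGen (ConA B x y) a b) :
    Relation.ReflTransGen (ConA B x y) b a := by
  induction h with
  | refl => exact Relation.ReflTransGen.refl
  | tail _ h ih => exact Relation.ReflTransGen.head (conA_symm B x y _ _ h) ih

/-- maps between chains -/
theorem conA_lift {α β : Type} (f : α → β) (r : α → α → Prop) (r' : β → β → Prop)
    (hf : ∀ c d, r c d → r' (f c) (f d)) (a b : α) (h : Relation.ReflTransGen r a b) :
    Relation.ReflTransGen r' (f a) (f b) := by
  induction h with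
  | refl => exact Relation.ReflTransGen.refl
  | tail _ h ih => exact Relation.ReflTransGen.tail ih (hf _ _ h)

variable {B}

/-- connectedness of the atoms -/
theorem conA_main : ∀ n : ℕ, ∀ x y : W, B.len y = n → B.len x + 2 ≤ B.len y → ∀ a b : W,
    B.Cov x a → B.Le a y → B.Cov x b → B.Le b y →
    Relation.ReflTransGen (ConA B x y) a b := by
  intro n
  induction n using Nat.strong_induction_on with
  | _ n ih =>
  intro x y hn hxy a b ha hay hb hby
  by_cases h2 : B.len y = B.len x + 2
  · exact Relation.ReflTransGen.single ⟨ha, hb, y, hay, hby, h2, B.refl y⟩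
  have hxy' : B.Le x y := B.trans ha.1 hay
  have hne : x ≠ y := by rintro rfl; omega
  obtain ⟨s, hs, hys⟩ := B.desc hxy' hne
  have lys := (down_cov hs hys).2
  have hyss : y * s * s = y := sq' hs y
  have hysu : B.len (y * s) < B.len (y * s * s) := by rw [hyss]; omega
  -- ascents below `y`
  have up1 : ∀ v, B.Le v y → B.len v < B.len (v * s) → B.Le v (y * s) ∧ B.Le (v * s) y :=
    fun v hv hvs => B.lift_ud hs hv hys hvs
  -- multiplication of elements below `y s` with an ascent
  have up2 : ∀ v, B.Le v (y * s) → B.len v < B.len (v * s) → B.Le (v * s) y := by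
    intro v hv hvs
    have := lift_uu hs hv hvs hysu
    rwa [hyss] at this
  by_cases hx : B.len x < B.len (x * s)
  · -- `x` is an ascent
    have hxs := up_cov hs hx
    have key : ∀ a, B.Cov x a → B.Le a y → Relation.ReflTransGen (ConA B x y) a (x * s) := by
      intro a ha hay
      by_cases hax : a = x * s
      · rw [hax]
      · have has := cov_asc hs ha hax hx
        have las := (up_cov hs has)
        refine Relation.ReflTransGen.single ⟨ha, hxs, a * s, las.1, lift_uu hs ha.1 hx has, ?_,
          (up1 a hay has).2⟩
        have := las.2
        have := ha.2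
        omega
    exact (key a ha hay).trans (conA_rev B x y _ _ (key b hb hby))
  · -- `x` is a descent
    have hxd : B.len (x * s) < B.len x := by
      rcases B.s_len hs x with h | h
      · omega
      · omega
    have cx := down_cov hs hxd
    have hxss : x * s * s = x := sq' hs x
    have hxsu : B.len (x * s) < B.len (x * s * s) := by rw [hxss]; omega
    by_cases hxy2 : B.Le x (y * s)
    · -- `x ≤ y s`
      have ihx := ih (B.len (y * s)) (by omega) x (y * s) rfl (by omega)
      have ihs := ih (B.len (y * s)) (by omega) (x * s) (y * s) rfl (by have := cx.2; omega)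
      have mono : ∀ c d, ConA B x (y * s) c d → ConA B x y c d := by
        rintro c d ⟨h1, h2, v, h3, h4, h5, h6⟩
        exact ⟨h1, h2, v, h3, h4, h5, B.trans h6 (down_cov hs hys).1⟩
      -- an atom of `[xs, ys]` different from `x` is an ascent
      have asc : ∀ c, B.Cov (x * s) c → c ≠ x → B.len c < B.len (c * s) := by
        intro c hc hcx
        exact cov_asc hs hc (by rw [hxss]; exact hcx) hxsu
      have atom : ∀ c, B.Cov (x * s) c → c ≠ x → B.Cov x (c * s) := by
        intro c hc hcx
        have h1 := cov_uu hs hc hxsu (asc c hc hcx)
        rwa [hxss] at h1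
      have key : ∀ c, Relation.ReflTransGen (ConA B (x * s) (y * s)) c x →
          c = x ∨ ∃ e, B.Cov x e ∧ B.Le e (y * s) ∧
            Relation.ReflTransGen (ConA B x y) (c * s) e := by
        intro c hc
        refine Relation.ReflTransGen.head_induction_on (motive := fun c _ => c = x ∨
          ∃ e, B.Cov x e ∧ B.Le e (y * s) ∧
            Relation.ReflTransGen (ConA B x y) (c * s) e) hc (Or.inl rfl) ?_
        · intro c d h _ ih2
          by_cases hcx : c = x
          · exact Or.inl hcx
          right
          obtain ⟨k1, k2, v, k3, k4, k5, k6⟩ := h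
          have hca := asc c k1 hcx
          have cv : B.Cov c v := ⟨k3, by have := k1.2; omega⟩
          have hvy := k6
          by_cases hdx : d = x
          · -- `d = x`
            · have hv : B.Cov x v := ⟨by rw [← hdx]; exact k4, by have := cx.2; omega⟩
              by_cases hvs : B.len v < B.len (v * s)
              · refine ⟨v, hv, k6, Relation.ReflTransGen.single ⟨atom c k1 hcx, hv, v * s,
                  lift_uu hs k3 hca hvs, (up_cov hs hvs).1, ?_, up2 v k6 hvs⟩⟩
                have := (up_cov hs hvs).2
                have := hv.2
                omega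
              · have hvd : B.len (v * s) < B.len v := by
                  rcases B.s_len hs v with h | h
                  · omega
                  · omega
                have h1 := cov_ud hs cv hca hvd
                refine ⟨v, hv, k6, ?_⟩
                rw [h1, sq' hs v]
          · rcases ih2 with h0 | ⟨e, e1, e2, e3⟩
            · exact absurd h0 hdx
            by_cases hcd : c = d
            · exact ⟨e, e1, e2, by rw [hcd]; exact e3⟩
            · have hda := asc d k2 hdx
              have dv : B.Cov d v := ⟨k4, by have := k2.2; omega⟩
              have hvs : B.len v < B.len (v * s) := by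
                by_contra hc
                have hvd : B.len (v * s) < B.len v := by
                  rcases B.s_len hs v with h | h
                  · omega
                  · omega
                exact hcd ((cov_ud hs cv hca hvd).trans (cov_ud hs dv hda hvd).symm)
              refine ⟨e, e1, e2, Relation.ReflTransGen.head ⟨atom c k1 hcx, atom d k2 hdx,
                v * s, lift_uu hs k3 hca hvs, lift_uu hs k4 hda hvs, ?_, up2 v k6 hvs⟩ e3⟩
              have := (up_cov hs hvs).2
              have := cx.2
              omega
      have key2 : ∀ a, B.Cov x a → B.Le a y → ∃ e, B.Cov x e ∧ B.Le e (y * s) ∧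
          Relation.ReflTransGen (ConA B x y) a e := by
        intro a ha hay
        by_cases hays : B.Le a (y * s)
        · exact ⟨a, ha, hays, Relation.ReflTransGen.refl⟩
        · have had : B.len (a * s) < B.len a := by
            by_contra hc
            exact hays (up1 a hay (not_down hs hc)).1
          have c1 := cov_dd hs ha hxd had
          have c2 : B.Le (a * s) (y * s) := B.lift_dd hs hay hys had
          have h3 := ihs (a * s) x c1 c2 cx hxy2
          rcases key (a * s) h3 with h4 | ⟨e, e1, e2, e3⟩
          · exfalso
            have h5 := sq' hs a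
            rw [h4] at h5
            have h6 := ha.2
            rw [h5] at hxd
            omega
          · rw [sq' hs a] at e3
            exact ⟨e, e1, e2, e3⟩
      obtain ⟨e, e1, e2, e3⟩ := key2 a ha hay
      obtain ⟨f, f1, f2, f3⟩ := key2 b hb hby
      exact e3.trans ((conA_lift id _ _ mono e f (ihx e f e1 e2 f1 f2)).trans
        (conA_rev B x y _ _ f3))
    · -- `x` is not below `y s`
      have hdn : ∀ v, B.Le x v → B.Le v y → B.len (v * s) < B.len v := by
        intro v hxv hvy
        by_contra hc
        exact hxy2 (B.trans hxv (up1 v hvy (not_down hs hc)).1)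
      have hup : ∀ v, B.Le (x * s) v → B.Le v (y * s) → B.len v < B.len (v * s) := by
        intro v hxv hvy
        by_contra hc
        have hvd : B.len (v * s) < B.len v := by
          rcases B.s_len hs v with h | h
          · omega
          · omega
        have h1 := (B.lift_ud hs hxv hvd hxsu).2
        rw [hxss] at h1
        exact hxy2 (B.trans h1 hvy)
      have had := hdn a ha.1 hay
      have hbd := hdn b hb.1 hby
      have h3 := ih (B.len (y * s)) (by omega) (x * s) (y * s) rfl
        (by have := cx.2; omega) (a * s) (b * s)
        (cov_dd hs ha hxd had) (B.lift_dd hs hay hys had) (cov_dd hs hb hxd hbd)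
        (B.lift_dd hs hby hys hbd)
      have h4 : Relation.ReflTransGen (ConA B x y) (a * s * s) (b * s * s) := by
        refine conA_lift (fun c => c * s) _ _ ?_ _ _ h3
        rintro c d ⟨k1, k2, v, k3, k4, k5, k6⟩
        have uc := hup c k1.1 (B.trans k3 k6)
        have ud := hup d k2.1 (B.trans k4 k6)
        have uv := hup v (B.trans k1.1 k3) k6
        have m1 := cov_uu hs k1 hxsu uc
        have m2 := cov_uu hs k2 hxsu ud
        rw [hxss] at m1 m2
        refine ⟨m1, m2, v * s, lift_uu hs k3 uc uv, lift_uu hs k4 ud uv, ?_, up2 v k6 uv⟩
        have := (up_cov hs uv).2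
        have := cx.2
        omega
      rwa [sq' hs, sq' hs] at h4

end abs

section
variable {B W : Type} [Group W] {M : CoxeterMatrix B} {cs : CoxeterSystem M W}
  {L : Type} [AddCommGroup L] {R : RootLat L}

/-- CONN -/
theorem conn (G : Geo cs R) : ConnSt cs := by
  intro x y a b hxy h1 h2 h3 h4 h5 h6
  have h := conA_main (B := Pool.Agent.H11.Ism.geoB G) (cs.length y) x y rfl hxy a b ⟨h1, h2⟩ h3
    ⟨h4, h5⟩ h6
  refine conA_lift id _ _ ?_ a b h
  rintro c d ⟨_, k2, v, k3, k4, k5, k6⟩
  exact ⟨k2.1, k2.2, v, k3, k4, k5, k6⟩

end

end Pool.Agent.H52.CIC
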