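import Pool.Agent.H52.CIC.StG
import Pool.Agent.H58.ZDE.GR

/-!
# Project CIC, module CONV: from the modified R-polynomials to the R-polynomials
-/

namespace Pool.Agent.H52.CIC

open Pool.Agent.H11.ZDE Polynomial

theorem conv_zero (n : ℕ) : conv n 0 = 0 := by
  unfold conv
  rw [Polynomial.sum_zero_index]

theorem conv_add (n : ℕ) (p q : ℤ[X]) : conv n (p + q) = conv n p + conv n q := by
  unfold conv
  apply Polynomial.sum_add_index
  · intro i
    simp
  · intro i a b
    simp only [map_add]
    ring

theorem conv_eq (n m : ℕ) (p : ℤ[X]) (h : p.natDegree ≤ m) :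
    conv n p = ∑ k ∈ Finset.range (m + 1), C (p.coeff k) * X ^ ((n - k) / 2) * (X - 1) ^ k := by
  unfold conv
  apply Polynomial.sum_over_range' p _ (m + 1) (by omega)
  intro k
  simp

/-- shift of the degree by two -/
theorem conv_two (n : ℕ) (p : ℤ[X]) (h : p.natDegree ≤ n) :
    conv (n + 2) p = X * conv n p := by
  rw [conv_eq (n + 2) n p h, conv_eq n n p h, Finset.mul_sum]
  refine Finset.sum_congr rfl fun k hk => ?_
  have hk' : k ≤ n := by
    have := Finset.mem_range.1 hk
    omega
  have e : (n + 2 - k) / 2 = (n - k) / 2 + 1 := by omega
  rw [e, pow_succ]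
  ring

theorem conv_X (n : ℕ) (p : ℤ[X]) : conv (n + 1) (X * p) = (X - 1) * conv n p := by
  induction p using Polynomial.induction_on' with
  | add p q hp hq => rw [mul_add, conv_add, conv_add, hp, hq, mul_add]
  | monomial k a =>
    rw [X_mul_monomial]
    unfold conv
    rw [Polynomial.sum_monomial_index _ _ (by simp), Polynomial.sum_monomial_index _ _ (by simp)]
    have e : (n + 1 - (k + 1)) = n - k := by omega
    rw [e, pow_succ]
    ring

theorem conv_one (n : ℕ) (h : n = 0) : conv n 1 = 1 := by
  subst h
  unfold conv
  rw [← C_1, Polynomial.sum_C_index (by simp)]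
  simp

section
variable {B W : Type} [Group W] {M : CoxeterMatrix B} (cs : CoxeterSystem M W) {Q : W → W → ℤ[X]}

theorem conv_deg (h : RtPoly cs Q) : ∀ n : ℕ, ∀ w : W, cs.length w = n → ∀ x : W,
    (Q x w).natDegree ≤ cs.length w - cs.length x := by
  intro n
  induction n with
  | zero =>
    intro w hw x
    have hw1 : w = 1 := cs.length_eq_zero_iff.1 hw
    by_cases hb : Bru cs x w
    · rcases Pool.Agent.H58.ZDE.bru_len hb with e | e
      · rw [e, h.one]
        simp
      · omega
    · rw [h.zero x w hb]
      simp
  | succ n ih =>
    intro w hw x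
    have hw1 : w ≠ 1 := by
      intro e
      rw [e, cs.length_one] at hw
      omega
    obtain ⟨i, hi⟩ := cs.exists_rightDescent_of_ne_one hw1
    have hi' : cs.length (w * cs.simple i) < cs.length w := hi
    have hl : cs.length (w * cs.simple i) = n := by
      rcases cs.length_mul_simple w i with h1 | h1 <;> omega
    rcases cs.length_mul_simple x i with hx | hx
    · rw [h.asc x w i hi' (by omega)]
      have h1 := ih (w * cs.simple i) hl (x * cs.simple i)
      have h2 := ih (w * cs.simple i) hl x
      refine le_trans (natDegree_add_le _ _) (max_le (by omega) ?_)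
      by_cases hb : Bru cs x (w * cs.simple i)
      · refine le_trans natDegree_mul_le ?_
        rw [natDegree_X]
        have h3 : cs.length x ≤ cs.length (w * cs.simple i) := by
          rcases Pool.Agent.H58.ZDE.bru_len hb with e | e
          · rw [← e]
          · omega
        omega
      · rw [h.zero _ _ hb]
        simp
    · rw [h.desc x w i hi' (by omega)]
      have h1 := ih (w * cs.simple i) hl (x * cs.simple i)
      omega

theorem conv' : ConvSt := by
  intro B W _ M cs Q h
  have hz : ∀ x w : W, cs.length w < cs.length x → Q x w = 0 := by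
    intro x w hl
    apply h.zero
    intro hb
    rcases Pool.Agent.H58.ZDE.bru_len hb with e | e
    · rw [e] at hl
      omega
    · omega
  refine ⟨?_, ?_, ?_, ?_⟩
  · intro x w hb
    rw [h.zero x w hb, conv_zero]
  · intro w
    rw [h.one, conv_one _ (by omega)]
  · intro x w i hw hx
    rw [h.desc x w i hw hx]
    congr 1
    rcases cs.length_mul_simple w i with h1 | h1 <;>
      rcases cs.length_mul_simple x i with h2 | h2 <;> omega
  · intro x w i hw hx
    have h1 : cs.length (w * cs.simple i) + 1 = cs.length w := by
      rcases cs.length_mul_simple w i with h1 | h1 <;> omega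
    have h2 : cs.length (x * cs.simple i) = cs.length x + 1 := by
      rcases cs.length_mul_simple x i with h2 | h2 <;> omega
    rw [h.asc x w i hw hx, conv_add]
    congr 1
    · by_cases hle : cs.length (x * cs.simple i) ≤ cs.length (w * cs.simple i)
      · have e : cs.length w - cs.length x =
            cs.length (w * cs.simple i) - cs.length (x * cs.simple i) + 2 := by omega
        rw [e]
        exact conv_two _ _ (conv_deg cs h _ _ rfl _)
      · rw [hz _ _ (by omega), conv_zero, conv_zero, mul_zero]
    · by_cases hle : cs.length x ≤ cs.length (w * cs.simple i)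
      · have e : cs.length w - cs.length x = cs.length (w * cs.simple i) - cs.length x + 1 := by
          omega
        rw [e]
        exact conv_X _ _
      · rw [hz _ _ (by omega), mul_zero, conv_zero, conv_zero, mul_zero]

end

end Pool.Agent.H52.CIC
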