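import Pool.Agent.H52.CIC.StC

/-! Project CIC: module COUNT, all atoms are good in rank four. -/

namespace Pool.Agent.H52.CIC

open Pool.Agent.H11.ZDE

variable {P : Type} {O : Po P} {L L' : Type} [AddCommGroup L] [AddCommGroup L'] {R : RootLat L} {R' : RootLat L'}

/-- two middles are all middles -/
theorem count_two (S : SLG O R) {u w a b c : P} (e1 : Cv O u a) (f1 : Cv O a w) (e2 : Cv O u b)
    (f2 : Cv O b w) (e3 : Cv O u c) (f3 : Cv O c w) : a = b ∨ b = c ∨ a = c := by
  obtain ⟨a', hne, _, _, hu⟩ := S.sq (S.E_cov e1.1 e1.2) (S.E_cov f1.1 f1.2)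
  rcases hu b (S.E_cov e2.1 e2.2) (S.E_cov f2.1 f2.2) with h | h
  · exact Or.inl h.symm
  · rcases hu c (S.E_cov e3.1 e3.2) (S.E_cov f3.1 f3.2) with h' | h'
    · exact Or.inr (Or.inr h'.symm)
    · exact Or.inr (Or.inl (h.trans h'.symm))

/-- the second atom -/
theorem count_sec (S : SLG O R) {u w a : P} (e1 : Cv O u a) (f1 : Cv O a w) :
    ∃ b, b ≠ a ∧ Cv O u b ∧ Cv O b w := by
  obtain ⟨a', hne, h1, h2, _⟩ := S.sq (S.E_cov e1.1 e1.2) (S.E_cov f1.1 f1.2)
  obtain ⟨k, hk⟩ := S.E_odd h1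
  obtain ⟨l, hl⟩ := S.E_odd h2
  have e2 := e1.2
  have f2 := f1.2
  exact ⟨a', hne, ⟨S.E_le h1, by omega⟩, ⟨S.E_le h2, by omega⟩⟩

open Classical in
/-- exactly two middles in rank two -/
theorem count_mid (S : SLG O R) [Fintype P] {u w : P} (h : O.Le u w) (hr : O.rk w = O.rk u + 2) :
    (Finset.univ.filter (fun a => Cv O u a ∧ Cv O a w)).card = 2 := by
  have hne : u ≠ w := by intro h'; rw [h'] at hr; omega
  obtain ⟨a, h1, h2, h3⟩ := O.up h hne
  have ca : Cv O u a := ⟨h1, h3⟩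
  have cb : Cv O a w := ⟨h2, by omega⟩
  obtain ⟨b, hba, c1, c2⟩ := count_sec S ca cb
  rw [Finset.card_eq_two]
  refine ⟨a, b, Ne.symm hba, ?_⟩
  ext c
  simp only [Finset.mem_filter, Finset.mem_univ, true_and, Finset.mem_insert, Finset.mem_singleton]
  constructor
  · rintro ⟨d1, d2⟩
    rcases count_two S ca cb c1 c2 d1 d2 with h' | h' | h'
    · exact absurd h'.symm hba
    · exact Or.inr h'.symm
    · exact Or.inl h'.symm
  · rintro (h' | h')
    · rw [h']; exact ⟨ca, cb⟩
    · rw [h']; exact ⟨c1, c2⟩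

open Classical in
theorem count_nc [Fintype P] (p : P → Prop) : {v | p v}.ncard = (Finset.univ.filter p).card := by
  rw [← Set.ncard_coe_finset]
  congr 1
  ext v
  simp

open Classical in
/-- module COUNT -/
theorem count [Finite P] (S : SLG O R) (S' : SLG O R') (hK : KkSt S S') (hB : BadSt S S') :
    CountSt S S' := by
  have := Fintype.ofFinite P
  intro x y hxy hrk hT2 a0 ha0 ha0y
  by_contra hbad
  -- every atom is bad
  have hstep : ∀ b, O.Le x b → Cv O b y → ∀ a, Cv O x a → O.Le a b → ¬ GoodAt S S' x a y →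
      (∀ a', Cv O x a' → O.Le a' b → ¬ GoodAt S S' x a' y) ∧ {v | O.Le x v ∧ Cv O v b}.ncard = 4 := by
    intro b h1 h2 a h3 h4 h5
    rcases hK x y b h1 h2 hrk hT2 with h | h
    · exact absurd (h a h3 h4) h5
    · exact h
  have hall : ∀ a, Cv O x a → O.Le a y → ¬ GoodAt S S' x a y := by
    intro a hxa hay
    have hc := O.conn (x := x) (y := y) (a := a0) (b := a) (by omega) ha0.1 ha0.2 ha0y hxa.1 hxa.2 hay
    clear hxa hay
    induction hc with
    | refl => exact hbad
    | tail hcd hstep' ih =>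
      rename_i c d
      obtain ⟨hxd, hrd, v, hcv, hdv, hrv, hvy⟩ := hstep'
      have hvne : v ≠ y := by intro h; rw [h] at hrv; omega
      obtain ⟨b, hvb, hby, hrb⟩ := O.up hvy hvne
      have hc' : Cv O x c := by
        rcases Relation.ReflTransGen.cases_tail hcd with h | ⟨e, _, h⟩
        · rw [h]; exact ha0
        · exact ⟨h.1, h.2.1⟩
      have hxb : O.Le x b := O.trans hxd (O.trans hdv hvb)
      exact (hstep b hxb ⟨hby, by omega⟩ c hc' (O.trans hcv hvb) ih).1 d ⟨hxd, hrd⟩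
        (O.trans hdv hvb)
  have hco : ∀ b, O.Le x b → Cv O b y → {v | O.Le x v ∧ Cv O v b}.ncard = 4 := by
    intro b hxb hby
    have hb2 := hby.2
    have hne : x ≠ b := by intro h; rw [h] at hrk; omega
    obtain ⟨a, h1, h2, h3⟩ := O.up hxb hne
    exact (hstep b hxb hby a ⟨h1, h3⟩ h2 (hall a ⟨h1, h3⟩ (O.trans h2 hby.1))).2
  -- counting
  let F1 : Finset P := Finset.univ.filter (fun v => O.Le x v ∧ O.Le v y ∧ O.rk v = O.rk x + 1)
  let F2 : Finset P := Finset.univ.filter (fun v => O.Le x v ∧ O.Le v y ∧ O.rk v = O.rk x + 2)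
  let F3 : Finset P := Finset.univ.filter (fun v => O.Le x v ∧ O.Le v y ∧ O.rk v = O.rk x + 3)
  have heul : F1.card + F3.card = F2.card + 2 := by
    have := O.euler hxy hrk
    rw [count_nc, count_nc, count_nc] at this
    convert this
  have h12 : F1.card * 4 = F2.card * 2 := by
    apply Finset.card_mul_eq_card_mul (fun a v => Cv O a v)
    · intro a ha
      obtain ⟨-, h1, h2, h3⟩ := Finset.mem_filter.mp ha
      rw [← hB x y a ⟨h1, h3⟩ h2 hrk (hall a ⟨h1, h3⟩ h2), count_nc]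
      congr 1
      ext v
      simp only [Finset.bipartiteAbove, F2, Finset.mem_filter, Finset.mem_univ, true_and]
      constructor
      · rintro ⟨⟨_, k2, _⟩, k4⟩; exact ⟨k4, k2⟩
      · rintro ⟨k4, k2⟩
        have := k4.2
        exact ⟨⟨O.trans h1 k4.1, k2, by omega⟩, k4⟩
    · intro v hv
      obtain ⟨-, h1, h2, h3⟩ := Finset.mem_filter.mp hv
      rw [← count_mid S h1 h3]
      congr 1
      ext a
      simp only [Finset.bipartiteBelow, F1, Finset.mem_filter, Finset.mem_univ, true_and]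
      constructor
      · rintro ⟨⟨k1, _, k3⟩, k4⟩; exact ⟨⟨k1, k3⟩, k4⟩
      · rintro ⟨k1, k4⟩; exact ⟨⟨k1.1, O.trans k4.1 h2, k1.2⟩, k4⟩
  have h32 : F3.card * 4 = F2.card * 2 := by
    apply Finset.card_mul_eq_card_mul (fun b v => Cv O v b)
    · intro b hb
      obtain ⟨-, h1, h2, h3⟩ := Finset.mem_filter.mp hb
      rw [← hco b h1 ⟨h2, by omega⟩, count_nc]
      congr 1
      ext v
      simp only [Finset.bipartiteAbove, F2, Finset.mem_filter, Finset.mem_univ, true_and]
      constructor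
      · rintro ⟨⟨k1, _, _⟩, k4⟩; exact ⟨k1, k4⟩
      · rintro ⟨k1, k4⟩
        have := k4.2
        exact ⟨⟨k1, O.trans k4.1 h2, by omega⟩, k4⟩
    · intro v hv
      obtain ⟨-, h1, h2, h3⟩ := Finset.mem_filter.mp hv
      rw [← count_mid S h2 (by omega)]
      congr 1
      ext b
      simp only [Finset.bipartiteBelow, F3, Finset.mem_filter, Finset.mem_univ, true_and]
      constructor
      · rintro ⟨⟨_, k2, k3⟩, k4⟩; exact ⟨k4, k2, by omega⟩
      · rintro ⟨k4, k5⟩
        have := k4.2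
        exact ⟨⟨O.trans h1 k4.1, k5.1, by omega⟩, k4⟩
  omega

end Pool.Agent.H52.CIC
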