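import Pool.Agent.H52.CIC.StA
import Pool.Agent.H52.CIC.StB

/-!
# Project CIC: module CROSS (one critical time)
-/

namespace Pool.Agent.H52.CIC

open Pool.Agent.H11.ZDE Polynomial

variable {P : Type} [Fintype P] {O : Po P} {L : Type} [AddCommGroup L] {R : RootLat L}

theorem cross_out (S : SLG O R) (y u v : P) : v ∈ out S y u ↔ S.E u v ∧ O.Le v y := by
  simp [out]

theorem cross_Zs (S : SLG O R) (y u : P) (φ : P → (P → P → ℝ) → Polynomial ℤ) (f g : P → P → ℝ) :
    Zs S y u φ f g = ∑ a ∈ out S y u, if 0 < f u a then φ a (f - (f u a / g u a) • g) else 0 := by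
  classical
  unfold Zs
  rw [Finset.sum_filter]

omit [Fintype P] in
theorem cross_uniq (S : SLG O R) {u a w c c' : P} (h1 : S.E u a) (h2 : S.E a w) (hc : S.E u c)
    (hc2 : S.E c w) (hc' : S.E u c') (hc2' : S.E c' w) (n : c ≠ a) (n' : c' ≠ a) : c = c' := by
  obtain ⟨a', _, _, _, hu⟩ := S.sq h1 h2
  rcases hu c hc hc2 with h | h
  · exact absurd h n
  · rcases hu c' hc' hc2' with h' | h'
    · exact absurd h' n'
    · rw [h, h']

/-- the determinant of two edges -/
def cross_D (f g : P → P → ℝ) (x c a : P) : ℝ := f x c * g x a - f x a * g x c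

/-- the element which vanishes at `a` -/
noncomputable def cross_h (f g : P → P → ℝ) (x a : P) : P → P → ℝ := f - (f x a / g x a) • g

theorem cross_other (S : SLG O R) (hV : TrvSt S) {x y a w : P} (ha : a ∈ out S y x)
    (hw : w ∈ out S y a) : ∃ c ∈ out S y x, c ≠ a ∧ S.E c w := by
  obtain ⟨c, hc, hca, hcw, _⟩ := hV x y a w 0 (FS S x y).zero_mem ha hw rfl
  exact ⟨c, hc, hca, hcw⟩

theorem cross_val (S : SLG O R) (hV : TrvSt S) {x y a w c : P} {h : P → P → ℝ} (hh : h ∈ FS S x y)
    (ha : a ∈ out S y x) (hw : w ∈ out S y a) (h0 : h x a = 0) (hc : c ∈ out S y x) (hca : c ≠ a)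
    (hcw : S.E c w) : h a w = h x c := by
  obtain ⟨c', hc', hca', hcw', hv⟩ := hV x y a w h hh ha hw h0
  have := cross_uniq S ((cross_out S y x a).1 ha).1 ((cross_out S y a w).1 hw).1
    ((cross_out S y x c').1 hc').1 hcw' ((cross_out S y x c).1 hc).1 hcw hca' hca
  rw [hv, this]

omit [Fintype P] in
theorem cross_hmem (S : SLG O R) {x y a : P} {f g : P → P → ℝ} (hf : f ∈ FS S x y)
    (hg : g ∈ FS S x y) : cross_h f g x a ∈ FS S x y :=
  (FS S x y).sub_mem hf ((FS S x y).smul_mem _ hg)

omit [Fintype P] in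
theorem cross_h0 {x a : P} {f g : P → P → ℝ} (hg : 0 < g x a) : cross_h f g x a x a = 0 := by
  simp only [cross_h, Pi.sub_apply, Pi.smul_apply, smul_eq_mul]
  field_simp
  ring

omit [Fintype P] in
theorem cross_hD {x a c : P} {f g : P → P → ℝ} (hg : 0 < g x a) :
    cross_h f g x a x c = cross_D f g x c a / g x a := by
  simp only [cross_h, cross_D, Pi.sub_apply, Pi.smul_apply, smul_eq_mul]
  field_simp

/-- the values of `cross_h` at the edges above `a` -/
theorem cross_hv (S : SLG O R) (hV : TrvSt S) {x y a w c : P} {f g : P → P → ℝ}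
    (hf : f ∈ FS S x y) (hg : Ps S y x g) (ha : a ∈ out S y x) (hw : w ∈ out S y a)
    (hc : c ∈ out S y x) (hca : c ≠ a) (hcw : S.E c w) :
    cross_h f g x a a w = cross_D f g x c a / g x a := by
  rw [cross_val S hV (cross_hmem S hf hg.mem) ha hw (cross_h0 (hg.pos a ha)) hc hca hcw,
    cross_hD (hg.pos a ha)]

theorem cross_pos (S : SLG O R) (hV : TrvSt S) {x y a w c : P} {f g : P → P → ℝ}
    (hf : f ∈ FS S x y) (hg : Ps S y x g) (ha : a ∈ out S y x) (hw : w ∈ out S y a)
    (hc : c ∈ out S y x) (hca : c ≠ a) (hcw : S.E c w) :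
    (0 < cross_h f g x a a w ↔ 0 < cross_D f g x c a) ∧
    (cross_h f g x a a w < 0 ↔ cross_D f g x c a < 0) ∧
    (cross_h f g x a a w = 0 ↔ cross_D f g x c a = 0) := by
  rw [cross_hv S hV hf hg ha hw hc hca hcw]
  have h := hg.pos a ha
  refine ⟨?_, ?_, ?_⟩
  · constructor
    · intro h'
      exact (div_pos_iff_of_pos_right h).1 h'
    · intro h'
      exact div_pos h' h
  · constructor
    · intro h'
      by_contra hcon
      push Not at hcon
      exact absurd h' (not_lt.2 (div_nonneg hcon h.le))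
    · intro h'
      exact div_neg_of_neg_of_pos h' h
  · rw [div_eq_zero_iff]
    constructor
    · rintro (h' | h')
      · exact h'
      · exact absurd h' h.ne'
    · exact Or.inl

omit [Fintype P] in
theorem cross_Dneg {f g : P → P → ℝ} {x c a : P} : cross_D f g x c a = - cross_D f g x a c := by
  unfold cross_D
  ring

/-- nonzero determinants have the same sign for near pairs -/
theorem cross_near (S : SLG O R) {x y a c : P} {f g f' g' : P → P → ℝ} (hN : Near S y x f g f' g')
    (ha : a ∈ out S y x) (hc : c ∈ out S y x) (h : cross_D f g x c a ≠ 0) :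
    (0 < cross_D f' g' x c a ↔ 0 < cross_D f g x c a) := by
  unfold cross_D at *
  rcases lt_or_gt_of_ne h with h1 | h1
  · have := hN.nr c hc a ha (by linarith)
    constructor
    · intro h2
      linarith
    · intro h2
      linarith
  · have := hN.nr a ha c hc (by linarith)
    constructor
    · intro _
      linarith
    · intro _
      linarith

theorem cross_tf (S : SLG O R) {x y a c : P} {f' g' : P → P → ℝ} (hN : TF S y x f' g')
    (ha : a ∈ out S y x) (hc : c ∈ out S y x) (hca : c ≠ a) : cross_D f' g' x c a ≠ 0 := by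
  have := hN c hc a ha hca
  unfold cross_D
  exact sub_ne_zero.2 this

/-- the term at `a` is generic at `a` -/
theorem cross_gn (S : SLG O R) (hV : TrvSt S) {x y a : P} {f g f' g' : P → P → ℝ}
    (hN : Near S y x f g f' g') (ha : a ∈ out S y x) : Gn S y a (cross_h f' g' x a) := by
  have hE := (cross_out S y x a).1 ha
  have hm := cross_hmem S (a := a) hN.gn.mem hN.ps.mem
  refine ⟨fun u w hu hw => hm u w (O.trans (S.E_le hE.1) hu) hw, fun w hw => ?_⟩
  obtain ⟨c, hc, hca, hcw⟩ := cross_other S hV ha hw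
  intro h
  exact cross_tf S hN.tf ha hc hca
    ((cross_pos S hV hN.gn.mem hN.ps ha hw hc hca hcw).2.2.1 h)

/-- `b` is a partner of `a` -/
def cross_prt (S : SLG O R) (y x : P) (f g : P → P → ℝ) (a b : P) : Prop :=
  b ∈ out S y x ∧ b ≠ a ∧ cross_D f g x b a = 0 ∧ ∃ w, O.Le w y ∧ S.E a w ∧ S.E b w

theorem cross_prt_symm (S : SLG O R) {y x : P} {f g : P → P → ℝ} {a b : P} (ha : a ∈ out S y x)
    (h : cross_prt S y x f g a b) : cross_prt S y x f g b a := by
  obtain ⟨_, h2, h3, w, h4, h5, h6⟩ := h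
  refine ⟨ha, h2.symm, ?_, w, h4, h6, h5⟩
  rw [cross_Dneg, h3, neg_zero]

/-- Claim 1 -/
theorem cross_claim (S : SLG O R) {y x : P} {f g : P → P → ℝ} (hC : Cop S y x f g) {a b : P}
    (ha : a ∈ out S y x) (h : cross_prt S y x f g a b) {c : P} (hc : c ∈ out S y x) (hca : c ≠ a)
    (hcb : c ≠ b) (hD : cross_D f g x c a = 0) (v : P) (hcv : S.E c v) :
    ¬ S.E a v ∧ ¬ S.E b v := by
  obtain ⟨hb, hba, hDb, w, hwy, haw, hbw⟩ := h
  have Ea := ((cross_out S y x a).1 ha).1
  have Eb := ((cross_out S y x b).1 hb).1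
  have Ec := ((cross_out S y x c).1 hc).1
  unfold cross_D at hD hDb
  rcases hC a ha b hb c hc hba.symm hca.symm hcb.symm (by linarith) (by linarith) with h | h | h
  · obtain ⟨v1, v2, hx⟩ := S.hx1 Eb Ec Ea h
    exact absurd hbw (S.top hx haw)
  · obtain ⟨v1, v2, hx⟩ := S.hx1 Ea Ec Eb h
    exact absurd haw (S.top hx hbw)
  · obtain ⟨v1, v2, hx⟩ := S.hx1 Ea Eb Ec h
    refine ⟨S.top hx hcv, ?_⟩
    obtain ⟨n1, n2, e1, e2, e3, e4, e5, e6, e7, e8⟩ := hx
    have hx' : Hex S.E x b a v1 v2 c := ⟨n1.symm, n2, e2, e1, e5, e6, e3, e4, e7, e8⟩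
    exact S.top hx' hcv

theorem cross_prt_uniq (S : SLG O R) {y x : P} {f g : P → P → ℝ} (hC : Cop S y x f g) {a b b' : P}
    (ha : a ∈ out S y x) (h : cross_prt S y x f g a b) (h' : cross_prt S y x f g a b') : b' = b := by
  by_contra hne
  obtain ⟨w, _, h2, h3⟩ := h'.2.2.2
  exact (cross_claim S hC ha h h'.1 h'.2.1 hne h'.2.2.1 w h3).1 h2

/-- the signs of the term at `a` if `b` is a partner of `a` -/
theorem cross_sgp (S : SLG O R) (hV : TrvSt S) {x y a b : P} {f g f' g' κ : P → P → ℝ}
    (hC : Cop S y x f g) (hf : Gn S y x f) (hg : Ps S y x g) (hN : Near S y x f g f' g')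
    (ha : a ∈ out S y x) (h : cross_prt S y x f g a b) (hκ : κ = cross_h f g x a) :
    (0 < cross_D f' g' x b a → Sgp S y a b κ (cross_h f' g' x a)) ∧
    (cross_D f' g' x b a < 0 → Sgm S y a b κ (cross_h f' g' x a)) := by
  have hb := h.1
  have Ea := ((cross_out S y x a).1 ha).1
  have Eb := ((cross_out S y x b).1 hb).1
  have key : ∀ w ∈ out S y a, ¬ S.E b w → (0 < cross_h f' g' x a a w ↔ 0 < κ a w) := by
    intro w hw hbw
    obtain ⟨c, hc, hca, hcw⟩ := cross_other S hV ha hw
    have hcb : c ≠ b := by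
      rintro rfl
      exact hbw hcw
    have hD : cross_D f g x c a ≠ 0 := by
      intro h0
      exact (cross_claim S hC ha h hc hca hcb h0 w hcw).1 ((cross_out S y a w).1 hw).1
    rw [(cross_pos S hV hN.gn.mem hN.ps ha hw hc hca hcw).1, hκ,
      (cross_pos S hV hf.mem hg ha hw hc hca hcw).1]
    exact cross_near S hN ha hc hD
  refine ⟨fun hp w hw => ⟨fun hbw => ?_, key w hw⟩, fun hp w hw => ⟨fun hbw => ?_, key w hw⟩⟩
  · exact (cross_pos S hV hN.gn.mem hN.ps ha hw hb h.2.1 hbw).1.2 hp
  · exact (cross_pos S hV hN.gn.mem hN.ps ha hw hb h.2.1 hbw).2.1.2 hp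

/-- same signs if there is no partner, or if the determinant with the partner has the same sign -/
theorem cross_same (S : SLG O R) (hV : TrvSt S) {x y a : P} {f g f1 g1 f2 g2 : P → P → ℝ}
    (h1 : Near S y x f g f1 g1) (h2 : Near S y x f g f2 g2) (ha : a ∈ out S y x)
    (h : ∀ b, cross_prt S y x f g a b → (0 < cross_D f1 g1 x b a ↔ 0 < cross_D f2 g2 x b a)) :
    Sg S y a (cross_h f1 g1 x a) (cross_h f2 g2 x a) := by
  intro w hw
  obtain ⟨c, hc, hca, hcw⟩ := cross_other S hV ha hw
  rw [(cross_pos S hV h1.gn.mem h1.ps ha hw hc hca hcw).1,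
    (cross_pos S hV h2.gn.mem h2.ps ha hw hc hca hcw).1]
  by_cases hD : cross_D f g x c a = 0
  · have hw' := (cross_out S y a w).1 hw
    exact h c ⟨hc, hca, hD, w, hw'.2, hw'.1, hcw⟩
  · rw [cross_near S h1 ha hc hD, cross_near S h2 ha hc hD]

/-- CROSS -/
theorem cross (S : SLG O R) (hJ : JumpSt S) (hV : TrvSt S) (_hM : FsMonoSt S) : CrossSt S := by
  classical
  intro x y φ f g f1 g1 f2 g2 hxy hφ hf hg hC h1 h2
  have hPhi : ∀ a ∈ out S y x, PhiAt S y φ a := by
    intro a ha
    have hE := (cross_out S y x a).1 ha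
    refine hφ a (S.E_le hE.1) ?_ hE.2
    rintro rfl
    obtain ⟨k, hk⟩ := S.E_odd hE.1
    omega
  have hsame : ∀ a ∈ out S y x,
      (∀ b, cross_prt S y x f g a b → (0 < cross_D f1 g1 x b a ↔ 0 < cross_D f2 g2 x b a)) →
      φ a (cross_h f1 g1 x a) = φ a (cross_h f2 g2 x a) := by
    intro a ha h
    exact (hPhi a ha).sign _ _ (cross_gn S hV h1 ha) (cross_gn S hV h2 ha)
      (cross_same S hV h1 h2 ha h)
  -- the partner case
  have hpair : ∀ a ∈ out S y x, ∀ b, cross_prt S y x f g a b →
      φ a (cross_h f1 g1 x a) - φ a (cross_h f2 g2 x a) +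
      (φ b (cross_h f1 g1 x b) - φ b (cross_h f2 g2 x b)) = 0 := by
    intro a ha b hab
    have hb := hab.1
    have hba := cross_prt_symm S ha hab
    have ga := hg.pos a ha
    have gb := hg.pos b hb
    have n1 := cross_tf S h1.tf ha hb hab.2.1
    have n2 := cross_tf S h2.tf ha hb hab.2.1
    by_cases hs : (0 < cross_D f1 g1 x b a ↔ 0 < cross_D f2 g2 x b a)
    · have e1 := hsame a ha (fun c hc => by
        rw [cross_prt_uniq S hC ha hab hc]
        exact hs)
      have e2 := hsame b hb (fun c hc => by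
        rw [cross_prt_uniq S hC hb hba hc]
        rw [cross_Dneg (f := f1), cross_Dneg (f := f2), Left.neg_pos_iff, Left.neg_pos_iff]
        constructor
        · intro h
          by_contra hcon
          push Not at hcon
          have := hs.2 (lt_of_le_of_ne hcon n2.symm)
          linarith
        · intro h
          by_contra hcon
          push Not at hcon
          have := hs.1 (lt_of_le_of_ne hcon n1.symm)
          linarith)
      rw [e1, e2]
      ring
    · -- different signs
      have hκ2 : cross_h f g x a = cross_h f g x b := by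
        have hD := hab.2.2.1
        unfold cross_D at hD
        have : f x a / g x a = f x b / g x b := by
          rw [div_eq_div_iff ga.ne' gb.ne']
          linarith
        unfold cross_h
        rw [this]
      have hκm : cross_h f g x a ∈ FS S x y := cross_hmem S hf.mem hg.mem
      have k0 : cross_h f g x a x a = 0 := cross_h0 ga
      have k1 : cross_h f g x a x b = 0 := by
        rw [hκ2]
        exact cross_h0 gb
      obtain ⟨w, hw1, hw2, hw3⟩ := hab.2.2.2
      have hothers : ∀ c ∈ out S y x, c ≠ a → c ≠ b → cross_h f g x a x c = 0 →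
          ∀ w, O.Le w y → S.E c w → ¬ S.E a w ∧ ¬ S.E b w := by
        intro c hc hca hcb h0 w _ hcw
        rw [cross_hD ga, div_eq_zero_iff] at h0
        rcases h0 with h0 | h0
        · exact cross_claim S hC ha hab hc hca hcb h0 w hcw
        · exact absurd h0 ga.ne'
      have J := hJ x y φ a b (cross_h f g x a) hxy hφ ha hb hab.2.1.symm hκm k0 k1
        ⟨w, hw2, hw3, hw1⟩ hothers
      obtain ⟨pa1, ma1⟩ := cross_sgp S hV hC hf hg h1 ha hab rfl
      obtain ⟨pa2, ma2⟩ := cross_sgp S hV hC hf hg h2 ha hab rfl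
      obtain ⟨pb1, mb1⟩ := cross_sgp S hV hC hf hg h1 hb hba hκ2
      obtain ⟨pb2, mb2⟩ := cross_sgp S hV hC hf hg h2 hb hba hκ2
      have ga1 := cross_gn S hV h1 ha
      have ga2 := cross_gn S hV h2 ha
      have gb1 := cross_gn S hV h1 hb
      have gb2 := cross_gn S hV h2 hb
      rcases lt_or_gt_of_ne n1 with s1 | s1
      · rcases lt_or_gt_of_ne n2 with s2 | s2
        · exact absurd ⟨fun h => by linarith, fun h => by linarith⟩ hs
        · have hh1 : 0 < cross_D f1 g1 x a b := by
            rw [cross_Dneg]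
            linarith
          have hh2 : cross_D f2 g2 x a b < 0 := by
            rw [cross_Dneg]
            linarith
          have := J _ _ _ _ ga2 ga1 gb1 gb2 (pa2 s2) (ma1 s1) (pb1 hh1) (mb2 hh2)
          linear_combination -this
      · rcases lt_or_gt_of_ne n2 with s2 | s2
        · have hh1 : cross_D f1 g1 x a b < 0 := by
            rw [cross_Dneg]
            linarith
          have hh2 : 0 < cross_D f2 g2 x a b := by
            rw [cross_Dneg]
            linarith
          have := J _ _ _ _ ga1 ga2 gb2 gb1 (pa1 s1) (ma2 s2) (pb2 hh2) (mb1 hh1)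
          linear_combination this
        · exact absurd ⟨fun _ => s2, fun _ => s1⟩ hs
  -- the sum
  rw [cross_Zs, cross_Zs, ← sub_eq_zero, ← Finset.sum_sub_distrib]
  have hterm : ∀ a ∈ out S y x,
      ((if 0 < f1 x a then φ a (f1 - (f1 x a / g1 x a) • g1) else 0) -
        (if 0 < f2 x a then φ a (f2 - (f2 x a / g2 x a) • g2) else 0)) =
      if 0 < f x a then (φ a (cross_h f1 g1 x a) - φ a (cross_h f2 g2 x a)) else 0 := by
    intro a ha
    by_cases h : 0 < f x a
    · rw [if_pos ((h1.sg a ha).1 h), if_pos ((h2.sg a ha).1 h), if_pos h]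
      rfl
    · rw [if_neg (fun h' => h ((h1.sg a ha).2 h')), if_neg (fun h' => h ((h2.sg a ha).2 h')),
        if_neg h, sub_zero]
  rw [Finset.sum_congr rfl hterm, ← Finset.sum_filter]
  let p : P → P := fun a => if h : ∃ b, cross_prt S y x f g a b then h.choose else a
  have hp1 : ∀ a, (∃ b, cross_prt S y x f g a b) → cross_prt S y x f g a (p a) := by
    intro a h
    simp only [p, dif_pos h]
    exact h.choose_spec
  have hp2 : ∀ a, ¬ (∃ b, cross_prt S y x f g a b) → p a = a := by
    intro a h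
    simp only [p, dif_neg h]
  refine Finset.sum_involution (fun a _ => p a) ?_ ?_ ?_ ?_
  · intro a ha
    rw [Finset.mem_filter] at ha
    by_cases h : ∃ b, cross_prt S y x f g a b
    · exact hpair a ha.1 (p a) (hp1 a h)
    · have e := hsame a ha.1 (fun b hb => absurd ⟨b, hb⟩ h)
      rw [hp2 a h, e]
      ring
  · intro a ha hne
    rw [Finset.mem_filter] at ha
    by_cases h : ∃ b, cross_prt S y x f g a b
    · exact (hp1 a h).2.1
    · exact absurd (by
        rw [hsame a ha.1 (fun b hb => absurd ⟨b, hb⟩ h), sub_self]) hne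
  · intro a ha
    rw [Finset.mem_filter] at ha ⊢
    by_cases h : ∃ b, cross_prt S y x f g a b
    · have hp := hp1 a h
      refine ⟨hp.1, ?_⟩
      have hD := hp.2.2.1
      unfold cross_D at hD
      have ga := hg.pos a ha.1
      have gb := hg.pos _ hp.1
      have : 0 < f x a * g x (p a) := mul_pos ha.2 gb
      have h3 : 0 < f x (p a) * g x a := by linarith
      exact (mul_pos_iff_of_pos_right ga).1 h3
    · rw [hp2 a h]
      exact ha
  · intro a ha
    rw [Finset.mem_filter] at ha
    by_cases h : ∃ b, cross_prt S y x f g a b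
    · have hp := hp1 a h
      have hs := cross_prt_symm S ha.1 hp
      have hp' := hp1 (p a) ⟨a, hs⟩
      exact cross_prt_uniq S hC hp.1 hs hp'
    · have : p a = a := hp2 a h
      simp only [this]

end Pool.Agent.H52.CIC
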