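import Pool.Agent.H52.CIC.StA

/-!
# Project CIC: rank three intervals (module CROWN)
-/

namespace Pool.Agent.H52.CIC

open Pool.Agent.H11.ZDE

variable {P : Type} {O : Po P} {L : Type} [AddCommGroup L] {R : RootLat L}

theorem crown_mid (S : SLG O R) {u w a a' a'' : P} (h1 : Cv O u a) (h2 : Cv O a w) (h3 : Cv O u a')
    (h4 : Cv O a' w) (hne : a ≠ a') (h5 : Cv O u a'') (h6 : Cv O a'' w) : a'' = a ∨ a'' = a' := by
  obtain ⟨c, -, -, -, hc⟩ := S.sq (S.E_cov h1.1 h1.2) (S.E_cov h2.1 h2.2)
  have k1 := hc a' (S.E_cov h3.1 h3.2) (S.E_cov h4.1 h4.2)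
  have k2 := hc a'' (S.E_cov h5.1 h5.2) (S.E_cov h6.1 h6.2)
  rcases k1 with k1 | k1
  · exact absurd k1.symm hne
  · rw [k1]; exact k2

theorem crown_ex (S : SLG O R) {u w a : P} (h1 : Cv O u a) (h2 : Cv O a w) :
    ∃ a', a' ≠ a ∧ Cv O u a' ∧ Cv O a' w := by
  obtain ⟨c, h3, h4, h5, -⟩ := S.sq (S.E_cov h1.1 h1.2) (S.E_cov h2.1 h2.2)
  obtain ⟨k, hk⟩ := S.E_odd h4
  obtain ⟨k', hk'⟩ := S.E_odd h5
  have r1 := h1.2
  have r2 := h2.2
  exact ⟨c, h3, ⟨S.E_le h4, by omega⟩, ⟨S.E_le h5, by omega⟩⟩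

theorem crown_eq (O : Po P) {x y : P} (h1 : O.Le x y) (h2 : O.rk y ≤ O.rk x) : x = y := by
  by_contra h
  have := O.rk_lt h1 h
  omega

/-- a set of atoms which is closed under common coatoms contains all atoms -/
theorem crown_clo (O : Po P) {x y a1 : P} (hrk : O.rk y = O.rk x + 3) (h1 : Cv O x a1)
    (h1y : O.Le a1 y) (T : P → Prop) (hT1 : T a1)
    (hcl : ∀ c d v, T c → Cv O x c → Cv O x d → Cv O c v → Cv O d v → Cv O v y → T d) :
    ∀ a, Cv O x a → O.Le a y → T a := by
  intro a ha hay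
  have hc := O.conn (by omega) h1.1 h1.2 h1y ha.1 ha.2 hay
  have key : ∀ d, Relation.ReflTransGen (fun c d => O.Le x d ∧ O.rk d = O.rk x + 1 ∧
      ∃ v, O.Le c v ∧ O.Le d v ∧ O.rk v = O.rk x + 2 ∧ O.Le v y) a1 d → (Cv O x d ∧ T d) := by
    intro d hd
    induction hd with
    | refl => exact ⟨h1, hT1⟩
    | tail g1 g2 ih =>
      rename_i c d
      obtain ⟨hc, hTc⟩ := ih
      obtain ⟨q1, q2, v, q3, q4, q5, q6⟩ := g2
      refine ⟨⟨q1, q2⟩, ?_⟩
      have := hc.2
      exact hcl c d v hTc hc ⟨q1, q2⟩ ⟨q3, by omega⟩ ⟨q4, by omega⟩ ⟨q6, by omega⟩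
  exact (key a hc).2

theorem crown_lat (S : SLG O R) (h4 : Lat4St R) (h5 : Lat5St R) (h3 : Atom3St S) (hr : Rel4St S)
    {x y a0 a1 a2 a3 a4 b0 b1 b2 b3 : P} (p1 : Path4 O x y a0 a1 a2 a3 b0 b1 b2)
    (p2 : Path4 O x y a1 a2 a3 a4 b1 b2 b3) (n02 : a0 ≠ a2) (n03 : a0 ≠ a3) (n04 : a0 ≠ a4)
    (n13 : a1 ≠ a3) (n14 : a1 ≠ a4) (n24 : a2 ≠ a4) : False := by
  have n01 := p1.na0
  have n12 := p1.na1
  have n23 := p1.na2
  have n34 := p2.na2
  let a : Fin 5 → P := ![a0, a1, a2, a3, a4]
  have hinj : Function.Injective a := by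
    intro i j h
    fin_cases i <;> fin_cases j <;> simp_all [a]
  have hC : ∀ i, Cv O x (a i) := by
    intro i
    fin_cases i
    · exact p1.x0
    · exact p1.x1
    · exact p1.x2
    · exact p1.x3
    · exact p2.x3
  have hE : ∀ i, S.E x (a i) := fun i => S.E_cov (hC i).1 (hC i).2
  let l : Fin 5 → L := fun i => S.lab x (a i)
  have hq : ∀ i, R.Q (l i) (l i) = 2 := fun i => (S.lab_root (hE i)).1
  have hp : ∀ i, R.P (l i) := fun i => (S.lab_root (hE i)).2
  have hli : Function.Injective l := fun i j h => hinj (S.lab_inj (hE i) (hE j) h)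
  have hat : ∀ i j k : Fin 5, l i ≠ l j + l k := fun i j k => h3 x (a j) (a k) (a i) (hE j) (hE k) (hC i)
  have hns : ∀ i j k m : Fin 5, l i ≠ l j + l k + l m := fun i j k m =>
    S.ns3 (hE j) (hE k) (hE m) (hE i) (hC i).2
  have r1 := (hr _ _ _ _ _ _ _ _ _ p1).1
  have r2 := (hr _ _ _ _ _ _ _ _ _ p2).1
  have q1 := h4 (fun i => l i.castSucc) _ _ (fun i => hq _) (fun i => hp _)
    (fun i j h => Fin.castSucc_injective _ (hli h)) (fun i j k _ _ _ => hat _ _ _) (hns _ _ _ _)
    (hns _ _ _ _) r1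
  have q2 := h4 (fun i => l i.succ) _ _ (fun i => hq _) (fun i => hp _)
    (fun i j h => Fin.succ_injective _ (hli h)) (fun i j k _ _ _ => hat _ _ _) (hns _ _ _ _)
    (hns _ _ _ _) r2
  have e1 : dd S x y a1 a2 b1 b2 = - cc S x y a1 a2 b0 b1 := by omega
  have e2 : dd S x y a2 a3 b2 b3 = - cc S x y a2 a3 b1 b2 := by omega
  apply h5 l (cc S x y a1 a2 b0 b1) (cc S x y a2 a3 b1 b2) hq hp hli (fun i j k _ _ _ => hat _ _ _)
    (by omega) (by omega)
  · rw [e1, neg_smul, ← sub_eq_add_neg] at r1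
    exact r1
  · rw [e2, neg_smul, ← sub_eq_add_neg] at r2
    exact r2

theorem crown [Finite P] (S : SLG O R) (h4 : Lat4St R) (h5 : Lat5St R) (h3 : Atom3St S)
    (hr : Rel4St S) : CrownSt S := by
  intro x y a0 a1 a2 a3 b0 b1 b2 p
  have mid := @crown_mid P O L _ R S
  have hrk := p.rk
  have hy1 : O.Le a1 y := O.trans p.i10.1 p.y0.1
  -- atoms of the coatoms
  have tb0 : ∀ d, Cv O x d → Cv O d b0 → d = a0 ∨ d = a1 := fun d h1 h2 =>
    mid p.x0 p.i00 p.x1 p.i10 p.na0 h1 h2
  have tb1 : ∀ d, Cv O x d → Cv O d b1 → d = a1 ∨ d = a2 := fun d h1 h2 =>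
    mid p.x1 p.i11 p.x2 p.i21 p.na1 h1 h2
  have tb2 : ∀ d, Cv O x d → Cv O d b2 → d = a2 ∨ d = a3 := fun d h1 h2 =>
    mid p.x2 p.i22 p.x3 p.i32 p.na2 h1 h2
  have ta1 : ∀ v, Cv O a1 v → Cv O v y → v = b0 ∨ v = b1 := fun v h1 h2 =>
    mid p.i10 p.y0 p.i11 p.y1 p.nb0 h1 h2
  have ta2 : ∀ v, Cv O a2 v → Cv O v y → v = b1 ∨ v = b2 := fun v h1 h2 =>
    mid p.i21 p.y1 p.i22 p.y2 p.nb1 h1 h2
  by_cases h02 : a0 = a2
  · left
    have hb : b0 = b2 := by
      have h1 : Cv O a2 b0 := h02 ▸ p.i00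
      rcases ta2 b0 h1 p.y0 with h | h
      · exact absurd h p.nb0
      · exact h
    have ha3 : a3 = a1 := by
      have h1 : Cv O a3 b0 := hb ▸ p.i32
      rcases tb0 a3 p.x3 h1 with h | h
      · exact absurd (h.trans h02).symm p.na2
      · exact h
    refine ⟨h02, ha3, ?_⟩
    apply crown_clo O hrk p.x1 hy1 (fun a => a = a1 ∨ a = a2) (Or.inl rfl)
    intro c d v hc hxc hxd hcv hdv hvy
    rcases hc with rfl | rfl
    · rcases ta1 v hcv hvy with rfl | rfl
      · rcases tb0 d hxd hdv with rfl | rfl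
        · right; exact h02
        · left; rfl
      · exact tb1 d hxd hdv
    · rcases ta2 v hcv hvy with rfl | rfl
      · exact tb1 d hxd hdv
      · rcases tb2 d hxd hdv with rfl | rfl
        · right; rfl
        · left; exact ha3
  · right
    have hb02 : b0 ≠ b2 := by
      intro h
      have h1 : Cv O a2 b0 := h ▸ p.i22
      rcases tb0 a2 p.x2 h1 with h | h
      · exact h02 h.symm
      · exact p.na1 h.symm
    by_cases h03 : a0 = a3
    · left
      refine ⟨h03, h02, ?_⟩
      have ta0 : ∀ v, Cv O a0 v → Cv O v y → v = b0 ∨ v = b2 := fun v h1 h2 =>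
        mid p.i00 p.y0 (h03 ▸ p.i32) p.y2 hb02 h1 h2
      apply crown_clo O hrk p.x1 hy1 (fun a => a = a0 ∨ a = a1 ∨ a = a2) (Or.inr (Or.inl rfl))
      intro c d v hc hxc hxd hcv hdv hvy
      have g0 : v = b0 → d = a0 ∨ d = a1 ∨ d = a2 := by
        intro h; subst h
        rcases tb0 d hxd hdv with h | h
        · exact Or.inl h
        · exact Or.inr (Or.inl h)
      have g1 : v = b1 → d = a0 ∨ d = a1 ∨ d = a2 := by
        intro h; subst h
        exact Or.inr (tb1 d hxd hdv)
      have g2 : v = b2 → d = a0 ∨ d = a1 ∨ d = a2 := by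
        intro h; subst h
        rcases tb2 d hxd hdv with h | h
        · exact Or.inr (Or.inr h)
        · exact Or.inl (h.trans h03.symm)
      rcases hc with rfl | rfl | rfl
      · rcases ta0 v hcv hvy with h | h
        · exact g0 h
        · exact g2 h
      · rcases ta1 v hcv hvy with h | h
        · exact g0 h
        · exact g1 h
      · rcases ta2 v hcv hvy with h | h
        · exact g1 h
        · exact g2 h
    · right
      have h13 : a1 ≠ a3 := by
        intro h
        rcases ta1 b2 (h ▸ p.i32) p.y2 with h' | h'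
        · exact hb02 h'.symm
        · exact p.nb1 h'.symm
      obtain ⟨b3, hb32, i33, y3⟩ := crown_ex S p.i32 p.y2
      have hb30 : b0 ≠ b3 := by
        intro h
        rcases tb0 a3 p.x3 (h ▸ i33) with h' | h'
        · exact h03 h'.symm
        · exact h13 h'.symm
      have hb31 : b1 ≠ b3 := by
        intro h
        rcases tb1 a3 p.x3 (h ▸ i33) with h' | h'
        · exact h13 h'.symm
        · exact p.na2 h'.symm
      obtain ⟨a4, h43, x4, i43⟩ := crown_ex S p.x3 i33
      have h41 : a1 ≠ a4 := by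
        intro h
        rcases ta1 b3 (h ▸ i43) y3 with h' | h'
        · exact hb30 h'.symm
        · exact hb31 h'.symm
      have h42 : a2 ≠ a4 := by
        intro h
        rcases ta2 b3 (h ▸ i43) y3 with h' | h'
        · exact hb31 h'.symm
        · exact hb32 h'
      by_cases h40 : a0 = a4
      · subst h40
        have tb3 : ∀ d, Cv O x d → Cv O d b3 → d = a3 ∨ d = a0 := fun d h1 h2 =>
          mid p.x3 i33 x4 i43 (fun h => h43 h.symm) h1 h2
        have ta0 : ∀ v, Cv O a0 v → Cv O v y → v = b0 ∨ v = b3 := fun v h1 h2 =>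
          mid p.i00 p.y0 i43 y3 hb30 h1 h2
        have ta3 : ∀ v, Cv O a3 v → Cv O v y → v = b2 ∨ v = b3 := fun v h1 h2 =>
          mid p.i32 p.y2 i33 y3 (fun h => hb32 h.symm) h1 h2
        have hall : ∀ a, Cv O x a → O.Le a y → a = a0 ∨ a = a1 ∨ a = a2 ∨ a = a3 := by
          apply crown_clo O hrk p.x1 hy1 (fun a => a = a0 ∨ a = a1 ∨ a = a2 ∨ a = a3)
            (Or.inr (Or.inl rfl))
          intro c d v hc hxc hxd hcv hdv hvy
          have g0 : v = b0 → d = a0 ∨ d = a1 ∨ d = a2 ∨ d = a3 := by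
            intro h; subst h
            rcases tb0 d hxd hdv with h | h
            · exact Or.inl h
            · exact Or.inr (Or.inl h)
          have g1 : v = b1 → d = a0 ∨ d = a1 ∨ d = a2 ∨ d = a3 := by
            intro h; subst h
            rcases tb1 d hxd hdv with h | h
            · exact Or.inr (Or.inl h)
            · exact Or.inr (Or.inr (Or.inl h))
          have g2 : v = b2 → d = a0 ∨ d = a1 ∨ d = a2 ∨ d = a3 := by
            intro h; subst h
            exact Or.inr (Or.inr (tb2 d hxd hdv))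
          have g3 : v = b3 → d = a0 ∨ d = a1 ∨ d = a2 ∨ d = a3 := by
            intro h; subst h
            rcases tb3 d hxd hdv with h | h
            · exact Or.inr (Or.inr (Or.inr h))
            · exact Or.inl h
          rcases hc with rfl | rfl | rfl | rfl
          · rcases ta0 v hcv hvy with h | h
            · exact g0 h
            · exact g3 h
          · rcases ta1 v hcv hvy with h | h
            · exact g0 h
            · exact g1 h
          · rcases ta2 v hcv hvy with h | h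
            · exact g1 h
            · exact g2 h
          · rcases ta3 v hcv hvy with h | h
            · exact g2 h
            · exact g3 h
        refine ⟨b3, h02, h03, h13, hb02, hb30, hb31, fun h => hb32 h.symm, y3, i33, i43, hall, ?_⟩
        intro b hby hxb
        have hne : x ≠ b := by
          intro h
          have := hby.2
          rw [← h] at this
          omega
        obtain ⟨a, q1, q2, q3⟩ := O.up hxb hne
        have hab : Cv O a b := ⟨q2, by have := hby.2; omega⟩
        rcases hall a ⟨q1, q3⟩ (O.trans q2 hby.1) with rfl | rfl | rfl | rfl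
        · rcases ta0 b hab hby with h | h
          · exact Or.inl h
          · exact Or.inr (Or.inr (Or.inr h))
        · rcases ta1 b hab hby with h | h
          · exact Or.inl h
          · exact Or.inr (Or.inl h)
        · rcases ta2 b hab hby with h | h
          · exact Or.inr (Or.inl h)
          · exact Or.inr (Or.inr (Or.inl h))
        · rcases ta3 b hab hby with h | h
          · exact Or.inr (Or.inr (Or.inl h))
          · exact Or.inr (Or.inr (Or.inr h))
      · exfalso
        have p2 : Path4 O x y a1 a2 a3 a4 b1 b2 b3 :=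
          { rk := hrk, x0 := p.x1, x1 := p.x2, x2 := p.x3, x3 := x4, y0 := p.y1, y1 := p.y2,
            y2 := y3, i00 := p.i11, i10 := p.i21, i11 := p.i22, i21 := p.i32, i22 := i33,
            i32 := i43, na0 := p.na1, na1 := p.na2, na2 := fun h => h43 h.symm, nb0 := p.nb1,
            nb1 := fun h => hb32 h.symm }
        exact crown_lat S h4 h5 h3 hr p p2 h02 h03 h40 h13 h41 h42

end Pool.Agent.H52.CIC
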