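import Pool.Agent.H52.CIC.Rel0

/-!
# Project CIC: module E1, extension of a function from `[x, y s]` to `[x, y]` (helper12)
-/

namespace Pool.Agent.H52.CIC

open Pool.Agent.H11.ZDE Pool.Agent.H11.ZDE.RootLat

section
variable {B W : Type} [Group W] {M : CoxeterMatrix B} {cs : CoxeterSystem M W}
  {L : Type} [AddCommGroup L] {R : RootLat L} {G : Geo cs R}

/-- the relations without the label `α` -/
structure RelM (G : Geo cs R) (i : B) (h : W → L → ℝ) (u w : W) : Prop where
  o : ∀ b c, b ≠ G.α i → c ≠ G.α i → Up G u b → Up G u c → R.Q b c = 0 →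
    w = u * G.T b * G.T c → h (u * G.T b) c = h u c
  a : ∀ b c, b ≠ G.α i → c ≠ G.α i → Up G u b → Up G u c → R.Q b c = -1 →
    w = u * G.T b * G.T c → h (u * G.T b) c = h u c ∧ h (u * G.T c) (b + c) = h u b + h u c
  b : ∀ b c, b ≠ G.α i → c ≠ G.α i → Up G u b → Up G u (b + c) → R.Q c c = 2 → R.P c →
    R.P (-(G.ρ u c)) → R.Q b c = -1 →
    w = u * G.T b * G.T c → h (u * G.T b) c = h u (b + c) - h u b ∧ h (u * G.T (b + c)) b = h u b
  s : ∀ b c, b ≠ G.α i → c ≠ G.α i → Up G u b → Up G u c → R.Q b c = -1 →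
    w = u * G.T (b + c) → h u (b + c) = h u b + h u c

/-- mirror images of the relations without the label `α` -/
theorem relM_of_mir {h h' : W → L → ℝ} {u w : W} {i : B} {ν : ℝ}
    (H : RelG G h (u * cs.simple i) (w * cs.simple i))
    (hh : ∀ v c, Bru cs u v → Up G v c → c ≠ G.α i → Bru cs (v * G.T c) w →
      Bru cs (v * G.T c * cs.simple i) (w * cs.simple i) →
      h' v c = h (v * cs.simple i) (R.r (G.α i) c) + (R.Q c (G.α i) : ℝ) * ν) :
    RelM G i h' u w := by
  have hQ : ∀ b c, R.Q (R.r (G.α i) b) (R.r (G.α i) c) = R.Q b c := fun b c => R.Q_r (aQ G i) b c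
  refine ⟨?_, ?_, ?_, ?_⟩
  · intro b c nb nc hb hc hq hw
    have mb := hb.mir i nb
    have mc := hc.mir i nc
    obtain ⟨h1, h2, h3⟩ := relO hb hc hq
    obtain ⟨g1, g2, g3⟩ := relO mb mc (by rw [hQ, hq])
    have e1 := mirT G u i hb.q
    have e2 := mirT G u i hc.q
    have e3 := mirT G (u * G.T b) i hc.q
    have hws : w * cs.simple i = u * cs.simple i * G.T (R.r (G.α i) b) * G.T (R.r (G.α i) c) := by
      rw [e1, e3, hw]
    rw [hh _ _ hb.bru h1 nc (by rw [hw]; exact bru_rfl _) (by rw [hw]; exact bru_rfl _),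
      hh _ _ (bru_rfl _) hc nc (by rw [hw, h3]; exact h2.bru)
        (by rw [hws, g3, e2, ← e2]; exact g2.bru)]
    have := H.o _ _ mb mc (by rw [hQ, hq]) hws
    rw [e1] at this
    rw [this]
  · intro b c nb nc hb hc hq hw
    have mb := hb.mir i nb
    have mc := hc.mir i nc
    obtain ⟨h1, h2, h3⟩ := relA hb hc hq
    obtain ⟨g1, g2, g3⟩ := relA mb mc (by rw [hQ, hq])
    have e1 := mirT G u i hb.q
    have e2 := mirT G u i hc.q
    have e3 := mirT G (u * G.T b) i hc.q
    have hws : w * cs.simple i = u * cs.simple i * G.T (R.r (G.α i) b) * G.T (R.r (G.α i) c) := by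
      rw [e1, e3, hw]
    have nbc : b + c ≠ G.α i := a_ne_add G i hb.p hc.p
    have := H.a _ _ mb mc (by rw [hQ, hq]) hws
    rw [e1, e2, ← map_add] at this
    rw [hh _ _ hb.bru h1 nc (by rw [hw]; exact bru_rfl _) (by rw [hw]; exact bru_rfl _),
      hh _ _ (bru_rfl _) hc nc (by rw [hw, h3]; exact h2.bru)
        (by rw [hws, g3, ← e2]; exact g2.bru),
      hh _ _ hc.bru h2 nbc (by rw [hw, h3]; exact bru_rfl _)
        (by rw [hw, h3]; exact bru_rfl _),
      hh _ _ (bru_rfl _) hb nb (by rw [hw]; exact h1.bru)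
        (by rw [hws, ← e1]; exact g1.bru)]
    rw [this.1, this.2, R.Q_add]
    push_cast
    exact ⟨rfl, by ring⟩
  · intro b c nb nc hb hbc qc pc hn hq hw
    have nbc : b + c ≠ G.α i := a_ne_add G i hb.p pc
    have mb := hb.mir i nb
    have mbc := hbc.mir i nbc
    rw [map_add] at mbc
    have mn : R.P (-(G.ρ (u * cs.simple i) (R.r (G.α i) c))) := by rw [rho_sr]; exact hn
    have mp := mirP G i qc pc nc
    have mq : R.Q (R.r (G.α i) c) (R.r (G.α i) c) = 2 := by rw [hQ]; exact qc
    obtain ⟨h1, h2, h3⟩ := relB hb hbc qc pc hn hq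
    obtain ⟨g1, g2, g3⟩ := relB mb mbc mq mp mn (by rw [hQ, hq])
    have e1 := mirT G u i hb.q
    have e2 := mirT G u i hbc.q
    rw [map_add] at e2
    have e3 := mirT G (u * G.T b) i qc
    have hws : w * cs.simple i = u * cs.simple i * G.T (R.r (G.α i) b) * G.T (R.r (G.α i) c) := by
      rw [e1, e3, hw]
    have := H.b _ _ mb mbc mq mp mn (by rw [hQ, hq]) hws
    rw [e1, e2, ← map_add] at this
    rw [hh _ _ hb.bru h1 nc (by rw [hw]; exact bru_rfl _) (by rw [hw]; exact bru_rfl _),
      hh _ _ (bru_rfl _) hbc nbc (by rw [hw, h3]; exact h2.bru)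
        (by rw [hws, g3, ← e2]; exact g2.bru),
      hh _ _ hbc.bru h2 nb (by rw [hw, h3]; exact bru_rfl _)
        (by rw [hw, h3]; exact bru_rfl _),
      hh _ _ (bru_rfl _) hb nb (by rw [hw]; exact h1.bru)
        (by rw [hws, ← e1]; exact g1.bru)]
    rw [this.1, this.2, R.Q_add]
    push_cast
    exact ⟨by ring, rfl⟩
  · intro b c nb nc hb hc hq hw
    have mb := hb.mir i nb
    have mc := hc.mir i nc
    have nbc : b + c ≠ G.α i := a_ne_add G i hb.p hc.p
    obtain ⟨h1, h2, h3⟩ := relS hb hc hq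
    obtain ⟨g1, g2, g3⟩ := relS mb mc (by rw [hQ, hq])
    have e1 := mirT G u i hb.q
    have e2 := mirT G u i hc.q
    have e3 := mirT G u i h1.q
    rw [map_add] at e3
    have hws : w * cs.simple i =
        u * cs.simple i * G.T (R.r (G.α i) b + R.r (G.α i) c) := by
      rw [e3, hw]
    have := H.s _ _ mb mc (by rw [hQ, hq]) hws
    rw [← map_add] at this
    rw [hh _ _ (bru_rfl _) h1 nbc (by rw [hw]; exact bru_rfl _) (by rw [hw]; exact bru_rfl _),
      hh _ _ (bru_rfl _) hb nb (by rw [hw]; exact h2) (by rw [hws, ← e1]; exact g2),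
      hh _ _ (bru_rfl _) hc nc (by rw [hw]; exact h3) (by rw [hws, ← e2]; exact g3)]
    rw [this, R.Q_add]
    push_cast
    ring

/-- multiplication of two bottoms by `s` -/
theorem bru_ss (G : Geo cs R) {u w : W} {i : B} (h : Bru cs u w)
    (hu : Up G u (G.α i)) (hw : Up G w (G.α i)) :
    Bru cs (u * cs.simple i) (w * cs.simple i) := by
  have h1 := (Pool.Agent.H11.Ism.lift_mx G i h).1
  rw [up_iff] at hu hw
  unfold Pool.Agent.H11.Ism.mx at h1
  rwa [if_pos hu, if_pos hw] at h1

theorem e1 (hV : VchSt G) (hM : MirSt G) : E1St G := by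
  classical
  intro x y i h ν hx hy hxy hF hν
  have qa := aQ G i
  have pa := aP G i
  let h' : W → L → ℝ := fun u b => if b = G.α i then ν else
    if Bru cs (u * G.T b) (y * cs.simple i) then h u b else
      h (u * cs.simple i) (R.r (G.α i) b) + (R.Q b (G.α i) : ℝ) * ν
  have hA : ∀ u, h' u (G.α i) = ν := by
    intro u
    simp only [h', if_true]
  have hB : ∀ u b, b ≠ G.α i → Bru cs (u * G.T b) (y * cs.simple i) → h' u b = h u b := by
    intro u b h1 h2
    simp only [h']
    rw [if_neg h1, if_pos h2]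
  have hC : ∀ u b, b ≠ G.α i → ¬ Bru cs (u * G.T b) (y * cs.simple i) →
      h' u b = h (u * cs.simple i) (R.r (G.α i) b) + (R.Q b (G.α i) : ℝ) * ν := by
    intro u b h1 h2
    simp only [h']
    rw [if_neg h1, if_neg h2]
  have V : ∀ u, Bru cs x u → Up G u (G.α i) → Bru cs (u * cs.simple i) (y * cs.simple i) →
      h u (G.α i) = ν := by
    intro u h1 h2 h3
    rw [hV x (y * cs.simple i) i h hx hF u h1 h2 h3]
    exact (hν (bru_tr (bru_ss G h1 hx h2) h3)).symm
  have A : ∀ v c, Bru cs x v → Up G v c → Bru cs (v * G.T c) (y * cs.simple i) →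
      h' v c = h v c := by
    intro v c h1 h2 h3
    by_cases hc : c = G.α i
    · subst hc
      rw [hA, V v h1 h2 (by rw [← aT G]; exact h3)]
    · exact hB v c hc h3
  have star : ∀ v c, Bru cs x v → Up G v c → c ≠ G.α i →
      Bru cs (v * G.T c * cs.simple i) (y * cs.simple i) →
      h' v c = h (v * cs.simple i) (R.r (G.α i) c) + (R.Q c (G.α i) : ℝ) * ν := by
    intro v c h1 h2 h3 h4
    by_cases hle : Bru cs (v * G.T c) (y * cs.simple i)
    · rw [hB v c h3 hle]
      have e1 := mirT G v i h2.q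
      have m1 := h2.mir i h3
      by_cases hv : Up G v (G.α i)
      · have := hM v c i h hv h2 h3 (hF v _ h1 hle) (hF v _ h1 h4)
        rw [this, V v h1 hv ?_]
        refine bru_tr m1.bru ?_
        rw [e1]; exact h4
      · have hv' : Up G (v * cs.simple i) (G.α i) := by
          rw [up_s_iff, ← not_up_iff G]; exact hv
        have hxs := low_low hx h1
        have := hM (v * cs.simple i) (R.r (G.α i) c) i h hv' m1 (mir_ne G i h2.p)
          (hF _ _ hxs (by rw [e1]; exact h4))
          (hF _ _ hxs (by rw [e1, ss]; exact hle))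
        rw [ss, rr qa] at this
        rw [this, V (v * cs.simple i) hxs hv' (by rw [ss]; exact bru_tr h2.bru hle)]
        have hQ : R.Q (R.r (G.α i) c) (G.α i) = - R.Q c (G.α i) := by
          rw [R.r_apply, R.Q_sub, R.Q_smul, qa]; ring
        rw [hQ]
        push_cast
        ring
    · exact hC v c h3 hle
  refine ⟨h', ?_, hA x, fun u b h1 h2 h3 => A u b h1 h2 h3⟩
  intro u w hxu hwy
  by_cases hw : Bru cs w (y * cs.simple i)
  · exact (hF u w hxu hw).congr
      (fun v c huv hup hle => A v c (bru_tr hxu huv) hup (bru_tr hle hw))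
  obtain ⟨hwt, hws⟩ := top_of (G := G) hy hwy hw
  have hxs := low_low hx hxu
  have HM : RelM G i h' u w := relM_of_mir (hF _ _ hxs hws)
    (fun v c huv hup hne _ hle => star v c (bru_tr hxu huv) hup hne (bru_tr hle hws))
  have r1 : ∀ b, R.Q b (G.α i) = -1 → R.r (G.α i) (b + G.α i) = b := by
    intro b hb
    rw [R.r_apply, R.Q_add, hb, qa]
    module
  have q1 : ∀ b, R.Q b (G.α i) = -1 → R.Q (b + G.α i) (G.α i) = 1 := by
    intro b hb
    rw [R.Q_add, hb, qa]; norm_num
  have r2 : ∀ b, R.Q b (G.α i) = -1 → R.r (G.α i) b = b + G.α i := by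
    intro b hb
    rw [R.r_apply, hb]
    module
  have ne1 : ∀ b, R.P b → b + G.α i ≠ G.α i := fun b hb e =>
    R.P_ne hb (by simpa using e)
  -- type s with `c = α`
  have S1 : ∀ b, Up G u b → Up G u (G.α i) → R.Q b (G.α i) = -1 → w = u * G.T (b + G.α i) →
      h' u (b + G.α i) = h' u b + h' u (G.α i) := by
    intro b hb hc hq hw'
    have nb : b ≠ G.α i := by rintro rfl; rw [qa] at hq; omega
    obtain ⟨g1, g2, g3⟩ := relS hb hc hq
    obtain ⟨k1, k2, k3⟩ := relA hb hc hq
    have l1 : Bru cs (u * G.T b) (y * cs.simple i) :=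
      bot_le k1 hy (bru_tr g2 (by rw [← hw']; exact hwy))
    have e1 := mirT G u i g1.q
    rw [r1 b hq] at e1
    have hq' : R.Q (G.α i) b = -1 := by rw [R.Q_comm]; exact hq
    have l2 : Bru cs (u * G.T (G.α i) * G.T b) (y * cs.simple i) := by
      rw [aT G, e1, ← hw']; exact hws
    have l3 := (hF u _ hxu l2).a (G.α i) b hc hb hq' rfl
    rw [hC u (b + G.α i) (ne1 b hb.p) (by rw [← hw']; exact hw), hB u b nb l1, hA u,
      r1 b hq, q1 b hq, ← l3.1, aT G]
    push_cast
    ring
  refine ⟨?_, ?_, ?_, ?_⟩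
  · intro b c hb hc hq hw'
    by_cases nb : b = G.α i
    · subst nb
      have nc : c ≠ G.α i := by rintro rfl; rw [qa] at hq; omega
      have hq' : R.Q c (G.α i) = 0 := by rw [R.Q_comm]; exact hq
      have rc : R.r (G.α i) c = c := by rw [R.r_apply, hq']; module
      have e1 : w * cs.simple i = u * G.T c := by
        have := mirT G u i hc.q
        rw [rc] at this
        rw [hw', aT G, this, ss]
      rw [hC (u * G.T (G.α i)) c nc (by rw [← hw']; exact hw), rc, hq',
        hB u c nc (by rw [← e1]; exact hws), aT G, ss]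
      push_cast
      ring
    · by_cases nc : c = G.α i
      · subst nc
        rw [hA, hA]
      · exact HM.o b c nb nc hb hc hq hw'
  · intro b c hb hc hq hw'
    by_cases nb : b = G.α i
    · subst nb
      exfalso
      apply hwt
      refine ⟨qa, pa, ?_⟩
      rw [hw', G.ρr _ hc.q, hq, G.ρr u qa]
      refine R.P_cast hc.u ?_
      congr 1
      rw [R.Q_sub, R.Q_smul, R.Q_comm c (G.α i), hq, qa]
      module
    · by_cases nc : c = G.α i
      · subst nc
        obtain ⟨k1, k2, k3⟩ := relA hb hc hq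
        refine ⟨by rw [hA, hA], ?_⟩
        have e1 : w * cs.simple i = u * G.T b := by
          rw [hw', aT G, ss]
        rw [hC (u * G.T (G.α i)) (b + G.α i) (ne1 b hb.p) (by rw [← k3, ← hw']; exact hw),
          hB u b nb (by rw [← e1]; exact hws), hA u, r1 b hq, q1 b hq, aT G, ss]
        push_cast
        ring
      · exact HM.a b c nb nc hb hc hq hw'
  · intro b c hb hbc qc pc hn hq hw'
    by_cases nb : b = G.α i
    · subst nb
      have nc : c ≠ G.α i := by rintro rfl; rw [qa] at hq; omega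
      have hq' : R.Q c (G.α i) = -1 := by rw [R.Q_comm]; exact hq
      obtain ⟨k1, k2, k3⟩ := relB hb hbc qc pc hn hq
      refine ⟨?_, by rw [hA, hA]⟩
      have e1 : w * cs.simple i = u * G.T (G.α i + c) := by
        rw [hw', k3, aT G, ss]
      have nbc : G.α i + c ≠ G.α i := by rw [add_comm]; exact ne1 c pc
      rw [hC (u * G.T (G.α i)) c nc (by rw [← hw']; exact hw),
        hB u (G.α i + c) nbc (by rw [← e1]; exact hws), hA u, r2 c hq', hq', aT G, ss,
        add_comm c]
      push_cast
      ring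
    · by_cases nc : c = G.α i
      · subst nc
        obtain ⟨k1, k2, k3⟩ := relB hb hbc qc pc hn hq
        have hu0 : ¬ Up G u (G.α i) := fun h0 => R.P_neg h0.u hn
        have hu1 : Up G (u * cs.simple i) (G.α i) := by
          rw [up_s_iff, ← not_up_iff G]; exact hu0
        have m1 : Up G (u * cs.simple i) b := by
          have := hbc.mir i (ne1 b hb.p)
          rwa [r1 b hq] at this
        have e0 : w * cs.simple i = u * G.T b := by
          rw [hw', aT G, ss]
        have e1 : u * cs.simple i * G.T b = u * G.T (b + G.α i) * cs.simple i := by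
          have := mirT G u i hbc.q
          rwa [r1 b hq] at this
        obtain ⟨j1, -, -⟩ := relA m1 hu1 hq
        have l1 : Bru cs (u * G.T (b + G.α i) * cs.simple i) (y * cs.simple i) := by
          rw [← e1]
          refine bot_le j1 hy ?_
          rw [e1]
          refine top_s G hy (bru_tr k2.bru ?_)
          rw [← k3, ← hw']; exact hwy
        have s1 := star u (b + G.α i) hxu hbc (ne1 b hb.p) l1
        rw [r1 b hq, q1 b hq] at s1
        have l0 : Bru cs (u * G.T b) (y * cs.simple i) := by rw [← e0]; exact hws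
        have hq' : R.Q (G.α i) b = -1 := by rw [R.Q_comm]; exact hq
        have l3 := (hF (u * cs.simple i) (u * G.T b) hxs l0).a (G.α i) b hu1 m1 hq'
          (by rw [aT G, ss])
        rw [aT G, ss] at l3
        have v1 := V (u * cs.simple i) hxs hu1 (by rw [ss]; exact bru_tr hb.bru l0)
        constructor
        · rw [hA, s1, hB u b nb l0, l3.1]
          push_cast
          ring
        · rw [hC (u * G.T (b + G.α i)) b nb (by rw [← k3, ← hw']; exact hw), ← e1, r2 b hq,
            add_comm b, l3.2, v1, hB u b nb l0, l3.1, hq]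
          push_cast
          ring
      · exact HM.b b c nb nc hb hbc qc pc hn hq hw'
  · intro b c hb hc hq hw'
    by_cases nb : b = G.α i
    · subst nb
      have hq' : R.Q c (G.α i) = -1 := by rw [R.Q_comm]; exact hq
      rw [add_comm (G.α i) c] at hw' ⊢
      rw [S1 c hc hb hq' hw']
      ring
    · by_cases nc : c = G.α i
      · subst nc
        exact S1 b hb hc hq hw'
      · exact HM.s b c nb nc hb hc hq hw'

end

end Pool.Agent.H52.CIC
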