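import Pool.Agent.H52.CIC.StA

/-! Module EDGE of project CIC (helper5). -/

namespace Pool.Agent.H52.CIC

open Pool.Agent.H11.ZDE

variable {P : Type} {O : Po P} {L L' : Type} [AddCommGroup L] [AddCommGroup L'] {R : RootLat L}
  {R' : RootLat L'}

theorem edge_one {L L' : Type} [AddCommGroup L] [AddCommGroup L'] {R : RootLat L}
    {R' : RootLat L'} (S : SLG O R) (S' : SLG O R') : ∀ n : ℕ, ∀ u w, O.rk w ≤ O.rk u + n →
    S.E u w → S'.E u w := by
  intro n
  induction n with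
  | zero =>
    intro u w hr he
    obtain ⟨k, hk⟩ := S.E_odd he
    omega
  | succ n ih =>
    intro u w hr he
    obtain ⟨k, hk⟩ := S.E_odd he
    by_cases h1 : O.rk w = O.rk u + 1
    · exact S'.E_cov (S.E_le he) h1
    · obtain ⟨a, a', v, v', hx⟩ := S.st he (by omega)
      obtain ⟨n1, n2, e1, e2, e3, e4, e5, e6, e7, e8⟩ := hx
      obtain ⟨k1, h1⟩ := S.E_odd e1
      obtain ⟨k2, h2⟩ := S.E_odd e2
      obtain ⟨k3, h3⟩ := S.E_odd e3
      obtain ⟨k4, h4⟩ := S.E_odd e4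
      obtain ⟨k5, h5⟩ := S.E_odd e5
      obtain ⟨k6, h6⟩ := S.E_odd e6
      obtain ⟨k7, h7⟩ := S.E_odd e7
      obtain ⟨k8, h8⟩ := S.E_odd e8
      have hx' : Hex S'.E u a a' v v' w :=
        ⟨n1, n2, ih _ _ (by omega) e1, ih _ _ (by omega) e2, ih _ _ (by omega) e3,
          ih _ _ (by omega) e4, ih _ _ (by omega) e5, ih _ _ (by omega) e6,
          ih _ _ (by omega) e7, ih _ _ (by omega) e8⟩
      exact (S'.hx2 hx').1

theorem edge (S : SLG O R) (S' : SLG O R') : EdgeSt S S' := by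
  intro u w
  exact ⟨edge_one S S' (O.rk w) u w (by omega), edge_one S' S (O.rk w) u w (by omega)⟩

end Pool.Agent.H52.CIC
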