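import Pool.Agent.H45.CIC.Base

/-!
# Module EMB2 of project CIC: the rank functions of isomorphic intervals
-/

namespace Pool.Agent.H52.CIC

open Pool.Agent.H11.ZDE Pool.Agent.H11.Ism Pool.Agent.H29.Ism

variable {I J W V : Type} [Group W] [Group V] {M : CoxeterMatrix I} {N : CoxeterMatrix J}
  {cs : CoxeterSystem M W} {ct : CoxeterSystem N V} {L L' : Type} [AddCommGroup L] [AddCommGroup L']
  {R : RootLat L} {R' : RootLat L'} (G : Geo cs R) (G' : Geo ct R') {P : Type} [PartialOrder P]
  {u w : W} {x y : V} {f : P → W} {g : P → V}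

theorem iso_inj (hf : IsoIntv cs u w f) : Function.Injective f := by
  intro a b h
  have h1 : a ≤ b := (hf.le_iff a b).1 (h ▸ Relation.ReflTransGen.refl)
  have h2 : b ≤ a := (hf.le_iff b a).1 (h ▸ Relation.ReflTransGen.refl)
  exact le_antisymm h1 h2

theorem iso_conv (hf : IsoIntv cs u w f) {a b : P} {v : W} (h1 : Bru cs (f a) v) (h2 : Bru cs v (f b)) :
    ∃ c, f c = v :=
  (hf.range v).2 ⟨((hf.range _).1 ⟨a, rfl⟩).1.trans h1, h2.trans ((hf.range _).1 ⟨b, rfl⟩).2⟩

include G G' in
/-- EMB2 -/
theorem emb2 (hf : IsoIntv cs u w f) (hg : IsoIntv ct x y g) {p q : P} (h : p ≤ q) :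
    cs.length (f q) + ct.length (g p) = cs.length (f p) + ct.length (g q) := by
  have key : ∀ n : ℕ, ∀ q, p ≤ q → cs.length (f q) = cs.length (f p) + n →
      cs.length (f q) + ct.length (g p) = cs.length (f p) + ct.length (g q) := by
    intro n
    induction n with
    | zero =>
      intro q h hn
      have h1 : f p = f q := by
        by_contra hne
        have := Bru.len_lt ((hf.le_iff p q).2 h) hne
        omega
      have h2 := iso_inj hf h1
      rw [h2]
    | succ n ih =>
      intro q h hn
      have hne : f p ≠ f q := by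
        intro e
        rw [e] at hn
        omega
      obtain ⟨z, z1, z2, z3⟩ := (exists_covers G ((hf.le_iff p q).2 h) hne).2
      obtain ⟨r, rfl⟩ := iso_conv hf z1 z2
      have hpr := (hf.le_iff _ _).1 z1
      have hrq := (hf.le_iff _ _).1 z2
      have h1 := ih r hpr (by omega)
      have hgne : g r ≠ g q := by
        intro e
        have := iso_inj hg e
        rw [this] at z3
        omega
      obtain ⟨t, t1, t2, t3⟩ := (exists_covers G' ((hg.le_iff r q).2 hrq) hgne).1
      obtain ⟨r', rfl⟩ := iso_conv hg t1 t2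
      have k1 := (hf.le_iff _ _).2 ((hg.le_iff _ _).1 t1)
      have k2 := (hf.le_iff _ _).2 ((hg.le_iff _ _).1 t2)
      have hrr : f r ≠ f r' := by
        intro e
        have := iso_inj hf e
        rw [this] at t3
        omega
      have h2 := Bru.len_lt k1 hrr
      have h3 : f r' = f q := by
        by_contra hne'
        have := Bru.len_lt k2 hne'
        omega
      have h4 := iso_inj hf h3
      rw [h4] at t3
      omega
  have hle : cs.length (f p) ≤ cs.length (f q) := by
    by_cases e : f p = f q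
    · rw [e]
    · exact (Bru.len_lt ((hf.le_iff p q).2 h) e).le
  exact key (cs.length (f q) - cs.length (f p)) q h (by omega)

include G G' in
/-- the two embeddings -/
theorem emb2_pair (hP : PullOSt) {O : Po W} {S : SLG O R} {O' : Po V} {S' : SLG O' R'} (hI : Inst G O S)
    (hI' : Inst G' O' S') (hf : IsoIntv cs u w f) (hg : IsoIntv ct x y g) :
    ∃ OP : Po P, Emb OP O f ∧ Emb OP O' g ∧ ∀ p q, OP.Le p q ↔ p ≤ q := by
  obtain ⟨OP, h1, h2, h3⟩ := hP P W O f (iso_inj hf) (by
    intro p q v h1 h2
    rw [hI.le] at h1 h2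
    exact iso_conv hf h1 h2)
  have hle : ∀ p q, OP.Le p q ↔ p ≤ q := by
    intro p q
    rw [h1, hI.le, hf.le_iff]
  refine ⟨OP, h3, ⟨iso_inj hg, ?_, ?_, ?_⟩, hle⟩
  · intro p q
    rw [hle, hI'.le, hg.le_iff]
  · intro p q v h1 h2
    rw [hI'.le] at h1 h2
    exact iso_conv hg h1 h2
  · intro p q h
    rw [h2, h2, hI.rk, hI.rk, hI'.rk, hI'.rk]
    exact emb2 G G' hf hg ((hle p q).1 h)

end Pool.Agent.H52.CIC
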