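import Pool.Agent.H52.CIC.StB

/-! Module ENDW of project CIC. -/

namespace Pool.Agent.H52.CIC

theorem endw : EndwSt := by
  intro α F T hT h0 h1 hloc
  have key : ∀ p q : ℝ, p < q → ∃ r, r ∈ Set.Ioo p q ∧ r ∉ T := fun p q hpq =>
    (Set.Ioo_infinite hpq).exists_notMem_finite hT
  set A : Set ℝ := {t | t ∈ Set.Icc (0 : ℝ) 1 ∧ ∀ s ∈ Set.Icc (0 : ℝ) t, s ∉ T → F s = F 0} with hA
  have hA0 : (0 : ℝ) ∈ A := by
    refine ⟨⟨le_refl _, zero_le_one⟩, ?_⟩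
    intro s hs _
    have : s = 0 := le_antisymm hs.2 hs.1
    rw [this]
  have hAb : BddAbove A := ⟨1, fun t ht => ht.1.2⟩
  have hAn : A.Nonempty := ⟨0, hA0⟩
  set c := sSup A with hc
  have hc0 : 0 ≤ c := le_csSup hAb hA0
  have hc1 : c ≤ 1 := csSup_le hAn fun t ht => ht.1.2
  obtain ⟨δ, hδ, hd⟩ := hloc c ⟨hc0, hc1⟩
  obtain ⟨t0, ht0, hlt⟩ := exists_lt_of_lt_csSup hAn (show c - δ < sSup A by rw [← hc]; linarith)
  have ht0c : t0 ≤ c := le_csSup hAb ht0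
  obtain ⟨t1, ht1, ht1T⟩ : ∃ t1, (c - δ < t1 ∧ 0 ≤ t1 ∧ t1 ≤ t0) ∧ t1 ∉ T := by
    rcases lt_or_ge (max (c - δ) 0) t0 with h | h
    · obtain ⟨r, hr, hrT⟩ := key _ _ h
      refine ⟨r, ⟨lt_of_le_of_lt (le_max_left _ _) hr.1, (lt_of_le_of_lt (le_max_right _ _) hr.1).le,
        hr.2.le⟩, hrT⟩
    · have h3 : t0 ≤ 0 := by
        rcases le_total (c - δ) 0 with h4 | h4
        · rwa [max_eq_right h4] at h
        · rw [max_eq_left h4] at h
          linarith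
      have h4 : t0 = 0 := le_antisymm h3 ht0.1.1
      rw [h4] at hlt
      exact ⟨0, ⟨hlt, le_refl _, ht0.1.1⟩, h0⟩
  have hF1 : F t1 = F 0 := ht0.2 t1 ⟨ht1.2.1, ht1.2.2⟩ ht1T
  have hnear : ∀ s ∈ Set.Icc (0 : ℝ) 1, |s - c| < δ → s ∉ T → F s = F 0 := by
    intro s hs hsc hsT
    rw [← hF1]
    refine hd s hs t1 ⟨ht1.2.1, ht1.2.2.trans ht0.1.2⟩ hsc ?_ hsT ht1T
    rw [abs_lt]
    constructor <;> linarith [ht1.1, ht1.2.2]
  have hmem : min (c + δ / 2) 1 ∈ A := by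
    refine ⟨⟨le_min (by linarith) zero_le_one, min_le_right _ _⟩, ?_⟩
    intro s hs hsT
    rcases le_or_gt s t0 with h | h
    · exact ht0.2 s ⟨hs.1, h⟩ hsT
    · refine hnear s ⟨hs.1, hs.2.trans (min_le_right _ _)⟩ ?_ hsT
      rw [abs_lt]
      have := hs.2.trans (min_le_left _ _)
      constructor <;> linarith
  have hle := le_csSup hAb hmem
  rw [← hc] at hle
  have hone : 1 ≤ c + δ / 2 := by
    by_contra hcon
    push Not at hcon
    rw [min_eq_left hcon.le] at hle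
    linarith
  rw [min_eq_right hone] at hmem
  exact (hmem.2 1 ⟨zero_le_one, le_refl _⟩ h1).symm

end Pool.Agent.H52.CIC
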