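import Pool.Agent.H45.CIC.Base

/-!
# Module EUL4 of project CIC: the Euler relation in rank four
-/

namespace Pool.Agent.H52.CIC

open Pool.Agent.H11.ZDE Pool.Agent.H11.Ism

variable {B W : Type} [Group W] {M : CoxeterMatrix B} {cs : CoxeterSystem M W}

/-- EUL4 -/
theorem eul4 [Finite W] (h0 : Eul0St cs) : Eul4St cs := by
  intro x y hxy hlen
  have hne : x ≠ y := by rintro rfl; omega
  have h1 := h0 x y hxy hne
  have hx : ∀ v, Bru cs x v → cs.length v = cs.length x → v = x := by
    intro v hv hl
    by_contra h
    have := Bru.len_lt hv (Ne.symm h)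
    omega
  have hy : ∀ v, Bru cs v y → cs.length v = cs.length y → v = y := by
    intro v hv hl
    by_contra h
    have := Bru.len_lt hv h
    omega
  have hlx : ∀ v, Bru cs x v → cs.length x ≤ cs.length v := by
    intro v hv
    by_cases h : x = v
    · rw [h]
    · exact (Bru.len_lt hv h).le
  have hly : ∀ v, Bru cs v y → cs.length v ≤ cs.length y := by
    intro v hv
    by_cases h : v = y
    · rw [h]
    · exact (Bru.len_lt hv h).le
  set F1 := {v | Bru cs x v ∧ Bru cs v y ∧ cs.length v = cs.length x + 1} with hF1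
  set F2 := {v | Bru cs x v ∧ Bru cs v y ∧ cs.length v = cs.length x + 2} with hF2
  set F3 := {v | Bru cs x v ∧ Bru cs v y ∧ cs.length v = cs.length x + 3} with hF3
  have hA : ∀ p : W → Prop, (∀ v, p v ↔ (cs.length v = cs.length x ∨ cs.length v = cs.length x + 2 ∨
      cs.length v = cs.length x + 4)) → {v | Bru cs x v ∧ Bru cs v y ∧ p v}.ncard = F2.ncard + 2 := by
    intro p hp
    have e : {v | Bru cs x v ∧ Bru cs v y ∧ p v} = {x, y} ∪ F2 := by
      ext v
      simp only [Set.mem_ofPred_eq, Set.mem_union, Set.mem_insert_iff, Set.mem_singleton_iff, hF2]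
      constructor
      · rintro ⟨a, b, c⟩
        rcases (hp v).1 c with c | c | c
        · exact Or.inl (Or.inl (hx v a c))
        · exact Or.inr ⟨a, b, c⟩
        · exact Or.inl (Or.inr (hy v b (by omega)))
      · rintro ((rfl | rfl) | ⟨a, b, c⟩)
        · exact ⟨Relation.ReflTransGen.refl, hxy, (hp _).2 (Or.inl rfl)⟩
        · exact ⟨hxy, Relation.ReflTransGen.refl, (hp _).2 (Or.inr (Or.inr hlen))⟩
        · exact ⟨a, b, (hp _).2 (Or.inr (Or.inl c))⟩
    rw [e, Set.ncard_union_eq, Set.ncard_pair hne]
    · omega
    · rw [Set.disjoint_left]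
      rintro v (rfl | rfl) hv
      · have := hv.2.2
        omega
      · have := hv.2.2
        omega
  have hB : ∀ p : W → Prop, (∀ v, Bru cs x v → Bru cs v y → (p v ↔ (cs.length v = cs.length x + 1 ∨
      cs.length v = cs.length x + 3))) →
      {v | Bru cs x v ∧ Bru cs v y ∧ p v}.ncard = F1.ncard + F3.ncard := by
    intro p hp
    have e : {v | Bru cs x v ∧ Bru cs v y ∧ p v} = F1 ∪ F3 := by
      ext v
      simp only [Set.mem_ofPred_eq, Set.mem_union, hF1, hF3]
      constructor
      · rintro ⟨a, b, c⟩
        rcases (hp v a b).1 c with c | c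
        · exact Or.inl ⟨a, b, c⟩
        · exact Or.inr ⟨a, b, c⟩
      · rintro (⟨a, b, c⟩ | ⟨a, b, c⟩)
        · exact ⟨a, b, (hp v a b).2 (Or.inl c)⟩
        · exact ⟨a, b, (hp v a b).2 (Or.inr c)⟩
    rw [e, Set.ncard_union_eq]
    · rw [Set.disjoint_left]
      intro v h1 h3
      have a := h1.2.2
      have b := h3.2.2
      omega
  -- same parity as `x`, restricted to the interval
  have hA' : ∀ p : W → Prop, (∀ v, Bru cs x v → Bru cs v y → (p v ↔ (cs.length v = cs.length x ∨
      cs.length v = cs.length x + 2 ∨ cs.length v = cs.length x + 4))) →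
      {v | Bru cs x v ∧ Bru cs v y ∧ p v}.ncard = F2.ncard + 2 := by
    intro p hp
    rw [← hA (fun v => cs.length v = cs.length x ∨ cs.length v = cs.length x + 2 ∨
      cs.length v = cs.length x + 4) (fun v => Iff.rfl)]
    congr 1
    ext v
    simp only [Set.mem_ofPred_eq]
    constructor
    · rintro ⟨a, b, c⟩
      exact ⟨a, b, (hp v a b).1 c⟩
    · rintro ⟨a, b, c⟩
      exact ⟨a, b, (hp v a b).2 c⟩
  rcases Nat.even_or_odd (cs.length x) with hev | hod
  · have a1 := hA' (fun v => Even (cs.length v)) (by
      intro v a b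
      have l1 := hlx v a
      have l2 := hly v b
      simp only [Nat.even_iff] at hev ⊢
      omega)
    have a2 := hB (fun v => ¬ Even (cs.length v)) (by
      intro v a b
      have l1 := hlx v a
      have l2 := hly v b
      simp only [Nat.even_iff] at hev ⊢
      omega)
    omega
  · have a1 := hA' (fun v => ¬ Even (cs.length v)) (by
      intro v a b
      have l1 := hlx v a
      have l2 := hly v b
      simp only [Nat.odd_iff] at hod
      simp only [Nat.even_iff]
      omega)
    have a2 := hB (fun v => Even (cs.length v)) (by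
      intro v a b
      have l1 := hlx v a
      have l2 := hly v b
      simp only [Nat.odd_iff] at hod
      simp only [Nat.even_iff]
      omega)
    omega

end Pool.Agent.H52.CIC
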