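import Pool.Agent.H45.CIC.Base

/-!
# Module FHX1 of project CIC: hexagons
-/

namespace Pool.Agent.H52.CIC

open Pool.Agent.H11.ZDE Pool.Agent.H11.Ism Pool.Agent.H45.CIC

variable {B W : Type} [Group W] {M : CoxeterMatrix B} {cs : CoxeterSystem M W}
  {L : Type} [AddCommGroup L] {R : RootLat L} (G : Geo cs R)

/-- FHX1 -/
theorem fhx1 (hl : LbeSt G) : Fhx1St G := by
  rintro u _ _ _ ⟨b, hb, rfl⟩ ⟨c, hc, rfl⟩ ⟨d, hd, rfl⟩ h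
  rw [(hl u b hb).1, (hl u c hc).1, (hl u d hd).1] at h
  subst h
  exact ⟨_, _, hexCore G hb hc (qsum hb.q hc.q hd.q)⟩

/-- FST -/
theorem fstt : FstSt G := by
  rintro u _ ⟨b, hb, rfl⟩ hlen
  obtain ⟨c, d, qc, pc, qd, pd, e, hc, hd⟩ := Pool.Agent.H58.ZDE.grad G u b hb.q hb.p hb.u hlen
  subst e
  exact ⟨_, _, _, _, hexCore G (⟨qc, pc, hc⟩ : Up G u c) ⟨qd, pd, hd⟩ (qsum qc qd hb.q)⟩

end Pool.Agent.H52.CIC
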