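import Pool.Agent.H52.CIC.SqTwo

/-!
# Project CIC, module FHX2
-/

namespace Pool.Agent.H52.CIC

open Pool.Agent.H11.ZDE Pool.Agent.H11.ZDE.RootLat

section
variable {B W : Type} [Group W] {M : CoxeterMatrix B} {cs : CoxeterSystem M W}
  {L : Type} [AddCommGroup L] {R : RootLat L} (G : Geo cs R)

theorem fhx2 (hS : SqcSt G) (hL : LbeSt G) : Fhx2St G := by
  rintro u _ _ w w' z ⟨hne, hw, ⟨b, hb, rfl⟩, ⟨b', hb', rfl⟩, h1, h3, h2, h4, h5, h6⟩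
  have hbb : b ≠ b' := fun h => hne (by rw [h])
  obtain ⟨-, hup, rfl⟩ := sqTop G hS hL hb hb' hbb h1 h2 h3 h4 hw h5 h6
  exact ⟨⟨b + b', hup, rfl⟩, by rw [(hL u _ hup).1, (hL u b hb).1, (hL u b' hb').1]⟩

end

end Pool.Agent.H52.CIC
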