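import Pool.Agent.H52.CIC.StC
import Pool.Agent.H11.ZDE.Stmts
import Pool.Agent.H29.Ism.Official

/-!
# Project CIC: statements of the part about Coxeter groups

`G : Geo cs R` is the geometric representation of a simply laced Coxeter system (root lattice `R`).
-/

namespace Pool.Agent.H52.CIC

open Pool.Agent.H11.ZDE Polynomial

section
variable {B W : Type} [Group W] {M : CoxeterMatrix B} {cs : CoxeterSystem M W}
  {L : Type} [AddCommGroup L] {R : RootLat L} (G : Geo cs R)

/-- `b` is a positive root and `u → u T_b` goes up -/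
structure Up (u : W) (b : L) : Prop where
  q : R.Q b b = 2
  p : R.P b
  u : R.P (G.ρ u b)

/-- edge of the Bruhat graph -/
def Eg (u w : W) : Prop := ∃ b, Up G u b ∧ w = u * G.T b

/-- label of an edge -/
noncomputable def lb (u w : W) : L := by
  classical exact if h : ∃ b, Up G u b ∧ w = u * G.T b then h.choose else 0

/-! ### local structure -/

/-- LBE -/
def LbeSt : Prop := ∀ u b, Up G u b → lb G u (u * G.T b) = b ∧ ∀ c, Up G u c → u * G.T b = u * G.T c → b = c

/-- PAR: edges have odd length -/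
def ParSt : Prop := ∀ u b, Up G u b → ∃ k, cs.length (u * G.T b) = cs.length u + 2 * k + 1

/-- SQC: the two factorisations of a path of length two -/
def SqcSt : Prop := ∀ u b c, Up G u b → Up G (u * G.T b) c → ∃ b' c', b' ≠ b ∧ Up G u b' ∧ Up G (u * G.T b') c' ∧
  u * G.T b * G.T c = u * G.T b' * G.T c' ∧
  ((R.Q b c = 0 ∧ b' = c ∧ c' = b) ∨ (R.Q b c = -1 ∧ b' = c ∧ c' = b + c) ∨
    (R.Q b c = -1 ∧ b' = b + c ∧ c' = b ∧ R.P (-(G.ρ u c))) ∨
    (R.Q b c = 1 ∧ c = b + b' ∧ c' = b) ∨ (R.Q b c = 1 ∧ b' = c ∧ b = c + c' ∧ R.P (-(G.ρ u c')))) ∧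
  ∀ b'' c'', Up G u b'' → Up G (u * G.T b'') c'' → u * G.T b * G.T c = u * G.T b'' * G.T c'' → b'' = b ∨ b'' = b'

/-- FSQ -/
def FsqSt : Prop := ∀ u a w, Eg G u a → Eg G a w → ∃ a', a' ≠ a ∧ Eg G u a' ∧ Eg G a' w ∧
  ∀ a'', Eg G u a'' → Eg G a'' w → a'' = a ∨ a'' = a'

/-- FTT -/
def FttSt : Prop := ∀ u a a' w, Eg G u a → Eg G a w → Eg G u a' → Eg G a' w → a ≠ a' →
  ∃ t : ℤ, lb G a w = lb G u a' + t • lb G u a

/-- FTWO -/
def FtwoSt : Prop := ∀ u a a' w w' w'', Eg G u a → Eg G u a' → a ≠ a' → Eg G a w → Eg G a' w → Eg G a w' →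
  Eg G a' w' → Eg G a w'' → Eg G a' w'' → w = w' ∨ w = w'' ∨ w' = w''

/-- FONE -/
def FoneSt : Prop := ∀ u a a' w w' z z', Eg G u a → Eg G u a' → a ≠ a' → Eg G a w → Eg G a' w → Eg G a w' →
  Eg G a' w' → w ≠ w' → Eg G w z → Eg G w' z → Eg G w z' → Eg G w' z' → z = z'

/-- FST -/
def FstSt : Prop := ∀ u z, Eg G u z → cs.length u + 1 < cs.length z → ∃ a a' w w', Hex (Eg G) u a a' w w' z

/-- FHX1 -/
def Fhx1St : Prop := ∀ u a a' z, Eg G u a → Eg G u a' → Eg G u z → lb G u z = lb G u a + lb G u a' →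
  ∃ w w', Hex (Eg G) u a a' w w' z

/-- FHX2 -/
def Fhx2St : Prop := ∀ u a a' w w' z, Hex (Eg G) u a a' w w' z → Eg G u z ∧ lb G u z = lb G u a + lb G u a'

/-- FTOP -/
def FtopSt : Prop := ∀ u a a' w w' z v, Hex (Eg G) u a a' w w' z → Eg G z v → ¬ Eg G a v

/-- FNS3 -/
def Fns3St : Prop := ∀ u a b c d, Eg G u a → Eg G u b → Eg G u c → Eg G u d →
  cs.length d = cs.length u + 1 → lb G u d ≠ lb G u a + lb G u b + lb G u c

/-- CONN -/
def ConnSt (cs : CoxeterSystem M W) : Prop := ∀ x y a b : W, cs.length x + 2 ≤ cs.length y → Bru cs x a →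
  cs.length a = cs.length x + 1 → Bru cs a y → Bru cs x b → cs.length b = cs.length x + 1 → Bru cs b y →
    Relation.ReflTransGen (fun c d => Bru cs x d ∧ cs.length d = cs.length x + 1 ∧
      ∃ v, Bru cs c v ∧ Bru cs d v ∧ cs.length v = cs.length x + 2 ∧ Bru cs v y) a b

/-- EUL0: the alternating sum over an interval is zero -/
def Eul0St (cs : CoxeterSystem M W) : Prop := ∀ x y : W, Bru cs x y → x ≠ y →
  {v | Bru cs x v ∧ Bru cs v y ∧ Even (cs.length v)}.ncard = {v | Bru cs x v ∧ Bru cs v y ∧ ¬ Even (cs.length v)}.ncard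

/-- EUL4: the Euler relation in rank four -/
def Eul4St (cs : CoxeterSystem M W) : Prop := ∀ x y : W, Bru cs x y → cs.length y = cs.length x + 4 →
    {v | Bru cs x v ∧ Bru cs v y ∧ cs.length v = cs.length x + 1}.ncard +
      {v | Bru cs x v ∧ Bru cs v y ∧ cs.length v = cs.length x + 3}.ncard =
      {v | Bru cs x v ∧ Bru cs v y ∧ cs.length v = cs.length x + 2}.ncard + 2

/-- the structure `S` is the one of the Bruhat graph -/
structure Inst (O : Po W) (S : SLG O R) : Prop where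
  le : ∀ x y, O.Le x y ↔ Bru cs x y
  rk : ∀ x, O.rk x = cs.length x
  E : ∀ u w, S.E u w ↔ Eg G u w
  lab : ∀ u b, Up G u b → S.lab u (u * G.T b) = b

/-- INST -/
def InstSt : Prop := ∃ (O : Po W) (S : SLG O R), Inst G O S

/-! ### generation -/

/-- the relations with bottom `u` and top `w` for a function `h` of the bottoms and the labels -/
structure RelG (h : W → L → ℝ) (u w : W) : Prop where
  o : ∀ b c, Up G u b → Up G u c → R.Q b c = 0 → w = u * G.T b * G.T c → h (u * G.T b) c = h u c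
  a : ∀ b c, Up G u b → Up G u c → R.Q b c = -1 → w = u * G.T b * G.T c →
    h (u * G.T b) c = h u c ∧ h (u * G.T c) (b + c) = h u b + h u c
  b : ∀ b c, Up G u b → Up G u (b + c) → R.Q c c = 2 → R.P c → R.P (-(G.ρ u c)) → R.Q b c = -1 →
    w = u * G.T b * G.T c → h (u * G.T b) c = h u (b + c) - h u b ∧ h (u * G.T (b + c)) b = h u b
  s : ∀ b c, Up G u b → Up G u c → R.Q b c = -1 → w = u * G.T (b + c) → h u (b + c) = h u b + h u c

/-- all relations in `[x, y]` -/
def FG (x y : W) (h : W → L → ℝ) : Prop := ∀ u w, Bru cs x u → Bru cs w y → RelG G h u w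

/-- all relations in `[x, y]` except those with bottom `x` and top `y` -/
def PFG (x y : W) (h : W → L → ℝ) : Prop :=
  ∀ u w, Bru cs x u → Bru cs w y → ¬ (u = x ∧ w = y) → RelG G h u w

/-- generation for `[x, y]` -/
def GenAt (x y : W) : Prop := ∀ h, PFG G x y h → ∃ h', FG G x y h' ∧
  ∀ u b, Bru cs x u → Up G u b → Bru cs (u * G.T b) y → ¬ (u = x ∧ u * G.T b = y) → h' u b = h u b

/-- UPS: multiplication by a simple reflection -/
def UpsSt : Prop := ∀ u (i : B) b, b ≠ G.α i → (Up G u b ↔ Up G (u * cs.simple i) (R.r (G.α i) b)) ∧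
  u * cs.simple i * G.T (R.r (G.α i) b) = u * G.T b * cs.simple i

/-- VERT: vertical edges -/
def VertSt : Prop := ∀ u b (i : B) h, Up G u (G.α i) → Up G u b → Up G (u * G.T b) (G.α i) →
  RelG G h u (u * G.T b * cs.simple i) → h (u * G.T b) (G.α i) = h u (G.α i)

/-- MIR: mirror images of edges -/
def MirSt : Prop := ∀ u b (i : B) h, Up G u (G.α i) → Up G u b → b ≠ G.α i →
  RelG G h u (u * G.T b) → RelG G h u (u * G.T b * cs.simple i) →
  h u b = h (u * cs.simple i) (R.r (G.α i) b) + (R.Q b (G.α i) : ℝ) * h u (G.α i)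

/-- WSU, WSD: chains of elements with ascent `s_i` -/
def WsSt : Prop := ∀ x u (i : B), Up G x (G.α i) → Up G u (G.α i) → Bru cs x u → x ≠ u →
  (∃ v b, Bru cs x v ∧ Up G v (G.α i) ∧ Up G v b ∧ u = v * G.T b ∧ cs.length u = cs.length v + 1) ∧
  (∃ b, Up G x b ∧ Bru cs (x * G.T b) u ∧ Up G (x * G.T b) (G.α i) ∧ cs.length (x * G.T b) = cs.length x + 1)

/-- VCH: all vertical edges have the same value -/
def VchSt : Prop := ∀ x z (i : B) h, Up G x (G.α i) → FG G x z h → ∀ u, Bru cs x u → Up G u (G.α i) →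
  Bru cs (u * cs.simple i) z → h u (G.α i) = h x (G.α i)

/-- E1: extension -/
def E1St : Prop := ∀ x y (i : B) h (ν : ℝ), Up G x (G.α i) → cs.length (y * cs.simple i) < cs.length y →
  Bru cs x (y * cs.simple i) → FG G x (y * cs.simple i) h →
  (Bru cs (x * cs.simple i) (y * cs.simple i) → ν = h x (G.α i)) →
  ∃ h', FG G x y h' ∧ h' x (G.α i) = ν ∧
    ∀ u b, Bru cs x u → Up G u b → Bru cs (u * G.T b) (y * cs.simple i) → h' u b = h u b

/-- GA: generation, first case -/
def GaSt : Prop := ∀ x y (i : B), Bru cs x y → cs.length x + 4 ≤ cs.length y → Up G x (G.α i) →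
  cs.length (y * cs.simple i) < cs.length y → GenAt G x y

/-- GB1: generation, second case -/
def Gb1St : Prop := ∀ x y (i : B), Bru cs x y → cs.length x + 4 ≤ cs.length y → Up G (x * cs.simple i) (G.α i) →
  cs.length (y * cs.simple i) < cs.length y → ¬ Bru cs x (y * cs.simple i) →
  GenAt G (x * cs.simple i) (y * cs.simple i) → GenAt G x y

/-- GB2: generation, third case -/
def Gb2St : Prop := ∀ x y (i : B), Bru cs x y → cs.length x + 4 ≤ cs.length y → Up G (x * cs.simple i) (G.α i) →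
  cs.length (y * cs.simple i) < cs.length y → Bru cs x (y * cs.simple i) →
  GenAt G (x * cs.simple i) (y * cs.simple i) → GenAt G x y

/-- GENG: generation -/
def GengSt : Prop := ∀ x y, Bru cs x y → cs.length x + 4 ≤ cs.length y → GenAt G x y

/-- FSFG: comparison of `FS` and `FG` -/
def FsfgSt : Prop := ∀ (O : Po W) (S : SLG O R), Inst G O S → ∀ h u w,
  RelP S h u w ↔ RelG G (fun v b => h v (v * G.T b)) u w

/-- GENW: generation for the instance -/
def GenwSt : Prop := ∀ (O : Po W) (S : SLG O R), Inst G O S → GenP S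

/-! ### the R-polynomials -/

variable [Fintype W]

/-- composition with a reflection -/
def cmp (k : L →+ ℝ) (a : L) : L →+ ℝ := k.comp (R.r a).toAddMonoidHom

open Classical in
/-- REC0: the recursion with a functional which vanishes at a simple root -/
def Rec0St : Prop := ∀ (O : Po W) (S : SLG O R), Inst G O S → ∀ y φ, (∀ u, O.Le u y → PhiAt S y φ u) →
  ∀ u (i : B) (k g : L →+ ℝ), O.Le u y → u ≠ y → g (G.α i) = 0 →
  (∀ b, R.Q b b = 2 → R.P b → b ≠ G.α i → 0 < g b) → (∀ b, Up G u b → k b ≠ 0) →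
  (∀ b c, Up G u b → R.Q c c = 2 → R.P c → b ≠ c → k b * g c ≠ k c * g b) →
  (k (G.α i) < 0 ∨ (0 < k (G.α i) ∧ u * cs.simple i ≠ y)) →
  φ u (glob S k) = X * ∑ a ∈ (out S y u).filter (fun a => 0 < glob S k u a ∧ S.lab u a ≠ G.α i),
    φ a (glob S (k - (k (S.lab u a) / g (S.lab u a)) • g))

open Classical in
/-- MM: the mirror formula -/
def MmSt : Prop := ∀ (O : Po W) (S : SLG O R), Inst G O S → ∀ y (i : B) φ φ',
  cs.length (y * cs.simple i) < cs.length y → (∀ u, O.Le u y → PhiAt S y φ u) →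
  (∀ u, O.Le u (y * cs.simple i) → PhiAt S (y * cs.simple i) φ' u) →
  ∀ u (k : L →+ ℝ), O.Le u y → k (G.α i) < 0 → (∀ b, Up G u b → k b ≠ 0) →
  φ u (glob S k) = if Bru cs (u * cs.simple i) (y * cs.simple i) then
    φ' (u * cs.simple i) (glob S (cmp (R := R) k (G.α i))) else 0

/-- the recursion of the modified R-polynomials -/
structure RtPoly (cs : CoxeterSystem M W) (Q : W → W → ℤ[X]) : Prop where
  zero : ∀ x w, ¬ Bru cs x w → Q x w = 0
  one : ∀ w, Q w w = 1
  desc : ∀ x w i, cs.length (w * cs.simple i) < cs.length w → cs.length (x * cs.simple i) < cs.length x →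
    Q x w = Q (x * cs.simple i) (w * cs.simple i)
  asc : ∀ x w i, cs.length (w * cs.simple i) < cs.length w → cs.length x < cs.length (x * cs.simple i) →
    Q x w = Q (x * cs.simple i) (w * cs.simple i) + X * Q x (w * cs.simple i)

/-- RT -/
def RtSt : Prop := ∀ (O : Po W) (S : SLG O R), Inst G O S → ∀ Φ : W → W → (W → W → ℝ) → ℤ[X],
  (∀ y u, O.Le u y → PhiAt S y (Φ y) u) → ∃ Q, RtPoly cs Q ∧
    ∀ x y h, Bru cs x y → Gn S y x h → (∀ a ∈ out S y x, 0 < h x a) → Φ y x h = Q x y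

end

/-- from `∑ c_k z^k` to `∑ c_k q^((n - k) / 2) (q - 1)^k` -/
noncomputable def conv (n : ℕ) (p : ℤ[X]) : ℤ[X] :=
  p.sum fun k a => C a * X ^ ((n - k) / 2) * (X - 1) ^ k

/-- CONV -/
def ConvSt : Prop := ∀ (B W : Type) [Group W] (M : CoxeterMatrix B) (cs : CoxeterSystem M W) (Q : W → W → ℤ[X]),
  RtPoly cs Q → Pool.Agent.H29.Ism.RPoly cs (fun x w => conv (cs.length w - cs.length x) (Q x w))

/-- the main theorem -/
def CicSt : Prop := ∀ (I J W V : Type) [Group W] [Finite W] [Group V] [Finite V]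
    (M : CoxeterMatrix I) (N : CoxeterMatrix J) (_ : Pool.Agent.H29.Ism.SimplyLaced M)
    (_ : Pool.Agent.H29.Ism.SimplyLaced N) (cs : CoxeterSystem M W) (ct : CoxeterSystem N V)
    (P : Type) [PartialOrder P] (u w : W) (x y : V) (f : P → W) (g : P → V)
    (_ : Pool.Agent.H29.Ism.IsoIntv cs u w f) (_ : Pool.Agent.H29.Ism.IsoIntv ct x y g)
    (K : W → W → ℤ[X]) (K' : V → V → ℤ[X]) (_ : Pool.Agent.H29.Ism.KLPoly cs K)
    (_ : Pool.Agent.H29.Ism.KLPoly ct K'), K u w = K' x y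

end Pool.Agent.H52.CIC
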