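import Pool.Agent.H11.Ism.Pd
import Pool.Agent.H52.CIC.StG

/-!
# Project CIC, module FIN: combinatorial invariance from the module statements
-/

namespace Pool.Agent.H52.CIC

open Pool.Agent.H11.ZDE Pool.Agent.H11.Ism Pool.Agent.H29.Ism Polynomial

section

variable {I W : Type} [Group W] {M : CoxeterMatrix I}

theorem fin_inj {cs : CoxeterSystem M W} {P : Type} [PartialOrder P] {u w : W} {f : P → W}
    (hf : IsoIntv cs u w f) : Function.Injective f := by
  intro a b hab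
  have h1 : Bru cs (f a) (f b) := by rw [hab]; exact Relation.ReflTransGen.refl
  have h2 : Bru cs (f b) (f a) := by rw [hab]; exact Relation.ReflTransGen.refl
  exact le_antisymm ((hf.le_iff a b).1 h1) ((hf.le_iff b a).1 h2)

theorem fin_conv {cs : CoxeterSystem M W} {P : Type} [PartialOrder P] {u w : W} {f : P → W}
    (hf : IsoIntv cs u w f) {p q : P} {v : W} (h1 : Bru cs (f p) v) (h2 : Bru cs v (f q)) :
    ∃ r, f r = v := by
  have hp := (hf.range _).1 ⟨p, rfl⟩
  have hq := (hf.range _).1 ⟨q, rfl⟩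
  exact (hf.range v).2 ⟨hp.1.trans h1, h2.trans hq.2⟩

end

section

variable {I J W V : Type} [Group W] [Finite W] [Group V] [Finite V] {M : CoxeterMatrix I}
  {N : CoxeterMatrix J} {cs : CoxeterSystem M W} {ct : CoxeterSystem N V} {L L' : Type}
  [AddCommGroup L] [AddCommGroup L'] {R : RootLat L} {R' : RootLat L'}

/-- the R-polynomials agree -/
theorem fin_r (G : Geo cs R) (G' : Geo ct R') (i1 : InstSt G) (i2 : InstSt G') (g1 : GenwSt G)
    (g2 : GenwSt G') (t1 : ∀ [Fintype W] (O : Po W) (S : SLG O R), T3St S)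
    (t2 : ∀ [Fintype V] (O : Po V) (S : SLG O R'), T3St S)
    (r1 : ∀ [Fintype W], RtSt G) (r2 : ∀ [Fintype V], RtSt G')
    (h1 : ∀ [Fintype W] (O : Po W) (S : SLG O R), HtSt S)
    (h2 : ∀ [Fintype V] (O : Po V) (S : SLG O R'), HtSt S)
    (hconv : ConvSt) (hpo : PullOSt) (ht2w : T2WSt) (hcmp : CmpSt)
    {P : Type} [PartialOrder P] {u w : W} {x y : V} {f : P → W} {g : P → V}
    (hf : IsoIntv cs u w f) (hg : IsoIntv ct x y g)
    (hemb : ∀ p q : P, p ≤ q → cs.length (f q) + ct.length (g p) = cs.length (f p) + ct.length (g q))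
    {A : W → W → ℤ[X]} {A' : V → V → ℤ[X]} (hA : RPoly cs A) (hA' : RPoly ct A') (a b : P) :
    A (f a) (f b) = A' (g a) (g b) := by
  classical
  have := Fintype.ofFinite W
  have := Fintype.ofFinite V
  obtain ⟨O, S, hS⟩ := i1
  obtain ⟨O', S', hS'⟩ := i2
  have finj := fin_inj hf
  have ginj := fin_inj hg
  have : Finite P := Finite.of_injective f finj
  have gP : GenP S := g1 O S hS
  have gP' : GenP S' := g2 O' S' hS'
  obtain ⟨OP, hOle, hOrk, hE⟩ := hpo P W O f finj (fun p q v e1 e2 =>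
    fin_conv hf ((hS.le _ _).1 e1) ((hS.le _ _).1 e2))
  have hle : ∀ p q, OP.Le p q ↔ p ≤ q := fun p q => by rw [hOle, hS.le, hf.le_iff]
  have hE' : Emb OP O' g := by
    refine ⟨ginj, fun p q => ?_, fun p q v e1 e2 => ?_, fun p q hpq => ?_⟩
    · rw [hle, hS'.le, hg.le_iff]
    · exact fin_conv hg ((hS'.le _ _).1 e1) ((hS'.le _ _).1 e2)
    · rw [hOrk, hOrk, hS'.rk, hS'.rk, hS.rk, hS.rk]
      exact hemb p q ((hle p q).1 hpq)
  choose Φ hΦ using t1 O S
  choose Φ' hΦ' using t2 O' S'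
  obtain ⟨Q, hQ, hQ2⟩ := r1 O S hS Φ hΦ
  obtain ⟨Q', hQ', hQ2'⟩ := r2 O' S' hS' Φ' hΦ'
  obtain ⟨ψ, hψ⟩ := h1 O S
  obtain ⟨ψ', hψ'⟩ := h2 O' S'
  have key : ∀ a b : P, a ≤ b → Q (f a) (f b) = Q' (g a) (g b) := by
    intro a b hab
    have p1 := hψ (f a) (f b)
    have p2 := hψ' (g a) (g b)
    have n1 : Gn S (f b) (f a) (glob S ψ) := ⟨p1.mem, fun c hc => (p1.pos c hc).ne'⟩
    have n2 : Gn S' (g b) (g a) (glob S' ψ') := ⟨p2.mem, fun c hc => (p2.pos c hc).ne'⟩
    have b1 : Bru cs (f a) (f b) := (hf.le_iff a b).2 hab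
    have b2 : Bru ct (g a) (g b) := (hg.le_iff a b).2 hab
    rw [← hQ2 (f a) (f b) (glob S ψ) b1 n1 p1.pos, ← hQ2' (g a) (g b) (glob S' ψ') b2 n2 p2.pos]
    refine hcmp P W V L L' R R' OP O O' f g S S' hE hE' gP gP' b (Φ (f b)) (Φ' (g b))
      (fun u hu => hΦ _ _ hu) (fun u hu => hΦ' _ _ hu) a (glob S ψ) (glob S' ψ')
      ((hle a b).2 hab) n1 n2 (fun c hc hcb => ?_)
    have m1 : f c ∈ out S (f b) (f a) := by
      unfold out
      simp only [Finset.mem_filter, Finset.mem_univ, true_and]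
      exact ⟨hc, (hS.le _ _).2 ((hf.le_iff c b).2 ((hle c b).1 hcb))⟩
    have hc' : S'.E (g a) (g c) :=
      ((ht2w P W V L L' R R' OP O O' f g S S' hE hE' gP gP').1 a c).1 hc
    have m2 : g c ∈ out S' (g b) (g a) := by
      unfold out
      simp only [Finset.mem_filter, Finset.mem_univ, true_and]
      exact ⟨hc', (hS'.le _ _).2 ((hg.le_iff c b).2 ((hle c b).1 hcb))⟩
    exact ⟨fun _ => p2.pos _ m2, fun _ => p1.pos _ m1⟩
  have e1 := (isFor_geo G).r_unique hA (hconv I W M cs Q hQ)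
  have e2 := (isFor_geo G').r_unique hA' (hconv J V N ct Q' hQ')
  by_cases hab : a ≤ b
  · rw [e1, e2]
    simp only [key a b hab]
    congr 1
    have := hemb a b hab
    omega
  · rw [hA.zero _ _ (fun h => hab ((hf.le_iff a b).1 h)),
      hA'.zero _ _ (fun h => hab ((hg.le_iff a b).1 h))]

/-- the Kazhdan-Lusztig polynomials agree -/
theorem fin_kl (G : Geo cs R) (G' : Geo ct R') {P : Type} [PartialOrder P] {u w : W} {x y : V}
    {f : P → W} {g : P → V} (hf : IsoIntv cs u w f) (hg : IsoIntv ct x y g)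
    (hRR : ∀ (A : W → W → ℤ[X]) (A' : V → V → ℤ[X]), RPoly cs A → RPoly ct A' → ∀ a b : P,
      A (f a) (f b) = A' (g a) (g b))
    {K : W → W → ℤ[X]} {K' : V → V → ℤ[X]} (hK : KLPoly cs K) (hK' : KLPoly ct K') (a b : P) :
    K (f a) (f b) = K' (g a) (g b) := by
  obtain ⟨A, hA⟩ := hK.exists_r
  obtain ⟨A', hA'⟩ := hK'.exists_r
  have := Fintype.ofFinite W
  have := Fintype.ofFinite V
  have h := isFor_geo G
  have h' := isFor_geo G'
  obtain ⟨k0, k1, k2, k3⟩ := h.kl_data hK hA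
  obtain ⟨k0', k1', k2', k3'⟩ := h'.kl_data hK' hA'
  refine Pool.Agent.H67.Ism.kl_inv' ((h.isR_iff A).1 hA) ((h'.isR_iff A').1 hA') k0 k1 k2 k3
    k0' k1' k2' k3' (u := u) (w := w) (u' := x) (w' := y) ?_ ?_ ?_ ?_ ?_ ?_ (hRR A A' hA hA') a b
  · intro a b
    rw [h.hLe]
    exact hf.le_iff a b
  · intro a
    rw [h.hLe, h.hLe]
    exact (hf.range _).1 ⟨a, rfl⟩
  · intro x hx hx'
    rw [h.hLe] at hx hx'
    exact (hf.range _).2 ⟨hx, hx'⟩
  · intro a b
    rw [h'.hLe]
    exact hg.le_iff a b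
  · intro a
    rw [h'.hLe, h'.hLe]
    exact (hg.range _).1 ⟨a, rfl⟩
  · intro x hx hx'
    rw [h'.hLe] at hx hx'
    exact (hg.range _).2 ⟨hx, hx'⟩

omit [Finite W] [Finite V] in
/-- from all values to the value at the ends -/
theorem fin_ends {P : Type} [PartialOrder P] {u w : W} {x y : V}
    {f : P → W} {g : P → V} (hf : IsoIntv cs u w f) (hg : IsoIntv ct x y g)
    {K : W → W → ℤ[X]} {K' : V → V → ℤ[X]} (hK : KLPoly cs K) (hK' : KLPoly ct K')
    (h : ∀ a b : P, K (f a) (f b) = K' (g a) (g b)) : K u w = K' x y := by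
  have anti : ∀ {v v' : V}, Bru ct v v' → Bru ct v' v → v = v' := by
    intro v v' h1 h2
    rcases Pool.Agent.H58.ZDE.bru_len h1 with h3 | h3
    · exact h3
    · rcases Pool.Agent.H58.ZDE.bru_len h2 with h4 | h4
      · exact h4.symm
      · omega
  by_cases huw : Bru cs u w
  · obtain ⟨a, ha⟩ := (hf.range u).2 ⟨Relation.ReflTransGen.refl, huw⟩
    obtain ⟨b, hb⟩ := (hf.range w).2 ⟨huw, Relation.ReflTransGen.refl⟩
    have hga := (hg.range _).1 ⟨a, rfl⟩
    have hgb := (hg.range _).1 ⟨b, rfl⟩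
    have hxy : Bru ct x y := hga.1.trans hga.2
    obtain ⟨a', ha'⟩ := (hg.range x).2 ⟨Relation.ReflTransGen.refl, hxy⟩
    obtain ⟨b', hb'⟩ := (hg.range y).2 ⟨hxy, Relation.ReflTransGen.refl⟩
    have e1 : g a = x := by
      refine anti ?_ hga.1
      rw [← ha', hg.le_iff, ← hf.le_iff, ha]
      exact ((hf.range _).1 ⟨a', rfl⟩).1
    have e2 : g b = y := by
      refine anti hgb.2 ?_
      rw [← hb', hg.le_iff, ← hf.le_iff, hb]
      exact ((hf.range _).1 ⟨b', rfl⟩).2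
    rw [← ha, ← hb, h, e1, e2]
  · have hxy : ¬ Bru ct x y := by
      intro hxy
      obtain ⟨a, -⟩ := (hg.range x).2 ⟨Relation.ReflTransGen.refl, hxy⟩
      have := (hf.range _).1 ⟨a, rfl⟩
      exact huw (this.1.trans this.2)
    rw [hK.zero _ _ huw, hK'.zero _ _ hxy]

end

/-- FIN: the main theorem from the statements of the modules -/
theorem fin_cic
    (hgeo : ∀ {B W : Type} [Group W] [Finite W] {M : CoxeterMatrix B} (cs : CoxeterSystem M W),
      SimplyLaced M → ∃ (L : Type) (_ : AddCommGroup L) (R : RootLat L), Nonempty (Geo cs R))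
    (hinst : ∀ {B W : Type} [Group W] [Finite W] {M : CoxeterMatrix B} {cs : CoxeterSystem M W}
      {L : Type} [AddCommGroup L] {R : RootLat L} (G : Geo cs R), InstSt G)
    (hgenw : ∀ {B W : Type} [Group W] [Finite W] {M : CoxeterMatrix B} {cs : CoxeterSystem M W}
      {L : Type} [AddCommGroup L] {R : RootLat L} (G : Geo cs R), GenwSt G)
    (ht3 : ∀ {P : Type} [Fintype P] {O : Po P} {L : Type} [AddCommGroup L] {R : RootLat L}
      (S : SLG O R), T3St S)
    (hht : ∀ {P : Type} [Fintype P] {O : Po P} {L : Type} [AddCommGroup L] {R : RootLat L}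
      (S : SLG O R), HtSt S)
    (hrt : ∀ {B W : Type} [Group W] [Fintype W] {M : CoxeterMatrix B} {cs : CoxeterSystem M W}
      {L : Type} [AddCommGroup L] {R : RootLat L} (G : Geo cs R), RtSt G)
    (hconv : ConvSt) (hpo : PullOSt) (ht2w : T2WSt) (hcmp : CmpSt)
    (hemb : ∀ {I J W V L L' : Type} [Group W] [Group V] [AddCommGroup L] [AddCommGroup L']
      {M : CoxeterMatrix I} {N : CoxeterMatrix J} {cs : CoxeterSystem M W}
      {ct : CoxeterSystem N V} {R : RootLat L} {R' : RootLat L'} (_ : Geo cs R) (_ : Geo ct R')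
      {P : Type} [PartialOrder P] {u w : W} {x y : V} {f : P → W} {g : P → V},
      IsoIntv cs u w f → IsoIntv ct x y g → ∀ p q : P, p ≤ q →
        cs.length (f q) + ct.length (g p) = cs.length (f p) + ct.length (g q)) : CicSt := by
  intro I J W V _ _ _ _ M N sl sl' cs ct P _ u w x y f g hf hg K K' hK hK'
  obtain ⟨L, _, R, ⟨G⟩⟩ := hgeo cs sl
  obtain ⟨L', _, R', ⟨G'⟩⟩ := hgeo ct sl'
  refine fin_ends hf hg hK hK' (fin_kl G G' hf hg (fun A A' hA hA' => ?_) hK hK')
  exact fin_r G G' (hinst G) (hinst G') (hgenw G) (hgenw G') (fun O S => ht3 S)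
    (fun O S => ht3 S) (hrt G) (hrt G') (fun O S => hht S) (fun O S => hht S) hconv hpo ht2w hcmp
    hf hg (hemb G G' hf hg) hA hA'

end Pool.Agent.H52.CIC
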