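import Pool.Agent.H52.CIC.StG
import Pool.Agent.H11.Ism.GeoB

/-!
# Project CIC, module FNS3: the label of a cover is not the sum of three labels
-/

namespace Pool.Agent.H52.CIC

open Pool.Agent.H11.ZDE Pool.Agent.H11.ZDE.RootLat

section
variable {B W : Type} [Group W] {M : CoxeterMatrix B} {cs : CoxeterSystem M W}
  {L : Type} [AddCommGroup L] {R : RootLat L} (G : Geo cs R)

theorem fns3_aux {u : W} {a b c d : L} (ha : Up G u a) (hb : Up G u b) (hc : Up G u c)
    (hd : Up G u d) (hl : cs.length (u * G.T d) = cs.length u + 1) (e : d = a + (b + c)) :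
    R.Q d a ≠ 1 := by
  intro h
  have h0 : R.Q (b + c) (b + c) = 2 := by
    have e1 : b + c = d - a := by rw [e]; abel
    rw [e1, R.Q_sub, R.Q_subr, R.Q_subr, hd.q, ha.q, R.Q_comm a d, h]
    norm_num
  have h1 : R.Q a (b + c) = -1 := by
    have e1 : b + c = d - a := by rw [e]; abel
    rw [e1, R.Q_subr, ha.q, R.Q_comm a d, h]
    norm_num
  have h2 : R.P (G.ρ u (b + c)) := by
    rw [map_add]
    exact R.P_add hb.u hc.u
  have h3 := Pool.Agent.H11.Ism.dec_len G ha.q ha.p h0 (R.P_add hb.p hc.p) h1 ha.u h2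
  rw [← e, hl] at h3
  omega

theorem fns3 (hL : LbeSt G) : Fns3St G := by
  rintro u _ _ _ _ ⟨a, ha, rfl⟩ ⟨b, hb, rfl⟩ ⟨c, hc, rfl⟩ ⟨d, hd, rfl⟩ hl
  rw [(hL u a ha).1, (hL u b hb).1, (hL u c hc).1, (hL u d hd).1]
  intro e
  have e1 : d = a + (b + c) := by rw [e]; abel
  have e2 : d = b + (a + c) := by rw [e]; abel
  have e3 : d = c + (a + b) := by rw [e]; abel
  have n1 := fns3_aux G ha hb hc hd hl e1
  have n2 := fns3_aux G hb ha hc hd hl e2
  have n3 := fns3_aux G hc ha hb hd hl e3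
  have hne : ∀ x y z : L, Up G u x → Up G u y → Up G u z → d = x + (y + z) → d ≠ x := by
    intro x y z hx hy hz h h'
    have h4 : y + z = 0 := by
      rw [h'] at h
      exact left_eq_add.1 h
    exact R.P_ne (R.P_add hy.p hz.p) h4
  have hs : R.Q d a + R.Q d b + R.Q d c = 2 := by
    have h4 : R.Q d d = R.Q d (a + b + c) := by rw [← e]
    rw [hd.q, R.Q_addr, R.Q_addr] at h4
    linarith
  have q1 := R.Q_cases' hd.q ha.q hd.p ha.p (hne a b c ha hb hc e1)
  have q2 := R.Q_cases' hd.q hb.q hd.p hb.p (hne b a c hb ha hc e2)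
  have q3 := R.Q_cases' hd.q hc.q hd.p hc.p (hne c a b hc ha hb e3)
  rcases q1 with q1 | q1 | q1
  · rcases q2 with q2 | q2 | q2 <;> rcases q3 with q3 | q3 | q3 <;> omega
  · rcases q2 with q2 | q2 | q2 <;> rcases q3 with q3 | q3 | q3 <;> omega
  · exact n1 q1

end

end Pool.Agent.H52.CIC
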