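import Pool.Agent.H52.CIC.StA

/-! Module FPF of project CIC (helper5). -/

namespace Pool.Agent.H52.CIC

open Pool.Agent.H11.ZDE

theorem fpf_one {P : Type} {O : Po P} {L L' : Type} [AddCommGroup L] [AddCommGroup L']
    {R : RootLat L} {R' : RootLat L'} (S : SLG O R) (S' : SLG O R') (he : EdgeSt S S') (x y : P)
    (hr : O.rk x + 2 ≤ O.rk y) (hf : ∀ f, Fp S x y f → Fp S' x y f) (f : P → ℝ)
    (h : Ff S x y f) : Ff S' x y f := by
  obtain ⟨k, hk, hkf⟩ := h
  obtain ⟨k', hk', hkf'⟩ := hf f ⟨k, hk, fun a ha hay _ => hkf a ha hay⟩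
  refine ⟨k', hk', fun a ha hay => ?_⟩
  by_cases hne : a = y
  · subst hne
    have ha' : S.E x a := (he x a).2 ha
    obtain ⟨c, c', w, w', hx⟩ := S.st ha' (by omega)
    have hx0 := hx
    obtain ⟨n1, n2, e1, e2, e3, e4, e5, e6, e7, e8⟩ := hx
    have hx' : Hex S'.E x c c' w w' a :=
      ⟨n1, n2, (he _ _).1 e1, (he _ _).1 e2, (he _ _).1 e3, (he _ _).1 e4, (he _ _).1 e5,
        (he _ _).1 e6, (he _ _).1 e7, (he _ _).1 e8⟩
    have l1 := (S.hx2 hx0).2
    have l2 := (S'.hx2 hx').2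
    have v1 := (hk x a (O.refl x) (O.refl a)).2 c c' e1 e2 ha' l1
    have v2 := (hk' x a (O.refl x) (O.refl a)).2 c c' ((he _ _).1 e1) ((he _ _).1 e2) ha l2
    have hca : O.Le c a := O.trans (S.E_le e3) (S.E_le e7)
    have hca' : O.Le c' a := O.trans (S.E_le e5) (S.E_le e7)
    have nca : c ≠ a := by
      rintro rfl
      obtain ⟨k3, h3⟩ := S.E_odd e3
      obtain ⟨k7, h7⟩ := S.E_odd e7
      omega
    have nca' : c' ≠ a := by
      rintro rfl
      obtain ⟨k3, h3⟩ := S.E_odd e5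
      obtain ⟨k7, h7⟩ := S.E_odd e7
      omega
    rw [v2, hkf' c ((he _ _).1 e1) hca nca, hkf' c' ((he _ _).1 e2) hca' nca', ← hkf a ha' hay,
      v1, hkf c e1 hca, hkf c' e2 hca']
  · exact hkf' a ha hay hne

variable {P : Type} {O : Po P} {L L' : Type} [AddCommGroup L] [AddCommGroup L'] {R : RootLat L}
  {R' : RootLat L'}

theorem fpf (S : SLG O R) (S' : SLG O R') (he : EdgeSt S S') : FpfSt S S' := by
  intro x y hr hf f
  exact ⟨fpf_one S S' he x y hr (fun g => (hf g).1) f,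
    fpf_one S' S (fun u w => (he u w).symm) x y hr (fun g => (hf g).2) f⟩

end Pool.Agent.H52.CIC
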