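import Pool.Agent.H52.CIC.StC

/-!
# Project CIC, module FPK2: rank three intervals with two atoms
-/

namespace Pool.Agent.H52.CIC

open Pool.Agent.H11.ZDE

variable {P : Type} {O : Po P} {L : Type} [AddCommGroup L] {R : RootLat L}

/-- out-edges below the top are atoms -/
theorem fpk2_atom (S : SLG O R) {x y a : P} (hrk : O.rk y = O.rk x + 3) (h : S.E x a)
    (h' : O.Le a y) (hne : a ≠ y) : Cv O x a := by
  obtain ⟨k, hk⟩ := S.E_odd h
  have := O.rk_lt h' hne
  exact ⟨S.E_le h, by omega⟩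

theorem fpk2 (S : SLG O R) (hg : GlobSt S) (h2 : Sep2St S) (hr : Rel4St S) : FpK2St S := by
  intro x y a0 a1 a2 a3 b0 b1 b2 hp hK
  obtain ⟨e0, e3, hat⟩ := hK
  have E1 : S.E x a1 := S.E_cov hp.x1.1 hp.x1.2
  have E2 : S.E x a2 := S.E_cov hp.x2.1 hp.x2.2
  have key := (hr x y a0 a1 a2 a3 b0 b1 b2 hp).1
  rw [e0, e3] at key
  refine ⟨fun f => ?_, ?_, ?_⟩
  · obtain ⟨φ, h1, h3⟩ := h2 x a1 a2 E1 E2 hp.na1 (f a1) (f a2)
    refine ⟨glob S φ, hg x y φ, fun a ha hay hne => ?_⟩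
    rcases hat a (fpk2_atom S hp.rk ha hay hne) hay with rfl | rfl
    · exact h1
    · exact h3
  · obtain ⟨φ, h1, h3⟩ := h2 x a1 a2 E1 E2 hp.na1 1 0
    have hk := congrArg φ key
    simp only [map_add, map_sub, map_zsmul, map_zero, zsmul_eq_mul] at hk
    simp only [glob] at h1 h3
    rw [h1, h3] at hk
    have : (cc S x y a1 a2 b0 b1 : ℝ) = 1 := by linarith
    exact_mod_cast this
  · obtain ⟨φ, h1, h3⟩ := h2 x a1 a2 E1 E2 hp.na1 0 1
    have hk := congrArg φ key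
    simp only [map_add, map_sub, map_zsmul, map_zero, zsmul_eq_mul] at hk
    simp only [glob] at h1 h3
    rw [h1, h3] at hk
    have : (dd S x y a1 a2 b1 b2 : ℝ) = -1 := by linarith
    exact_mod_cast this

end Pool.Agent.H52.CIC
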