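import Pool.Agent.H52.CIC.StC

/-!
# Project CIC, module FPK3: rank three intervals with three atoms
-/

namespace Pool.Agent.H52.CIC

open Pool.Agent.H11.ZDE

variable {P : Type} {O : Po P} {L : Type} [AddCommGroup L] {R : RootLat L}

/-- out-edges below the top are atoms -/
theorem fpk3_atom (S : SLG O R) {x y a : P} (hrk : O.rk y = O.rk x + 3) (h : S.E x a)
    (h' : O.Le a y) (hne : a ≠ y) : Cv O x a := by
  obtain ⟨k, hk⟩ := S.E_odd h
  have := O.rk_lt h' hne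
  exact ⟨S.E_le h, by omega⟩

/-- three atoms can be given arbitrary values -/
theorem fpk3_sep (S : SLG O R) (h3 : Sep3St S) (ha3 : Atom3St S) {x a b c : P} (ha : Cv O x a)
    (hb : Cv O x b) (hc : Cv O x c) (hab : a ≠ b) (hac : a ≠ c) (hbc : b ≠ c) (r t v : ℝ) :
    ∃ φ : L →+ ℝ, φ (S.lab x a) = r ∧ φ (S.lab x b) = t ∧ φ (S.lab x c) = v := by
  have Ea : S.E x a := S.E_cov ha.1 ha.2
  have Eb : S.E x b := S.E_cov hb.1 hb.2
  have Ec : S.E x c := S.E_cov hc.1 hc.2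
  exact h3 x a b c Ea Eb Ec hab hac hbc (ha3 x b c a Eb Ec ha) (ha3 x a c b Ea Ec hb)
    (ha3 x a b c Ea Eb hc) r t v

theorem fpk3 (S : SLG O R) (hg : GlobSt S) (h3 : Sep3St S) (hr : Rel4St S) (ha3 : Atom3St S) :
    FpK3St S := by
  intro x y a0 a1 a2 a3 b0 b1 b2 hp hK
  obtain ⟨e0, ne, hat⟩ := hK
  have key := (hr x y a0 a1 a2 a3 b0 b1 b2 hp).1
  rw [← e0] at key
  have hs := fpk3_sep S h3 ha3 hp.x0 hp.x1 hp.x2 hp.na0 ne hp.na1
  refine ⟨fun f => ?_, ?_, ?_⟩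
  · obtain ⟨φ, h0, h1, h2⟩ := hs (f a0) (f a1) (f a2)
    refine ⟨glob S φ, hg x y φ, fun a ha hay hne => ?_⟩
    rcases hat a (fpk3_atom S hp.rk ha hay hne) hay with rfl | rfl | rfl
    · exact h0
    · exact h1
    · exact h2
  · obtain ⟨φ, h0, h1, h2⟩ := hs 0 1 0
    have hk := congrArg φ key
    simp only [map_add, map_sub, map_zsmul, map_zero, zsmul_eq_mul] at hk
    rw [h0, h1, h2] at hk
    have : (cc S x y a1 a2 b0 b1 : ℝ) = 0 := by linarith
    exact_mod_cast this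
  · obtain ⟨φ, h0, h1, h2⟩ := hs 0 0 1
    have hk := congrArg φ key
    simp only [map_add, map_sub, map_zsmul, map_zero, zsmul_eq_mul] at hk
    rw [h0, h1, h2] at hk
    have : (dd S x y a1 a2 b1 b2 : ℝ) = 0 := by linarith
    exact_mod_cast this

end Pool.Agent.H52.CIC
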