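import Pool.Agent.H52.CIC.StC

/-!
# Project CIC, module FPK4: rank three intervals which are crowns with four atoms
-/

namespace Pool.Agent.H52.CIC

open Pool.Agent.H11.ZDE

variable {P : Type} {O : Po P} {L : Type} [AddCommGroup L] {R : RootLat L}

/-- out-edges below the top are atoms -/
theorem fpk4_atom (S : SLG O R) {x y a : P} (hrk : O.rk y = O.rk x + 3) (h : S.E x a)
    (h' : O.Le a y) (hne : a ≠ y) : Cv O x a := by
  obtain ⟨k, hk⟩ := S.E_odd h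
  have := O.rk_lt h' hne
  exact ⟨S.E_le h, by omega⟩

/-- three atoms can be given arbitrary values -/
theorem fpk4_sep (S : SLG O R) (h3 : Sep3St S) (ha3 : Atom3St S) {x a b c : P} (ha : Cv O x a)
    (hb : Cv O x b) (hc : Cv O x c) (hab : a ≠ b) (hac : a ≠ c) (hbc : b ≠ c) (r t v : ℝ) :
    ∃ φ : L →+ ℝ, φ (S.lab x a) = r ∧ φ (S.lab x b) = t ∧ φ (S.lab x c) = v := by
  have Ea : S.E x a := S.E_cov ha.1 ha.2
  have Eb : S.E x b := S.E_cov hb.1 hb.2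
  have Ec : S.E x c := S.E_cov hc.1 hc.2
  exact h3 x a b c Ea Eb Ec hab hac hbc (ha3 x b c a Eb Ec ha) (ha3 x a c b Ea Ec hb)
    (ha3 x a b c Ea Eb hc) r t v

/-- independence of three atoms -/
theorem fpk4_ind (S : SLG O R) (h3 : Sep3St S) (ha3 : Atom3St S) {x a b c : P} (ha : Cv O x a)
    (hb : Cv O x b) (hc : Cv O x c) (hab : a ≠ b) (hac : a ≠ c) (hbc : b ≠ c) (r t v : ℤ)
    (h : r • S.lab x a + t • S.lab x b + v • S.lab x c = 0) : r = 0 ∧ t = 0 ∧ v = 0 := by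
  have hs := fpk4_sep S h3 ha3 ha hb hc hab hac hbc
  refine ⟨?_, ?_, ?_⟩
  · obtain ⟨φ, h0, h1, h2⟩ := hs 1 0 0
    have hk := congrArg φ h
    simp only [map_add, map_zsmul, map_zero, zsmul_eq_mul, h0, h1, h2] at hk
    have : (r : ℝ) = 0 := by linarith
    exact_mod_cast this
  · obtain ⟨φ, h0, h1, h2⟩ := hs 0 1 0
    have hk := congrArg φ h
    simp only [map_add, map_zsmul, map_zero, zsmul_eq_mul, h0, h1, h2] at hk
    have : (t : ℝ) = 0 := by linarith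
    exact_mod_cast this
  · obtain ⟨φ, h0, h1, h2⟩ := hs 0 0 1
    have hk := congrArg φ h
    simp only [map_add, map_zsmul, map_zero, zsmul_eq_mul, h0, h1, h2] at hk
    have : (v : ℝ) = 0 := by linarith
    exact_mod_cast this

theorem fpk4 (S : SLG O R) (hg : GlobSt S) (h3 : Sep3St S) (hr : Rel4St S) (ha3 : Atom3St S) :
    FpK4St S := by
  intro x y a0 a1 a2 a3 b0 b1 b2 b3 hp hK
  obtain ⟨n02, n03, n13, m02, m03, m13, m23, c3y, c33, c03, hat, -⟩ := hK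
  have p2 : Path4 O x y a1 a2 a3 a0 b1 b2 b3 :=
    { rk := hp.rk, x0 := hp.x1, x1 := hp.x2, x2 := hp.x3, x3 := hp.x0, y0 := hp.y1, y1 := hp.y2,
      y2 := c3y, i00 := hp.i11, i10 := hp.i21, i11 := hp.i22, i21 := hp.i32, i22 := c33, i32 := c03,
      na0 := hp.na1, na1 := hp.na2, na2 := n03.symm, nb0 := hp.nb1, nb1 := m23 }
  have p3 : Path4 O x y a2 a3 a0 a1 b2 b3 b0 :=
    { rk := hp.rk, x0 := hp.x2, x1 := hp.x3, x2 := hp.x0, x3 := hp.x1, y0 := hp.y2, y1 := c3y,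
      y2 := hp.y0, i00 := hp.i22, i10 := hp.i32, i11 := c33, i21 := c03, i22 := hp.i00,
      i32 := hp.i10, na0 := hp.na2, na1 := n03.symm, na2 := hp.na0, nb0 := m23, nb1 := m03.symm }
  have k1 := (hr x y a0 a1 a2 a3 b0 b1 b2 hp).1
  have k2 := (hr x y _ _ _ _ _ _ _ p2).1
  have k3 := (hr x y _ _ _ _ _ _ _ p3).1
  obtain ⟨e1, e2, e3⟩ := fpk4_ind S h3 ha3 hp.x1 hp.x2 hp.x3 hp.na1 n13 hp.na2
    (cc S x y a1 a2 b0 b1 + 1) (dd S x y a1 a2 b1 b2 + cc S x y a2 a3 b1 b2)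
    (dd S x y a2 a3 b2 b3 - 1) (by
      linear_combination (norm := module) k1 + k2)
  obtain ⟨e4, -, -⟩ := fpk4_ind S h3 ha3 hp.x2 hp.x3 hp.x0 hp.na2 n02.symm n03.symm
    (cc S x y a2 a3 b1 b2 + 1) (dd S x y a2 a3 b2 b3 + cc S x y a3 a0 b2 b3)
    (dd S x y a3 a0 b3 b0 - 1) (by
      linear_combination (norm := module) k2 + k3)
  have c1 : cc S x y a1 a2 b0 b1 = -1 := by linarith
  have d1 : dd S x y a1 a2 b1 b2 = 1 := by linarith
  have hl : S.lab x a0 - S.lab x a1 + S.lab x a2 - S.lab x a3 = 0 := by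
    rw [c1, d1] at k1
    rw [← k1]
    module
  have hle : ∀ {a b}, Cv O a b → Cv O b y → O.Le a y := fun h1 h2 => O.trans h1.1 h2.1
  have hne : ∀ {a}, Cv O x a → a ≠ y := by
    rintro a h rfl
    have := h.2
    have := hp.rk
    omega
  refine ⟨fun f => ⟨?_, fun hf => ?_⟩, c1, d1, hl⟩
  · rintro ⟨h, hh, hv⟩
    have k := (hr x y a0 a1 a2 a3 b0 b1 b2 hp).2 h hh
    rw [c1, d1, hv a0 (S.E_cov hp.x0.1 hp.x0.2) (hle hp.i00 hp.y0) (hne hp.x0),
      hv a1 (S.E_cov hp.x1.1 hp.x1.2) (hle hp.i10 hp.y0) (hne hp.x1),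
      hv a2 (S.E_cov hp.x2.1 hp.x2.2) (hle hp.i21 hp.y1) (hne hp.x2),
      hv a3 (S.E_cov hp.x3.1 hp.x3.2) (hle hp.i32 hp.y2) (hne hp.x3)] at k
    push_cast at k
    linarith
  · obtain ⟨φ, h0, h1, h2⟩ := fpk4_sep S h3 ha3 hp.x0 hp.x1 hp.x2 hp.na0 n02 hp.na1
      (f a0) (f a1) (f a2)
    have h3' : φ (S.lab x a3) = f a3 := by
      have hk := congrArg φ hl
      simp only [map_add, map_sub, map_zero, h0, h1, h2] at hk
      linarith
    refine ⟨glob S φ, hg x y φ, fun a ha hay hn => ?_⟩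
    rcases hat a (fpk4_atom S hp.rk ha hay hn) hay with rfl | rfl | rfl | rfl
    · exact h0
    · exact h1
    · exact h2
    · exact h3'

end Pool.Agent.H52.CIC
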