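import Pool.Agent.H45.CIC.Base

/-!
# Module FSFG of project CIC: comparison of the relations
-/

namespace Pool.Agent.H52.CIC

open Pool.Agent.H11.ZDE Pool.Agent.H11.Ism Pool.Agent.H45.CIC

variable {B W : Type} [Group W] {M : CoxeterMatrix B} {cs : CoxeterSystem M W}
  {L : Type} [AddCommGroup L] {R : RootLat L} (G : Geo cs R)

/-- the integer `tt` is determined by the labels -/
theorem tt_val {O : Po W} {S : SLG O R} (hI : Inst G O S) {u a' : W} {b c e : L} (t : ℤ) (hb : Up G u b)
    (hc : Up G (u * G.T b) c) (ha' : S.E u a') (hw : S.E a' (u * G.T b * G.T c)) (hne : u * G.T b ≠ a')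
    (he : S.lab u a' = e) (hce : c = e + t • b) : S.tt u (u * G.T b) (u * G.T b * G.T c) = t := by
  have h1 := S.tt_spec ((hI.E _ _).2 (upEg G hb)) ((hI.E _ _).2 (upEg G hc)) ha' hw hne
  rw [hI.lab _ _ hc, hI.lab _ _ hb, he] at h1
  have h2 : e + S.tt u (u * G.T b) (u * G.T b * G.T c) • b = e + t • b := by rw [← h1, ← hce]
  have h3 := add_left_cancel h2
  have h4 : R.Q (S.tt u (u * G.T b) (u * G.T b * G.T c) • b) b = R.Q (t • b) b := by rw [h3]
  rw [R.Q_smul, R.Q_smul, hb.q] at h4
  linarith

/-- FSFG -/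
theorem fsfg (hq : SqcSt G) (_hl : LbeSt G) : FsfgSt G := by
  intro O S hI h u w
  constructor
  · rintro ⟨h1, h2⟩
    refine ⟨?_, ?_, ?_, ?_⟩
    · rintro b c hb hc q rfl
      have q' : R.Q c b = 0 := by rw [R.Q_comm]; exact q
      have hne : b ≠ c := by
        rintro rfl
        have := hb.q
        omega
      have e1 : u * G.T b * G.T c = u * G.T c * G.T b := by
        rw [mul_assoc, tmul G hb.q hc.q hc.q hb.q (R.sw0 q), mul_assoc]
      have u1 : Up G (u * G.T b) c := upT G hb.q hc.q hc.p q' (e := c) (by module) hc.u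
      have u2 : Up G (u * G.T c) b := upT G hc.q hb.q hb.p q (e := b) (by module) hb.u
      have E2 : S.E (u * G.T c) (u * G.T b * G.T c) := (hI.E _ _).2 (upEg' G u2 e1)
      have hn := T_ne G hb hc hne
      have h3 := h1 (u * G.T b) (u * G.T c) ((hI.E _ _).2 (upEg G hb)) ((hI.E _ _).2 (upEg G u1))
        ((hI.E _ _).2 (upEg G hc)) E2 hn
      rw [tt_val G hI 0 hb u1 ((hI.E _ _).2 (upEg G hc)) E2 hn (hI.lab _ _ hc) (by module)] at h3
      simpa using h3
    · rintro b c hb hc q rfl
      have q' : R.Q c b = -1 := by rw [R.Q_comm]; exact q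
      have hne : b ≠ c := by
        rintro rfl
        have := hb.q
        omega
      obtain ⟨r1, r2, r3, r4⟩ := dih G hb.q hc.q q
      have e1 : u * G.T b * G.T c = u * G.T c * G.T (b + c) := by rw [mul_assoc, r1, mul_assoc]
      have hs := upAdd G hb hc q
      have k2 : R.Q (b + c) c = 1 := by rw [R.Q_add, hc.q, q]; norm_num
      have u1 : Up G (u * G.T b) c := upT G hb.q hc.q hc.p q' (e := b + c) (by module) hs.u
      have u2 : Up G (u * G.T c) (b + c) := upT G hc.q hs.q hs.p k2 (e := b) (by module) hb.u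
      have E1 := (hI.E _ _).2 (upEg G hb)
      have E2 := (hI.E _ _).2 (upEg G hc)
      have E3 := (hI.E _ _).2 (upEg G u1)
      have E4 : S.E (u * G.T c) (u * G.T b * G.T c) := (hI.E _ _).2 (upEg' G u2 e1)
      have hn := T_ne G hb hc hne
      have h3 := h1 _ _ E1 E3 E2 E4 hn
      rw [tt_val G hI 0 hb u1 E2 E4 hn (hI.lab _ _ hc) (by module)] at h3
      have h4 := h1 _ _ E2 E4 E1 E3 hn.symm
      rw [e1] at h4 E3
      rw [tt_val G hI 1 hc u2 E1 E3 hn.symm (hI.lab _ _ hb) (by module)] at h4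
      exact ⟨by simpa using h3, by simpa using h4⟩
    · rintro b c hb hs qc pc hnc q rfl
      have q' : R.Q c b = -1 := by rw [R.Q_comm]; exact q
      obtain ⟨r1, r2, r3, r4⟩ := dih G hb.q qc q
      have hne : b ≠ b + c := by
        intro e
        have : c = 0 := by simpa using e.symm
        exact R.P_ne pc this
      have e1 : u * G.T b * G.T c = u * G.T (b + c) * G.T b := by rw [mul_assoc, r2, mul_assoc]
      have k2 : R.Q b (b + c) = 1 := by rw [R.Q_addr, hb.q, q]; norm_num
      have u1 : Up G (u * G.T b) c := upT G hb.q qc pc q' (e := b + c) (by module) hs.u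
      have u2 : Up G (u * G.T (b + c)) b := upT G hs.q hb.q hb.p k2 (e := -c) (by module) (by rw [map_neg]; exact hnc)
      have E1 := (hI.E _ _).2 (upEg G hb)
      have E2 := (hI.E _ _).2 (upEg G hs)
      have E3 := (hI.E _ _).2 (upEg G u1)
      have E4 : S.E (u * G.T (b + c)) (u * G.T b * G.T c) := (hI.E _ _).2 (upEg' G u2 e1)
      have hn := T_ne G hb hs hne
      have h3 := h1 _ _ E1 E3 E2 E4 hn
      rw [tt_val G hI (-1) hb u1 E2 E4 hn (hI.lab _ _ hs) (by module)] at h3
      have h4 := h1 _ _ E2 E4 E1 E3 hn.symm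
      rw [e1] at h4 E3
      rw [tt_val G hI 0 hs u2 E1 E3 hn.symm (hI.lab _ _ hb) (by module)] at h4
      refine ⟨?_, by simpa using h4⟩
      rw [h3]
      push_cast
      ring
    · rintro b c hb hc q rfl
      have hs := upAdd G hb hc q
      have E3 := (hI.E _ _).2 (upEg G hs)
      exact h2 _ _ ((hI.E _ _).2 (upEg G hb)) ((hI.E _ _).2 (upEg G hc)) E3
        (by rw [hI.lab _ _ hs, hI.lab _ _ hb, hI.lab _ _ hc])
  · intro hG
    refine ⟨?_, ?_⟩
    · intro a a' h1 h2 h3 h4 hne
      obtain ⟨b, hb, rfl⟩ := (hI.E _ _).1 h1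
      obtain ⟨c, hc, rfl⟩ := (hI.E _ _).1 h2
      obtain ⟨b', c', hbb, ub', uc', hw, hcase, huniq⟩ := hq u b c hb hc
      have ha' : a' = u * G.T b' := by
        obtain ⟨b'', hb'', rfl⟩ := (hI.E _ _).1 h3
        obtain ⟨c'', hc'', e''⟩ := (hI.E _ _).1 h4
        rcases huniq b'' c'' hb'' hc'' e'' with h5 | h5
        · rw [h5] at hne
          exact absurd rfl hne
        · rw [h5]
      subst ha'
      have hlb := hI.lab _ _ ub'
      rcases hcase with ⟨q, e1, e2⟩ | ⟨q, e1, e2⟩ | ⟨q, e1, e2, hn⟩ | ⟨q, e1, e2⟩ | ⟨q, e1, e2, hn⟩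
      · subst e1
        rw [tt_val G hI 0 hb hc h3 h4 hne hlb (by module)]
        have := hG.o b b' hb ub' q rfl
        rw [this]
        push_cast
        ring
      · subst e1
        rw [tt_val G hI 0 hb hc h3 h4 hne hlb (by module)]
        have := (hG.a b b' hb ub' q rfl).1
        rw [this]
        push_cast
        ring
      · subst e1
        rw [tt_val G hI (-1) hb hc h3 h4 hne hlb (by module)]
        have := (hG.b b c hb ub' hc.q hc.p hn q rfl).1
        rw [this]
        push_cast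
        ring
      · have q2 : R.Q b' b = -1 := by
          have : R.Q c b = 1 := by rw [R.Q_comm]; exact q
          rw [e1, R.Q_add, hb.q] at this
          linarith
        rw [tt_val G hI 1 hb hc h3 h4 hne hlb (by rw [e1]; module)]
        rw [e2] at hw
        have := (hG.a b' b ub' hb q2 hw).2
        rw [show b' + b = c by rw [e1]; abel] at this
        rw [this]
        push_cast
        ring
      · subst e1
        have q2 : R.Q b' c' = -1 := by
          rw [e2, R.Q_add, ub'.q, R.Q_comm c' b'] at q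
          linarith
        rw [tt_val G hI 0 hb hc h3 h4 hne hlb (by module)]
        have := (hG.b b' c' ub' (by rw [← e2]; exact hb) uc'.q uc'.p hn q2 hw).2
        rw [← e2] at this
        rw [this]
        push_cast
        ring
    · intro a a' h1 h2 h3 h4
      obtain ⟨b, hb, rfl⟩ := (hI.E _ _).1 h1
      obtain ⟨c, hc, rfl⟩ := (hI.E _ _).1 h2
      obtain ⟨d, hd, rfl⟩ := (hI.E _ _).1 h3
      rw [hI.lab _ _ hb, hI.lab _ _ hc, hI.lab _ _ hd] at h4
      subst h4
      exact hG.s b c hb hc (qsum hb.q hc.q hd.q) rfl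

end Pool.Agent.H52.CIC
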