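import Pool.Agent.H52.CIC.StG

/-!
# Project CIC, module FSQ: squares and the transport coefficients
-/

namespace Pool.Agent.H52.CIC

open Pool.Agent.H11.ZDE

variable {B W : Type} [Group W] {M : CoxeterMatrix B} {cs : CoxeterSystem M W}
  {L : Type} [AddCommGroup L] {R : RootLat L} (G : Geo cs R)

theorem fsq (hs : SqcSt G) (hl : LbeSt G) : FsqSt G := by
  intro u a w hua haw
  obtain ⟨b, hb, rfl⟩ := hua
  obtain ⟨c, hc, rfl⟩ := haw
  obtain ⟨b', c', hne, hb', hc', heq, -, huniq⟩ := hs u b c hb hc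
  refine ⟨u * G.T b', ?_, ⟨b', hb', rfl⟩, ⟨c', hc', heq⟩, ?_⟩
  · intro h
    exact hne ((hl u b' hb').2 b hb h)
  · rintro a'' ⟨b'', hb'', rfl⟩ ⟨c'', hc'', h⟩
    rcases huniq b'' c'' hb'' hc'' h with h1 | h1
    · left; rw [h1]
    · right; rw [h1]

theorem ftt (hs : SqcSt G) (hl : LbeSt G) : FttSt G := by
  intro u a a' w hua haw hua' ha'w hne
  obtain ⟨b, hb, rfl⟩ := hua
  obtain ⟨c, hc, rfl⟩ := haw
  obtain ⟨b', c', hbb, hb', hc', heq, hcases, huniq⟩ := hs u b c hb hc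
  obtain ⟨b'', hb'', rfl⟩ := hua'
  obtain ⟨c'', hc'', h⟩ := ha'w
  have hb2 : b'' = b' := by
    rcases huniq b'' c'' hb'' hc'' h with h1 | h1
    · exact absurd (by rw [h1]) hne
    · exact h1
  subst hb2
  rw [(hl u b hb).1, (hl u b'' hb'').1, (hl (u * G.T b) c hc).1]
  rcases hcases with ⟨-, h1, -⟩ | ⟨-, h1, -⟩ | ⟨-, h1, -, -⟩ | ⟨-, h1, -⟩ | ⟨-, h1, -, -⟩
  · exact ⟨0, by rw [h1]; simp⟩
  · exact ⟨0, by rw [h1]; simp⟩
  · exact ⟨-1, by rw [h1]; module⟩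
  · exact ⟨1, by rw [h1]; module⟩
  · exact ⟨0, by rw [h1]; simp⟩

end Pool.Agent.H52.CIC
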