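import Pool.Agent.H52.CIC.SqTwo

/-!
# Project CIC, module FTOP
-/

namespace Pool.Agent.H52.CIC

open Pool.Agent.H11.ZDE Pool.Agent.H11.ZDE.RootLat

section
variable {B W : Type} [Group W] {M : CoxeterMatrix B} {cs : CoxeterSystem M W}
  {L : Type} [AddCommGroup L] {R : RootLat L} (G : Geo cs R)

theorem ftop (hS : SqcSt G) (hL : LbeSt G) : FtopSt G := by
  rintro u _ _ w w' z v ⟨hne, hw, ⟨b, hb, rfl⟩, ⟨b', hb', rfl⟩, h1, h3, h2, h4, h5, h6⟩ h7 h8
  have hbb : b ≠ b' := fun h => hne (by rw [h])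
  obtain ⟨q, hup, rfl⟩ := sqTop G hS hL hb hb' hbb h1 h2 h3 h4 hw h5 h6
  obtain ⟨c, hc, rfl⟩ := h7
  obtain ⟨d, hd, e⟩ := h8
  have hne2 : b + b' ≠ b := by
    intro h
    exact R.P_ne hb'.p (add_eq_left.1 h)
  have q2 : R.Q (b + b') b = 1 := by
    rw [R.Q_add, hb.q, R.Q_comm, q]
    norm_num
  rcases sqTwo G hS hL hup hb hne2 hc hd e with
    ⟨r, y1, y2⟩ | ⟨r, y1, y2⟩ | ⟨r, y1, y2⟩ | ⟨r, y1, y2, y3⟩ | ⟨r, y1, y2, y3⟩
  · omega
  · omega
  · omega
  · have : b' + c = 0 := by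
      have f3 : b + 0 = b + (b' + c) := by
        conv_lhs => rw [add_zero, y1]
        abel
      exact (add_left_cancel f3).symm
    exact R.P_ne (R.P_add hb'.p hc.p) this
  · have : b' = d := add_left_cancel y2
    rw [← this] at y3
    exact R.P_neg hb'.u y3

end

end Pool.Agent.H52.CIC
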