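import Pool.Agent.H52.CIC.StG

/-!
# Project CIC, module FTWO: two elements have at most two common upper neighbours
-/

namespace Pool.Agent.H52.CIC

open Pool.Agent.H11.ZDE

variable {B W : Type} [Group W] {M : CoxeterMatrix B} {cs : CoxeterSystem M W}
  {L : Type} [AddCommGroup L] {R : RootLat L} (G : Geo cs R)

/-- the second label of a path of length two, when the other middle is given -/
theorem sqc_key (hs : SqcSt G) {u : W} {b b' c c' : L} (hb : Up G u b) (hc : Up G (u * G.T b) c)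
    (hb' : Up G u b') (hc' : Up G (u * G.T b') c') (hne : b' ≠ b)
    (h : u * G.T b * G.T c = u * G.T b' * G.T c') :
    (R.Q b b' = 0 ∧ c = b') ∨ (R.Q b b' = -1 ∧ (c = b' ∨ c = b + b')) ∨
      (R.Q b b' = 1 ∧ c = b' - b ∧ R.P (b' - b)) ∨ (R.Q b b' = 1 ∧ c = b' ∧ R.P (b - b')) := by
  obtain ⟨b1, c1, hbb, hb1, hc1, heq, hcases, huniq⟩ := hs u b c hb hc
  have hb2 : b' = b1 := by
    rcases huniq b' c' hb' hc' h with h1 | h1
    · exact absurd h1 hne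
    · exact h1
  subst hb2
  rcases hcases with ⟨h0, h1, h2⟩ | ⟨h0, h1, h2⟩ | ⟨h0, h1, h2, -⟩ | ⟨h0, h1, h2⟩ | ⟨h0, h1, h2, -⟩
  · left
    rw [h1]
    exact ⟨h0, rfl⟩
  · right; left
    rw [h1]
    exact ⟨h0, Or.inl rfl⟩
  · right; right; left
    refine ⟨?_, ?_, ?_⟩
    · rw [h1, R.Q_addr, hb.q, h0]; norm_num
    · rw [h1]; abel
    · rw [h1]
      have : b + c - b = c := by abel
      rw [this]
      exact hc.p
  · right; left
    refine ⟨?_, Or.inr h1⟩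
    rw [h1, R.Q_addr, hb.q] at h0
    linarith
  · right; right; right
    refine ⟨?_, h1.symm, ?_⟩
    · rw [h1]; exact h0
    · have : b - b' = c1 := by rw [h2, h1]; abel
      rw [this]
      exact hc1.p

theorem ftwo (hs : SqcSt G) : FtwoSt G := by
  rintro u a a' w w' w'' ⟨b, hb, rfl⟩ ⟨b', hb', rfl⟩ hne ⟨c, hc, rfl⟩ ⟨d, hd, h⟩ ⟨c', hc', rfl⟩ ⟨d', hd', h'⟩
    ⟨c'', hc'', rfl⟩ ⟨d'', hd'', h''⟩
  have hbb : b' ≠ b := by
    intro e
    exact hne (by rw [e])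
  have k1 := sqc_key G hs hb hc hb' hd hbb h
  have k2 := sqc_key G hs hb hc' hb' hd' hbb h'
  have k3 := sqc_key G hs hb hc'' hb' hd'' hbb h''
  have key : c = c' ∨ c = c'' ∨ c' = c'' := by
    rcases k1 with ⟨q1, e1⟩ | ⟨q1, e1 | e1⟩ | ⟨q1, e1, p1⟩ | ⟨q1, e1, p1⟩ <;>
    rcases k2 with ⟨q2, e2⟩ | ⟨q2, e2 | e2⟩ | ⟨q2, e2, p2⟩ | ⟨q2, e2, p2⟩ <;>
    rcases k3 with ⟨q3, e3⟩ | ⟨q3, e3 | e3⟩ | ⟨q3, e3, p3⟩ | ⟨q3, e3, p3⟩ <;>
    first
    | (left; rw [e1, e2]; done)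
    | (right; left; rw [e1, e3]; done)
    | (right; right; rw [e2, e3]; done)
    | omega
  rcases key with e | e | e
  · left; rw [e]
  · right; left; rw [e]
  · right; right; rw [e]

end Pool.Agent.H52.CIC
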