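import Pool.Agent.H52.CIC.Rel0

/-!
# Project CIC: module GA, generation, first case (helper12)
-/

namespace Pool.Agent.H52.CIC

open Pool.Agent.H11.ZDE Pool.Agent.H11.ZDE.RootLat

section
variable {B W : Type} [Group W] {M : CoxeterMatrix B} {cs : CoxeterSystem M W}
  {L : Type} [AddCommGroup L] {R : RootLat L} {G : Geo cs R}

theorem ga_antisymm {x y : W} (h : Bru cs x y) (h' : Bru cs y x) : x = y := Bru.antisymm h h'

theorem ga (hT : VertSt G) (hM : MirSt G) (hW : WsSt G) (hV : VchSt G) (hE : E1St G) :
    GaSt G := by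
  intro x y i hxy hlen hx hy h hP
  have qa := aQ G i
  have hxys : Bru cs x (y * cs.simple i) := bot_le hx hy hxy
  have hysy : Bru cs (y * cs.simple i) y := by
    have : Up G (y * cs.simple i) (G.α i) := by rw [up_s_iff]; exact hy
    have h1 := this.bru
    rwa [aT, ss] at h1
  have hysb : Up G (y * cs.simple i) (G.α i) := by rw [up_s_iff]; exact hy
  have hys_ne : y * cs.simple i ≠ y := by
    intro e
    rw [e] at hy
    exact lt_irrefl _ hy
  have hF0 : FG G x (y * cs.simple i) h := by
    intro u w hu hw
    refine hP u w hu (bru_tr hw hysy) ?_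
    rintro ⟨-, rfl⟩
    exact hys_ne (ga_antisymm hysy hw)
  obtain ⟨k, hk, hkx, hke⟩ := hE x y i h (h x (G.α i)) hx hy hxys hF0 (fun _ => rfl)
  refine ⟨k, hk, ?_⟩
  let d : W → L → ℝ := fun v c => k v c - h v c
  have hd : ∀ u w, Bru cs x u → Bru cs w y → ¬ (u = x ∧ w = y) → RelG G d u w :=
    fun u w h1 h2 h3 => (hk u w h1 h2).sub (hP u w h1 h2 h3)
  suffices H : ∀ u b, Bru cs x u → Up G u b → Bru cs (u * G.T b) y →
      ¬ (u = x ∧ u * G.T b = y) → d u b = 0 by
    intro u b h1 h2 h3 h4
    exact sub_eq_zero.1 (H u b h1 h2 h3 h4)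
  have dx : d x (G.α i) = 0 := by simp only [d]; rw [hkx, sub_self]
  -- (i)
  have D1 : ∀ u b, Bru cs x u → Up G u b → Bru cs (u * G.T b) (y * cs.simple i) → d u b = 0 := by
    intro u b h1 h2 h3
    simp only [d]
    rw [hke u b h1 h2 h3, sub_self]
  have bot_s : ∀ u, ¬ Up G u (G.α i) → Up G (u * cs.simple i) (G.α i) := by
    intro u hu
    rw [up_s_iff, ← not_up_iff G]; exact hu
  -- (ii)
  have D2 : ∀ u b, Bru cs x u → Up G u b → Bru cs (u * G.T b) y → u * G.T b ≠ y →
      d u b = 0 := by
    intro u b h1 h2 h3 h4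
    by_cases h5 : Bru cs (u * G.T b) (y * cs.simple i)
    · exact D1 u b h1 h2 h5
    obtain ⟨h6, h7⟩ := top_of (G := G) hy h3 h5
    set v := u * G.T b with hv
    have hFv : FG G x v d := by
      intro u' w' hu' hw'
      refine hd u' w' hu' (bru_tr hw' h3) ?_
      rintro ⟨-, rfl⟩
      exact h4 (ga_antisymm h3 hw')
    have hvv : Bru cs (v * cs.simple i) v := by
      have := (bot_s v h6).bru
      rwa [aT, ss] at this
    have hvert : ∀ u', Bru cs x u' → Up G u' (G.α i) → Bru cs (u' * cs.simple i) v →
        d u' (G.α i) = 0 := by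
      intro u' g1 g2 g3
      rw [hV x v i d hx hFv u' g1 g2 g3, dx]
    have e1 := mirT G u i h2.q
    by_cases hu : Up G u (G.α i)
    · by_cases hb : b = G.α i
      · subst hb
        refine hvert u h1 hu ?_
        rw [hv, aT]
        exact bru_rfl _
      · have m1 := h2.mir i hb
        have h8 := hM u b i d hu h2 hb (hFv u _ h1 (bru_rfl _)) (hFv u _ h1 hvv)
        have xs := low_low hx h1
        have z1 : d (u * cs.simple i) (R.r (G.α i) b) = 0 :=
          D1 _ _ xs m1 (by rw [e1]; exact h7)
        have z2 : d u (G.α i) = 0 := hvert u h1 hu (bru_tr m1.bru (by rw [e1]; exact hvv))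
        rw [h8, z1, z2]
        ring
    · have hb : b ≠ G.α i := by
        rintro rfl
        exact hu h2
      have m1 := h2.mir i hb
      have hu' := bot_s u hu
      have xs := low_low hx h1
      have h8 := hM (u * cs.simple i) (R.r (G.α i) b) i d hu' m1 (mir_ne G i h2.p)
        (hFv _ _ xs (by rw [e1]; exact hvv)) (hFv _ _ xs (by rw [e1, ss]; exact bru_rfl _))
      have z1 : d (u * cs.simple i) (R.r (G.α i) b) = 0 :=
        D1 _ _ xs m1 (by rw [e1]; exact h7)
      have z2 : d (u * cs.simple i) (G.α i) = 0 :=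
        hvert _ xs hu' (by rw [ss]; exact h2.bru)
      rw [ss, rr qa, z1, z2] at h8
      linarith
  intro u b h1 h2 h3 h4
  by_cases h5 : u * G.T b = y
  swap
  · exact D2 u b h1 h2 h3 h5
  have hux : u ≠ x := fun e => h4 ⟨e, h5⟩
  have e1 := mirT G u i h2.q
  rw [h5] at e1
  by_cases hu : Up G u (G.α i)
  · by_cases hb : b = G.α i
    · subst hb
      have hu2 : y * cs.simple i = u := by
        rw [← h5, aT, ss]
      have hne : x ≠ y * cs.simple i := by rw [hu2]; exact hux.symm
      obtain ⟨⟨v, c, g1, g2, g3, g4, g5⟩, -⟩ := hW x (y * cs.simple i) i hx hysb hxys hne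
      have hlys : cs.length y = cs.length (y * cs.simple i) + 1 := by
        rcases cs.length_mul_simple y i with h | h <;> omega
      have hvx : v ≠ x := by
        rintro rfl
        omega
      have hvys : v ≠ y * cs.simple i := by
        intro e
        rw [← e] at g5
        omega
      have g4' : v * G.T c = y * cs.simple i := g4.symm
      have h8 := hT v c i d g2 g3 (by rw [g4']; exact hysb)
        (by rw [g4', ss]; exact hd v y g1 (bru_rfl _) (fun e => hvx e.1))
      rw [g4', hu2] at h8
      rw [h8]
      have l1 : Bru cs (v * cs.simple i) y := by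
        refine top_s G hy (bru_tr g3.bru ?_)
        rw [g4']; exact hysy
      refine D2 v (G.α i) g1 g2 (by rw [aT]; exact l1) ?_
      rw [aT]
      intro e
      apply hvys
      rw [← e, ss]
    · have m1 := h2.mir i hb
      have xs := low_low hx h1
      have h8 := hM u b i d hu h2 hb
        (hd u _ h1 h3 (fun e => hux e.1))
        (by rw [h5]; exact hd u _ h1 hysy (fun e => hux e.1))
      have z1 : d (u * cs.simple i) (R.r (G.α i) b) = 0 :=
        D1 _ _ xs m1 (by rw [e1]; exact bru_rfl _)
      have z2 : d u (G.α i) = 0 := by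
        refine D2 u _ h1 hu ?_ ?_
        · rw [aT]
          refine top_s G hy ?_
          rw [← h5]
          exact h2.bru
        · rw [← h5]
          intro e
          exact hb (Pool.Agent.H58.ZDE.T_inj G qa h2.q (aP G i) h2.p (mul_left_cancel e)).symm
      rw [h8, z1, z2]
      ring
  · have hb : b ≠ G.α i := by
      rintro rfl
      exact hu h2
    have m1 := h2.mir i hb
    have hu' := bot_s u hu
    have xs := low_low hx h1
    by_cases hxu : u * cs.simple i = x
    · -- the long edge
      have hl1 : cs.length u = cs.length x + 1 := by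
        have := (not_up_iff G u i).1 hu
        rcases cs.length_mul_simple u i with h | h
        · omega
        · rw [hxu] at h
          omega
      obtain ⟨c, c', qc, pc, qc', pc', ebc, hc, hc'⟩ :=
        Pool.Agent.H58.ZDE.grad G u b h2.q h2.p h2.u (by rw [h5]; omega)
      have hcc : R.Q c c' = -1 := by
        have h1 := h2.q
        rw [ebc, R.Q_add, R.Q_addr, R.Q_addr, qc, qc', R.Q_comm c' c] at h1
        linarith
      have uc : Up G u c := ⟨qc, pc, hc⟩
      have uc' : Up G u c' := ⟨qc', pc', hc'⟩
      obtain ⟨k1, k2, k3⟩ := relS uc uc' hcc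
      rw [← ebc] at k1 k2 k3
      rw [h5] at k2 k3
      have h8 := (hd u y h1 (bru_rfl _) (fun e => hux e.1)).s c c' uc uc' hcc
        (by rw [← ebc, h5])
      have hne : ∀ e e' : L, Up G u e → Up G u e' → b = e + e' → u * G.T e ≠ y := by
        intro e e' he he' hb' hy'
        rw [← h5] at hy'
        have := Pool.Agent.H58.ZDE.T_inj G he.q h2.q he.p h2.p (mul_left_cancel hy')
        rw [hb'] at this
        exact R.P_ne he'.p (by simpa using this)
      rw [ebc, h8, D2 u c h1 uc k2 (hne c c' uc uc' ebc),
        D2 u c' h1 uc' k3 (hne c' c uc' uc (by rw [ebc, add_comm])), add_zero]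
    · have h8 := hM (u * cs.simple i) (R.r (G.α i) b) i d hu' m1 (mir_ne G i h2.p)
        (by rw [e1]; exact hd _ _ xs hysy (fun e => hxu e.1))
        (by rw [e1, ss]; exact hd _ _ xs (bru_rfl _) (fun e => hxu e.1))
      have z1 : d (u * cs.simple i) (R.r (G.α i) b) = 0 :=
        D1 _ _ xs m1 (by rw [e1]; exact bru_rfl _)
      have z2 : d (u * cs.simple i) (G.α i) = 0 := by
        refine D2 _ _ xs hu' ?_ ?_
        · rw [aT, ss]
          refine bru_tr h2.bru ?_
          rw [h5]; exact bru_rfl _
        · rw [aT, ss]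
          intro e
          have := h2.len
          rw [h5, e] at this
          exact lt_irrefl _ this
      rw [ss, rr qa, z1, z2] at h8
      linarith

end

end Pool.Agent.H52.CIC
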