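import Pool.Agent.H3.CIC.Bas

/-!
# Project CIC: module GB1
-/

set_option linter.unusedSimpArgs false

namespace Pool.Agent.H52.CIC

open Pool.Agent.H11.ZDE Pool.Agent.H11.ZDE.RootLat

variable {B W : Type} [Group W] {M : CoxeterMatrix B} {cs : CoxeterSystem M W}
  {L : Type} [AddCommGroup L] {R : RootLat L} (G : Geo cs R)

open G3 in
/-- mirror of a whole relation -/
theorem G3.mir_rel {i : B} {h : W → L → ℝ} {u w : W} (ν : ℝ) (H : RelG G h (u * cs.simple i) (w * cs.simple i))
    (hb : ∀ b, Up G u b → Bru cs (u * G.T b) w → b ≠ G.α i)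
    (hc : ∀ b c, Up G u b → R.P (-(G.ρ u c)) → Up G (u * G.T b) c → w = u * G.T b * G.T c → c ≠ G.α i) :
    RelG G (G3.mir G i ν h) u w := by
  have st : ∀ v c, Up G v c → Bru cs v (v * G.T c) := fun v c h => up_bru G h
  refine ⟨?_, ?_, ?_, ?_⟩
  · intro b c ub uc q e
    have u1 : Up G (u * G.T b) c := by
      refine ⟨uc.q, uc.p, ?_⟩
      rw [rho_Tk G u ub.q c (k := 0) (by rw [R.Q_comm]; exact q)]
      exact R.P_cast uc.u (by congr 1; module)
    have u2 : Up G (u * G.T c) b := by
      refine ⟨ub.q, ub.p, ?_⟩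
      rw [rho_Tk G u uc.q b (k := 0) q]
      exact R.P_cast ub.u (by congr 1; module)
    have e2 : w = u * G.T c * G.T b := by
      rw [e, mul_assoc, mul_assoc, Pool.Agent.H58.ZDE.T_mul_eq G ub.q uc.q uc.q ub.q (R.sw0 q)]
    exact mir_o ν H ub uc q e (hb b ub (by rw [e]; exact st _ _ u1)) (hb c uc (by rw [e2]; exact st _ _ u2))
  · intro b c ub uc q e
    have u1 : Up G (u * G.T b) c := by
      refine ⟨uc.q, uc.p, ?_⟩
      rw [rho_Tk G u ub.q c (k := -1) (by rw [R.Q_comm]; exact q)]
      refine R.P_cast (R.P_add ub.u uc.u) ?_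
      rw [← map_add]; congr 1; module
    have qbc := Pool.Agent.H11.Ism.nadd G ub.q uc.q q
    have u2 : Up G (u * G.T c) (b + c) := by
      refine ⟨qbc, R.P_add ub.p uc.p, ?_⟩
      rw [rho_Tk G u uc.q (b + c) (k := 1) (by rw [R.Q_add, q, uc.q]; norm_num)]
      exact R.P_cast ub.u (by congr 1; module)
    have e2 : w = u * G.T c * G.T (b + c) := by
      rw [e, mul_assoc, mul_assoc, (Pool.Agent.H11.Ism.dih G ub.q uc.q q).1]
    exact mir_a ν H ub uc q e (hb b ub (by rw [e]; exact st _ _ u1)) (hb c uc (by rw [e2]; exact st _ _ u2))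
  · intro b c ub ubc qc pc nc q e
    have u1 : Up G (u * G.T b) c := by
      refine ⟨qc, pc, ?_⟩
      rw [rho_Tk G u ub.q c (k := -1) (by rw [R.Q_comm]; exact q)]
      exact R.P_cast ubc.u (by congr 1; module)
    exact mir_b ν H ub ubc qc pc nc q e (hb b ub (by rw [e]; exact st _ _ u1)) (hc b c ub nc u1 e)
  · intro b c ub uc q e
    have qbc := Pool.Agent.H11.Ism.nadd G ub.q uc.q q
    -- the hexagon below `w`
    have u1 : Up G (u * G.T b) c := by
      refine ⟨uc.q, uc.p, ?_⟩
      rw [rho_Tk G u ub.q c (k := -1) (by rw [R.Q_comm]; exact q)]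
      refine R.P_cast (R.P_add ub.u uc.u) ?_
      rw [← map_add]; congr 1; module
    have u2 : Up G (u * G.T b * G.T c) b := by
      refine ⟨ub.q, ub.p, ?_⟩
      rw [rho_Tk G _ uc.q b (k := -1) q, rho_Tk G u ub.q _ (k := 1)
        (by rw [R.Q_sub, R.Q_smul, R.Q_comm c b, q, ub.q]; norm_num)]
      exact R.P_cast uc.u (by congr 1; module)
    have u3 : Up G (u * G.T c) b := by
      refine ⟨ub.q, ub.p, ?_⟩
      rw [rho_Tk G u uc.q b (k := -1) q]
      refine R.P_cast (R.P_add ub.u uc.u) ?_
      rw [← map_add]; congr 1; module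
    have u4 : Up G (u * G.T c * G.T b) c := by
      refine ⟨uc.q, uc.p, ?_⟩
      rw [rho_Tk G _ ub.q c (k := -1) (by rw [R.Q_comm]; exact q), rho_Tk G u uc.q _ (k := 1)
        (by rw [R.Q_sub, R.Q_smul, q, uc.q]; norm_num)]
      exact R.P_cast ub.u (by congr 1; module)
    obtain ⟨d1, d2, d3, d4⟩ := Pool.Agent.H11.Ism.dih G ub.q uc.q q
    have e1 : u * G.T b * G.T c * G.T b = w := by
      rw [mul_assoc u, d2, ← mul_assoc, Pool.Agent.H11.Ism.TTx G _ ub.q, e]
    have e2 : u * G.T c * G.T b * G.T c = w := by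
      rw [mul_assoc u, d4, ← mul_assoc, Pool.Agent.H11.Ism.TTx G _ uc.q, e]
    exact mir_s ν H ub uc q e (hb b ub (by rw [← e1]; exact (st _ _ u1).trans (st _ _ u2)))
      (hb c uc (by rw [← e2]; exact (st _ _ u3).trans (st _ _ u4)))

open G3 in
theorem gb1 : Gb1St G := by
  intro x y i hxy hl hxs hys hno hG
  have hx : ¬ Up G x (G.α i) := (up_flip G x i).1 hxs
  have hy : ¬ Up G y (G.α i) := (nup_al G y i).2 hys
  -- all elements of `[x, y]` are tops
  have tops : ∀ u, Bru cs x u → Bru cs u y → ¬ Up G u (G.α i) := by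
    intro u h1 h2 h3
    exact hno (h1.trans (lift_bt G h2 h3 hy).1)
  have bots : ∀ u, Bru cs (x * cs.simple i) u → Bru cs u (y * cs.simple i) → Up G u (G.α i) := by
    intro u h1 h2
    by_contra h3
    have h4 := (lift_bt G h1 hxs h3).2
    rw [sss] at h4
    exact hno (h4.trans h2)
  intro h hP
  -- the mirrored function
  have hP' : PFG G (x * cs.simple i) (y * cs.simple i) (mir G i 0 h) := by
    intro u w hu hw hne
    have st : ∀ v c, Up G v c → Bru cs v (v * G.T c) := fun v c h => up_bru G h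
    by_cases huw : Bru cs u w
    · have ubt := bots u hu (huw.trans hw)
      have wbt := bots w (hu.trans huw) hw
      refine mir_rel G 0 ?_ ?_ ?_
      · refine hP _ _ ?_ ?_ ?_
        · have := lift_bb G hu hxs ubt
          rwa [sss] at this
        · have := lift_bb G hw wbt ((up_flip G y i).2 hy)
          rwa [sss] at this
        · rintro ⟨e1, e2⟩
          exact hne ⟨by rw [← e1, sss], by rw [← e2, sss]⟩
      · intro b ub hbw e
        subst e
        have h1 := bots _ (hu.trans (st _ _ ub)) (hbw.trans hw)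
        rw [G.Tα] at h1
        exact (up_flip G u i).1 h1 ubt
      · intro b c ub _ hc e e'
        subst e'
        rw [e, G.Tα] at wbt
        exact (up_flip G _ i).1 wbt hc
    · -- no relation
      have no : ∀ b c, Up G u b → Up G (u * G.T b) c → w = u * G.T b * G.T c → False := by
        intro b c h1 h2 e
        exact huw (by rw [e]; exact (st _ _ h1).trans (st _ _ h2))
      refine ⟨?_, ?_, ?_, ?_⟩
      · intro b c ub uc q e
        refine (no b c ub ⟨uc.q, uc.p, ?_⟩ e).elim
        rw [rho_Tk G u ub.q c (k := 0) (by rw [R.Q_comm]; exact q)]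
        exact R.P_cast uc.u (by congr 1; module)
      · intro b c ub uc q e
        refine (no b c ub ⟨uc.q, uc.p, ?_⟩ e).elim
        rw [rho_Tk G u ub.q c (k := -1) (by rw [R.Q_comm]; exact q)]
        refine R.P_cast (R.P_add ub.u uc.u) ?_
        rw [← map_add]; congr 1; module
      · intro b c ub ubc qc pc nc q e
        refine (no b c ub ⟨qc, pc, ?_⟩ e).elim
        rw [rho_Tk G u ub.q c (k := -1) (by rw [R.Q_comm]; exact q)]
        exact R.P_cast ubc.u (by congr 1; module)
      · intro b c ub uc q e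
        refine (huw ?_).elim
        rw [e]
        refine st _ _ ⟨Pool.Agent.H11.Ism.nadd G ub.q uc.q q, R.P_add ub.p uc.p, ?_⟩
        rw [map_add]; exact R.P_add ub.u uc.u
  obtain ⟨h1, hF, hV⟩ := hG _ hP'
  refine ⟨mir G i 0 h1, ?_, ?_⟩
  · intro u w hu hw
    by_cases huw : Bru cs u w
    · have utp := tops u hu (huw.trans hw)
      have wtp := tops w (hu.trans huw) hw
      refine mir_rel G 0 (hF _ _ (lift_tt G hu hx utp) (lift_tt G hw wtp hy)) ?_ ?_
      · intro b ub _ e
        subst e
        exact utp ub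
      · intro b c ub _ hc e e'
        have h2 := tops _ (hu.trans (up_bru G ub)) ((up_bru G hc).trans (by rw [← e]; exact hw))
        rw [e'] at hc
        exact h2 hc
    · have st : ∀ v c, Up G v c → Bru cs v (v * G.T c) := fun v c h => up_bru G h
      have no : ∀ b c, Up G u b → Up G (u * G.T b) c → w = u * G.T b * G.T c → False := by
        intro b c h1 h2 e
        exact huw (by rw [e]; exact (st _ _ h1).trans (st _ _ h2))
      refine ⟨?_, ?_, ?_, ?_⟩
      · intro b c ub uc q e
        refine (no b c ub ⟨uc.q, uc.p, ?_⟩ e).elim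
        rw [rho_Tk G u ub.q c (k := 0) (by rw [R.Q_comm]; exact q)]
        exact R.P_cast uc.u (by congr 1; module)
      · intro b c ub uc q e
        refine (no b c ub ⟨uc.q, uc.p, ?_⟩ e).elim
        rw [rho_Tk G u ub.q c (k := -1) (by rw [R.Q_comm]; exact q)]
        refine R.P_cast (R.P_add ub.u uc.u) ?_
        rw [← map_add]; congr 1; module
      · intro b c ub ubc qc pc nc q e
        refine (no b c ub ⟨qc, pc, ?_⟩ e).elim
        rw [rho_Tk G u ub.q c (k := -1) (by rw [R.Q_comm]; exact q)]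
        exact R.P_cast ubc.u (by congr 1; module)
      · intro b c ub uc q e
        refine (huw ?_).elim
        rw [e]
        refine st _ _ ⟨Pool.Agent.H11.Ism.nadd G ub.q uc.q q, R.P_add ub.p uc.p, ?_⟩
        rw [map_add]; exact R.P_add ub.u uc.u
  · intro u b hu ub hb hne
    have utp := tops u hu ((up_bru G ub).trans hb)
    have btp := tops _ (hu.trans (up_bru G ub)) hb
    have hba : b ≠ G.α i := by rintro rfl; exact utp ub
    have um := up_mir G hba ub
    have e1 : u * cs.simple i * G.T (R.r (G.α i) b) = u * G.T b * cs.simple i := T_s G u i ub.q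
    have h2 := hV (u * cs.simple i) (R.r (G.α i) b) (lift_tt G hu hx utp) um
      (by rw [e1]; exact lift_tt G hb btp hy) (by
        rintro ⟨e2, e3⟩
        rw [e1] at e3
        apply hne
        exact ⟨mul_right_cancel e2, mul_right_cancel e3⟩)
    unfold mir at h2 ⊢
    rw [h2, rr, sss]
    ring

end Pool.Agent.H52.CIC
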