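import Pool.Agent.H3.CIC.Bas

/-!
# Project CIC: module GENG
-/

set_option linter.unusedSimpArgs false

namespace Pool.Agent.H52.CIC

open Pool.Agent.H11.ZDE Pool.Agent.H11.ZDE.RootLat G3

variable {B W : Type} [Group W] {M : CoxeterMatrix B} {cs : CoxeterSystem M W}
  {L : Type} [AddCommGroup L] {R : RootLat L} (G : Geo cs R)

theorem geng (hA : GaSt G) (h1 : Gb1St G) (h2 : Gb2St G) : GengSt G := by
  intro x y
  induction hn : cs.length y using Nat.strong_induction_on generalizing x y with
  | _ n IH =>
  intro hxy hl
  have hy1 : y ≠ 1 := by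
    rintro rfl
    rw [cs.length_one] at hn
    omega
  obtain ⟨i, hi⟩ := cs.exists_rightDescent_of_ne_one hy1
  have hi' : cs.length (y * cs.simple i) < cs.length y := hi
  have hy : ¬ Up G y (G.α i) := (nup_al G y i).2 hi'
  by_cases hx : Up G x (G.α i)
  · exact hA x y i hxy (by omega) hx hi'
  · have hxs := (up_flip G x i).2 hx
    have hx' := (nup_al G x i).1 hx
    have l1 : cs.length (x * cs.simple i) + 1 = cs.length x := by
      rcases cs.length_mul_simple x i with h | h <;> omega
    have l2 : cs.length (y * cs.simple i) + 1 = cs.length y := by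
      rcases cs.length_mul_simple y i with h | h <;> omega
    have h3 := IH (cs.length (y * cs.simple i)) (by omega) (x * cs.simple i) (y * cs.simple i) rfl
      (lift_tt G hxy hx hy) (by omega)
    by_cases hc : Bru cs x (y * cs.simple i)
    · exact h2 x y i hxy (by omega) hxs hi' hc h3
    · exact h1 x y i hxy (by omega) hxs hi' hc h3

end Pool.Agent.H52.CIC
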