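import Pool.Agent.H45.CIC.Base

/-!
# Module GENW of project CIC: generation for the instance
-/

namespace Pool.Agent.H52.CIC

open Pool.Agent.H11.ZDE Pool.Agent.H11.Ism Pool.Agent.H45.CIC

variable {B W : Type} [Group W] {M : CoxeterMatrix B} {cs : CoxeterSystem M W}
  {L : Type} [AddCommGroup L] {R : RootLat L} (G : Geo cs R)

/-- GENW -/
theorem genw (hgen : GengSt G) (hf : FsfgSt G) : GenwSt G := by
  classical
  intro O S hI x y h hxy hrk hrel
  have hxy' : Bru cs x y := (hI.le _ _).1 hxy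
  have hlen : cs.length x + 4 ≤ cs.length y := by
    rw [← hI.rk, ← hI.rk]; exact hrk
  obtain ⟨k, hk, hke⟩ := hgen x y hxy' hlen (fun v b => h v (v * G.T b)) (by
    intro u w hu hw hne
    exact (hf O S hI h u w).1 (hrel u w ((hI.le _ _).2 hu) ((hI.le _ _).2 hw) hne))
  refine ⟨fun v w => k v (S.lab v w), ?_, ?_⟩
  · rw [mem_FS]
    intro u w hu hw
    rw [hf O S hI]
    have h1 := hk u w ((hI.le _ _).1 hu) ((hI.le _ _).1 hw)
    refine ⟨?_, ?_, ?_, ?_⟩
    · intro b c hb hc q hw
      have q' : R.Q c b = 0 := by rw [R.Q_comm]; exact q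
      have u1 : Up G (u * G.T b) c := upT G hb.q hc.q hc.p q' (e := c) (by module) hc.u
      rw [hI.lab _ _ u1, hI.lab _ _ hc]
      exact h1.o b c hb hc q hw
    · intro b c hb hc q hw
      have q' : R.Q c b = -1 := by rw [R.Q_comm]; exact q
      have hs := upAdd G hb hc q
      have k2 : R.Q (b + c) c = 1 := by rw [R.Q_add, hc.q, q]; norm_num
      have u1 : Up G (u * G.T b) c := upT G hb.q hc.q hc.p q' (e := b + c) (by module) hs.u
      have u2 : Up G (u * G.T c) (b + c) := upT G hc.q hs.q hs.p k2 (e := b) (by module) hb.u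
      rw [hI.lab _ _ u1, hI.lab _ _ hc, hI.lab _ _ u2, hI.lab _ _ hb]
      exact h1.a b c hb hc q hw
    · intro b c hb hs qc pc hnc q hw
      have q' : R.Q c b = -1 := by rw [R.Q_comm]; exact q
      have k2 : R.Q b (b + c) = 1 := by rw [R.Q_addr, hb.q, q]; norm_num
      have u1 : Up G (u * G.T b) c := upT G hb.q qc pc q' (e := b + c) (by module) hs.u
      have u2 : Up G (u * G.T (b + c)) b := upT G hs.q hb.q hb.p k2 (e := -c) (by module)
        (by rw [map_neg]; exact hnc)
      rw [hI.lab _ _ u1, hI.lab _ _ hs, hI.lab _ _ u2, hI.lab _ _ hb]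
      exact h1.b b c hb hs qc pc hnc q hw
    · intro b c hb hc q hw
      have hs := upAdd G hb hc q
      rw [hI.lab _ _ hs, hI.lab _ _ hb, hI.lab _ _ hc]
      exact h1.s b c hb hc q hw
  · intro u w hu hE hw hne
    obtain ⟨b, hb, rfl⟩ := (hI.E _ _).1 hE
    simp only
    rw [hI.lab _ _ hb]
    exact hke u b ((hI.le _ _).1 hu) hb ((hI.le _ _).1 hw) hne

end Pool.Agent.H52.CIC
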