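import Pool.Agent.H11.Ism.Pd
import Pool.Agent.H29.Ism.FinPos
import Pool.Agent.H52.CIC.StG

/-!
# Project CIC, module GEOEX: existence of the geometric representation
-/

namespace Pool.Agent.H52.CIC

open Pool.Agent.H11.ZDE Pool.Agent.H11.ZDE.RootLat Pool.Agent.H29.Ism Pool.Agent.H22.ZDE

/-- the geometric representation exists for finite simply laced Coxeter systems -/
theorem geoex {B W : Type} [Group W] [Finite W] {M : CoxeterMatrix B} (cs : CoxeterSystem M W)
    (sl : SimplyLaced M) : ∃ (L : Type) (_ : AddCommGroup L) (R : RootLat L), Nonempty (Geo cs R) := by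
  classical
  have hfin : Finite B := finite_index cs sl
  have := Fintype.ofFinite B
  have hP : PosDef M := posDef_of_finite cs sl
  have hS : Simp M (RLat hP) (fun i => (Pi.single i 1 : B → ℤ)) :=
    Simp.of_cart rfl hP.sl (fun i j => RLat_Q_single hP i j)
  exact ⟨B → ℤ, inferInstance, RLat hP, ⟨geo cs hS⟩⟩

end Pool.Agent.H52.CIC
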