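import Pool.Agent.H52.CIC.StA
import Pool.Agent.H52.CIC.StB

/-! Module GLOB of project CIC (helper5): glob_mem, fsmono, trv. -/

namespace Pool.Agent.H52.CIC

open Pool.Agent.H11.ZDE

variable {P : Type} {O : Po P} {L : Type} [AddCommGroup L] {R : RootLat L}

theorem glob_mem (S : SLG O R) : GlobSt S := by
  intro x y φ u w _ _
  constructor
  · intro a a' e1 e2 e3 e4 hne
    unfold glob
    rw [S.tt_spec e1 e2 e3 e4 hne, map_add, map_zsmul, zsmul_eq_mul]
  · intro a a' _ _ _ h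
    unfold glob
    rw [h, map_add]

variable [Fintype P]

theorem mem_out {S : SLG O R} {y u a : P} : a ∈ out S y u ↔ S.E u a ∧ O.Le a y := by
  unfold out
  simp

omit [Fintype P] in
theorem fsmono (S : SLG O R) : FsMonoSt S := by
  intro x y u w h hxu hwy hh u' w' hu hw
  exact hh u' w' (O.trans hxu hu) (O.trans hw hwy)

theorem trv (S : SLG O R) : TrvSt S := by
  intro u y a w h hh ha hw h0
  rw [mem_out] at ha hw
  obtain ⟨c, hca, e1, e2, -⟩ := S.sq ha.1 hw.1
  refine ⟨c, mem_out.2 ⟨e1, O.trans (S.E_le e2) hw.2⟩, hca, e2, ?_⟩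
  have := (hh u w (O.refl u) hw.2).1 a c ha.1 hw.1 e1 e2 (Ne.symm hca)
  rw [this, h0]
  ring

end Pool.Agent.H52.CIC
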