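import Pool.Agent.H52.CIC.StA

/-!
# Project CIC: glueing (module GLUE)
-/

namespace Pool.Agent.H52.CIC

open Pool.Agent.H11.ZDE

variable {P : Type} {O : Po P} {L : Type} [AddCommGroup L] {R : RootLat L}

theorem glue_mono (S : SLG O R) {x y u w : P} {h : P → P → ℝ} (hu : O.Le x u) (hw : O.Le w y)
    (hh : h ∈ FS S x y) : h ∈ FS S u w :=
  fun u' w' hu' hw' => hh u' w' (O.trans hu hu') (O.trans hw' hw)

theorem glue_anti (O : Po P) {x y : P} (h1 : O.Le x y) (h2 : O.Le y x) : x = y := by
  by_contra hne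
  have k1 := O.rk_lt h1 hne
  have k2 := O.rk_lt h2 (fun h => hne h.symm)
  omega

theorem glue_rk (O : Po P) {x y : P} (h1 : O.Le x y) : O.rk x ≤ O.rk y := by
  by_cases h : x = y
  · rw [h]
  · exact (O.rk_lt h1 h).le

theorem glue_eq (O : Po P) {x y : P} (h1 : O.Le x y) (h2 : O.rk y ≤ O.rk x) : x = y := by
  by_contra h
  have := O.rk_lt h1 h
  omega

theorem glue_Erk (S : SLG O R) {u w : P} (h : S.E u w) : O.rk u < O.rk w := by
  obtain ⟨k, hk⟩ := S.E_odd h
  omega

theorem glue [Finite P] (S : SLG O R) (hG : GenP S) (hI : InjSt S) : GlueSt S := by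
  classical
  intro x y f hxy hrk H1 H2
  -- choices
  have hB : ∀ w, ∃ b, O.Le w y → w ≠ y → O.Le w b ∧ Cv O b y := by
    intro w
    by_cases h : O.Le w y ∧ w ≠ y
    · obtain ⟨z, h1, h2, h3⟩ := O.down h.1 h.2
      exact ⟨z, fun _ _ => ⟨h1, h2, h3⟩⟩
    · exact ⟨w, fun h1 h2 => absurd ⟨h1, h2⟩ h⟩
  choose B hB using hB
  have hA : ∀ u, ∃ a, O.Le x u → u ≠ x → Cv O x a ∧ O.Le a u := by
    intro u
    by_cases h : O.Le x u ∧ u ≠ x
    · obtain ⟨z, h1, h2, h3⟩ := O.up h.1 (fun e => h.2 e.symm)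
      exact ⟨z, fun _ _ => ⟨⟨h1, h3⟩, h2⟩⟩
    · exact ⟨u, fun h1 h2 => absurd ⟨h1, h2⟩ h⟩
  choose A hA using hA
  have hHB : ∀ b, ∃ h : P → P → ℝ, O.Le x b → Cv O b y → h ∈ FS S x b ∧
      ∀ a, S.E x a → O.Le a b → h x a = f a := by
    intro b
    by_cases h : O.Le x b ∧ Cv O b y
    · obtain ⟨h', h1, h2⟩ := H1 b h.1 h.2
      exact ⟨h', fun _ _ => ⟨h1, h2⟩⟩
    · exact ⟨0, fun h1 h2 => absurd ⟨h1, h2⟩ h⟩
  choose HB hHB using hHB
  have hHA : ∀ a, ∃ h : P → P → ℝ, Cv O x a → O.Le a y → h ∈ FS S a y ∧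
      ∀ w a', S.E a w → O.Le w y → w ≠ y → S.E x a' → S.E a' w →
        a' ≠ a → h a w = f a' + S.tt x a w * f a := by
    intro a
    by_cases h : Cv O x a ∧ O.Le a y
    · obtain ⟨h', h1, h2⟩ := H2 a h.1 h.2
      exact ⟨h', fun _ _ => ⟨h1, h2⟩⟩
    · exact ⟨0, fun h1 h2 => absurd ⟨h1, h2⟩ h⟩
  choose HA hHA using hHA
  let k : P → P → ℝ := fun u w => if w = y then (if u = x then 0 else HA (A u) u y) else HB (B w) u w
  -- P1: independence of the coatom
  have P1 : ∀ b b' u w, Cv O b y → Cv O b' y → O.Le x u → S.E u w → O.Le w b → O.Le w b' →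
      HB b u w = HB b' u w := by
    intro b b' u w hb hb' hu he hw hw'
    have huw := S.E_le he
    have hxw := O.trans hu huw
    obtain ⟨m1, f1⟩ := hHB b (O.trans hxw hw) hb
    obtain ⟨m2, f2⟩ := hHB b' (O.trans hxw hw') hb'
    by_cases hr : O.rk x + 2 ≤ O.rk w
    · apply hI x w (HB b) (HB b') (glue_mono S (O.refl x) hw m1) (glue_mono S (O.refl x) hw' m2) hr
        _ u w hu he (O.refl w)
      intro a ha hal _
      rw [f1 a ha (O.trans hal hw), f2 a ha (O.trans hal hw')]
    · have h1 := glue_Erk S he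
      have h2 := glue_rk O hu
      have h3 : x = u := glue_eq O hu (by omega)
      subst h3
      rw [f1 w he hw, f2 w he hw']
  have kB : ∀ b u w, Cv O b y → O.Le x u → S.E u w → O.Le w b → k u w = HB b u w := by
    intro b u w hb hu he hw
    have hne : w ≠ y := by
      intro h
      rw [h] at hw
      have := glue_rk O hw
      have := hb.2
      omega
    have hwy := O.trans hw hb.1
    have h1 : k u w = HB (B w) u w := by simp [k, hne]
    rw [h1]
    exact P1 _ _ _ _ (hB w hwy hne).2 hb hu he (hB w hwy hne).1 hw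
  -- P2
  have P2a : ∀ a w, Cv O x a → O.Le a y → S.E a w → O.Le w y → w ≠ y → HA a a w = k a w := by
    intro a w ha hay he hwy hne
    obtain ⟨hwb, hb⟩ := hB w hwy hne
    rw [kB (B w) a w hb ha.1 he hwb]
    have hxa := S.E_cov ha.1 ha.2
    obtain ⟨a', h1, h2, h3, -⟩ := S.sq hxa he
    have hxw := O.trans ha.1 (S.E_le he)
    obtain ⟨m1, f1⟩ := hHB (B w) (O.trans hxw hwb) hb
    have hr := (m1 x w (O.refl x) hwb).1 a a' hxa he h2 h3 (fun e => h1 e.symm)
    rw [hr, f1 a' h2 (O.trans (S.E_le h3) hwb), f1 a hxa (O.trans (S.E_le he) hwb)]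
    exact (hHA a ha hay).2 w a' he hwy hne h2 h3 h1
  have P2 : ∀ a u w, Cv O x a → O.Le a y → O.Le a u → S.E u w → O.Le w y → w ≠ y →
      HA a u w = k u w := by
    intro a u w ha hay hau he hwy hne
    by_cases hua : u = a
    · subst hua; exact P2a u w ha hay he hwy hne
    · obtain ⟨hwb, hb⟩ := hB w hwy hne
      have haw := O.trans hau (S.E_le he)
      have hxw := O.trans ha.1 haw
      obtain ⟨m1, f1⟩ := hHB (B w) (O.trans hxw hwb) hb
      rw [kB (B w) u w hb (O.trans ha.1 hau) he hwb]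
      have r1 := glue_Erk S he
      have r2 := O.rk_lt hau (fun e => hua e.symm)
      apply hI a w (HA a) (HB (B w)) (glue_mono S (O.refl a) hwy (hHA a ha hay).1)
        (glue_mono S ha.1 hwb m1) (by omega) _ u w hau he (O.refl w)
      intro a'' he'' hle hne''
      have hny : a'' ≠ y := by
        intro h
        rw [h] at hle
        exact hne (glue_anti O hwy hle)
      rw [P2a a a'' ha hay he'' (O.trans hle hwy) hny]
      exact kB (B w) a a'' hb ha.1 he'' (O.trans hle hwb)
  -- P3
  have P3 : ∀ a a' u, Cv O x a → Cv O x a' → O.Le a u → O.Le a' u → S.E u y →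
      HA a u y = HA a' u y := by
    intro a a' u ha ha' hau hau' he
    have huy := S.E_le he
    have hxu := O.trans ha.1 hau
    by_cases hr : O.rk x + 2 ≤ O.rk u
    · have hc := O.conn hr ha.1 ha.2 hau ha'.1 ha'.2 hau'
      have key : ∀ d, Relation.ReflTransGen (fun c d => O.Le x d ∧ O.rk d = O.rk x + 1 ∧
          ∃ v, O.Le c v ∧ O.Le d v ∧ O.rk v = O.rk x + 2 ∧ O.Le v u) a d →
          (Cv O x d ∧ HA a u y = HA d u y) := by
        intro d hd
        induction hd with
        | refl => exact ⟨ha, rfl⟩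
        | tail h1 h2 ih =>
          rename_i c d
          obtain ⟨hc, hac⟩ := ih
          obtain ⟨q1, q2, v, q3, q4, q5, q6⟩ := h2
          have hd : Cv O x d := ⟨q1, q2⟩
          refine ⟨hd, hac.trans ?_⟩
          have hvy := O.trans q6 huy
          have hcy := O.trans q3 hvy
          have hdy := O.trans q4 hvy
          apply hI v y (HA c) (HA d) (glue_mono S q3 (O.refl y) (hHA c hc hcy).1)
            (glue_mono S q4 (O.refl y) (hHA d hd hdy).1) (by omega) _ u y q6 he (O.refl y)
          intro w hew hwy hne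
          rw [P2 c v w hc hcy q3 hew hwy hne, P2 d v w hd hdy q4 hew hwy hne]
      exact (key a' hc).2
    · have h1 := ha.2
      have h2 := ha'.2
      have h3 : a = u := glue_eq O hau (by omega)
      have h4 : a' = u := glue_eq O hau' (by omega)
      rw [h3, h4]
  -- relations
  have hrel : ∀ u w, O.Le x u → O.Le w y → ¬ (u = x ∧ w = y) → RelP S k u w := by
    intro u w hu hw hne
    by_cases hwy : w = y
    · subst hwy
      have hux : u ≠ x := fun h => hne ⟨h, rfl⟩
      obtain ⟨ha, hau⟩ := hA u hu hux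
      have kA : ∀ c, O.Le (A u) c → S.E c w → k c w = HA (A u) c w := by
        intro c hc hec
        have hxc := O.trans ha.1 hc
        have hcx : c ≠ x := by
          intro h
          rw [h] at hc
          have := glue_rk O hc
          have := ha.2
          omega
        obtain ⟨hac, hacc⟩ := hA c hxc hcx
        have h1 : k c w = HA (A c) c w := by simp [k, hcx]
        rw [h1]
        exact P3 _ _ _ hac ha hacc hc hec
      constructor
      · intro c c' h1 h2 h3 h4 h5
        have hay : O.Le (A u) w := O.trans hau (O.trans (S.E_le h1) (S.E_le h2))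
        have hr := ((hHA (A u) ha hay).1 u w hau (O.refl w)).1 c c' h1 h2 h3 h4 h5
        rw [kA c (O.trans hau (S.E_le h1)) h2]
        have r1 := glue_Erk S h2
        have r2 := glue_Erk S h4
        rw [← P2 (A u) u c' ha hay hau h3 (S.E_le h4) (fun e => by rw [e] at r2; omega)]
        rw [← P2 (A u) u c ha hay hau h1 (S.E_le h2) (fun e => by rw [e] at r1; omega)]
        exact hr
      · intro c c' h1 h2 h3 h4
        have hay : O.Le (A u) w := O.trans hau (S.E_le h3)
        have hr := ((hHA (A u) ha hay).1 u w hau (O.refl w)).2 c c' h1 h2 h3 h4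
        obtain ⟨w1, w2, hx⟩ := S.hx1 h1 h2 h3 h4
        obtain ⟨g1, g2, g3, g4, g5, g6, g7, g8, g9, g10⟩ := hx
        rw [kA u hau h3]
        have r1 := glue_Erk S g5
        have r2 := glue_Erk S g9
        have r3 := glue_Erk S g7
        rw [← P2 (A u) u c' ha hay hau h2 (O.trans (S.E_le g7) (S.E_le g9))
          (fun e => by rw [e] at r3; omega)]
        rw [← P2 (A u) u c ha hay hau h1 (O.trans (S.E_le g5) (S.E_le g9))
          (fun e => by rw [e] at r1; omega)]
        exact hr
    · obtain ⟨hwb, hb⟩ := hB w hw hwy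
      constructor
      · intro c c' h1 h2 h3 h4 h5
        have hxw : O.Le x w := O.trans hu (O.trans (S.E_le h1) (S.E_le h2))
        have hm := (hHB (B w) (O.trans hxw hwb) hb).1
        have hr := (hm u w hu hwb).1 c c' h1 h2 h3 h4 h5
        rw [kB (B w) c w hb (O.trans hu (S.E_le h1)) h2 hwb,
          kB (B w) u c' hb hu h3 (O.trans (S.E_le h4) hwb),
          kB (B w) u c hb hu h1 (O.trans (S.E_le h2) hwb)]
        exact hr
      · intro c c' h1 h2 h3 h4
        have hxw : O.Le x w := O.trans hu (S.E_le h3)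
        have hm := (hHB (B w) (O.trans hxw hwb) hb).1
        have hr := (hm u w hu hwb).2 c c' h1 h2 h3 h4
        obtain ⟨w1, w2, hx⟩ := S.hx1 h1 h2 h3 h4
        obtain ⟨g1, g2, g3, g4, g5, g6, g7, g8, g9, g10⟩ := hx
        rw [kB (B w) u w hb hu h3 hwb,
          kB (B w) u c hb hu h1 (O.trans (S.E_le g5) (O.trans (S.E_le g9) hwb)),
          kB (B w) u c' hb hu h2 (O.trans (S.E_le g7) (O.trans (S.E_le g9) hwb))]
        exact hr
  obtain ⟨h', hm, hv⟩ := hG x y k hxy hrk hrel
  refine ⟨h', hm, ?_⟩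
  intro a hea hay hane
  rw [hv x a (O.refl x) hea hay (fun h => hane h.2)]
  obtain ⟨hwb, hb⟩ := hB a hay hane
  rw [kB (B a) x a hb (O.refl x) hea hwb]
  exact (hHB (B a) (O.trans (S.E_le hea) hwb) hb).2 a hea hwb

end Pool.Agent.H52.CIC
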