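import Pool.Agent.H52.CIC.StA

/-! Module GSY of project CIC (helper95): goodness is symmetric. -/

namespace Pool.Agent.H52.CIC

open Pool.Agent.H11.ZDE

variable {P : Type} {O : Po P} {L L' : Type} [AddCommGroup L] [AddCommGroup L'] {R : RootLat L} {R' : RootLat L'}

theorem gsy (S : SLG O R) (S' : SLG O R') (he : EdgeSt S S') : GsySt S S' := by
  intro x a y hT hG
  obtain ⟨h, hh, hv⟩ := hG
  obtain ⟨h2, hh2, hv2⟩ := (hT (fun w => h a w)).2 ⟨h, hh, fun w _ _ => rfl⟩
  refine ⟨-h2, neg_mem hh2, fun w hw hwy hne => ?_⟩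
  have e1 := hv w ((he a w).1 hw) hwy hne
  have e2 : h2 a w = h a w := hv2 w hw hwy
  show -(h2 a w) = _
  rw [e2, e1]
  simp only [cf]
  ring

end Pool.Agent.H52.CIC
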