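import Pool.Agent.H52.CIC.StA

/-! Module IND2 of project CIC (helper5). -/

namespace Pool.Agent.H52.CIC

open Pool.Agent.H11.ZDE

variable {L : Type} [AddCommGroup L]

/-- pairing with a vector as an additive map to the reals -/
def ind2Q (R : RootLat L) (a : L) : L →+ ℝ where
  toFun v := (R.Q v a : ℝ)
  map_zero' := by rw [R.Q_zl]; simp
  map_add' v w := by rw [R.Q_add]; push_cast; ring

theorem ind2Q_apply (R : RootLat L) (a v : L) : ind2Q R a v = (R.Q v a : ℝ) := rfl

theorem ind2 (R : RootLat L) : Ind2St R := by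
  intro a b ha pa hb pb hab r t
  have hq := R.Q_cases' ha hb pa pb hab
  set q : ℝ := (R.Q a b : ℝ) with hqdef
  have hq2 : 4 - q ^ 2 ≠ 0 := by
    rcases hq with h | h | h <;> rw [hqdef, h] <;> norm_num
  refine ⟨(AddMonoidHom.mulLeft ((2 * r - q * t) / (4 - q ^ 2))).comp (ind2Q R a) +
    (AddMonoidHom.mulLeft ((2 * t - q * r) / (4 - q ^ 2))).comp (ind2Q R b), ?_, ?_⟩
  · simp only [AddMonoidHom.add_apply, AddMonoidHom.comp_apply, AddMonoidHom.coe_mulLeft,
      ind2Q_apply, ha]
    rw [← hqdef]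
    push_cast
    field_simp
    ring
  · simp only [AddMonoidHom.add_apply, AddMonoidHom.comp_apply, AddMonoidHom.coe_mulLeft,
      ind2Q_apply, hb]
    rw [R.Q_comm b a, ← hqdef]
    push_cast
    field_simp
    ring

end Pool.Agent.H52.CIC
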