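import Pool.Agent.H52.CIC.StA

/-! Module IND3 of project CIC (helper95). -/

namespace Pool.Agent.H52.CIC

open Pool.Agent.H11.ZDE

variable {L : Type} [AddCommGroup L]

/-- pairing with a vector as an additive map to the reals -/
def ind3Q (R : RootLat L) (a : L) : L →+ ℝ where
  toFun v := (R.Q v a : ℝ)
  map_zero' := by rw [R.Q_zl]; simp
  map_add' v w := by rw [R.Q_add]; push_cast; ring

theorem ind3Q_apply (R : RootLat L) (a v : L) : ind3Q R a v = (R.Q v a : ℝ) := rfl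

theorem ind3_sum (R : RootLat L) {a b c : L} (ha : R.Q a a = 2) (hb : R.Q b b = 2) (hc : R.Q c c = 2)
    (h1 : R.Q a b = -1) (h2 : R.Q a c = 1) (h3 : R.Q b c = 1) : c = a + b := by
  have h : R.Q (c - (a + b)) (c - (a + b)) = 0 := by
    simp only [R.Q_sub, R.Q_subr, R.Q_add, R.Q_addr, ha, hb, hc, R.Q_comm b a, R.Q_comm c a, R.Q_comm c b,
      h1, h2, h3]
    norm_num
  exact sub_eq_zero.1 (R.eq_zero h)

theorem ind3 (R : RootLat L) : Ind3St R := by
  intro a b c ha pa hb pb hc pc hab hac hbc n1 n2 n3 r t v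
  have hq1 := R.Q_cases' ha hb pa pb hab
  have hq2 := R.Q_cases' ha hc pa pc hac
  have hq3 := R.Q_cases' hb hc pb pc hbc
  have e1 : ¬ (R.Q a b = -1 ∧ R.Q a c = -1 ∧ R.Q b c = -1) := fun h =>
    R.no_triangle ha hb hc pa pb pc h.1 h.2.2 h.2.1
  have e2 : ¬ (R.Q a b = -1 ∧ R.Q a c = 1 ∧ R.Q b c = 1) := fun h =>
    n3 (ind3_sum R ha hb hc h.1 h.2.1 h.2.2)
  have e3 : ¬ (R.Q a b = 1 ∧ R.Q a c = -1 ∧ R.Q b c = 1) := fun h =>
    n2 (ind3_sum R ha hc hb h.2.1 h.1 (by rw [R.Q_comm, h.2.2]))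
  have e4 : ¬ (R.Q a b = 1 ∧ R.Q a c = 1 ∧ R.Q b c = -1) := fun h =>
    n1 (ind3_sum R hb hc ha h.2.2 (by rw [R.Q_comm, h.1]) (by rw [R.Q_comm, h.2.1]))
  set p : ℝ := (R.Q a b : ℝ) with hp
  set q : ℝ := (R.Q a c : ℝ) with hq
  set s : ℝ := (R.Q b c : ℝ) with hs
  set D : ℝ := 8 + 2 * p * q * s - 2 * (p ^ 2 + q ^ 2 + s ^ 2) with hD
  have hD0 : D ≠ 0 := by
    rcases hq1 with h1 | h1 | h1 <;> rcases hq2 with h2 | h2 | h2 <;> rcases hq3 with h3 | h3 | h3 <;>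
      first
        | (exfalso; omega)
        | (rw [hD, hp, hq, hs, h1, h2, h3]; norm_num)
  have hba : (R.Q b a : ℝ) = p := by rw [R.Q_comm b a]
  have hca : (R.Q c a : ℝ) = q := by rw [R.Q_comm c a]
  have hcb : (R.Q c b : ℝ) = s := by rw [R.Q_comm c b]
  have haa : (R.Q a a : ℝ) = 2 := by rw [ha]; norm_num
  have hbb : (R.Q b b : ℝ) = 2 := by rw [hb]; norm_num
  have hcc : (R.Q c c : ℝ) = 2 := by rw [hc]; norm_num
  refine ⟨(AddMonoidHom.mulLeft (((4 - s ^ 2) * r + (q * s - 2 * p) * t + (p * s - 2 * q) * v) / D)).comp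
      (ind3Q R a) +
    (AddMonoidHom.mulLeft (((q * s - 2 * p) * r + (4 - q ^ 2) * t + (p * q - 2 * s) * v) / D)).comp
      (ind3Q R b) +
    (AddMonoidHom.mulLeft (((p * s - 2 * q) * r + (p * q - 2 * s) * t + (4 - p ^ 2) * v) / D)).comp
      (ind3Q R c), ?_, ?_, ?_⟩
  · simp only [AddMonoidHom.add_apply, AddMonoidHom.comp_apply, AddMonoidHom.coe_mulLeft,
      ind3Q_apply, haa]
    rw [← hp, ← hq]
    field_simp
    rw [hD]
    ring
  · simp only [AddMonoidHom.add_apply, AddMonoidHom.comp_apply, AddMonoidHom.coe_mulLeft,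
      ind3Q_apply, hbb, hba]
    rw [← hs]
    field_simp
    rw [hD]
    ring
  · simp only [AddMonoidHom.add_apply, AddMonoidHom.comp_apply, AddMonoidHom.coe_mulLeft,
      ind3Q_apply, hcc, hca, hcb]
    field_simp
    rw [hD]
    ring

end Pool.Agent.H52.CIC
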