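import Pool.Agent.H52.CIC.StA

/-! Module INJ of project CIC. -/

namespace Pool.Agent.H52.CIC

open Pool.Agent.H11.ZDE

variable {P : Type} {O : Po P} {L : Type} [AddCommGroup L] {R : RootLat L}

theorem inj_E_lt (S : SLG O R) {u w : P} (h : S.E u w) : O.rk u < O.rk w := by
  obtain ⟨k, hk⟩ := S.E_odd h
  omega

theorem inj_Le_rk {u w : P} (h : O.Le u w) : O.rk u ≤ O.rk w := by
  by_cases e : u = w
  · rw [e]
  · exact (O.rk_lt h e).le

/-- the values at the bottom agree, also at the top element -/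
theorem inj_bot (S : SLG O R) {x y : P} {h h' : P → P → ℝ} (hh : h ∈ FS S x y)
    (hh' : h' ∈ FS S x y) (hr : O.rk x + 2 ≤ O.rk y)
    (he : ∀ a, S.E x a → O.Le a y → a ≠ y → h x a = h' x a) :
    ∀ a, S.E x a → O.Le a y → h x a = h' x a := by
  intro w hw hwy
  by_cases e : w = y
  · subst e
    obtain ⟨a, a', v, v', hx⟩ := S.st hw (by omega)
    have h2 := (S.hx2 hx).2
    obtain ⟨e1, e2, e3, e4, e5, e6, e7, e8, e9, e10⟩ := hx
    have r1 := (hh x w (O.refl x) hwy).2 a a' e3 e4 hw h2
    have r2 := (hh' x w (O.refl x) hwy).2 a a' e3 e4 hw h2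
    have la : O.Le a w := O.trans (S.E_le e5) (S.E_le e9)
    have la' : O.Le a' w := O.trans (S.E_le e7) (S.E_le e9)
    have na : a ≠ w := by
      rintro rfl
      have := inj_E_lt S e5
      have := inj_E_lt S e9
      omega
    have na' : a' ≠ w := by
      rintro rfl
      have := inj_E_lt S e7
      have := inj_E_lt S e9
      omega
    rw [r1, r2, he a e3 la na, he a' e4 la' na']
  · exact he w hw hwy e

theorem inj_aux (S : SLG O R) (y : P) (n : ℕ) : ∀ x h h', h ∈ FS S x y → h' ∈ FS S x y →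
    O.rk y = O.rk x + 2 + n →
    (∀ a, S.E x a → O.Le a y → a ≠ y → h x a = h' x a) →
    ∀ u w, O.Le x u → S.E u w → O.Le w y → h u w = h' u w := by
  induction n with
  | zero =>
    intro x h h' hh hh' hr he u w hu hE hw
    have hbot := inj_bot S hh hh' (by omega) he
    by_cases hux : x = u
    · subst hux
      exact hbot w hE hw
    · have h1 := O.rk_lt hu hux
      have h2 := inj_E_lt S hE
      have h3 := inj_Le_rk hw
      have h4 : O.rk u = O.rk x + 1 := by omega
      have hxu := S.E_cov hu h4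
      obtain ⟨a', ha', e1, e2, -⟩ := S.sq hxu hE
      have r1 := (hh x w (O.refl x) hw).1 u a' hxu hE e1 e2 (Ne.symm ha')
      have r2 := (hh' x w (O.refl x) hw).1 u a' hxu hE e1 e2 (Ne.symm ha')
      rw [r1, r2, hbot a' e1 (O.trans (S.E_le e2) hw), hbot u hxu (O.trans (S.E_le hE) hw)]
  | succ n ih =>
    intro x h h' hh hh' hr he u w hu hE hw
    have hbot := inj_bot S hh hh' (by omega) he
    by_cases hux : x = u
    · subst hux
      exact hbot w hE hw
    · obtain ⟨a, hxa, hau, hra⟩ := O.up hu hux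
      have hEa := S.E_cov hxa hra
      have hEuy : O.Le u y := O.trans (S.E_le hE) hw
      have hay : O.Le a y := O.trans hau hEuy
      have hat : ∀ w', S.E a w' → O.Le w' y → h a w' = h' a w' := by
        intro w' hE' hw'
        obtain ⟨a', ha', e1, e2, -⟩ := S.sq hEa hE'
        have r1 := (hh x w' (O.refl x) hw').1 a a' hEa hE' e1 e2 (Ne.symm ha')
        have r2 := (hh' x w' (O.refl x) hw').1 a a' hEa hE' e1 e2 (Ne.symm ha')
        rw [r1, r2, hbot a' e1 (O.trans (S.E_le e2) hw'), hbot a hEa hay]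
      have m1 : h ∈ FS S a y := fun u' w' h1 h2 => hh u' w' (O.trans hxa h1) h2
      have m2 : h' ∈ FS S a y := fun u' w' h1 h2 => hh' u' w' (O.trans hxa h1) h2
      exact ih a h h' m1 m2 (by omega) (fun b hb1 hb2 _ => hat b hb1 hb2) u w hau hE hw

theorem inj (S : SLG O R) : InjSt S := by
  intro x y h h' hh hh' hr he u w hu hE hw
  obtain ⟨n, hn⟩ := Nat.exists_eq_add_of_le hr
  exact inj_aux S y n x h h' hh hh' hn he u w hu hE hw

end Pool.Agent.H52.CIC
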