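import Pool.Agent.H52.CIC.StG
import Pool.Agent.H11.Ism.GeoB

/-!
# Project CIC, module INST: the Bruhat graph is a simply laced labelled graph
-/

namespace Pool.Agent.H52.CIC

open Pool.Agent.H11.ZDE Pool.Agent.H11.Ism

variable {B W : Type} [Group W] {M : CoxeterMatrix B} {cs : CoxeterSystem M W}
  {L : Type} [AddCommGroup L] {R : RootLat L} (G : Geo cs R)

theorem inst_spec {u w : W} (h : Eg G u w) : Up G u (lb G u w) ∧ w = u * G.T (lb G u w) := by
  classical
  have h' : ∃ b, Up G u b ∧ w = u * G.T b := h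
  have : lb G u w = h'.choose := by
    unfold lb
    rw [dif_pos h']
  rw [this]
  exact h'.choose_spec

/-- the graded poset -/
noncomputable def instPo (hc : ConnSt cs) (he : Eul4St cs) : Po W where
  Le := Bru cs
  rk := cs.length
  refl _ := Relation.ReflTransGen.refl
  trans h1 h2 := h1.trans h2
  rk_lt h hne := (Pool.Agent.H58.ZDE.bru_len h).resolve_left hne
  up h hne := (exists_covers G h hne).1
  down h hne := (exists_covers G h hne).2
  conn {x y a b} h0 h1 h2 h3 h4 h5 h6 := hc x y a b h0 h1 h2 h3 h4 h5 h6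
  euler {x y} h1 h2 := he x y h1 h2

theorem inst_cov {u w : W} (h : Bru cs u w) (hl : cs.length w = cs.length u + 1) : Eg G u w := by
  obtain ⟨b, hb, pb, rfl⟩ := cov_root G h hl
  exact ⟨b, ⟨hb, pb, (pos_iff G u hb pb).2 (by omega)⟩, rfl⟩

open Classical in
/-- the coefficients -/
noncomputable def instTt (u a w : W) : ℤ :=
  if h : ∃ t : ℤ, ∃ a', Eg G u a ∧ Eg G a w ∧ Eg G u a' ∧ Eg G a' w ∧ a ≠ a' ∧
    lb G a w = lb G u a' + t • lb G u a then h.choose else 0

theorem instTt_spec (hsq : FsqSt G) (htt : FttSt G) {u a a' w : W} (e1 : Eg G u a) (e2 : Eg G a w)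
    (e3 : Eg G u a') (e4 : Eg G a' w) (hne : a ≠ a') :
    lb G a w = lb G u a' + instTt G u a w • lb G u a := by
  classical
  have h : ∃ t : ℤ, ∃ a', Eg G u a ∧ Eg G a w ∧ Eg G u a' ∧ Eg G a' w ∧ a ≠ a' ∧
      lb G a w = lb G u a' + t • lb G u a := by
    obtain ⟨t, ht⟩ := htt u a a' w e1 e2 e3 e4 hne
    exact ⟨t, a', e1, e2, e3, e4, hne, ht⟩
  have h2 : instTt G u a w = h.choose := by
    unfold instTt
    rw [dif_pos h]
  rw [h2]
  obtain ⟨a0, -, -, f3, f4, f5, f6⟩ := h.choose_spec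
  obtain ⟨a1, -, -, -, hu⟩ := hsq u a w e1 e2
  have g1 : a' = a1 := (hu a' e3 e4).resolve_left hne.symm
  have g2 : a0 = a1 := (hu a0 f3 f4).resolve_left f5.symm
  rw [g1, ← g2]
  exact f6

/-- the labelled graph -/
noncomputable def instS (hpar : ParSt G) (hsq : FsqSt G) (htt : FttSt G)
    (htwo : FtwoSt G) (hone : FoneSt G) (hst : FstSt G) (h1 : Fhx1St G) (h2 : Fhx2St G)
    (htop : FtopSt G) (hns : Fns3St G) (hc : ConnSt cs) (he : Eul4St cs) :
    SLG (instPo G hc he) R where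
  E := Eg G
  lab := lb G
  tt := instTt G
  E_le := by
    rintro u w ⟨b, hb, rfl⟩
    exact Pool.Agent.H58.ZDE.bru_step G hb.q hb.p hb.u
  E_odd := by
    rintro u w ⟨b, hb, rfl⟩
    exact hpar u b hb
  E_cov := fun h hl => inst_cov G h hl
  lab_root := fun h => ⟨(inst_spec G h).1.q, (inst_spec G h).1.p⟩
  lab_inj := by
    intro u v w hv hw h
    rw [(inst_spec G hv).2, (inst_spec G hw).2, h]
  sq := fun e1 e2 => hsq _ _ _ e1 e2
  tt_spec := fun e1 e2 e3 e4 hne => instTt_spec G hsq htt e1 e2 e3 e4 hne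
  two := fun a b c d e f g h i => htwo _ _ _ _ _ _ a b c d e f g h i
  one := fun a b c d e f g h i j k l => hone _ _ _ _ _ _ _ a b c d e f g h i j k l
  st := fun h hl => hst _ _ h hl
  hx1 := fun a b c d => h1 _ _ _ _ a b c d
  hx2 := fun h => h2 _ _ _ _ _ _ h
  top := fun h e => htop _ _ _ _ _ _ _ h e
  ns3 := fun a b c d e => hns _ _ _ _ _ a b c d e

/-- INST -/
theorem inst [Finite W] (hlbe : LbeSt G) (hpar : ParSt G) (hsq : FsqSt G) (htt : FttSt G)
    (htwo : FtwoSt G) (hone : FoneSt G) (hst : FstSt G) (h1 : Fhx1St G) (h2 : Fhx2St G)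
    (htop : FtopSt G) (hns : Fns3St G) (hc : ConnSt cs) (he : Eul4St cs) : InstSt G :=
  ⟨instPo G hc he, instS G hpar hsq htt htwo hone hst h1 h2 htop hns hc he,
    ⟨fun _ _ => Iff.rfl, fun _ => rfl, fun _ _ => Iff.rfl, fun u b hb => (hlbe u b hb).1⟩⟩

end Pool.Agent.H52.CIC
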