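import Pool.Agent.H52.CIC.StB

/-! Module J1 of project CIC (helper5). -/

namespace Pool.Agent.H52.CIC

open Pool.Agent.H11.ZDE Polynomial

variable {P : Type} [Fintype P] {O : Po P} {L : Type} [AddCommGroup L] {R : RootLat L}

theorem j1_out {S : SLG O R} {y u a : P} : a ∈ out S y u ↔ S.E u a ∧ O.Le a y := by
  unfold out
  simp

omit [Fintype P] in
/-- the functions of the step formula do not depend on the multiple of g -/
theorem j1_fun (μ g : P → P → ℝ) (a b : P) (e : ℝ) (hg : g a b ≠ 0) :
    (μ + e • g) - ((μ + e • g) a b / g a b) • g = μ - (μ a b / g a b) • g := by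
  funext u w
  simp only [Pi.sub_apply, Pi.add_apply, Pi.smul_apply, smul_eq_mul]
  field_simp
  ring

theorem j1 (S : SLG O R) (ht : TiegSt S) : J1St S := by
  classical
  intro y φ a w μ kp km hay hφ hw hμ hμw hμb hkp hkm hsg hkpw hkmw
  obtain ⟨g, hgp, hgt⟩ := ht a y {μ}
  have hgt' := hgt μ (Finset.mem_singleton_self μ)
  have hane : a ≠ y := by
    rintro rfl
    have h1 := j1_out.1 hw
    obtain ⟨k, hk⟩ := S.E_odd h1.1
    by_cases h : w = a
    · subst h
      omega
    · have := O.rk_lt h1.2 h
      omega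
  -- choice of epsilon
  obtain ⟨e, he, hes⟩ : ∃ e : ℝ, 0 < e ∧ ∀ b ∈ out S y a, b ≠ w → e * g a b < |μ a b| := by
    have : ∀ s : Finset P, (∀ b ∈ s, b ∈ out S y a ∧ b ≠ w) →
        ∃ e : ℝ, 0 < e ∧ ∀ b ∈ s, e * g a b < |μ a b| := by
      intro s
      induction s using Finset.induction_on with
      | empty => exact fun _ => ⟨1, one_pos, fun b hb => absurd hb (Finset.notMem_empty b)⟩
      | insert c s _ ih =>
        intro hs
        obtain ⟨e, he, hes⟩ := ih (fun b hb => hs b (Finset.mem_insert_of_mem hb))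
        obtain ⟨hc, hcw⟩ := hs c (Finset.mem_insert_self c s)
        have hgc := hgp.pos c hc
        have hmc : 0 < |μ a c| := abs_pos.2 (hμb c hc hcw)
        refine ⟨min e (|μ a c| / (2 * g a c)), lt_min he (by positivity), ?_⟩
        intro b hb
        rcases Finset.mem_insert.1 hb with rfl | hb
        · calc min e (|μ a b| / (2 * g a b)) * g a b ≤ (|μ a b| / (2 * g a b)) * g a b :=
                mul_le_mul_of_nonneg_right (min_le_right _ _) hgc.le
            _ = |μ a b| / 2 := by field_simp
            _ < |μ a b| := by linarith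
        · have hgb := hgp.pos b (hs b (Finset.mem_insert_of_mem hb)).1
          exact lt_of_le_of_lt (mul_le_mul_of_nonneg_right (min_le_left _ _) hgb.le) (hes b hb)
    obtain ⟨e, he, hes⟩ := this ((out S y a).filter (fun b => b ≠ w)) (fun b hb => by
      rw [Finset.mem_filter] at hb
      exact hb)
    exact ⟨e, he, fun b hb hbw => hes b (Finset.mem_filter.2 ⟨hb, hbw⟩)⟩
  -- the functions for +e and -e
  have hmem : ∀ c : ℝ, μ + c • g ∈ FS S a y := fun c =>
    Submodule.add_mem _ hμ (Submodule.smul_mem _ c hgp.mem)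
  have hval : ∀ (c : ℝ) (b : P), (μ + c • g) a b = μ a b + c * g a b := fun c b => rfl
  have hsign : ∀ c : ℝ, |c| = e → ∀ b ∈ out S y a, b ≠ w →
      ((μ + c • g) a b ≠ 0 ∧ (0 < (μ + c • g) a b ↔ 0 < μ a b)) := by
    intro c hc b hb hbw
    have h1 := hes b hb hbw
    have hgb := hgp.pos b hb
    have h2 : |c * g a b| < |μ a b| := by
      rw [abs_mul, hc, abs_of_pos hgb]
      exact h1
    rw [hval]
    have h3 := abs_lt.1 h2
    rcases lt_or_gt_of_ne (hμb b hb hbw) with h | h
    · rw [abs_of_neg h] at h3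
      refine ⟨by linarith, ⟨fun h4 => by linarith, fun h4 => by linarith⟩⟩
    · rw [abs_of_pos h] at h3
      refine ⟨by linarith, ⟨fun _ => h, fun _ => by linarith⟩⟩
  have hTF : ∀ c : ℝ, TF S y a (μ + c • g) g := by
    intro c b hb d hd hbd
    rw [hval, hval]
    have hne : μ a b ≠ 0 ∨ μ a d ≠ 0 := by
      by_cases hbw : b = w
      · right
        exact hμb d hd (fun h => hbd (hbw.trans h.symm))
      · left
        exact hμb b hb hbw
    have := hgt' b hb d hd hbd hne
    intro h
    apply this
    linear_combination h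
  have hgw := hgp.pos w hw
  have hGn : ∀ c : ℝ, |c| = e → Gn S y a (μ + c • g) := by
    intro c hc
    refine ⟨hmem c, fun b hb => ?_⟩
    by_cases hbw : b = w
    · subst hbw
      rw [hval, hμw, zero_add]
      refine mul_ne_zero ?_ hgw.ne'
      intro h0
      rw [h0, abs_zero] at hc
      linarith
    · exact (hsign c hc b hb hbw).1
  have hep : |e| = e := abs_of_pos he
  have hem : |-e| = e := by rw [abs_neg, hep]
  have s1 : φ a kp = φ a (μ + e • g) := by
    refine hφ.sign _ _ hkp (hGn e hep) fun b hb => ?_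
    by_cases hbw : b = w
    · subst hbw
      rw [hval, hμw, zero_add]
      exact ⟨fun _ => mul_pos he hgw, fun _ => hkpw⟩
    · rw [(hsg b hb hbw).1, (hsign e hep b hb hbw).2]
  have s2 : φ a km = φ a (μ + (-e) • g) := by
    refine hφ.sign _ _ hkm (hGn (-e) hem) fun b hb => ?_
    by_cases hbw : b = w
    · subst hbw
      rw [hval, hμw, zero_add]
      have : 0 < e * g a b := mul_pos he hgw
      exact ⟨fun h => by linarith, fun h => by linarith⟩
    · rw [(hsg b hb hbw).2, (hsign (-e) hem b hb hbw).2]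
  rw [s1, s2, hφ.step hane _ g (hGn e hep) hgp (hTF e), hφ.step hane _ g (hGn (-e) hem) hgp (hTF (-e)),
    ← mul_add]
  congr 1
  unfold Zs
  have f1 : (out S y a).filter (fun b => 0 < (μ + e • g) a b) =
      insert w ((out S y a).filter (fun b => 0 < (μ + (-e) • g) a b)) := by
    ext b
    rw [Finset.mem_insert, Finset.mem_filter, Finset.mem_filter]
    constructor
    · rintro ⟨h1, h2⟩
      by_cases hbw : b = w
      · exact Or.inl hbw
      · right
        refine ⟨h1, ?_⟩
        rw [(hsign (-e) hem b h1 hbw).2, ← (hsign e hep b h1 hbw).2]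
        exact h2
    · rintro (rfl | ⟨h1, h2⟩)
      · refine ⟨hw, ?_⟩
        rw [hval, hμw, zero_add]
        exact mul_pos he hgw
      · by_cases hbw : b = w
        · subst hbw
          refine ⟨hw, ?_⟩
          rw [hval, hμw, zero_add]
          exact mul_pos he hgw
        · refine ⟨h1, ?_⟩
          rw [(hsign e hep b h1 hbw).2, ← (hsign (-e) hem b h1 hbw).2]
          exact h2
  have hnot : w ∉ (out S y a).filter (fun b => 0 < (μ + (-e) • g) a b) := by
    rw [Finset.mem_filter]
    rintro ⟨-, h2⟩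
    rw [hval, hμw, zero_add] at h2
    have : 0 < e * g a w := mul_pos he hgw
    linarith
  have hsum1 : ∑ b ∈ (out S y a).filter (fun b => 0 < (μ + e • g) a b),
      φ b ((μ + e • g) - ((μ + e • g) a b / g a b) • g) =
      ∑ b ∈ (out S y a).filter (fun b => 0 < (μ + e • g) a b), φ b (μ - (μ a b / g a b) • g) := by
    refine Finset.sum_congr rfl fun b hb => ?_
    rw [j1_fun μ g a b e (hgp.pos b (Finset.mem_filter.1 hb).1).ne']
  have hsum2 : ∑ b ∈ (out S y a).filter (fun b => 0 < (μ + (-e) • g) a b),
      φ b ((μ + (-e) • g) - ((μ + (-e) • g) a b / g a b) • g) =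
      ∑ b ∈ (out S y a).filter (fun b => 0 < (μ + (-e) • g) a b),
        φ b (μ - (μ a b / g a b) • g) := by
    refine Finset.sum_congr rfl fun b hb => ?_
    rw [j1_fun μ g a b (-e) (hgp.pos b (Finset.mem_filter.1 hb).1).ne']
  have hμ0 : μ - (μ a w / g a w) • g = μ := by
    rw [hμw]
    simp
  calc _ = ∑ b ∈ (out S y a).filter (fun b => 0 < (μ + e • g) a b),
        φ b (μ - (μ a b / g a b) • g) := by
        convert hsum1 using 1
    _ = φ w μ + ∑ b ∈ (out S y a).filter (fun b => 0 < (μ + (-e) • g) a b),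
        φ b (μ - (μ a b / g a b) • g) := by
        rw [f1, Finset.sum_insert hnot, hμ0]
    _ = _ := by
        rw [add_comm]
        congr 1
        convert hsum2.symm using 1

end Pool.Agent.H52.CIC
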