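import Pool.Agent.H52.CIC.StA
import Pool.Agent.H52.CIC.StB

/-!
# Project CIC: module J2 (crossing of two edges)
-/

namespace Pool.Agent.H52.CIC

open Pool.Agent.H11.ZDE Polynomial

/-- finitely many strict inequalities at zero stay true for small positive numbers -/
theorem j2_small {ι : Type*} (s : Finset ι) (A B : ι → ℝ) (hB : ∀ i ∈ s, 0 < B i) :
    ∃ ε : ℝ, 0 < ε ∧ ∀ i ∈ s, ε * A i < B i := by
  have h : ∀ᶠ ε in nhdsWithin (0 : ℝ) (Set.Ioi 0), ∀ i ∈ s, ε * A i < B i := by
    rw [Filter.eventually_all_finset]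
    intro i hi
    have ht : Filter.Tendsto (fun ε : ℝ => ε * A i) (nhdsWithin (0 : ℝ) (Set.Ioi 0)) (nhds 0) := by
      have : Filter.Tendsto (fun ε : ℝ => ε * A i) (nhds 0) (nhds (0 * A i)) :=
        (continuous_id.mul continuous_const).tendsto 0
      rw [zero_mul] at this
      exact this.mono_left nhdsWithin_le_nhds
    exact ht.eventually_lt_const (hB i hi)
  obtain ⟨ε, h1, h2⟩ := (h.and self_mem_nhdsWithin).exists
  exact ⟨ε, h2, h1⟩

variable {P : Type} [Fintype P] {O : Po P} {L : Type} [AddCommGroup L] {R : RootLat L}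

theorem j2_out (S : SLG O R) (y u v : P) : v ∈ out S y u ↔ S.E u v ∧ O.Le v y := by
  simp [out]

theorem j2_Zs (S : SLG O R) (y u : P) (φ : P → (P → P → ℝ) → Polynomial ℤ) (f g : P → P → ℝ) :
    Zs S y u φ f g = ∑ a ∈ out S y u, if 0 < f u a then φ a (f - (f u a / g u a) • g) else 0 := by
  classical
  unfold Zs
  rw [Finset.sum_filter]

theorem j2_uniq (S : SLG O R) {u a w c c' : P} (h1 : S.E u a) (h2 : S.E a w) (hc : S.E u c)
    (hc2 : S.E c w) (hc' : S.E u c') (hc2' : S.E c' w) (n : c ≠ a) (n' : c' ≠ a) : c = c' := by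
  obtain ⟨a', _, _, _, hu⟩ := S.sq h1 h2
  rcases hu c hc hc2 with h | h
  · exact absurd h n
  · rcases hu c' hc' hc2' with h' | h'
    · exact absurd h' n'
    · rw [h, h']

theorem j2_mono (S : SLG O R) {x u y : P} {h : P → P → ℝ} (hx : h ∈ FS S x y) (hu : O.Le x u) :
    h ∈ FS S u y := fun v w hv hw => hx v w (O.trans hu hv) hw

/-- `t + e` has the sign of `t` if `|e| < |t|` -/
theorem j2_sgn {t e : ℝ} (h : |e| < |t|) : t + e ≠ 0 ∧ (0 < t + e ↔ 0 < t) := by
  rcases le_or_gt 0 t with ht | ht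
  · rw [abs_of_nonneg ht, abs_lt] at h
    have : 0 < t := lt_of_le_of_lt (abs_nonneg e) (by rw [abs_lt]; exact h)
    exact ⟨by linarith [h.1], ⟨fun _ => this, fun _ => by linarith [h.1]⟩⟩
  · rw [abs_of_neg ht, abs_lt] at h
    exact ⟨by linarith [h.2], ⟨fun h' => by linarith [h.2], fun h' => by linarith⟩⟩

/-- J2: crossing of two edges -/
theorem j2 (S : SLG O R) (hT : TiegSt S) (hG : GlobSt S) (hS : Sep2St S) (hV : TrvSt S) : J2St S := by
  classical
  intro y φ a w1 w2 μ hay hφ hw1 hw2 hne hμ h1 h2 hb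
  obtain ⟨g, hg, htf⟩ := hT a y {μ}
  have htf := htf μ (by simp)
  have hE1 := (j2_out S y a w1).1 hw1
  have hE2 := (j2_out S y a w2).1 hw2
  obtain ⟨ψ, hψ1, hψ2⟩ := hS a w1 w2 hE1.1 hE2.1 hne 0 1
  set η := glob S ψ with hη
  have hηm : η ∈ FS S a y := hG a y ψ
  have gp : ∀ b ∈ out S y a, 0 < g a b := hg.pos
  -- the choice of ε
  obtain ⟨ε, hε, hε2⟩ := j2_small ((out S y a).filter (fun b => b ≠ w1 ∧ b ≠ w2))
    (fun b => g a b) (fun b => |μ a b| / 2) (by
      intro b hb'
      rw [Finset.mem_filter] at hb'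
      have := hb b hb'.1 hb'.2.1 hb'.2.2
      positivity)
  -- the choice of ε'
  obtain ⟨ε1, hε1, hε12⟩ := j2_small ((out S y a).filter (fun b => b ≠ w1 ∧ b ≠ w2))
    (fun b => |η a b|) (fun b => |μ a b| / 2) (by
      intro b hb'
      rw [Finset.mem_filter] at hb'
      have := hb b hb'.1 hb'.2.1 hb'.2.2
      positivity)
  obtain ⟨ε2, hε2', hε22⟩ := j2_small
    (((out S y a) ×ˢ (out S y a)).filter (fun p => p.1 ≠ p.2 ∧ (μ a p.1 ≠ 0 ∨ μ a p.2 ≠ 0)))
    (fun p => |η a p.1 * g a p.2 - η a p.2 * g a p.1|)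
    (fun p => |μ a p.1 * g a p.2 - μ a p.2 * g a p.1|) (by
      rintro ⟨b, c⟩ hp
      simp only [Finset.mem_filter, Finset.mem_product] at hp
      have := htf b hp.1.1 c hp.1.2 hp.2.1 hp.2.2
      exact abs_pos.2 (sub_ne_zero.2 this))
  set δ := min (min ε1 ε2) (ε * g a w2 / 2) with hδ
  have hg2 := gp w2 hw2
  have hg1 := gp w1 hw1
  have hδ0 : 0 < δ := lt_min (lt_min hε1 hε2') (by positivity)
  have hδ1 : δ ≤ ε1 := le_trans (min_le_left _ _) (min_le_left _ _)
  have hδ2 : δ ≤ ε2 := le_trans (min_le_left _ _) (min_le_right _ _)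
  have hδ3 : δ ≤ ε * g a w2 / 2 := min_le_right _ _
  have hδ4 : δ < ε * g a w2 := by
    have : 0 < ε * g a w2 := by positivity
    linarith
  set μ' : P → P → ℝ := μ + δ • η with hμ'
  have hμ'm : μ' ∈ FS S a y := (FS S a y).add_mem hμ ((FS S a y).smul_mem δ hηm)
  have v1 : μ' a w1 = 0 := by
    simp only [hμ', Pi.add_apply, Pi.smul_apply, smul_eq_mul, h1, hψ1, mul_zero, add_zero]
  have v2 : μ' a w2 = δ := by
    simp only [hμ', Pi.add_apply, Pi.smul_apply, smul_eq_mul, h2, hψ2, mul_one, zero_add]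
  have vb : ∀ b, μ' a b = μ a b + δ * η a b := by
    intro b
    simp only [hμ', Pi.add_apply, Pi.smul_apply, smul_eq_mul]
  -- small perturbations
  have pert : ∀ b ∈ out S y a, b ≠ w1 → b ≠ w2 → ∀ t : ℝ, |t| ≤ ε →
      μ' a b + t * g a b ≠ 0 ∧ (0 < μ' a b + t * g a b ↔ 0 < μ a b) := by
    intro b hb1 hb2 hb3 t ht
    have e1 := hε2 b (by simp [hb1, hb2, hb3])
    have e2 := hε12 b (by simp [hb1, hb2, hb3])
    beta_reduce at e1 e2
    have gb := gp b hb1
    have : |δ * η a b + t * g a b| < |μ a b| := by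
      calc |δ * η a b + t * g a b| ≤ |δ * η a b| + |t * g a b| := abs_add_le _ _
        _ = δ * |η a b| + |t| * g a b := by
          rw [abs_mul, abs_mul, abs_of_pos hδ0, abs_of_pos gb]
        _ ≤ ε1 * |η a b| + ε * g a b :=
          add_le_add (mul_le_mul_of_nonneg_right hδ1 (abs_nonneg _))
            (mul_le_mul_of_nonneg_right ht gb.le)
        _ < |μ a b| := by linarith
    have := j2_sgn this
    rw [vb, add_assoc]
    exact this
  -- no ties
  have tfm : ∀ b ∈ out S y a, ∀ c ∈ out S y a, b ≠ c → μ' a b * g a c ≠ μ' a c * g a b := by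
    intro b hb1 c hc1 hbc
    by_cases hz : μ a b ≠ 0 ∨ μ a c ≠ 0
    · have e := hε22 (b, c) (by simp [hb1, hc1, hbc, hz])
      simp only at e
      have e' : |δ * (η a b * g a c - η a c * g a b)| < |μ a b * g a c - μ a c * g a b| := by
        rw [abs_mul, abs_of_pos hδ0]
        exact lt_of_le_of_lt (mul_le_mul_of_nonneg_right hδ2 (abs_nonneg _)) e
      have := (j2_sgn e').1
      intro h
      apply this
      rw [vb, vb] at h
      linarith
    · push Not at hz
      have hbw : b = w1 ∨ b = w2 := by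
        by_contra hcon
        push Not at hcon
        exact hb b hb1 hcon.1 hcon.2 hz.1
      have hcw : c = w1 ∨ c = w2 := by
        by_contra hcon
        push Not at hcon
        exact hb c hc1 hcon.1 hcon.2 hz.2
      rcases hbw with rfl | rfl <;> rcases hcw with rfl | rfl
      · exact absurd rfl hbc
      · rw [v1, v2, zero_mul]
        exact (mul_pos hδ0 hg1).ne
      · rw [v1, v2, zero_mul]
        exact (mul_pos hδ0 hg1).ne'
      · exact absurd rfl hbc
  -- the elements
  set m1 : P → P → ℝ := μ' - (μ' a w1 / g a w1) • g with hm1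
  set m2 : P → P → ℝ := μ' - (μ' a w2 / g a w2) • g with hm2
  have hm1' : m1 = μ' := by
    rw [hm1, v1, zero_div, zero_smul, sub_zero]
  have hm2m : m2 ∈ FS S a y := (FS S a y).sub_mem hμ'm ((FS S a y).smul_mem _ hg.mem)
  have hm2v : ∀ b, m2 a b = μ' a b + (-(δ / g a w2)) * g a b := by
    intro b
    simp only [hm2, Pi.sub_apply, Pi.smul_apply, smul_eq_mul, v2]
    ring
  have hsm : |(-(δ / g a w2))| ≤ ε := by
    rw [abs_neg, abs_of_pos (by positivity), div_le_iff₀ hg2]
    exact hδ4.le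
  have hm22 : m2 a w2 = 0 := by
    rw [hm2v, v2]
    field_simp
    ring
  have hm21 : m2 a w1 < 0 := by
    rw [hm2v, v1]
    have : 0 < δ / g a w2 * g a w1 := by positivity
    linarith
  refine ⟨m1, m2, ?_, ?_⟩
  · -- signs of m1 and m2
    have key1 : ∀ z ∈ out S y w1, (S.E w2 z → 0 < m1 w1 z) ∧
        (¬ S.E w2 z → m1 w1 z ≠ 0 ∧ (0 < m1 w1 z ↔ 0 < μ w1 z)) := by
      intro z hz
      have hz' := (j2_out S y w1 z).1 hz
      obtain ⟨c, hc, hcn, hcz, hcv⟩ := hV a y w1 z μ' hμ'm hw1 hz v1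
      obtain ⟨c', hc', hcn', hcz', hcv'⟩ := hV a y w1 z μ hμ hw1 hz h1
      have hcE := (j2_out S y a c).1 hc
      have hcE' := (j2_out S y a c').1 hc'
      have hcc : c' = c := j2_uniq S hE1.1 hz'.1 hcE'.1 hcz' hcE.1 hcz hcn' hcn
      rw [hm1']
      refine ⟨fun hw => ?_, fun hw => ?_⟩
      · have : c = w2 := j2_uniq S hE1.1 hz'.1 hcE.1 hcz hE2.1 hw hcn hne.symm
        rw [hcv, this, v2]
        exact hδ0
      · have hc2 : c ≠ w2 := by
          rintro rfl
          exact hw hcz
        have := pert c hc hcn hc2 0 (by simpa using hε.le)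
        rw [zero_mul, add_zero] at this
        rw [hcv, hcv', hcc]
        exact this
    have key2 : ∀ z ∈ out S y w2, (S.E w1 z → m2 w2 z < 0) ∧
        (¬ S.E w1 z → m2 w2 z ≠ 0 ∧ (0 < m2 w2 z ↔ 0 < μ w2 z)) := by
      intro z hz
      have hz' := (j2_out S y w2 z).1 hz
      obtain ⟨c, hc, hcn, hcz, hcv⟩ := hV a y w2 z m2 hm2m hw2 hz hm22
      obtain ⟨c', hc', hcn', hcz', hcv'⟩ := hV a y w2 z μ hμ hw2 hz h2
      have hcE := (j2_out S y a c).1 hc
      have hcE' := (j2_out S y a c').1 hc'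
      have hcc : c' = c := j2_uniq S hE2.1 hz'.1 hcE'.1 hcz' hcE.1 hcz hcn' hcn
      refine ⟨fun hw => ?_, fun hw => ?_⟩
      · have : c = w1 := j2_uniq S hE2.1 hz'.1 hcE.1 hcz hE1.1 hw hcn hne
        rw [hcv, this]
        exact hm21
      · have hc2 : c ≠ w1 := by
          rintro rfl
          exact hw hcz
        have := pert c hc hc2 hcn _ hsm
        rw [hcv, hcv', hcc, hm2v]
        exact this
    refine ⟨⟨?_, ?_⟩, ⟨?_, ?_⟩, ?_, ?_, ?_, ?_⟩
    · rw [hm1']
      exact j2_mono S hμ'm (S.E_le hE1.1)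
    · intro z hz
      by_cases hw : S.E w2 z
      · exact ((key1 z hz).1 hw).ne'
      · exact ((key1 z hz).2 hw).1
    · exact j2_mono S hm2m (S.E_le hE2.1)
    · intro z hz
      by_cases hw : S.E w1 z
      · exact ((key2 z hz).1 hw).ne
      · exact ((key2 z hz).2 hw).1
    · exact fun z hz hw => (key1 z hz).1 hw
    · exact fun z hz hw => ((key1 z hz).2 hw).2
    · exact fun z hz hw => (key2 z hz).1 hw
    · exact fun z hz hw => ((key2 z hz).2 hw).2
  · intro kp km hkp hkm hs kp1 kp2 km1 km2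
    have hany : a ≠ y := by
      rintro rfl
      obtain ⟨k, hk⟩ := S.E_odd hE1.1
      by_cases hh : w1 = a
      · rw [hh] at hk
        omega
      · have := O.rk_lt hE1.2 hh
        omega
    have hφa := hφ a (O.refl a) hay
    -- the two perturbed elements
    have main : ∀ t : ℝ, |t| ≤ ε → (∀ b ∈ out S y a, μ' a b + t * g a b ≠ 0) →
        Gn S y a (μ' + t • g) ∧ TF S y a (μ' + t • g) g ∧
        φ a (μ' + t • g) = X * ∑ b ∈ out S y a,
          if 0 < μ' a b + t * g a b then φ b (μ' - (μ' a b / g a b) • g) else 0 := by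
      intro t ht hnz
      have hgn : Gn S y a (μ' + t • g) := by
        refine ⟨(FS S a y).add_mem hμ'm ((FS S a y).smul_mem _ hg.mem), fun b hb' => ?_⟩
        simpa only [Pi.add_apply, Pi.smul_apply, smul_eq_mul] using hnz b hb'
      have htf' : TF S y a (μ' + t • g) g := by
        intro b hb' c hc' hbc h
        simp only [Pi.add_apply, Pi.smul_apply, smul_eq_mul] at h
        apply tfm b hb' c hc' hbc
        linarith
      refine ⟨hgn, htf', ?_⟩
      rw [hφa.step hany _ g hgn hg htf', j2_Zs]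
      congr 1
      apply Finset.sum_congr rfl
      intro b hb'
      have hgb := gp b hb'
      have e1 : (μ' + t • g) a b = μ' a b + t * g a b := by
        simp only [Pi.add_apply, Pi.smul_apply, smul_eq_mul]
      have e2 : (μ' + t • g) - ((μ' + t • g) a b / g a b) • g = μ' - (μ' a b / g a b) • g := by
        funext u v
        simp only [Pi.add_apply, Pi.sub_apply, Pi.smul_apply, smul_eq_mul]
        field_simp
        ring
      rw [e2, e1]
    have nzp : ∀ b ∈ out S y a, μ' a b + ε * g a b ≠ 0 ∧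
        (0 < μ' a b + ε * g a b ↔ 0 < kp a b) := by
      intro b hb'
      have hgb := gp b hb'
      by_cases hbw1 : b = w1
      · subst hbw1
        rw [v1, zero_add]
        have : 0 < ε * g a b := by positivity
        exact ⟨this.ne', ⟨fun _ => kp1, fun _ => this⟩⟩
      · by_cases hbw2 : b = w2
        · subst hbw2
          rw [v2]
          have : 0 < δ + ε * g a b := by positivity
          exact ⟨this.ne', ⟨fun _ => kp2, fun _ => this⟩⟩
        · obtain ⟨p1, p2⟩ := pert b hb' hbw1 hbw2 ε (by rw [abs_of_pos hε])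
          exact ⟨p1, p2.trans (hs b hb' hbw1 hbw2).1.symm⟩
    have nzm : ∀ b ∈ out S y a, μ' a b + (-ε) * g a b ≠ 0 ∧
        (0 < μ' a b + (-ε) * g a b ↔ 0 < km a b) := by
      intro b hb'
      have hgb := gp b hb'
      by_cases hbw1 : b = w1
      · subst hbw1
        rw [v1, zero_add]
        have : 0 < ε * g a b := by positivity
        exact ⟨by linarith, ⟨fun h => by linarith, fun h => by linarith⟩⟩
      · by_cases hbw2 : b = w2
        · subst hbw2
          rw [v2]
          exact ⟨by linarith, ⟨fun h => by linarith, fun h => by linarith⟩⟩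
        · obtain ⟨p1, p2⟩ := pert b hb' hbw1 hbw2 (-ε) (by rw [abs_neg, abs_of_pos hε])
          exact ⟨p1, p2.trans (hs b hb' hbw1 hbw2).2.symm⟩
    obtain ⟨gn1, _, st1⟩ := main ε (by rw [abs_of_pos hε]) (fun b hb' => (nzp b hb').1)
    obtain ⟨gn2, _, st2⟩ := main (-ε) (by rw [abs_neg, abs_of_pos hε]) (fun b hb' => (nzm b hb').1)
    have e1 : φ a kp = φ a (μ' + ε • g) := by
      apply hφa.sign _ _ hkp gn1
      intro b hb'
      simp only [Pi.add_apply, Pi.smul_apply, smul_eq_mul]
      exact ((nzp b hb').2).symm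
    have e2 : φ a km = φ a (μ' + (-ε) • g) := by
      apply hφa.sign _ _ hkm gn2
      intro b hb'
      have := ((nzm b hb').2).symm
      simpa only [Pi.add_apply, Pi.smul_apply, smul_eq_mul] using this
    rw [e1, e2, st1, st2, ← mul_add]
    congr 1
    have split : ∀ b ∈ out S y a,
        (if 0 < μ' a b + ε * g a b then φ b (μ' - (μ' a b / g a b) • g) else 0) =
        (if 0 < μ' a b + (-ε) * g a b then φ b (μ' - (μ' a b / g a b) • g) else 0) +
        ((if b = w1 then φ w1 m1 else 0) + (if b = w2 then φ w2 m2 else 0)) := by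
      intro b hb'
      by_cases hbw1 : b = w1
      · subst hbw1
        rw [if_pos ((nzp b hb').2.2 kp1), if_neg (by
          intro h
          have := (nzm b hb').2.1 h
          linarith), if_pos rfl, if_neg hne, hm1]
        ring
      · by_cases hbw2 : b = w2
        · subst hbw2
          rw [if_pos ((nzp b hb').2.2 kp2), if_neg (by
            intro h
            have := (nzm b hb').2.1 h
            linarith), if_neg hbw1, if_pos rfl, hm2]
          ring
        · rw [if_neg hbw1, if_neg hbw2, add_zero, add_zero]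
          have q1 := (pert b hb' hbw1 hbw2 ε (by rw [abs_of_pos hε])).2
          have q2 := (pert b hb' hbw1 hbw2 (-ε) (by rw [abs_neg, abs_of_pos hε])).2
          by_cases hh : 0 < μ a b
          · rw [if_pos (q1.2 hh), if_pos (q2.2 hh)]
          · rw [if_neg (fun h => hh (q1.1 h)), if_neg (fun h => hh (q2.1 h))]
    rw [Finset.sum_congr rfl split, Finset.sum_add_distrib, Finset.sum_add_distrib,
      Finset.sum_ite_eq', Finset.sum_ite_eq', if_pos hw1, if_pos hw2]

end Pool.Agent.H52.CIC
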