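import Pool.Agent.H52.CIC.StB

/-!
# Project CIC: module JUMP (crossing of a plane)
-/

namespace Pool.Agent.H52.CIC

open Pool.Agent.H11.ZDE Polynomial

namespace JUMPaux

variable {P : Type} [Fintype P] {O : Po P} {L : Type} [AddCommGroup L] {R : RootLat L}

theorem mem_out {S : SLG O R} {y u a : P} : a ∈ out S y u ↔ S.E u a ∧ O.Le a y := by
  classical
  unfold out
  simp

theorem E_rk (S : SLG O R) {u w : P} (h : S.E u w) : O.rk u < O.rk w := by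
  obtain ⟨k, hk⟩ := S.E_odd h
  omega

/-- the values of `κ` at the edges `a → w` -/
theorem vals (S : SLG O R) (htrv : TrvSt S) {x y a b : P} {κ : P → P → ℝ}
    (ha : a ∈ out S y x) (hb : b ∈ out S y x) (hab : a ≠ b) (hκ : κ ∈ FS S x y) (κa : κ x a = 0)
    (κb : κ x b = 0)
    (hc : ∀ c ∈ out S y x, c ≠ a → c ≠ b → κ x c = 0 → ∀ w, O.Le w y → S.E c w →
      ¬ S.E a w ∧ ¬ S.E b w) {w : P} (hw : w ∈ out S y a) :
    (S.E b w → κ a w = 0) ∧ (¬ S.E b w → κ a w ≠ 0) := by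
  obtain ⟨c, c1, c2, c3, c4⟩ := htrv x y a w κ hκ ha hw κa
  have ha' := mem_out.1 ha
  have hb' := mem_out.1 hb
  have hw' := mem_out.1 hw
  have hc' := mem_out.1 c1
  constructor
  · intro hbw
    obtain ⟨a', h1, h2, h3, h4⟩ := S.sq ha'.1 hw'.1
    have e1 : c = a' := by
      rcases h4 c hc'.1 c3 with h | h
      · exact absurd h c2
      · exact h
    have e2 : b = a' := by
      rcases h4 b hb'.1 hbw with h | h
      · exact absurd h.symm hab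
      · exact h
    rw [c4, e1, ← e2, κb]
  · intro hbw h0
    have hcb : c ≠ b := by
      rintro rfl
      exact hbw c3
    rw [c4] at h0
    exact (hc c c1 c2 hcb h0 w hw'.2 c3).1 hw'.1

/-- crossing of the only common neighbour -/
theorem one_side (S : SLG O R) (hJ1 : J1St S) (htrv : TrvSt S) (hmono : FsMonoSt S)
    {x y a b w : P} {φ : P → (P → P → ℝ) → Polynomial ℤ} {κ ka ka' : P → P → ℝ}
    (hφ : ∀ u, O.Le x u → u ≠ x → O.Le u y → PhiAt S y φ u)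
    (ha : a ∈ out S y x) (hb : b ∈ out S y x) (hab : a ≠ b) (hκ : κ ∈ FS S x y) (κa : κ x a = 0)
    (κb : κ x b = 0)
    (hc : ∀ c ∈ out S y x, c ≠ a → c ≠ b → κ x c = 0 → ∀ w, O.Le w y → S.E c w →
      ¬ S.E a w ∧ ¬ S.E b w) (haw : S.E a w) (hbw : S.E b w) (hwy : O.Le w y)
    (huniq : ∀ w', S.E a w' → S.E b w' → O.Le w' y → w' = w)
    (g1 : Gn S y a ka) (g2 : Gn S y a ka') (s1 : Sgp S y a b κ ka) (s2 : Sgm S y a b κ ka') :
    φ a ka = φ a ka' + X * φ w κ := by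
  have ha' := mem_out.1 ha
  have hw : w ∈ out S y a := mem_out.2 ⟨haw, hwy⟩
  have hax : a ≠ x := by
    intro h
    have := E_rk S ha'.1
    rw [h] at this
    omega
  refine hJ1 y φ a w κ ka ka' ha'.2 (hφ a (S.E_le ha'.1) hax ha'.2) hw
    (hmono x y a y κ (S.E_le ha'.1) (O.refl y) hκ)
    ((vals S htrv ha hb hab hκ κa κb hc hw).1 hbw) ?_ g1 g2 ?_ ((s1 w hw).1 hbw) ((s2 w hw).1 hbw)
  · intro c hc1 hc2
    refine (vals S htrv ha hb hab hκ κa κb hc hc1).2 (fun h => hc2 ?_)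
    exact huniq c (mem_out.1 hc1).1 h (mem_out.1 hc1).2
  · intro c hc1 hc2
    have hn : ¬ S.E b c := fun h => hc2 (huniq c (mem_out.1 hc1).1 h (mem_out.1 hc1).2)
    exact ⟨(s1 c hc1).2 hn, (s2 c hc1).2 hn⟩

/-- crossing of two common neighbours -/
theorem two_side (S : SLG O R) (hJ2 : J2St S) (htrv : TrvSt S) (hmono : FsMonoSt S)
    {x y a b w1 w2 : P} {φ : P → (P → P → ℝ) → Polynomial ℤ} {κ ka ka' : P → P → ℝ}
    (hφ : ∀ u, O.Le x u → u ≠ x → O.Le u y → PhiAt S y φ u)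
    (ha : a ∈ out S y x) (hb : b ∈ out S y x) (hab : a ≠ b) (hκ : κ ∈ FS S x y) (κa : κ x a = 0)
    (κb : κ x b = 0)
    (hc : ∀ c ∈ out S y x, c ≠ a → c ≠ b → κ x c = 0 → ∀ w, O.Le w y → S.E c w →
      ¬ S.E a w ∧ ¬ S.E b w) (haw : S.E a w1) (hbw : S.E b w1) (hwy : O.Le w1 y)
    (haw2 : S.E a w2) (hbw2 : S.E b w2) (hwy2 : O.Le w2 y) (hne : w1 ≠ w2)
    (huniq : ∀ w', S.E a w' → S.E b w' → O.Le w' y → w' = w1 ∨ w' = w2)
    (g1 : Gn S y a ka) (g2 : Gn S y a ka') (s1 : Sgp S y a b κ ka) (s2 : Sgm S y a b κ ka') :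
    ∃ m1 m2, J2c S y w1 w2 κ m1 m2 ∧ φ a ka = φ a ka' + X * (φ w1 m1 + φ w2 m2) := by
  have ha' := mem_out.1 ha
  have hw : w1 ∈ out S y a := mem_out.2 ⟨haw, hwy⟩
  have hw2 : w2 ∈ out S y a := mem_out.2 ⟨haw2, hwy2⟩
  obtain ⟨m1, m2, h1, h2⟩ := hJ2 y φ a w1 w2 κ ha'.2
    (fun u hu hu' => hφ u (O.trans (S.E_le ha'.1) hu) (by
      rintro rfl
      have h3 := E_rk S ha'.1
      by_cases h4 : a = u
      · rw [h4] at h3
        omega
      · have := O.rk_lt hu h4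
        omega) hu') hw hw2 hne
    (hmono x y a y κ (S.E_le ha'.1) (O.refl y) hκ)
    ((vals S htrv ha hb hab hκ κa κb hc hw).1 hbw) ((vals S htrv ha hb hab hκ κa κb hc hw2).1 hbw2)
    (fun c hc1 hc2 hc3 => (vals S htrv ha hb hab hκ κa κb hc hc1).2 (fun h => by
      rcases huniq c (mem_out.1 hc1).1 h (mem_out.1 hc1).2 with h' | h'
      · exact hc2 h'
      · exact hc3 h'))
  refine ⟨m1, m2, h1, h2 ka ka' g1 g2 ?_ ((s1 w1 hw).1 hbw) ((s1 w2 hw2).1 hbw2)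
    ((s2 w1 hw).1 hbw) ((s2 w2 hw2).1 hbw2)⟩
  intro c hc1 hc2 hc3
  have hn : ¬ S.E b c := fun h => by
    rcases huniq c (mem_out.1 hc1).1 h (mem_out.1 hc1).2 with h' | h'
    · exact hc2 h'
    · exact hc3 h'
  exact ⟨(s1 c hc1).2 hn, (s2 c hc1).2 hn⟩

end JUMPaux

open JUMPaux in
/-- JUMP: crossing of a plane -/
theorem jump {P : Type} [Fintype P] {O : Po P} {L : Type} [AddCommGroup L] {R : RootLat L}
    (S : SLG O R) (hJ1 : J1St S) (hJ2 : J2St S) (htrv : TrvSt S) (hmono : FsMonoSt S) :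
    JumpSt S := by
  intro x y φ a b κ hxy hφ ha hb hab hκ κa κb hW hc ka ka' kb kb' g1 g2 g3 g4 s1 s2 s3 s4
  obtain ⟨w, haw, hbw, hwy⟩ := hW
  have ha' := mem_out.1 ha
  have hb' := mem_out.1 hb
  have hc' : ∀ c ∈ out S y x, c ≠ b → c ≠ a → κ x c = 0 → ∀ w, O.Le w y → S.E c w →
      ¬ S.E b w ∧ ¬ S.E a w := fun c h1 h2 h3 h4 w h5 h6 =>
    ⟨(hc c h1 h3 h2 h4 w h5 h6).2, (hc c h1 h3 h2 h4 w h5 h6).1⟩
  by_cases h2 : ∃ w2, S.E a w2 ∧ S.E b w2 ∧ O.Le w2 y ∧ w ≠ w2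
  · obtain ⟨w2, haw2, hbw2, hwy2, hne⟩ := h2
    have huniq : ∀ w', S.E a w' → S.E b w' → O.Le w' y → w' = w ∨ w' = w2 := by
      intro w' h1 h2 _
      rcases S.two ha'.1 hb'.1 hab haw hbw haw2 hbw2 h1 h2 with h | h | h
      · exact absurd h hne
      · exact Or.inl h.symm
      · exact Or.inr h.symm
    obtain ⟨m1, m2, j1, e1⟩ := two_side S hJ2 htrv hmono hφ ha hb hab hκ κa κb hc haw hbw hwy haw2
      hbw2 hwy2 hne huniq g1 g2 s1 s2
    obtain ⟨n1, n2, j2, e2⟩ := two_side S hJ2 htrv hmono hφ hb ha hab.symm hκ κb κa hc' hbw haw hwy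
      hbw2 haw2 hwy2 hne (fun w' h1 h2 => huniq w' h2 h1) g3 g4 s3 s4
    have hwx : ∀ w', S.E a w' → O.Le x w' ∧ w' ≠ x := by
      intro w' h
      refine ⟨O.trans (S.E_le ha'.1) (S.E_le h), ?_⟩
      rintro rfl
      have h3 := E_rk S ha'.1
      have h4 := E_rk S h
      omega
    have p1 := hφ w (hwx w haw).1 (hwx w haw).2 hwy
    have p2 := hφ w2 (hwx w2 haw2).1 (hwx w2 haw2).2 hwy2
    have q1 : φ w m1 = φ w n1 := by
      refine p1.sign m1 n1 j1.g1 j2.g1 (fun z hz => ?_)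
      by_cases hE : S.E w2 z
      · exact ⟨fun _ => j2.s1 z hz hE, fun _ => j1.s1 z hz hE⟩
      · rw [j1.s1' z hz hE, j2.s1' z hz hE]
    have q2 : φ w2 m2 = φ w2 n2 := by
      refine p2.sign m2 n2 j1.g2 j2.g2 (fun z hz => ?_)
      by_cases hE : S.E w z
      · have k1 := j1.s2 z hz hE
        have k2 := j2.s2 z hz hE
        exact ⟨fun h => absurd h (by linarith), fun h => absurd h (by linarith)⟩
      · rw [j1.s2' z hz hE, j2.s2' z hz hE]
    rw [e1, e2, q1, q2]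
    ring
  · push Not at h2
    have huniq : ∀ w', S.E a w' → S.E b w' → O.Le w' y → w' = w :=
      fun w' h1 h3 h4 => (h2 w' h1 h3 h4).symm
    have e1 := one_side S hJ1 htrv hmono hφ ha hb hab hκ κa κb hc haw hbw hwy huniq g1 g2 s1 s2
    have e2 := one_side S hJ1 htrv hmono hφ hb ha hab.symm hκ κb κa hc' hbw haw hwy
      (fun w' h1 h2 => huniq w' h2 h1) g3 g4 s3 s4
    rw [e1, e2]
    ring

end Pool.Agent.H52.CIC
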