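import Pool.Agent.H52.CIC.StC

/-! Project CIC: module KK, the dichotomy at a coatom in rank four. -/

namespace Pool.Agent.H52.CIC

open Pool.Agent.H11.ZDE

variable {P : Type} {O : Po P} {L L' : Type} [AddCommGroup L] [AddCommGroup L'] {R : RootLat L} {R' : RootLat L'}

/-- two middles are all middles -/
theorem kk_two (S : SLG O R) {u w a b c : P} (e1 : Cv O u a) (f1 : Cv O a w) (e2 : Cv O u b) (f2 : Cv O b w)
    (e3 : Cv O u c) (f3 : Cv O c w) : a = b ∨ b = c ∨ a = c := by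
  obtain ⟨a', hne, _, _, hu⟩ := S.sq (S.E_cov e1.1 e1.2) (S.E_cov f1.1 f1.2)
  rcases hu b (S.E_cov e2.1 e2.2) (S.E_cov f2.1 f2.2) with h | h
  · exact Or.inl h.symm
  · rcases hu c (S.E_cov e3.1 e3.2) (S.E_cov f3.1 f3.2) with h' | h'
    · exact Or.inr (Or.inr h'.symm)
    · exact Or.inr (Or.inl (h.trans h'.symm))

/-- the second atom -/
theorem kk_sec (S : SLG O R) {u w a : P} (e1 : Cv O u a) (f1 : Cv O a w) :
    ∃ b, b ≠ a ∧ Cv O u b ∧ Cv O b w := by
  obtain ⟨a', hne, h1, h2, _⟩ := S.sq (S.E_cov e1.1 e1.2) (S.E_cov f1.1 f1.2)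
  obtain ⟨k, hk⟩ := S.E_odd h1
  obtain ⟨l, hl⟩ := S.E_odd h2
  have e2 := e1.2
  have f2 := f1.2
  exact ⟨a', hne, ⟨S.E_le h1, by omega⟩, ⟨S.E_le h2, by omega⟩⟩

/-- module KK -/
theorem kk (S : SLG O R) (S' : SLG O R') (hT : TelSt S S') (hp : PathExSt S) (hc : CrownSt S)
    (h4 : FpK4St S) (h2 : Sep2St S) (h3 : Sep3St S) (ha : Atom3St S) : KkSt S S' := by
  intro x y b hxb hby hrk hT2
  have hrb : O.rk b = O.rk x + 3 := by have := hby.2; omega
  obtain ⟨d, hd, hH⟩ := hT x y b hxb hby hrk hT2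
  have hne : x ≠ b := by intro h; rw [h] at hrb; omega
  obtain ⟨A1, hxA1, hA1b, hrA1⟩ := O.up hxb hne
  have hne1 : A1 ≠ b := by intro h; rw [h] at hrA1; omega
  obtain ⟨V1, hA1V1, hV1b, hrV1⟩ := O.up hA1b hne1
  have cx1 : Cv O x A1 := ⟨hxA1, hrA1⟩
  have c11 : Cv O A1 V1 := ⟨hA1V1, hrV1⟩
  have cv1 : Cv O V1 b := ⟨hV1b, by omega⟩
  obtain ⟨A2, hA21, cx2, c21⟩ := kk_sec S cx1 c11
  obtain ⟨A0, A3, V0, V2, hP⟩ := hp x b A1 A2 V1 hrb cx1 cx2 (Ne.symm hA21) c11 c21 cv1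
  -- corners
  have k1 : Corner O x y b A1 V0 V1 := ⟨hP.x1, hP.i10, hP.i11, hP.y0, hP.y1, hP.nb0⟩
  have k2 : Corner O x y b A2 V1 V2 := ⟨hP.x2, hP.i21, hP.i22, hP.y1, hP.y2, hP.nb1⟩
  have E1 : S.E x A1 := S.E_cov hP.x1.1 hP.x1.2
  have E2 : S.E x A2 := S.E_cov hP.x2.1 hP.x2.2
  have E0 : S.E x A0 := S.E_cov hP.x0.1 hP.x0.2
  have E3 : S.E x A3 := S.E_cov hP.x3.1 hP.x3.2
  rcases hc x b A0 A1 A2 A3 V0 V1 V2 hP with hK | hK | ⟨V3, hK⟩
  · -- two atoms
    left
    obtain ⟨e02, e31, hall⟩ := hK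
    have hV : V0 = V2 := by
      have i := hP.i00
      rw [e02] at i
      rcases kk_two S i hP.y0 hP.i21 hP.y1 hP.i22 hP.y2 with h | h | h
      · exact absurd h hP.nb0
      · exact absurd h hP.nb1
      · exact h
    have key : ∀ φ : L →+ ℝ, φ (S.lab x A1) * d A1 V0 V1 + φ (S.lab x A2) * d A2 V1 V2 = 0 := by
      intro φ
      obtain ⟨H, hH'⟩ := hH φ
      rw [hH' A1 V0 V1 k1, hH' A2 V1 V2 k2, hV]; ring
    have d1 : d A1 V0 V1 = 0 := by
      obtain ⟨φ, f1, f2⟩ := h2 x A1 A2 E1 E2 hP.na1 1 0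
      have := key φ
      simp only [glob] at f1 f2
      rw [f1, f2] at this; linarith
    have d2 : d A2 V1 V2 = 0 := by
      obtain ⟨φ, f1, f2⟩ := h2 x A1 A2 E1 E2 hP.na1 0 1
      have := key φ
      simp only [glob] at f1 f2
      rw [f1, f2] at this; linarith
    intro a hxa hab
    rcases hall a hxa hab with h | h
    · rw [h]; exact (hd A1 V0 V1 k1).2 d1
    · rw [h]; exact (hd A2 V1 V2 k2).2 d2
  · -- three atoms
    left
    obtain ⟨e03, n02, hall⟩ := hK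
    have hV : V2 ≠ V0 := by
      intro h
      have i1 := hP.i22
      rw [h] at i1
      rcases kk_two S hP.x0 hP.i00 hP.x1 hP.i10 hP.x2 i1 with h' | h' | h'
      · exact hP.na0 h'
      · exact hP.na1 h'
      · exact n02 h'
    have i32 := hP.i32
    rw [← e03] at i32
    have k0 : Corner O x y b A0 V2 V0 := ⟨hP.x0, i32, hP.i00, hP.y2, hP.y0, hV⟩
    have key : ∀ φ : L →+ ℝ, φ (S.lab x A0) * d A0 V2 V0 + φ (S.lab x A1) * d A1 V0 V1 +
        φ (S.lab x A2) * d A2 V1 V2 = 0 := by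
      intro φ
      obtain ⟨H, hH'⟩ := hH φ
      rw [hH' A0 V2 V0 k0, hH' A1 V0 V1 k1, hH' A2 V1 V2 k2]; ring
    have sep := h3 x A0 A1 A2 E0 E1 E2 hP.na0 n02 hP.na1 (ha x A1 A2 A0 E1 E2 hP.x0)
      (ha x A0 A2 A1 E0 E2 hP.x1) (ha x A0 A1 A2 E0 E1 hP.x2)
    have d0 : d A0 V2 V0 = 0 := by
      obtain ⟨φ, f0, f1, f2⟩ := sep 1 0 0
      have := key φ
      simp only [glob] at f0 f1 f2
      rw [f0, f1, f2] at this; linarith
    have d1 : d A1 V0 V1 = 0 := by
      obtain ⟨φ, f0, f1, f2⟩ := sep 0 1 0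
      have := key φ
      simp only [glob] at f0 f1 f2
      rw [f0, f1, f2] at this; linarith
    have d2 : d A2 V1 V2 = 0 := by
      obtain ⟨φ, f0, f1, f2⟩ := sep 0 0 1
      have := key φ
      simp only [glob] at f0 f1 f2
      rw [f0, f1, f2] at this; linarith
    intro a hxa hab
    rcases hall a hxa hab with h | h | h
    · rw [h]; exact (hd A0 V2 V0 k0).2 d0
    · rw [h]; exact (hd A1 V0 V1 k1).2 d1
    · rw [h]; exact (hd A2 V1 V2 k2).2 d2
  · -- four atoms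
    obtain ⟨-, hcc, hdd, hrel⟩ := h4 x b A0 A1 A2 A3 V0 V1 V2 V3 hP hK
    obtain ⟨n02, n03, n13, m02, m03, m13, m23, cb3, c33, c03, hall, hcoall⟩ := hK
    have k0 : Corner O x y b A0 V3 V0 := ⟨hP.x0, c03, hP.i00, cb3, hP.y0, Ne.symm m03⟩
    have k3 : Corner O x y b A3 V2 V3 := ⟨hP.x3, hP.i32, c33, hP.y2, cb3, m23⟩
    have key : ∀ φ : L →+ ℝ, φ (S.lab x A0) * (d A0 V3 V0 + d A3 V2 V3) +
        φ (S.lab x A1) * (d A1 V0 V1 - d A3 V2 V3) +
        φ (S.lab x A2) * (d A2 V1 V2 + d A3 V2 V3) = 0 := by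
      intro φ
      obtain ⟨H, hH'⟩ := hH φ
      have r0 := hH' A0 V3 V0 k0
      have r1 := hH' A1 V0 V1 k1
      have r2 := hH' A2 V1 V2 k2
      have r3 := hH' A3 V2 V3 k3
      have hl : φ (S.lab x A3) = φ (S.lab x A0) - φ (S.lab x A1) + φ (S.lab x A2) := by
        have := congrArg φ hrel
        rw [map_sub, map_add, map_sub, map_zero] at this
        linarith
      rw [hl] at r3
      linear_combination r0 + r1 + r2 + r3
    have sep := h3 x A0 A1 A2 E0 E1 E2 hP.na0 n02 hP.na1 (ha x A1 A2 A0 E1 E2 hP.x0)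
      (ha x A0 A2 A1 E0 E2 hP.x1) (ha x A0 A1 A2 E0 E1 hP.x2)
    have d0 : d A0 V3 V0 = - d A3 V2 V3 := by
      obtain ⟨φ, f0, f1, f2⟩ := sep 1 0 0
      have := key φ
      simp only [glob] at f0 f1 f2
      rw [f0, f1, f2] at this; linarith
    have d1 : d A1 V0 V1 = d A3 V2 V3 := by
      obtain ⟨φ, f0, f1, f2⟩ := sep 0 1 0
      have := key φ
      simp only [glob] at f0 f1 f2
      rw [f0, f1, f2] at this; linarith
    have d2 : d A2 V1 V2 = - d A3 V2 V3 := by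
      obtain ⟨φ, f0, f1, f2⟩ := sep 0 0 1
      have := key φ
      simp only [glob] at f0 f1 f2
      rw [f0, f1, f2] at this; linarith
    by_cases h0 : d A3 V2 V3 = 0
    · left
      intro a hxa hab
      rcases hall a hxa hab with h | h | h | h
      · rw [h]; exact (hd A0 V3 V0 k0).2 (by rw [d0, h0, neg_zero])
      · rw [h]; exact (hd A1 V0 V1 k1).2 (by rw [d1, h0])
      · rw [h]; exact (hd A2 V1 V2 k2).2 (by rw [d2, h0, neg_zero])
      · rw [h]; exact (hd A3 V2 V3 k3).2 h0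
    · right
      refine ⟨?_, ?_⟩
      · intro a hxa hab hg
        rcases hall a hxa hab with h | h | h | h
        · rw [h] at hg
          have := (hd A0 V3 V0 k0).1 hg
          rw [d0] at this; exact h0 (neg_eq_zero.mp this)
        · rw [h] at hg
          have := (hd A1 V0 V1 k1).1 hg
          rw [d1] at this; exact h0 this
        · rw [h] at hg
          have := (hd A2 V1 V2 k2).1 hg
          rw [d2] at this; exact h0 (neg_eq_zero.mp this)
        · rw [h] at hg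
          exact h0 ((hd A3 V2 V3 k3).1 hg)
      · have hset : {v | O.Le x v ∧ Cv O v b} = {V0, V1, V2, V3} := by
          ext v
          simp only [Set.mem_ofPred_eq, Set.mem_insert_iff, Set.mem_singleton_iff]
          constructor
          · rintro ⟨h1, h2'⟩
            exact hcoall v h2' h1
          · rintro (h | h | h | h)
            · rw [h]; exact ⟨O.trans hP.x0.1 hP.i00.1, hP.y0⟩
            · rw [h]; exact ⟨O.trans hP.x1.1 hP.i11.1, hP.y1⟩
            · rw [h]; exact ⟨O.trans hP.x2.1 hP.i22.1, hP.y2⟩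
            · rw [h]; exact ⟨O.trans hP.x3.1 c33.1, cb3⟩
        rw [hset, Set.ncard_insert_of_notMem, Set.ncard_insert_of_notMem,
          Set.ncard_insert_of_notMem, Set.ncard_singleton]
        · simp only [Set.mem_singleton_iff]; exact m23
        · simp only [Set.mem_insert_iff, Set.mem_singleton_iff, not_or]; exact ⟨hP.nb1, m13⟩
        · simp only [Set.mem_insert_iff, Set.mem_singleton_iff, not_or]; exact ⟨hP.nb0, m02, m03⟩

end Pool.Agent.H52.CIC
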