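import Pool.Agent.H52.CIC.StA

/-! Module LAT4 of project CIC (helper5). -/

namespace Pool.Agent.H52.CIC

open Pool.Agent.H11.ZDE

variable {L : Type} [AddCommGroup L]

theorem lat4 (R : RootLat L) : Lat4St R := by
  intro l c d h2 hP hinj hsum h3 h0 hrel
  have hq : ∀ i j, i ≠ j → -1 ≤ R.Q (l i) (l j) ∧ R.Q (l i) (l j) ≤ 1 := by
    intro i j hij
    rcases R.Q_cases' (h2 i) (h2 j) (hP i) (hP j) (fun h => hij (hinj h)) with h | h | h <;>
      rw [h] <;> constructor <;> norm_num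
  have r0 : R.Q (l 0 + c • l 1 + d • l 2 - l 3) (l 0) = 0 := by rw [hrel, R.Q_zl]
  have r1 : R.Q (l 0 + c • l 1 + d • l 2 - l 3) (l 1) = 0 := by rw [hrel, R.Q_zl]
  have r2 : R.Q (l 0 + c • l 1 + d • l 2 - l 3) (l 2) = 0 := by rw [hrel, R.Q_zl]
  have r3 : R.Q (l 0 + c • l 1 + d • l 2 - l 3) (l 3) = 0 := by rw [hrel, R.Q_zl]
  simp only [R.Q_sub, R.Q_add, R.Q_smul, h2] at r0 r1 r2 r3
  rw [R.Q_comm (l 1) (l 0), R.Q_comm (l 2) (l 0), R.Q_comm (l 3) (l 0)] at r0
  rw [R.Q_comm (l 2) (l 1), R.Q_comm (l 3) (l 1)] at r1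
  rw [R.Q_comm (l 3) (l 2)] at r2
  have q01 := hq 0 1 (by decide)
  have q02 := hq 0 2 (by decide)
  have q03 := hq 0 3 (by decide)
  have q13 := hq 1 3 (by decide)
  have q23 := hq 2 3 (by decide)
  generalize R.Q (l 0) (l 1) = x01 at *
  generalize R.Q (l 0) (l 2) = x02 at *
  generalize R.Q (l 0) (l 3) = x03 at *
  generalize R.Q (l 1) (l 3) = x13 at *
  generalize R.Q (l 2) (l 3) = x23 at *
  have key : (c = 0 ∧ d = 0) ∨ (c = 0 ∧ d = 1) ∨ (c = 0 ∧ d = -1) ∨ (c = 1 ∧ d = 0) ∨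
      (c = -1 ∧ d = 0) ∨ (c = 1 ∧ d = 1) ∨ (c = -1 ∧ d = -1) ∨ (c = 1 ∧ d = -1) ∨
      (c = -1 ∧ d = 1) := by
    rcases R.Q_cases' (h2 1) (h2 2) (hP 1) (hP 2) (fun h => absurd (hinj h) (by decide)) with
      h | h | h
    · rw [h] at r1 r2
      have hc : -2 ≤ c ∧ c ≤ 2 := by constructor <;> omega
      have hd : -2 ≤ d ∧ d ≤ 2 := by constructor <;> omega
      obtain ⟨hc1, hc2⟩ := hc
      obtain ⟨hd1, hd2⟩ := hd
      interval_cases c <;> interval_cases d <;> omega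
    · rw [h] at r1 r2
      have hc : -1 ≤ c ∧ c ≤ 1 := by constructor <;> omega
      have hd : -1 ≤ d ∧ d ≤ 1 := by constructor <;> omega
      obtain ⟨hc1, hc2⟩ := hc
      obtain ⟨hd1, hd2⟩ := hd
      interval_cases c <;> interval_cases d <;> omega
    · rw [h] at r1 r2
      have hc : -2 ≤ c ∧ c ≤ 2 := by constructor <;> omega
      have hd : -2 ≤ d ∧ d ≤ 2 := by constructor <;> omega
      obtain ⟨hc1, hc2⟩ := hc
      obtain ⟨hd1, hd2⟩ := hd
      interval_cases c <;> interval_cases d <;> omega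
  rcases key with ⟨rfl, rfl⟩ | ⟨rfl, rfl⟩ | ⟨rfl, rfl⟩ | ⟨rfl, rfl⟩ | ⟨rfl, rfl⟩ | ⟨rfl, rfl⟩ |
    ⟨rfl, rfl⟩ | h | h
  · exfalso
    have : l 0 = l 3 := by
      rw [zero_smul, zero_smul, add_zero, add_zero, sub_eq_zero] at hrel
      exact hrel
    exact absurd (hinj this) (by decide)
  · exfalso
    refine hsum 3 0 2 (by decide) (by decide) (by decide) ?_
    rw [zero_smul, one_smul, add_zero, sub_eq_zero] at hrel
    exact hrel.symm
  · exfalso
    refine hsum 0 3 2 (by decide) (by decide) (by decide) ?_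
    rw [zero_smul, neg_smul, one_smul, add_zero] at hrel
    have := sub_eq_zero.1 hrel
    rw [← this]
    abel
  · exfalso
    refine hsum 3 0 1 (by decide) (by decide) (by decide) ?_
    rw [zero_smul, one_smul, add_zero, sub_eq_zero] at hrel
    exact hrel.symm
  · exfalso
    refine hsum 0 3 1 (by decide) (by decide) (by decide) ?_
    rw [zero_smul, neg_smul, one_smul, add_zero] at hrel
    have := sub_eq_zero.1 hrel
    rw [← this]
    abel
  · exfalso
    apply h3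
    rw [one_smul, one_smul, sub_eq_zero] at hrel
    exact hrel.symm
  · exfalso
    apply h0
    rw [neg_smul, neg_smul, one_smul, one_smul] at hrel
    have := sub_eq_zero.1 hrel
    rw [← this]
    abel
  · exact Or.inl h
  · exact Or.inr h

end Pool.Agent.H52.CIC
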