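import Pool.Agent.H52.CIC.StA

/-! Module LAT5 of project CIC (helper5). -/

namespace Pool.Agent.H52.CIC

open Pool.Agent.H11.ZDE

variable {L : Type} [AddCommGroup L]

theorem lat5 (R : RootLat L) : Lat5St R := by
  intro l c d h2 hP hinj _ hc hd hA hB
  have hq : ∀ i j, i ≠ j → -1 ≤ R.Q (l i) (l j) ∧ R.Q (l i) (l j) ≤ 1 := by
    intro i j hij
    rcases R.Q_cases' (h2 i) (h2 j) (hP i) (hP j) (fun h => hij (hinj h)) with h | h | h <;>
      rw [h] <;> constructor <;> norm_num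
  rcases hc with rfl | rfl <;> rcases hd with rfl | rfl
  · have e : l 0 - (2 : ℤ) • l 2 + l 4 = 0 := by
      have : l 0 - (2 : ℤ) • l 2 + l 4 = (l 0 + (1 : ℤ) • l 1 - (1 : ℤ) • l 2 - l 3) -
          (l 1 + (1 : ℤ) • l 2 - (1 : ℤ) • l 3 - l 4) := by module
      rw [this, hA, hB, sub_zero]
    have r : R.Q (l 0 - (2 : ℤ) • l 2 + l 4) (l 2) = 0 := by rw [e, R.Q_zl]
    simp only [R.Q_sub, R.Q_add, R.Q_smul, h2] at r
    have := hq 0 2 (by decide)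
    have := hq 4 2 (by decide)
    omega
  · have e : l 0 - (2 : ℤ) • l 3 + l 4 = 0 := by
      have : l 0 - (2 : ℤ) • l 3 + l 4 = (l 0 + (1 : ℤ) • l 1 - (1 : ℤ) • l 2 - l 3) -
          (l 1 + (-1 : ℤ) • l 2 - (-1 : ℤ) • l 3 - l 4) := by module
      rw [this, hA, hB, sub_zero]
    have r : R.Q (l 0 - (2 : ℤ) • l 3 + l 4) (l 3) = 0 := by rw [e, R.Q_zl]
    simp only [R.Q_sub, R.Q_add, R.Q_smul, h2] at r
    have := hq 0 3 (by decide)
    have := hq 4 3 (by decide)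
    omega
  · have e : l 0 + (2 : ℤ) • l 2 - (2 : ℤ) • l 3 - l 4 = 0 := by
      have : l 0 + (2 : ℤ) • l 2 - (2 : ℤ) • l 3 - l 4 =
          (l 0 + (-1 : ℤ) • l 1 - (-1 : ℤ) • l 2 - l 3) +
          (l 1 + (1 : ℤ) • l 2 - (1 : ℤ) • l 3 - l 4) := by module
      rw [this, hA, hB, add_zero]
    have r0 : R.Q (l 0 + (2 : ℤ) • l 2 - (2 : ℤ) • l 3 - l 4) (l 0) = 0 := by rw [e, R.Q_zl]
    have r2 : R.Q (l 0 + (2 : ℤ) • l 2 - (2 : ℤ) • l 3 - l 4) (l 2) = 0 := by rw [e, R.Q_zl]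
    have r3 : R.Q (l 0 + (2 : ℤ) • l 2 - (2 : ℤ) • l 3 - l 4) (l 3) = 0 := by rw [e, R.Q_zl]
    simp only [R.Q_sub, R.Q_add, R.Q_smul, h2] at r0 r2 r3
    have a1 := hq 0 2 (by decide)
    have a2 := hq 0 3 (by decide)
    have a3 := hq 2 3 (by decide)
    have a4 := hq 4 0 (by decide)
    have a5 := hq 4 2 (by decide)
    have a6 := hq 4 3 (by decide)
    rw [R.Q_comm (l 2) (l 0), R.Q_comm (l 3) (l 0)] at r0
    rw [R.Q_comm (l 3) (l 2)] at r2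
    omega
  · have e : l 0 - l 4 = 0 := by
      have : l 0 - l 4 = (l 0 + (-1 : ℤ) • l 1 - (-1 : ℤ) • l 2 - l 3) +
          (l 1 + (-1 : ℤ) • l 2 - (-1 : ℤ) • l 3 - l 4) := by module
      rw [this, hA, hB, add_zero]
    exact absurd (hinj (sub_eq_zero.1 e)) (by decide)

end Pool.Agent.H52.CIC
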