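import Pool.Agent.H52.CIC.StA
import Pool.Agent.H52.CIC.StB

/-! Project CIC: LING and LINK. -/

namespace Pool.Agent.H52.CIC

open Pool.Agent.H11.ZDE Polynomial Filter Topology

variable {P : Type} [Fintype P] {O : Po P} {L : Type} [AddCommGroup L] {R : RootLat L}

namespace LingAux

theorem mem_out {S : SLG O R} {y u a : P} : a ∈ out S y u ↔ S.E u a ∧ O.Le a y := by
  classical
  simp [out]

theorem ev_tendsto (a b : ℝ) : Tendsto (fun ε : ℝ => a + ε * b) (𝓝[>] 0) (𝓝 a) := by
  have h : Tendsto (fun ε : ℝ => a + ε * b) (𝓝 0) (𝓝 (a + 0 * b)) :=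
    (continuous_const.add (continuous_id.mul continuous_const)).tendsto 0
  rw [zero_mul, add_zero] at h
  exact h.mono_left nhdsWithin_le_nhds

theorem ev_pos {a b : ℝ} (ha : 0 < a) : ∀ᶠ ε in 𝓝[>] (0 : ℝ), 0 < a + ε * b :=
  (ev_tendsto a b).eventually (lt_mem_nhds ha)

theorem ev_neg {a b : ℝ} (ha : a < 0) : ∀ᶠ ε in 𝓝[>] (0 : ℝ), a + ε * b < 0 :=
  (ev_tendsto a b).eventually (gt_mem_nhds ha)

theorem ev_ne {a b : ℝ} (h : a ≠ 0 ∨ b ≠ 0) : ∀ᶠ ε in 𝓝[>] (0 : ℝ), a + ε * b ≠ 0 := by
  by_cases ha : a = 0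
  · have hb : b ≠ 0 := by tauto
    subst ha
    filter_upwards [self_mem_nhdsWithin] with ε hε
    rw [zero_add]
    exact mul_ne_zero (ne_of_gt hε) hb
  · rcases lt_or_gt_of_ne ha with h1 | h1
    · filter_upwards [ev_neg (b := b) h1] with ε hε using hε.ne
    · filter_upwards [ev_pos (b := b) h1] with ε hε using hε.ne'

/-- evaluation at an edge -/
def ev (S : SLG O R) (x y a : P) : FS S x y →ₗ[ℝ] ℝ where
  toFun k := k.1 x a
  map_add' _ _ := rfl
  map_smul' _ _ := rfl

/-- three labels are not coplanar -/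
def Ncp (S : SLG O R) (x a b c : P) : Prop :=
  ¬ (S.lab x a = S.lab x b + S.lab x c ∨ S.lab x b = S.lab x a + S.lab x c ∨
    S.lab x c = S.lab x a + S.lab x b)

/-- the abstract choice: `lam a b` are linear forms on `FS`, `v a b` numbers, such that
`v a b * lam a c - v a c * lam a b` is nonzero for all non coplanar triples -/
theorem choose_eps (S : SLG O R) (x y : P) (hA : AvoidSt) (lam : P → P → (FS S x y →ₗ[ℝ] ℝ))
    (v : P → P → ℝ)
    (hnz : ∀ a ∈ out S y x, ∀ b ∈ out S y x, ∀ c ∈ out S y x, a ≠ b → a ≠ c → b ≠ c →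
      Ncp S x a b c → v a b • lam a c - v a c • lam a b ≠ 0)
    (k : P → P → ℝ) (hk : k ∈ FS S x y) :
    ∃ ω ∈ FS S x y, ∀ᶠ ε in 𝓝[>] (0 : ℝ), ∀ a ∈ out S y x, ∀ b ∈ out S y x, ∀ c ∈ out S y x,
      a ≠ b → a ≠ c → b ≠ c → Ncp S x a b c → ∀ h : k + ε • ω ∈ FS S x y,
      v a b * lam a c ⟨k + ε • ω, h⟩ - v a c * lam a b ⟨k + ε • ω, h⟩ ≠ 0 := by
  classical
  obtain ⟨ω, hω⟩ := hA (FS S x y) (P × P × P)
    ((out S y x ×ˢ out S y x ×ˢ out S y x).filter (fun p => p.1 ≠ p.2.1 ∧ p.1 ≠ p.2.2 ∧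
      p.2.1 ≠ p.2.2 ∧ Ncp S x p.1 p.2.1 p.2.2))
    (fun p => v p.1 p.2.1 • lam p.1 p.2.2 - v p.1 p.2.2 • lam p.1 p.2.1) (by
      rintro ⟨a, b, c⟩ hp
      rw [Finset.mem_filter, Finset.mem_product, Finset.mem_product] at hp
      obtain ⟨⟨h1, h2, h3⟩, h4, h5, h6, h7⟩ := hp
      exact hnz a h1 b h2 c h3 h4 h5 h6 h7)
  refine ⟨ω.1, ω.2, ?_⟩
  rw [eventually_all_finset]
  intro a ha
  rw [eventually_all_finset]
  intro b hb
  rw [eventually_all_finset]
  intro c hc
  by_cases h : a ≠ b ∧ a ≠ c ∧ b ≠ c ∧ Ncp S x a b c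
  · obtain ⟨h1, h2, h3, h4⟩ := h
    have h5 := hω (a, b, c) (by
      rw [Finset.mem_filter, Finset.mem_product, Finset.mem_product]
      exact ⟨⟨ha, hb, hc⟩, h1, h2, h3, h4⟩)
    have h6 := ev_ne (a := v a b * lam a c ⟨k, hk⟩ - v a c * lam a b ⟨k, hk⟩)
      (b := v a b * lam a c ω - v a c * lam a b ω) (Or.inr (by simpa using h5))
    filter_upwards [h6] with ε hε
    intro _ _ _ _ hmem
    have e : (⟨k + ε • ω.1, hmem⟩ : FS S x y) = ⟨k, hk⟩ + ε • ω := rfl
    rw [e, map_add, map_add, map_smul, map_smul, smul_eq_mul, smul_eq_mul]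
    intro h0
    apply hε
    linarith
  · exact Eventually.of_forall fun ε h1 h2 h3 h4 => absurd ⟨h1, h2, h3, h4⟩ h

end LingAux

open LingAux in
theorem ling (S : SLG O R) (hP : PathSt S) (hC : CrossSt S) (hA : AvoidSt) (h3 : Sep3St S)
    (hG : GlobSt S) : LingSt S := by
  classical
  intro x y φ f g g' hxy hφ hf hg hg' hfg hfg'
  set lam : P → P → (FS S x y →ₗ[ℝ] ℝ) := fun a b => f x a • ev S x y b - f x b • ev S x y a
    with hlam
  set v : P → P → ℝ := fun a b => f x a * g x b - f x b * g x a with hv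
  have hlv : ∀ a b (k : FS S x y), lam a b k = f x a * k.1 x b - f x b * k.1 x a := by
    intro a b k
    rfl
  obtain ⟨ω, hω, hev⟩ := choose_eps S x y hA lam v (by
    intro a ha b hb c hc hab hac hbc hn h0
    have ha' := mem_out.1 ha
    have hb' := mem_out.1 hb
    have hc' := mem_out.1 hc
    unfold Ncp at hn
    push Not at hn
    obtain ⟨ψ, p1, p2, p3⟩ := h3 x a b c ha'.1 hb'.1 hc'.1 hab hac hbc hn.1 hn.2.1 hn.2.2 0 0 1
    have h1 := congrArg (fun F : FS S x y →ₗ[ℝ] ℝ => F ⟨glob S ψ, hG x y ψ⟩) h0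
    simp only [LinearMap.sub_apply, LinearMap.smul_apply, hlv, smul_eq_mul,
      LinearMap.zero_apply, p1, p2, p3, mul_zero, mul_one, sub_zero] at h1
    have h2 := hfg a ha b hb hab
    rcases mul_eq_zero.1 h1 with h4 | h4
    · apply h2
      simp only [hv] at h4
      linarith
    · exact hf.ne a ha h4) g' hg'.mem
  have e1 : ∀ᶠ ε in 𝓝[>] (0 : ℝ), ∀ a ∈ out S y x, 0 < g' x a + ε * ω x a := by
    rw [eventually_all_finset]
    exact fun a ha => ev_pos (hg'.pos a ha)
  have e2 : ∀ᶠ ε in 𝓝[>] (0 : ℝ), ∀ a ∈ out S y x, ∀ b ∈ out S y x,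
      f x a * g' x b < f x b * g' x a →
      f x a * (g' x b + ε * ω x b) < f x b * (g' x a + ε * ω x a) := by
    rw [eventually_all_finset]
    intro a ha
    rw [eventually_all_finset]
    intro b hb
    by_cases h : f x a * g' x b < f x b * g' x a
    · filter_upwards [ev_pos (a := f x b * g' x a - f x a * g' x b)
        (b := f x b * ω x a - f x a * ω x b) (by linarith)] with ε hε
      intro _
      nlinarith
    · exact Eventually.of_forall fun ε h' => absurd h' h
  obtain ⟨ε, h1, h2, h4⟩ := (hev.and (e1.and e2)).exists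
  set g2 : P → P → ℝ := g' + ε • ω with hg2
  have hg2m : g2 ∈ FS S x y := (FS S x y).add_mem hg'.mem ((FS S x y).smul_mem ε hω)
  have hg2v : ∀ a, g2 x a = g' x a + ε * ω x a := fun a => rfl
  have hps : Ps S y x g2 := ⟨hg2m, fun a ha => by rw [hg2v]; exact h2 a ha⟩
  have htf : TF S y x f g2 := by
    intro a ha b hb hab
    rw [hg2v, hg2v]
    rcases lt_or_gt_of_ne (hfg' a ha b hb hab) with h | h
    · exact (h4 a ha b hb h).ne
    · exact (h4 b hb a ha h).ne'
  -- second pair
  have c1 : Zs S y x φ f g' = Zs S y x φ f g2 := by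
    refine hC x y φ f g' f g' f g2 hxy hφ hf hg' ?_ ?_ ?_
    · intro a ha b hb c hc hab hac hbc t1 t2
      exact absurd t1 (hfg' a ha b hb hab)
    · exact ⟨hf, hg', hfg', fun a _ => Iff.rfl, fun a _ b _ h => h⟩
    · refine ⟨hf, hps, htf, fun a _ => Iff.rfl, fun a ha b hb h => ?_⟩
      rw [hg2v, hg2v]
      exact h4 a ha b hb h
  have c2 : Zs S y x φ f g = Zs S y x φ f g2 := by
    refine hP x y φ f g f g2 hxy hφ hf hf (fun a _ => Iff.rfl) hg hps hfg htf ?_
    intro t ht a ha b hb c hc hab hac hbc t1 t2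
    by_contra hn
    have hL := h1 a ha b hb c hc hab hac hbc hn hg2m
    rw [hlv, hlv] at hL
    simp only [hv] at hL
    simp only [Pi.add_apply, Pi.smul_apply, smul_eq_mul] at t1 t2
    have hne := hfg a ha b hb hab
    have t1' : (1 - t) * (f x a * g x b - f x b * g x a) +
        t * (f x a * g2 x b - f x b * g2 x a) = 0 := by linear_combination t1
    have t2' : (1 - t) * (f x a * g x c - f x c * g x a) +
        t * (f x a * g2 x c - f x c * g2 x a) = 0 := by linear_combination t2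
    have t3 : t * ((f x a * g x b - f x b * g x a) * (f x a * g2 x c - f x c * g2 x a) -
        (f x a * g x c - f x c * g x a) * (f x a * g2 x b - f x b * g2 x a)) = 0 := by
      linear_combination (f x a * g x b - f x b * g x a) * t2' -
        (f x a * g x c - f x c * g x a) * t1'
    rcases mul_eq_zero.1 t3 with h5 | h5
    · rw [h5] at t1'
      apply hne
      linarith
    · exact hL h5
  rw [c2, c1]

open LingAux in
theorem link (S : SLG O R) (hP : PathSt S) (hC : CrossSt S) (hA : AvoidSt) (h3 : Sep3St S)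
    (hG : GlobSt S) : LinkSt S := by
  classical
  intro x y φ f f' g hxy hφ hf hf' hs hg hfg hfg'
  set lam : P → P → (FS S x y →ₗ[ℝ] ℝ) := fun a b => g x b • ev S x y a - g x a • ev S x y b
    with hlam
  set v : P → P → ℝ := fun a b => f x a * g x b - f x b * g x a with hv
  have hlv : ∀ a b (k : FS S x y), lam a b k = g x b * k.1 x a - g x a * k.1 x b := by
    intro a b k
    rfl
  obtain ⟨ω, hω, hev⟩ := choose_eps S x y hA lam v (by
    intro a ha b hb c hc hab hac hbc hn h0
    have ha' := mem_out.1 ha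
    have hb' := mem_out.1 hb
    have hc' := mem_out.1 hc
    unfold Ncp at hn
    push Not at hn
    obtain ⟨ψ, p1, p2, p3⟩ := h3 x a b c ha'.1 hb'.1 hc'.1 hab hac hbc hn.1 hn.2.1 hn.2.2 0 0 1
    have h1 := congrArg (fun F : FS S x y →ₗ[ℝ] ℝ => F ⟨glob S ψ, hG x y ψ⟩) h0
    simp only [LinearMap.sub_apply, LinearMap.smul_apply, hlv, smul_eq_mul,
      LinearMap.zero_apply, p1, p2, p3, mul_zero, mul_one, sub_zero, zero_sub] at h1
    have h2 := hfg a ha b hb hab
    rcases mul_eq_zero.1 h1 with h4 | h4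
    · apply h2
      simp only [hv] at h4
      linarith
    · have := hg.pos a ha
      linarith) f' hf'.mem
  have e1 : ∀ᶠ ε in 𝓝[>] (0 : ℝ), ∀ a ∈ out S y x, (0 < f' x a → 0 < f' x a + ε * ω x a) ∧
      (f' x a < 0 → f' x a + ε * ω x a < 0) := by
    rw [eventually_all_finset]
    intro a ha
    rcases lt_or_gt_of_ne (hf'.ne a ha) with h | h
    · filter_upwards [ev_neg (b := ω x a) h] with ε hε
      exact ⟨fun h' => absurd h' (by linarith), fun _ => hε⟩
    · filter_upwards [ev_pos (b := ω x a) h] with ε hε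
      exact ⟨fun _ => hε, fun h' => absurd h' (by linarith)⟩
  have e2 : ∀ᶠ ε in 𝓝[>] (0 : ℝ), ∀ a ∈ out S y x, ∀ b ∈ out S y x,
      f' x a * g x b < f' x b * g x a →
      (f' x a + ε * ω x a) * g x b < (f' x b + ε * ω x b) * g x a := by
    rw [eventually_all_finset]
    intro a ha
    rw [eventually_all_finset]
    intro b hb
    by_cases h : f' x a * g x b < f' x b * g x a
    · filter_upwards [ev_pos (a := f' x b * g x a - f' x a * g x b)
        (b := ω x b * g x a - ω x a * g x b) (by linarith)] with ε hε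
      intro _
      nlinarith
    · exact Eventually.of_forall fun ε h' => absurd h' h
  obtain ⟨ε, h1, h2, h4⟩ := (hev.and (e1.and e2)).exists
  set f2 : P → P → ℝ := f' + ε • ω with hf2
  have hf2m : f2 ∈ FS S x y := (FS S x y).add_mem hf'.mem ((FS S x y).smul_mem ε hω)
  have hf2v : ∀ a, f2 x a = f' x a + ε * ω x a := fun a => rfl
  have hsg : Sg S y x f' f2 := by
    intro a ha
    rw [hf2v]
    obtain ⟨q1, q2⟩ := h2 a ha
    refine ⟨q1, fun h => ?_⟩
    rcases lt_or_gt_of_ne (hf'.ne a ha) with h' | h'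
    · have := q2 h'
      linarith
    · exact h'
  have hgn : Gn S y x f2 := by
    refine ⟨hf2m, fun a ha => ?_⟩
    rw [hf2v]
    obtain ⟨q1, q2⟩ := h2 a ha
    rcases lt_or_gt_of_ne (hf'.ne a ha) with h' | h'
    · exact (q2 h').ne
    · exact (q1 h').ne'
  have htf : TF S y x f2 g := by
    intro a ha b hb hab
    rw [hf2v, hf2v]
    rcases lt_or_gt_of_ne (hfg' a ha b hb hab) with h | h
    · exact (h4 a ha b hb h).ne
    · exact (h4 b hb a ha h).ne'
  have c1 : Zs S y x φ f' g = Zs S y x φ f2 g := by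
    refine hC x y φ f' g f' g f2 g hxy hφ hf' hg ?_ ?_ ?_
    · intro a ha b hb c hc hab hac hbc t1 t2
      exact absurd t1 (hfg' a ha b hb hab)
    · exact ⟨hf', hg, hfg', fun a _ => Iff.rfl, fun a _ b _ h => h⟩
    · refine ⟨hgn, hg, htf, hsg, fun a ha b hb h => ?_⟩
      rw [hf2v, hf2v]
      exact h4 a ha b hb h
  have c2 : Zs S y x φ f g = Zs S y x φ f2 g := by
    refine hP x y φ f g f2 g hxy hφ hf hgn (fun a ha => (hs a ha).trans (hsg a ha)) hg hg hfg htf ?_
    intro t ht a ha b hb c hc hab hac hbc t1 t2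
    by_contra hn
    have hL := h1 a ha b hb c hc hab hac hbc hn hf2m
    rw [hlv, hlv] at hL
    simp only [hv] at hL
    simp only [Pi.add_apply, Pi.smul_apply, smul_eq_mul] at t1 t2
    have hne := hfg a ha b hb hab
    have t1' : (1 - t) * (f x a * g x b - f x b * g x a) +
        t * (g x b * f2 x a - g x a * f2 x b) = 0 := by linear_combination t1
    have t2' : (1 - t) * (f x a * g x c - f x c * g x a) +
        t * (g x c * f2 x a - g x a * f2 x c) = 0 := by linear_combination t2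
    have t3 : t * ((f x a * g x b - f x b * g x a) * (g x c * f2 x a - g x a * f2 x c) -
        (f x a * g x c - f x c * g x a) * (g x b * f2 x a - g x a * f2 x b)) = 0 := by
      linear_combination (f x a * g x b - f x b * g x a) * t2' -
        (f x a * g x c - f x c * g x a) * t1'
    rcases mul_eq_zero.1 t3 with h5 | h5
    · rw [h5] at t1'
      apply hne
      linarith
    · exact hL h5
  rw [c2, c1]

end Pool.Agent.H52.CIC
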