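import Pool.Agent.H3.CIC.Bas

/-!
# Project CIC: module MIR
-/

set_option linter.unusedSimpArgs false

namespace Pool.Agent.H52.CIC

open Pool.Agent.H11.ZDE Pool.Agent.H11.ZDE.RootLat G3

variable {B W : Type} [Group W] {M : CoxeterMatrix B} {cs : CoxeterSystem M W}
  {L : Type} [AddCommGroup L] {R : RootLat L} (G : Geo cs R)

theorem mir : MirSt G := by
  intro u b i h ua ub hne H1 H2
  have qa := al_q G i
  have pa := al_p G i
  have hTs : ∀ v : W, v * cs.simple i = v * G.T (G.α i) := fun v => by rw [G.Tα]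
  rcases R.Q_cases' ub.q qa ub.p pa hne with q | q | q
  · have h1 := (H2.a b (G.α i) ub ua q (by rw [hTs])).2
    rw [r_al G i q, q, hTs, show b - (-1 : ℤ) • G.α i = b + G.α i by module, h1]
    push_cast; ring
  · have q' : R.Q (G.α i) b = 0 := by rw [R.Q_comm]; exact q
    have h1 := H2.o (G.α i) b ua ub q' (by
      rw [hTs, mul_assoc, mul_assoc, Pool.Agent.H58.ZDE.T_mul_eq G ub.q qa qa ub.q (R.sw0 q)])
    rw [r_al G i q, q, hTs, show b - (0 : ℤ) • G.α i = b by module, h1]
    push_cast; ring
  · have q' : R.Q (G.α i) b = 1 := by rw [R.Q_comm]; exact q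
    have qd : R.Q (b - G.α i) (b - G.α i) = 2 := by
      rw [R.Q_sub, R.Q_subr, R.Q_subr, ub.q, qa, q, q']; norm_num
    have pd : R.P (b - G.α i) := by
      have := R.S_refl _ (al_mem G i) b ub.q ub.p hne
      rw [q] at this
      exact R.P_cast this (by module)
    have e : G.α i + (b - G.α i) = b := by abel
    have qad : R.Q (G.α i) (b - G.α i) = -1 := by rw [R.Q_subr, q', qa]; norm_num
    have hd := (Pool.Agent.H11.Ism.dih G qa qd qad).2.1
    have hw : u * G.T b * cs.simple i = u * G.T (G.α i) * G.T (b - G.α i) := by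
      rw [hTs, mul_assoc, mul_assoc, hd, e]
    rw [r_al G i q, q, hTs, show b - (1 : ℤ) • G.α i = b - G.α i by module]
    rcases Pool.Agent.H58.ZDE.sgn G u qd with hs | hs
    · have ud : Up G u (b - G.α i) := ⟨qd, pd, hs⟩
      have h1 := H1.s (b - G.α i) (G.α i) ud ua (by rw [R.Q_comm]; exact qad)
        (by rw [show b - G.α i + G.α i = b by abel])
      have h2 := (H2.a (G.α i) (b - G.α i) ua ud qad hw).1
      rw [show b - G.α i + G.α i = b by abel] at h1
      rw [h2, h1]; push_cast; ring
    · have h2 := (H2.b (G.α i) (b - G.α i) ua (by rw [e]; exact ub) qd pd hs qad hw).1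
      rw [e] at h2
      rw [h2]; push_cast; ring

end Pool.Agent.H52.CIC
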