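import Pool.Agent.H52.CIC.StA
import Pool.Agent.H52.CIC.StB

/-! Module SEP of project CIC (helper5): sep2, sep3, ht. -/

namespace Pool.Agent.H52.CIC

open Pool.Agent.H11.ZDE

variable {P : Type} {O : Po P} {L : Type} [AddCommGroup L] {R : RootLat L}

theorem sep2 (S : SLG O R) (h : Ind2St R) : Sep2St S := by
  intro x a b ha hb hab r t
  obtain ⟨h1, h2⟩ := S.lab_root ha
  obtain ⟨h3, h4⟩ := S.lab_root hb
  exact h (S.lab x a) (S.lab x b) h1 h2 h3 h4 (fun e => hab (S.lab_inj ha hb e)) r t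

theorem sep3 (S : SLG O R) (h : Ind3St R) : Sep3St S := by
  intro x a b c ha hb hc hab hac hbc n1 n2 n3 r t v
  obtain ⟨h1, h2⟩ := S.lab_root ha
  obtain ⟨h3, h4⟩ := S.lab_root hb
  obtain ⟨h5, h6⟩ := S.lab_root hc
  exact h (S.lab x a) (S.lab x b) (S.lab x c) h1 h2 h3 h4 h5 h6
    (fun e => hab (S.lab_inj ha hb e)) (fun e => hac (S.lab_inj ha hc e))
    (fun e => hbc (S.lab_inj hb hc e)) n1 n2 n3 r t v

/-- the height as a linear functional -/
def htHom (R : RootLat L) : L →+ ℝ where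
  toFun v := (R.ht v : ℝ)
  map_zero' := by
    have := R.ht_add 0 0
    rw [add_zero] at this
    have h0 : R.ht 0 = 0 := by omega
    rw [h0]
    simp
  map_add' v w := by rw [R.ht_add]; push_cast; ring

variable [Fintype P]

theorem ht (S : SLG O R) (hg : GlobSt S) : HtSt S := by
  refine ⟨htHom R, fun u y => ⟨hg u y _, fun a ha => ?_⟩⟩
  have h1 : S.E u a := by
    unfold out at ha
    simp only [Finset.mem_filter, Finset.mem_univ, true_and] at ha
    exact ha.1
  have h2 := R.ht_pos _ (S.lab_root h1).2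
  show (0 : ℝ) < (R.ht (S.lab u a) : ℝ)
  exact_mod_cast h2

end Pool.Agent.H52.CIC
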