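import Pool.Agent.H52.CIC.StG
import Pool.Agent.H52.CIC.GLOB
import Pool.Agent.H52.CIC.AVOID
import Pool.Agent.H52.CIC.IND2
import Pool.Agent.H52.CIC.SEP
import Pool.Agent.H11.Ism.GeoB

/-! Module MM of project CIC (helper5): the mirror formula. -/

namespace Pool.Agent.H52.CIC

open Pool.Agent.H11.ZDE Polynomial

section real

open Filter Topology

theorem ev_lin {A B : ℝ} (h : A ≠ 0 ∨ B ≠ 0) : ∀ᶠ τ in 𝓝[>] (0 : ℝ), A + τ * B ≠ 0 := by
  by_cases hA : A = 0
  · subst hA
    have hB : B ≠ 0 := by
      rcases h with h | h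
      · exact absurd rfl h
      · exact h
    filter_upwards [self_mem_nhdsWithin] with τ hτ
    have : (τ : ℝ) ≠ 0 := ne_of_gt hτ
    rw [zero_add]
    exact mul_ne_zero this hB
  · have hc : ContinuousAt (fun τ : ℝ => A + τ * B) 0 := by fun_prop
    have h0 : (fun τ : ℝ => A + τ * B) 0 ≠ 0 := by simpa using hA
    exact (hc.eventually_ne h0).filter_mono nhdsWithin_le_nhds

theorem ev_sgn {A B : ℝ} (h : A ≠ 0) : ∀ᶠ τ in 𝓝[>] (0 : ℝ), (0 < A + τ * B ↔ 0 < A) ∧ A + τ * B ≠ 0 := by
  have hc : ContinuousAt (fun τ : ℝ => A + τ * B) 0 := by fun_prop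
  rcases lt_or_gt_of_ne h with h1 | h1
  · have h2 : ∀ᶠ τ in 𝓝 (0 : ℝ), A + τ * B < 0 := by
      apply hc.eventually_lt_const
      simpa using h1
    have h3 := h2.filter_mono (nhdsWithin_le_nhds (s := Set.Ioi (0 : ℝ)))
    filter_upwards [h3] with τ hτ
    exact ⟨⟨fun h => absurd h (not_lt.2 hτ.le), fun h => absurd h (not_lt.2 h1.le)⟩, hτ.ne⟩
  · have h2 : ∀ᶠ τ in 𝓝 (0 : ℝ), 0 < A + τ * B := by
      apply hc.eventually_const_lt
      simpa using h1
    have h3 := h2.filter_mono (nhdsWithin_le_nhds (s := Set.Ioi (0 : ℝ)))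
    filter_upwards [h3] with τ hτ
    exact ⟨⟨fun _ => h1, fun _ => hτ⟩, hτ.ne'⟩

end real

variable {L : Type} [AddCommGroup L]

/-- the form `ω ↦ ω b * r - ω c * t` -/
def mmForm (b c : L) (r t : ℝ) : (L →+ ℝ) →ₗ[ℝ] ℝ where
  toFun ω := ω b * r - ω c * t
  map_add' x y := by simp only [AddMonoidHom.add_apply]; ring
  map_smul' x y := by
    simp only [AddMonoidHom.smul_apply, smul_eq_mul, RingHom.id_apply]
    ring

/-- generic functionals -/
theorem gen_k (R : RootLat L) (a : L) (g k : L →+ ℝ) (ga : g a = 0)
    (gp : ∀ b, R.Q b b = 2 → R.P b → b ≠ a → 0 < g b) :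
    ∃ k' : L →+ ℝ, (∀ b, R.Q b b = 2 → R.P b → k b ≠ 0 → ((0 < k' b ↔ 0 < k b) ∧ k' b ≠ 0)) ∧
      ∀ b c, R.Q b b = 2 → R.P b → R.Q c c = 2 → R.P c → b ≠ c → k' b * g c ≠ k' c * g b := by
  classical
  have _ := ga
  have hfin : {b : L | R.Q b b = 2 ∧ R.P b}.Finite := R.fin.subset (fun b hb => hb.1)
  set F : Finset L := hfin.toFinset with hF
  have memF : ∀ b, b ∈ F ↔ R.Q b b = 2 ∧ R.P b := fun b => by rw [hF, Set.Finite.mem_toFinset]; rfl
  have hform : ∀ b c, R.Q b b = 2 → R.P b → R.Q c c = 2 → R.P c → b ≠ c → mmForm b c (g c) (g b) ≠ 0 := by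
    intro b c qb pb qc pc hbc h0
    obtain ⟨ω, h1, h2⟩ := ind2 R b c qb pb qc pc hbc (g c) (-(g b))
    have h3 : mmForm b c (g c) (g b) ω = 0 := by rw [h0]; rfl
    have h4 : ω b * g c - ω c * g b = 0 := h3
    rw [h1, h2] at h4
    have h5 : g c * g c + g b * g b = 0 := by linarith
    by_cases hb : b = a
    · have hc : c ≠ a := fun h => hbc (hb.trans h.symm)
      have := gp c qc pc hc
      nlinarith [mul_pos this this, mul_self_nonneg (g b)]
    · have := gp b qb pb hb
      nlinarith [mul_pos this this, mul_self_nonneg (g c)]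
  obtain ⟨ω, hω⟩ := avoid (L →+ ℝ) (L × L) ((F ×ˢ F).filter (fun p => p.1 ≠ p.2))
    (fun p => mmForm p.1 p.2 (g p.2) (g p.1)) (by
      rintro ⟨b, c⟩ hp
      rw [Finset.mem_filter, Finset.mem_product] at hp
      have h1 := (memF b).1 hp.1.1
      have h2 := (memF c).1 hp.1.2
      exact hform b c h1.1 h1.2 h2.1 h2.2 hp.2)
  have e1 : ∀ᶠ τ in nhdsWithin (0 : ℝ) (Set.Ioi 0), ∀ b ∈ F, k b ≠ 0 →
      ((0 < k b + τ * ω b ↔ 0 < k b) ∧ k b + τ * ω b ≠ 0) := by
    rw [Filter.eventually_all_finset]
    intro b _
    by_cases hb : k b = 0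
    · exact Filter.Eventually.of_forall (fun τ h => absurd hb h)
    · exact (ev_sgn hb).mono (fun τ h _ => h)
  have e2 : ∀ᶠ τ in nhdsWithin (0 : ℝ) (Set.Ioi 0), ∀ p ∈ (F ×ˢ F).filter (fun p => p.1 ≠ p.2),
      (k p.1 * g p.2 - k p.2 * g p.1) + τ * (ω p.1 * g p.2 - ω p.2 * g p.1) ≠ 0 := by
    rw [Filter.eventually_all_finset]
    intro p hp
    exact ev_lin (Or.inr (hω p hp))
  obtain ⟨τ, h1, h2⟩ := (e1.and e2).exists
  refine ⟨k + τ • ω, fun b qb pb hb => ?_, fun b c qb pb qc pc hbc h => ?_⟩
  · exact h1 b ((memF b).2 ⟨qb, pb⟩) hb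
  · apply h2 (b, c) (by
      rw [Finset.mem_filter, Finset.mem_product]
      exact ⟨⟨(memF b).2 ⟨qb, pb⟩, (memF c).2 ⟨qc, pc⟩⟩, hbc⟩)
    simp only [AddMonoidHom.add_apply, AddMonoidHom.smul_apply, smul_eq_mul] at h
    show (k b * g c - k c * g b) + τ * (ω b * g c - ω c * g b) = 0
    linarith

section
variable {B W : Type} [Group W] {M : CoxeterMatrix B} {cs : CoxeterSystem M W}
  {R : RootLat L} (G : Geo cs R)

include G

theorem mem_S (i : B) : G.α i ∈ R.S := G.αS ▸ Set.mem_range_self i

omit G in
theorem r_inv {a : L} (ha : R.Q a a = 2) (b : L) : R.r a (R.r a b) = b := by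
  have := congrArg (fun f => f b) (R.r_r ha)
  simpa using this

/-- the symmetric height -/
theorem g0_ex (i : B) : ∃ g : L →+ ℝ, g (G.α i) = 0 ∧
    (∀ b, R.Q b b = 2 → R.P b → b ≠ G.α i → 0 < g b) ∧ ∀ b, g (R.r (G.α i) b) = g b := by
  have hS := mem_S G i
  have q := R.S_root _ hS
  refine ⟨htHom R + (htHom R).comp (R.r (G.α i)).toAddMonoidHom, ?_, fun b qb pb hb => ?_, fun b => ?_⟩
  · show htHom R (G.α i) + htHom R (R.r (G.α i) (G.α i)) = 0
    rw [R.r_self q, map_neg]
    ring
  · show 0 < htHom R b + htHom R (R.r (G.α i) b)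
    have p1 : R.P (R.r (G.α i) b) := by
      rw [R.r_apply]
      exact R.S_refl _ hS b qb pb hb
    have h1 : (0 : ℝ) < (R.ht b : ℝ) := by exact_mod_cast R.ht_pos _ pb
    have h2 : (0 : ℝ) < (R.ht (R.r (G.α i) b) : ℝ) := by exact_mod_cast R.ht_pos _ p1
    exact add_pos h1 h2
  · show htHom R (R.r (G.α i) b) + htHom R (R.r (G.α i) (R.r (G.α i) b)) =
      htHom R b + htHom R (R.r (G.α i) b)
    rw [r_inv q]
    ring

variable [Fintype W]

variable {G} in
theorem Inst.out {O : Po W} {S : SLG O R} (hI : Inst G O S) {y u a : W} (h : a ∈ out S y u) :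
    ∃ b, Up G u b ∧ a = u * G.T b ∧ S.lab u a = b ∧ Bru cs a y := by
  rw [mem_out] at h
  obtain ⟨b, hb, e⟩ := (hI.E u a).1 h.1
  refine ⟨b, hb, e, ?_, (hI.le _ _).1 h.2⟩
  rw [e]
  exact hI.lab u b hb

variable {G} in
theorem Inst.mem {O : Po W} {S : SLG O R} (hI : Inst G O S) {y u : W} {b : L} (hb : Up G u b)
    (h : Bru cs (u * G.T b) y) : u * G.T b ∈ Pool.Agent.H52.CIC.out S y u :=
  mem_out.2 ⟨(hI.E _ _).2 ⟨b, hb, rfl⟩, (hI.le _ _).2 h⟩

variable {G} in
/-- the value depends only on the signs -/
theorem Inst.sgn {O : Po W} {S : SLG O R} (hI : Inst G O S) {y u : W} {φ : W → (W → W → ℝ) → ℤ[X]}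
    (hφ : PhiAt S y φ u) {k k' : L →+ ℝ} (h : ∀ b, Up G u b → k b ≠ 0 ∧ k' b ≠ 0 ∧ (0 < k b ↔ 0 < k' b)) :
    φ u (glob S k) = φ u (glob S k') := by
  refine hφ.sign _ _ ⟨glob_mem S u y k, fun a ha => ?_⟩ ⟨glob_mem S u y k', fun a ha => ?_⟩ fun a ha => ?_
  all_goals
    obtain ⟨b, hb, e, hl, -⟩ := hI.out ha
    unfold glob
    rw [hl]
  · exact (h b hb).1
  · exact (h b hb).2.1
  · exact (h b hb).2.2

omit G [Fintype W] in
theorem cmp_apply (k : L →+ ℝ) (a v : L) : cmp (R := R) k a v = k (R.r a v) := rfl

open Classical in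
theorem mm (hrec : Rec0St G) (hups : ∀ u (i : B) b, R.Q b b = 2 → R.P b → b ≠ G.α i →
    (Up G u b ↔ Up G (u * cs.simple i) (R.r (G.α i) b)) ∧
    u * cs.simple i * G.T (R.r (G.α i) b) = u * G.T b * cs.simple i) : MmSt G := by
  intro O S hI y i φ φ' hy hφ hφ'
  obtain ⟨g, ga, gp, gs⟩ := g0_ex G i
  have hS := mem_S G i
  have qα := R.S_root _ hS
  have pα := R.S_pos _ hS
  have hyy : y * cs.simple i * cs.simple i = y := Pool.Agent.H11.Ism.ss y i
  have key : ∀ n : ℕ, ∀ u (k : L →+ ℝ), cs.length y ≤ cs.length u + n → O.Le u y → k (G.α i) < 0 →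
      (∀ b, Up G u b → k b ≠ 0) →
      φ u (glob S k) = if Bru cs (u * cs.simple i) (y * cs.simple i) then
        φ' (u * cs.simple i) (glob S (cmp (R := R) k (G.α i))) else 0 := by
    intro n
    induction n with
    | zero =>
      intro u k hn hu hk hne
      have huy : u = y := by
        by_contra h
        have := O.rk_lt hu h
        rw [hI.rk, hI.rk] at this
        omega
      subst huy
      rw [(hφ u hu).at_top rfl, if_pos (show Bru cs (u * cs.simple i) (u * cs.simple i) from Relation.ReflTransGen.refl),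
        (hφ' (u * cs.simple i) (O.refl _)).at_top rfl]
    | succ n ih =>
      intro u k hn hu hk hne
      by_cases huy : u = y
      · subst huy
        rw [(hφ u hu).at_top rfl, if_pos (show Bru cs (u * cs.simple i) (u * cs.simple i) from Relation.ReflTransGen.refl),
          (hφ' (u * cs.simple i) (O.refl _)).at_top rfl]
      obtain ⟨k', h1, h2⟩ := gen_k R (G.α i) g k ga gp
      have hka : k' (G.α i) < 0 := by
        obtain ⟨h3, h4⟩ := h1 _ qα pα hk.ne
        rcases lt_or_gt_of_ne h4 with h5 | h5
        · exact h5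
        · exact absurd (h3.1 h5) (not_lt.2 hk.le)
      have hne' : ∀ b, Up G u b → k' b ≠ 0 := fun b hb => (h1 b hb.q hb.p (hne b hb)).2
      rw [hI.sgn (hφ u hu) (k' := k') (fun b hb => ⟨hne b hb, hne' b hb, (h1 b hb.q hb.p (hne b hb)).1.symm⟩)]
      rw [hrec O S hI y φ hφ u i k' g hu huy ga gp hne'
        (fun b c hb qc pc hbc => h2 b c hb.q hb.p qc pc hbc) (Or.inl hka)]
      -- the terms on the left
      have term : ∀ a ∈ (out S y u).filter (fun a => 0 < glob S k' u a ∧ S.lab u a ≠ G.α i),
          φ a (glob S (k' - (k' (S.lab u a) / g (S.lab u a)) • g)) =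
            if Bru cs (a * cs.simple i) (y * cs.simple i) then
              φ' (a * cs.simple i) (glob S (cmp (R := R) (k' - (k' (S.lab u a) / g (S.lab u a)) • g) (G.α i)))
            else 0 := by
        intro a ha
        rw [Finset.mem_filter] at ha
        obtain ⟨b, hb, e, hl, hay⟩ := hI.out ha.1
        have hgb := gp b hb.q hb.p (by rw [← hl]; exact ha.2.2)
        have hlen : cs.length u < cs.length a := by
          rw [e]
          exact G.lt u b hb.q hb.p hb.u
        refine ih a _ (by omega) ((hI.le _ _).2 hay) ?_ ?_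
        · simp only [AddMonoidHom.sub_apply, AddMonoidHom.smul_apply, ga, smul_eq_mul, mul_zero, sub_zero]
          exact hka
        · intro c hc h0
          have hcb : c ≠ b := by
            rintro rfl
            have h3 := hc.u
            rw [e, Pool.Agent.H58.ZDE.rho_T G hb.q, hb.q] at h3
            refine R.P_neg hb.u (R.P_cast h3 ?_)
            rw [← map_neg]
            congr 1
            module
          rw [hl] at h0
          simp only [AddMonoidHom.sub_apply, AddMonoidHom.smul_apply, smul_eq_mul] at h0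
          refine h2 b c hb.q hb.p hc.q hc.p (Ne.symm hcb) ?_
          field_simp at h0
          linarith
      rw [Finset.sum_congr rfl term]
      -- the mirror images
      have mir : ∀ b, Up G u b → b ≠ G.α i → Up G (u * cs.simple i) (R.r (G.α i) b) ∧
          u * cs.simple i * G.T (R.r (G.α i) b) = u * G.T b * cs.simple i := fun b hb hbα =>
        ⟨(hups u i b hb.q hb.p hbα).1.1 hb, (hups u i b hb.q hb.p hbα).2⟩
      by_cases hB : Bru cs (u * cs.simple i) (y * cs.simple i)
      · rw [if_pos hB]
        have hu' : O.Le (u * cs.simple i) (y * cs.simple i) := (hI.le _ _).2 hB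
        have huu : u * cs.simple i * cs.simple i = u := Pool.Agent.H11.Ism.ss u i
        have hup : ∀ b, Up G (u * cs.simple i) b → b ≠ G.α i → Up G u (R.r (G.α i) b) := by
          intro b hb hbα
          have := (hups (u * cs.simple i) i b hb.q hb.p hbα).1.1 hb
          rwa [huu] at this
        have hm : ∀ b, Up G (u * cs.simple i) b → cmp (R := R) k (G.α i) b ≠ 0 ∧
            cmp (R := R) k' (G.α i) b ≠ 0 ∧ (0 < cmp (R := R) k (G.α i) b ↔ 0 < cmp (R := R) k' (G.α i) b) := by
          intro b hb
          rw [cmp_apply, cmp_apply]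
          by_cases hbα : b = G.α i
          · rw [hbα, R.r_self qα, map_neg, map_neg]
            refine ⟨by linarith [hk], by linarith [hka], ?_⟩
            constructor
            · intro _
              linarith
            · intro _
              linarith
          · have h3 := hup b hb hbα
            exact ⟨hne _ h3, hne' _ h3, (h1 _ h3.q h3.p (hne _ h3)).1.symm⟩
        rw [hI.sgn (hφ' _ hu') hm]
        have hne2 : u * cs.simple i ≠ y * cs.simple i := fun h => huy (mul_right_cancel h)
        have hne3 : u * cs.simple i * cs.simple i ≠ y * cs.simple i := by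
          rw [huu]
          intro h
          rw [h, hyy] at hB
          rcases Pool.Agent.H58.ZDE.bru_len hB with h3 | h3
          · rw [← h3] at hy
            omega
          · omega
        rw [hrec O S hI (y * cs.simple i) φ' hφ' (u * cs.simple i) i (cmp (R := R) k' (G.α i)) g hu' hne2 ga gp
          (fun b hb => (hm b hb).2.1) ?_ (Or.inr ⟨?_, hne3⟩)]
        · congr 1
          rw [← Finset.sum_filter]
          refine Finset.sum_nbij' (fun a => a * cs.simple i) (fun a => a * cs.simple i) ?_ ?_ ?_ ?_ ?_
          · intro a ha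
            rw [Finset.mem_filter, Finset.mem_filter] at ha
            obtain ⟨⟨ha1, ha2, ha3⟩, ha4⟩ := ha
            obtain ⟨b, hb, e, hl, hay⟩ := hI.out ha1
            rw [hl] at ha3
            obtain ⟨hb', e'⟩ := mir b hb ha3
            have hlab := hI.lab _ _ hb'
            rw [e', ← e] at hlab
            rw [Finset.mem_filter]
            refine ⟨?_, ?_, ?_⟩
            · rw [e, ← e']
              refine hI.mem hb' ?_
              rw [e', ← e]
              exact ha4
            · unfold glob
              rw [hlab, cmp_apply, r_inv qα]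
              unfold glob at ha2
              rw [hl] at ha2
              exact ha2
            · rw [hlab]
              intro h
              have h3 : b = -(G.α i) := by
                rw [← r_inv qα b, h, R.r_self qα]
              have := hb.p
              rw [h3] at this
              exact R.P_neg pα this
          · intro a ha
            rw [Finset.mem_filter] at ha
            obtain ⟨ha1, ha2, ha3⟩ := ha
            obtain ⟨c, hc, e, hl, hay⟩ := hI.out ha1
            rw [hl] at ha3
            have hc' := hup c hc ha3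
            have e' := (hups (u * cs.simple i) i c hc.q hc.p ha3).2
            rw [huu, ← e] at e'
            have hlab := hI.lab _ _ hc'
            rw [e'] at hlab
            have hass : a * cs.simple i * cs.simple i = a := Pool.Agent.H11.Ism.ss a i
            rw [Finset.mem_filter, Finset.mem_filter]
            refine ⟨⟨?_, ?_, ?_⟩, ?_⟩
            · rw [← e']
              refine hI.mem hc' ?_
              rw [e']
              -- lifting
              have h3 := (Pool.Agent.H11.Ism.lift_mx G i hay).1
              have h4 := (Pool.Agent.H11.Ism.le_mx G i a).2.1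
              have h5 : Pool.Agent.H11.Ism.mx cs i (y * cs.simple i) = y := by
                unfold Pool.Agent.H11.Ism.mx
                rw [hyy, if_pos hy]
              rw [h5] at h3
              exact h4.trans h3
            · unfold glob
              rw [hlab]
              unfold glob at ha2
              rw [hl, cmp_apply] at ha2
              exact ha2
            · rw [hlab]
              intro h
              have h3 : c = -(G.α i) := by
                rw [← r_inv qα c, h, R.r_self qα]
              have := hc.p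
              rw [h3] at this
              exact R.P_neg pα this
            · rw [hass]
              exact hay
          · intro a _
            exact Pool.Agent.H11.Ism.ss a i
          · intro a _
            exact Pool.Agent.H11.Ism.ss a i
          · intro a ha
            rw [Finset.mem_filter, Finset.mem_filter] at ha
            obtain ⟨⟨ha1, ha2, ha3⟩, ha4⟩ := ha
            obtain ⟨b, hb, e, hl, hay⟩ := hI.out ha1
            rw [hl] at ha3
            obtain ⟨hb', e'⟩ := mir b hb ha3
            have hlab := hI.lab _ _ hb'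
            rw [e', ← e] at hlab
            rw [hlab, hl]
            congr 2
            ext v
            simp only [cmp_apply, AddMonoidHom.sub_apply, AddMonoidHom.smul_apply, smul_eq_mul, gs, r_inv qα]
        · intro b c hb qc pc hbc h
          rw [cmp_apply, cmp_apply] at h
          by_cases hbα : b = G.α i
          · have hcα : c ≠ G.α i := fun h3 => hbc (hbα.trans h3.symm)
            rw [hbα, ga, mul_zero, R.r_self qα, map_neg] at h
            have := gp c qc pc hcα
            rcases mul_eq_zero.1 h with h3 | h3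
            · linarith
            · linarith
          · by_cases hcα : c = G.α i
            · rw [hcα, ga, mul_zero, R.r_self qα, map_neg] at h
              have := gp b hb.q hb.p hbα
              rcases mul_eq_zero.1 h.symm with h3 | h3
              · linarith
              · linarith
            · have q1 : R.Q (R.r (G.α i) b) (R.r (G.α i) b) = 2 := by rw [R.Q_r qα]; exact hb.q
              have q2 : R.Q (R.r (G.α i) c) (R.r (G.α i) c) = 2 := by rw [R.Q_r qα]; exact qc
              have p1 : R.P (R.r (G.α i) b) := by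
                rw [R.r_apply]; exact R.S_refl _ hS b hb.q hb.p hbα
              have p2 : R.P (R.r (G.α i) c) := by
                rw [R.r_apply]; exact R.S_refl _ hS c qc pc hcα
              refine h2 _ _ q1 p1 q2 p2 (fun h3 => hbc ?_) (by rw [gs, gs]; exact h)
              rw [← r_inv qα b, h3, r_inv qα]
        · rw [cmp_apply, R.r_self qα, map_neg]
          linarith
      · rw [if_neg hB]
        rw [Finset.sum_eq_zero, mul_zero]
        intro a ha
        rw [Finset.mem_filter] at ha
        obtain ⟨b, hb, e, hl, hay⟩ := hI.out ha.1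
        rw [if_neg]
        intro h
        apply hB
        obtain ⟨hb', e'⟩ := mir b hb (by rw [← hl]; exact ha.2.2)
        have h3 := Pool.Agent.H58.ZDE.bru_step G hb'.q hb'.p hb'.u
        rw [e', ← e] at h3
        exact h3.trans h
  intro u k hu hk hne
  exact key (cs.length y) u k (by omega) hu hk hne

end

end Pool.Agent.H52.CIC
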