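import Pool.Agent.H52.CIC.StB

/-!
# Project CIC, module PATH: moving along a line
-/

namespace Pool.Agent.H52.CIC

open Pool.Agent.H11.ZDE Polynomial Filter Topology

variable {P : Type} [Fintype P] {O : Po P} {L : Type} [AddCommGroup L] {R : RootLat L}

/-- convex combination -/
noncomputable def pthC (f0 f1 : P → P → ℝ) (t : ℝ) : P → P → ℝ := (1 - t) • f0 + t • f1

omit [Fintype P] in
theorem pthC_apply (f0 f1 : P → P → ℝ) (t : ℝ) (u a : P) :
    pthC f0 f1 t u a = (1 - t) * f0 u a + t * f1 u a := rfl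

/-- the determinant of two edges along the line -/
noncomputable def pthD (f0 f1 g0 g1 : P → P → ℝ) (x a b : P) (t : ℝ) : ℝ :=
  pthC f0 f1 t x a * pthC g0 g1 t x b - pthC f0 f1 t x b * pthC g0 g1 t x a

omit [Fintype P] in
theorem pthD_cont (f0 f1 g0 g1 : P → P → ℝ) (x a b : P) : Continuous (pthD f0 f1 g0 g1 x a b) := by
  unfold pthD
  simp only [pthC_apply]
  fun_prop

omit [Fintype P] in
/-- the zeros of the determinant are finitely many -/
theorem pthD_finite (f0 f1 g0 g1 : P → P → ℝ) (x a b : P) (h : pthD f0 f1 g0 g1 x a b 0 ≠ 0) :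
    {t | pthD f0 f1 g0 g1 x a b t = 0}.Finite := by
  set p : ℝ[X] := ((1 - X) * C (f0 x a) + X * C (f1 x a)) * ((1 - X) * C (g0 x b) + X * C (g1 x b)) -
    ((1 - X) * C (f0 x b) + X * C (f1 x b)) * ((1 - X) * C (g0 x a) + X * C (g1 x a)) with hp
  have hev : ∀ t, p.eval t = pthD f0 f1 g0 g1 x a b t := by
    intro t
    rw [hp]
    simp only [pthD, pthC_apply, eval_sub, eval_mul, eval_add, eval_one, eval_X, eval_C]
  have hne : p ≠ 0 := by
    intro h0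
    apply h
    rw [← hev, h0, eval_zero]
  refine (p.roots.toFinset.finite_toSet).subset ?_
  intro t ht
  rw [Set.mem_ofPred_eq] at ht
  rw [Finset.mem_coe, Multiset.mem_toFinset, mem_roots hne, IsRoot.def, hev]
  exact ht

/-- PATH -/
theorem path (S : SLG O R) (hc : CrossSt S) (he : EndwSt) : PathSt S := by
  intro x y φ f0 g0 f1 g1 hxy hφ hf0 hf1 hs hg0 hg1 ht0 ht1 hcop
  have hmem : ∀ (h0 h1 : P → P → ℝ), h0 ∈ FS S x y → h1 ∈ FS S x y → ∀ t, pthC h0 h1 t ∈ FS S x y :=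
    fun h0 h1 k0 k1 t => (FS S x y).add_mem ((FS S x y).smul_mem _ k0) ((FS S x y).smul_mem _ k1)
  -- positivity along the line
  have hposf : ∀ (h0 h1 : P → P → ℝ) (a : P), 0 < h0 x a → 0 < h1 x a → ∀ t ∈ Set.Icc (0 : ℝ) 1,
      0 < pthC h0 h1 t x a := by
    intro h0 h1 a k0 k1 t ht
    rw [pthC_apply]
    rcases eq_or_lt_of_le ht.1 with h | h
    · rw [← h]; linarith
    · have h2 : 0 ≤ (1 - t) * h0 x a := mul_nonneg (by linarith [ht.2]) k0.le
      have h3 : 0 < t * h1 x a := mul_pos h k1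
      linarith
  have hnegf : ∀ (h0 h1 : P → P → ℝ) (a : P), h0 x a < 0 → h1 x a < 0 → ∀ t ∈ Set.Icc (0 : ℝ) 1,
      pthC h0 h1 t x a < 0 := by
    intro h0 h1 a k0 k1 t ht
    rw [pthC_apply]
    rcases eq_or_lt_of_le ht.1 with h | h
    · rw [← h]; linarith
    · have h2 : (1 - t) * h0 x a ≤ 0 := mul_nonpos_of_nonneg_of_nonpos (by linarith [ht.2]) k0.le
      have h3 : t * h1 x a < 0 := mul_neg_of_pos_of_neg h k1
      linarith
  have hsg : ∀ a ∈ out S y x, ∀ t ∈ Set.Icc (0 : ℝ) 1,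
      (0 < f0 x a ∧ 0 < pthC f0 f1 t x a) ∨ (f0 x a < 0 ∧ pthC f0 f1 t x a < 0) := by
    intro a ha t ht
    rcases lt_or_gt_of_ne (hf0.ne a ha) with h | h
    · right
      have h1 : f1 x a < 0 := by
        rcases lt_or_gt_of_ne (hf1.ne a ha) with h' | h'
        · exact h'
        · exact absurd ((hs a ha).2 h') (not_lt.2 h.le)
      exact ⟨h, hnegf f0 f1 a h h1 t ht⟩
    · left
      exact ⟨h, hposf f0 f1 a h ((hs a ha).1 h) t ht⟩
  have hgn : ∀ t ∈ Set.Icc (0 : ℝ) 1, Gn S y x (pthC f0 f1 t) := by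
    intro t ht
    refine ⟨hmem _ _ hf0.mem hf1.mem t, fun a ha => ?_⟩
    rcases hsg a ha t ht with ⟨_, h⟩ | ⟨_, h⟩
    · exact h.ne'
    · exact h.ne
  have hps : ∀ t ∈ Set.Icc (0 : ℝ) 1, Ps S y x (pthC g0 g1 t) := fun t ht =>
    ⟨hmem _ _ hg0.mem hg1.mem t, fun a ha => hposf g0 g1 a (hg0.pos a ha) (hg1.pos a ha) t ht⟩
  -- the exceptional set
  have e0 : ∀ h0 h1 : P → P → ℝ, pthC h0 h1 0 = h0 := by
    intro h0 h1; unfold pthC; simp
  have e1 : ∀ h0 h1 : P → P → ℝ, pthC h0 h1 1 = h1 := by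
    intro h0 h1; unfold pthC; simp
  have hD0 : ∀ a ∈ out S y x, ∀ b ∈ out S y x, a ≠ b → pthD f0 f1 g0 g1 x a b 0 ≠ 0 := by
    intro a ha b hb hab
    unfold pthD
    rw [e0, e0]
    exact sub_ne_zero.2 (ht0 a ha b hb hab)
  have hD1 : ∀ a ∈ out S y x, ∀ b ∈ out S y x, a ≠ b → pthD f0 f1 g0 g1 x a b 1 ≠ 0 := by
    intro a ha b hb hab
    unfold pthD
    rw [e1, e1]
    exact sub_ne_zero.2 (ht1 a ha b hb hab)
  set T : Set ℝ := {t | ∃ a ∈ out S y x, ∃ b ∈ out S y x, a ≠ b ∧ pthD f0 f1 g0 g1 x a b t = 0} with hT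
  have hTf : T.Finite := by
    have h1 : (⋃ a ∈ (out S y x : Set P), ⋃ b ∈ ((out S y x : Set P) ∩ {b | a ≠ b}),
        {t | pthD f0 f1 g0 g1 x a b t = 0}).Finite := by
      refine Set.Finite.biUnion (Finset.finite_toSet _) fun a ha => ?_
      refine Set.Finite.biUnion ((Finset.finite_toSet _).inter_of_left _) fun b hb => ?_
      exact pthD_finite f0 f1 g0 g1 x a b (hD0 a ha b hb.1 hb.2)
    refine h1.subset ?_
    rintro t ⟨a, ha, b, hb, hab, h⟩
    simp only [Set.mem_iUnion]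
    exact ⟨a, ha, b, ⟨hb, hab⟩, h⟩
  have hT0 : (0 : ℝ) ∉ T := by
    rintro ⟨a, ha, b, hb, hab, h⟩
    exact hD0 a ha b hb hab h
  have hT1 : (1 : ℝ) ∉ T := by
    rintro ⟨a, ha, b, hb, hab, h⟩
    exact hD1 a ha b hb hab h
  have main := he (Polynomial ℤ) (fun t => Zs S y x φ (pthC f0 f1 t) (pthC g0 g1 t)) T hTf hT0 hT1 ?_
  · simpa only [e0, e1] using main
  intro t ht
  have hev : ∀ᶠ t1 in 𝓝 t, ∀ a ∈ out S y x, ∀ b ∈ out S y x, pthD f0 f1 g0 g1 x a b t < 0 →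
      pthD f0 f1 g0 g1 x a b t1 < 0 := by
    rw [eventually_all_finset]
    intro a _
    rw [eventually_all_finset]
    intro b _
    by_cases h : pthD f0 f1 g0 g1 x a b t < 0
    · filter_upwards [((pthD_cont f0 f1 g0 g1 x a b).tendsto t).eventually (gt_mem_nhds h)] with t1 h1
      exact fun _ => h1
    · exact Eventually.of_forall fun t1 h1 => absurd h1 h
  obtain ⟨δ, hδ, hball⟩ := Metric.eventually_nhds_iff.1 hev
  have near : ∀ t1 ∈ Set.Icc (0 : ℝ) 1, |t1 - t| < δ → t1 ∉ T →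
      Near S y x (pthC f0 f1 t) (pthC g0 g1 t) (pthC f0 f1 t1) (pthC g0 g1 t1) := by
    intro t1 ht1' hd hnT
    refine ⟨hgn t1 ht1', hps t1 ht1', ?_, ?_, ?_⟩
    · intro a ha b hb hab h
      exact hnT ⟨a, ha, b, hb, hab, sub_eq_zero.2 h⟩
    · intro a ha
      rcases hsg a ha t ht with ⟨k1, k2⟩ | ⟨k1, k2⟩
      · rcases hsg a ha t1 ht1' with ⟨m1, m2⟩ | ⟨m1, m2⟩
        · exact ⟨fun _ => m2, fun _ => k2⟩
        · exact absurd k1 (not_lt.2 m1.le)
      · rcases hsg a ha t1 ht1' with ⟨m1, m2⟩ | ⟨m1, m2⟩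
        · exact absurd m1 (not_lt.2 k1.le)
        · exact ⟨fun h => absurd h (not_lt.2 k2.le), fun h => absurd h (not_lt.2 m2.le)⟩
    · intro a ha b hb h
      exact sub_neg.1 (hball (by rwa [Real.dist_eq]) a ha b hb (sub_neg.2 h))
  refine ⟨δ, hδ, fun t1 h1 t2 h2 d1 d2 n1 n2 => ?_⟩
  exact hc x y φ _ _ _ _ _ _ hxy hφ (hgn t ht) (hps t ht) (hcop t ht) (near t1 h1 d1 n1)
    (near t2 h2 d2 n2)

end Pool.Agent.H52.CIC
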