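import Pool.Agent.H52.CIC.StA

/-! Project CIC: PATHEX. -/

namespace Pool.Agent.H52.CIC

open Pool.Agent.H11.ZDE

variable {P : Type} {O : Po P} {L : Type} [AddCommGroup L] {R : RootLat L}

namespace PathexAux

theorem cv_of_E (S : SLG O R) {u a w : P} (h1 : S.E u a) (h2 : S.E a w)
    (hr : O.rk w = O.rk u + 2) : Cv O u a ∧ Cv O a w := by
  obtain ⟨k, hk⟩ := S.E_odd h1
  obtain ⟨m, hm⟩ := S.E_odd h2
  exact ⟨⟨S.E_le h1, by omega⟩, ⟨S.E_le h2, by omega⟩⟩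

theorem E_of_cv (S : SLG O R) {u a : P} (h : Cv O u a) : S.E u a := S.E_cov h.1 h.2

end PathexAux

open PathexAux in
theorem pathex (S : SLG O R) : PathExSt S := by
  intro x y a1 a2 b1 hr x1 x2 hne i11 i21 y1
  have r1 := x1.2
  have r2 := x2.2
  have r3 := i11.2
  have r4 := y1.2
  obtain ⟨b0, n0, e1, e2, -⟩ := S.sq (E_of_cv S i11) (E_of_cv S y1)
  obtain ⟨i10, y0⟩ := cv_of_E S e1 e2 (by omega)
  obtain ⟨a0, n1, e3, e4, -⟩ := S.sq (E_of_cv S x1) e1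
  have r5 := i10.2
  obtain ⟨x0, i00⟩ := cv_of_E S e3 e4 (by omega)
  obtain ⟨b2, n2, e5, e6, -⟩ := S.sq (E_of_cv S i21) (E_of_cv S y1)
  obtain ⟨i22, y2⟩ := cv_of_E S e5 e6 (by omega)
  have r6 := i22.2
  obtain ⟨a3, n3, e7, e8, -⟩ := S.sq (E_of_cv S x2) e5
  obtain ⟨x3, i32⟩ := cv_of_E S e7 e8 (by omega)
  exact ⟨a0, a3, b0, b2, ⟨hr, x0, x1, x2, x3, y0, y1, y2, i00, i10, i11, i21, i22, i32, n1, hne,
    n3.symm, n0, n2.symm⟩⟩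

end Pool.Agent.H52.CIC
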