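import Pool.Agent.H52.CIC.StC

/-!
Project CIC, modules PULLF and PULLG: restriction of the function spaces and of the generation
property along an embedding.
-/

namespace Pool.Agent.H52.CIC

open Pool.Agent.H11.ZDE

section
variable {P V : Type}

open Classical in
/-- extension by zero along `f` -/
noncomputable def pullf_ext (f : P → V) (h' : P → P → ℝ) (u w : V) : ℝ :=
  if hx : ∃ a : P × P, f a.1 = u ∧ f a.2 = w then h' hx.choose.1 hx.choose.2 else 0

theorem pullf_ext_apply {f : P → V} (hf : Function.Injective f) (h' : P → P → ℝ) (a b : P) :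
    pullf_ext f h' (f a) (f b) = h' a b := by
  unfold pullf_ext
  have hx : ∃ c : P × P, f c.1 = f a ∧ f c.2 = f b := ⟨(a, b), rfl, rfl⟩
  rw [dif_pos hx]
  rw [hf hx.choose_spec.1, hf hx.choose_spec.2]

variable {L : Type} [AddCommGroup L] {R : RootLat L} {O' : Po P} {O : Po V} {f : P → V}
  {S : SLG O R} {S' : SLG O' R}

theorem pullf_rel (hE : Emb O' O f) (hP : Pulled S' S f) {h : V → V → ℝ} {u w : P}
    (hr : RelP S h (f u) (f w)) : RelP S' (fun a b => h (f a) (f b)) u w := by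
  obtain ⟨h1, h2⟩ := hr
  refine ⟨?_, ?_⟩
  · intro a a' e1 e2 e3 e4 e5
    have := h1 (f a) (f a') ((hP.E _ _).1 e1) ((hP.E _ _).1 e2) ((hP.E _ _).1 e3)
      ((hP.E _ _).1 e4) (fun e => e5 (hE.inj e))
    rw [hP.tt]
    exact this
  · intro a a' e1 e2 e3 e4
    rw [hP.lab, hP.lab, hP.lab] at e4
    exact h2 (f a) (f a') ((hP.E _ _).1 e1) ((hP.E _ _).1 e2) ((hP.E _ _).1 e3) e4

theorem pullf_rel_ext (hE : Emb O' O f) (hP : Pulled S' S f) {h' : P → P → ℝ} {p q : P} {u w : V}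
    (hu : O.Le (f p) u) (hw : O.Le w (f q))
    (hr : ∀ u0 w0, f u0 = u → f w0 = w → RelP S' h' u0 w0) :
    RelP S (pullf_ext f h') u w := by
  refine ⟨?_, ?_⟩
  · intro a a' e1 e2 e3 e4 e5
    have l1 := S.E_le e1
    have l2 := S.E_le e2
    have l3 := S.E_le e3
    have l4 := S.E_le e4
    obtain ⟨u0, rfl⟩ := hE.conv p q u hu (O.trans l1 (O.trans l2 hw))
    obtain ⟨w0, rfl⟩ := hE.conv p q w (O.trans hu (O.trans l1 l2)) hw
    obtain ⟨a0, rfl⟩ := hE.conv p q a (O.trans hu l1) (O.trans l2 hw)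
    obtain ⟨b0, rfl⟩ := hE.conv p q a' (O.trans hu l3) (O.trans l4 hw)
    have := (hr u0 w0 rfl rfl).1 a0 b0 ((hP.E _ _).2 e1) ((hP.E _ _).2 e2) ((hP.E _ _).2 e3)
      ((hP.E _ _).2 e4) (fun e => e5 (congrArg f e))
    rw [hP.tt] at this
    rw [pullf_ext_apply hE.inj, pullf_ext_apply hE.inj, pullf_ext_apply hE.inj]
    exact this
  · intro a a' e1 e2 e3 e4
    obtain ⟨w1, w2, hx⟩ := S.hx1 e1 e2 e3 e4
    obtain ⟨-, -, -, -, x3, -, x5, -, x7, -⟩ := hx
    have l1 := S.E_le e1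
    have l2 := S.E_le e2
    have l3 := S.E_le e3
    have la : O.Le a w := O.trans (S.E_le x3) (S.E_le x7)
    have la' : O.Le a' w := O.trans (S.E_le x5) (S.E_le x7)
    obtain ⟨u0, rfl⟩ := hE.conv p q u hu (O.trans l3 hw)
    obtain ⟨w0, rfl⟩ := hE.conv p q w (O.trans hu l3) hw
    obtain ⟨a0, rfl⟩ := hE.conv p q a (O.trans hu l1) (O.trans la hw)
    obtain ⟨b0, rfl⟩ := hE.conv p q a' (O.trans hu l2) (O.trans la' hw)
    have := (hr u0 w0 rfl rfl).2 a0 b0 ((hP.E _ _).2 e1) ((hP.E _ _).2 e2) ((hP.E _ _).2 e3)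
      (by rw [hP.lab, hP.lab, hP.lab]; exact e4)
    rw [pullf_ext_apply hE.inj, pullf_ext_apply hE.inj, pullf_ext_apply hE.inj]
    exact this

end

theorem pullf : PullFSt := by
  intro P V L _ R O' O f S S' hE hP
  refine ⟨?_, ?_⟩
  · intro p q h hh u w hu hw
    exact pullf_rel hE hP (hh (f u) (f w) ((hE.le _ _).1 hu) ((hE.le _ _).1 hw))
  · intro p q h' _ hh
    refine ⟨pullf_ext f h', ?_, pullf_ext_apply hE.inj h'⟩
    intro u w hu hw
    apply pullf_rel_ext hE hP hu hw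
    rintro u0 w0 rfl rfl
    exact hh u0 w0 ((hE.le _ _).2 hu) ((hE.le _ _).2 hw)

theorem pullg : PullGSt := by
  intro P V L _ R O' O f S S' hE hP hG x y h' hxy hrk hr
  have hrk' := hE.rk x y hxy
  obtain ⟨h1, hh1, hag⟩ := hG (f x) (f y) (pullf_ext f h') ((hE.le _ _).1 hxy) (by omega) (by
    intro u w hu hw hne
    apply pullf_rel_ext hE hP hu hw
    rintro u0 w0 rfl rfl
    exact hr u0 w0 ((hE.le _ _).2 hu) ((hE.le _ _).2 hw)
      (fun hc => hne ⟨congrArg f hc.1, congrArg f hc.2⟩))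
  refine ⟨fun a b => h1 (f a) (f b), ?_, ?_⟩
  · intro u w hu hw
    exact pullf_rel hE hP (hh1 (f u) (f w) ((hE.le _ _).1 hu) ((hE.le _ _).1 hw))
  · intro u w hu hE' hw hne
    show h1 (f u) (f w) = h' u w
    rw [hag (f u) (f w) ((hE.le _ _).1 hu) ((hP.E _ _).1 hE') ((hE.le _ _).1 hw)
      (fun hc => hne ⟨hE.inj hc.1, hE.inj hc.2⟩), pullf_ext_apply hE.inj]

end Pool.Agent.H52.CIC
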