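import Pool.Agent.H52.CIC.StC

/-!
# Project CIC: module PULLO (restriction of posets)
-/

namespace Pool.Agent.H52.CIC

open Pool.Agent.H11.ZDE

theorem pullo_ncard {P V : Type} (O : Po V) (f : P → V) (hf : Function.Injective f)
    (hc : ∀ p q v, O.Le (f p) v → O.Le v (f q) → ∃ r, f r = v) (x y : P) (k : ℕ) :
    {v : P | O.Le (f x) (f v) ∧ O.Le (f v) (f y) ∧ O.rk (f v) = k}.ncard =
      {v : V | O.Le (f x) v ∧ O.Le v (f y) ∧ O.rk v = k}.ncard := by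
  rw [← Set.ncard_image_of_injective _ hf]
  congr 1
  ext v
  constructor
  · rintro ⟨r, hr, rfl⟩
    exact hr
  · rintro ⟨h1, h2, h3⟩
    obtain ⟨r, rfl⟩ := hc x y v h1 h2
    exact ⟨r, ⟨h1, h2, h3⟩, rfl⟩

theorem pullo : PullOSt := by
  intro P V O f hf hc
  refine ⟨{ Le := fun p q => O.Le (f p) (f q), rk := fun p => O.rk (f p)
            refl := fun x => O.refl (f x)
            trans := fun h1 h2 => O.trans h1 h2
            rk_lt := fun h1 h2 => O.rk_lt h1 (hf.ne h2)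
            up := ?_, down := ?_, conn := ?_, euler := ?_ }, fun _ _ => Iff.rfl, fun _ => rfl,
            ⟨hf, fun _ _ => Iff.rfl, hc, ?_⟩⟩
  · intro x y h1 h2
    obtain ⟨z, hz1, hz2, hz3⟩ := O.up h1 (hf.ne h2)
    obtain ⟨r, rfl⟩ := hc x y z hz1 hz2
    exact ⟨r, hz1, hz2, hz3⟩
  · intro x y h1 h2
    obtain ⟨z, hz1, hz2, hz3⟩ := O.down h1 (hf.ne h2)
    obtain ⟨r, rfl⟩ := hc x y z hz1 hz2
    exact ⟨r, hz1, hz2, hz3⟩
  · intro x y a b h1 h2 h3 h4 h5 h6 h7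
    have key : ∀ c, Relation.ReflTransGen (fun c d => O.Le (f x) d ∧ O.rk d = O.rk (f x) + 1 ∧
        ∃ v, O.Le c v ∧ O.Le d v ∧ O.rk v = O.rk (f x) + 2 ∧ O.Le v (f y)) (f a) c →
        ∃ r, f r = c ∧ Relation.ReflTransGen (fun c d => O.Le (f x) (f d) ∧ O.rk (f d) = O.rk (f x) + 1 ∧
        ∃ v, O.Le (f c) (f v) ∧ O.Le (f d) (f v) ∧ O.rk (f v) = O.rk (f x) + 2 ∧ O.Le (f v) (f y)) a r := by
      intro c hcc
      induction hcc with
      | refl => exact ⟨a, rfl, Relation.ReflTransGen.refl⟩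
      | tail h hs ih =>
        obtain ⟨r, hr, hrr⟩ := ih
        obtain ⟨k1, k2, v, k3, k4, k5, k6⟩ := hs
        obtain ⟨r', rfl⟩ := hc x y _ k1 (O.trans k4 k6)
        obtain ⟨v', rfl⟩ := hc x y v (O.trans k1 k4) k6
        refine ⟨r', rfl, hrr.tail ⟨k1, k2, v', ?_, k4, k5, k6⟩⟩
        rw [hr]
        exact k3
    obtain ⟨r, hr, hrr⟩ := key (f b) (O.conn h1 h2 h3 h4 h5 h6 h7)
    rw [hf hr] at hrr
    exact hrr
  · intro x y h1 h2
    rw [pullo_ncard O f hf hc, pullo_ncard O f hf hc, pullo_ncard O f hf hc]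
    exact O.euler h1 h2
  · intro p q _
    exact Nat.add_comm _ _

end Pool.Agent.H52.CIC
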