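import Pool.Agent.H52.CIC.StC

/-!
# Project CIC: module PULLS (restriction of structures)
-/

namespace Pool.Agent.H52.CIC

open Pool.Agent.H11.ZDE

variable {P V : Type} {L : Type} [AddCommGroup L] {R : RootLat L} {O' : Po P} {O : Po V}

/-- hexagons of the restricted graph -/
theorem hex_emb {S : SLG O R} {f : P → V} (he : Emb O' O f) {u a a' w w' z : P} :
    Hex (fun p q => S.E (f p) (f q)) u a a' w w' z ↔ Hex S.E (f u) (f a) (f a') (f w) (f w') (f z) := by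
  unfold Hex
  constructor
  · rintro ⟨h1, h2, h3⟩
    exact ⟨he.inj.ne h1, he.inj.ne h2, h3⟩
  · rintro ⟨h1, h2, h3⟩
    exact ⟨fun h => h1 (by rw [h]), fun h => h2 (by rw [h]), h3⟩

/-- hexagons with ends in the image -/
theorem hex_lift {S : SLG O R} {f : P → V} (he : Emb O' O f) {u z : P} {a a' w w' : V}
    (h : Hex S.E (f u) a a' w w' (f z)) : ∃ a0 a0' w0 w0', f a0 = a ∧ f a0' = a' ∧ f w0 = w ∧ f w0' = w' := by
  obtain ⟨-, -, h1, h2, h3, h4, h5, h6, h7, h8⟩ := h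
  obtain ⟨a0, ha0⟩ := he.conv u z a (S.E_le h1) (O.trans (S.E_le h3) (S.E_le h7))
  obtain ⟨a1, ha1⟩ := he.conv u z a' (S.E_le h2) (O.trans (S.E_le h5) (S.E_le h7))
  obtain ⟨w0, hw0⟩ := he.conv u z w (O.trans (S.E_le h1) (S.E_le h3)) (S.E_le h7)
  obtain ⟨w1, hw1⟩ := he.conv u z w' (O.trans (S.E_le h1) (S.E_le h4)) (S.E_le h8)
  exact ⟨a0, a1, w0, w1, ha0, ha1, hw0, hw1⟩

theorem pulls : PullSSt := by
  intro P V L _ R O' O f S he
  refine ⟨{ E := fun p q => S.E (f p) (f q), lab := fun p q => S.lab (f p) (f q)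
            tt := fun p q r => S.tt (f p) (f q) (f r)
            E_le := fun h => (he.le _ _).2 (S.E_le h)
            E_odd := ?_, E_cov := ?_
            lab_root := fun h => S.lab_root h
            lab_inj := fun h1 h2 h3 => he.inj (S.lab_inj h1 h2 h3)
            sq := ?_
            tt_spec := fun h1 h2 h3 h4 h5 => S.tt_spec h1 h2 h3 h4 (he.inj.ne h5)
            two := ?_, one := ?_, st := ?_, hx1 := ?_, hx2 := ?_, top := ?_, ns3 := ?_ },
          ⟨fun _ _ => Iff.rfl, fun _ _ => rfl, fun _ _ _ => rfl⟩⟩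
  · intro u w h
    obtain ⟨k, hk⟩ := S.E_odd h
    have := he.rk u w ((he.le _ _).2 (S.E_le h))
    exact ⟨k, by omega⟩
  · intro u w h1 h2
    have := he.rk u w h1
    exact S.E_cov ((he.le _ _).1 h1) (by omega)
  · intro u a w h1 h2
    obtain ⟨a', h3, h4, h5, h6⟩ := S.sq h1 h2
    obtain ⟨r, rfl⟩ := he.conv u w a' (S.E_le h4) (S.E_le h5)
    refine ⟨r, fun h => h3 (by rw [h]), h4, h5, ?_⟩
    intro a'' k1 k2
    rcases h6 (f a'') k1 k2 with h | h
    · exact Or.inl (he.inj h)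
    · exact Or.inr (he.inj h)
  · intro u a a' w w' w'' h1 h2 h3 h4 h5 h6 h7 h8 h9
    rcases S.two h1 h2 (he.inj.ne h3) h4 h5 h6 h7 h8 h9 with h | h | h
    · exact Or.inl (he.inj h)
    · exact Or.inr (Or.inl (he.inj h))
    · exact Or.inr (Or.inr (he.inj h))
  · intro u a a' w w' z z' h1 h2 h3 h4 h5 h6 h7 h8 k1 k2 k3 k4
    exact he.inj (S.one h1 h2 (he.inj.ne h3) h4 h5 h6 h7 (he.inj.ne h8) k1 k2 k3 k4)
  · intro u z h1 h2
    have h3 := he.rk u z ((he.le _ _).2 (S.E_le h1))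
    obtain ⟨a, a', w, w', h4⟩ := S.st h1 (by omega)
    obtain ⟨a, a', w, w', rfl, rfl, rfl, rfl⟩ := hex_lift he h4
    exact ⟨a, a', w, w', (hex_emb he).2 h4⟩
  · intro u a a' z h1 h2 h3 h4
    obtain ⟨w, w', h5⟩ := S.hx1 h1 h2 h3 h4
    have h6 := h5
    obtain ⟨-, -, w, w', -, -, rfl, rfl⟩ := hex_lift he h6
    exact ⟨w, w', (hex_emb he).2 h5⟩
  · intro u a a' w w' z h
    exact S.hx2 ((hex_emb he).1 h)
  · intro u a a' w w' z v h
    exact S.top ((hex_emb he).1 h)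
  · intro u a b c d h1 h2 h3 h4 h5
    have h6 := he.rk u d ((he.le _ _).2 (S.E_le h4))
    exact S.ns3 h1 h2 h3 h4 (by omega)

end Pool.Agent.H52.CIC
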