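import Pool.Agent.H52.CIC.StG
import Pool.Agent.H52.CIC.StB
import Pool.Agent.H58.ZDE.GR

/-!
# Project CIC: recursion with a functional vanishing at a simple root (module REC0)
-/

namespace Pool.Agent.H52.CIC

open Pool.Agent.H11.ZDE Polynomial

set_option linter.unusedSectionVars false

section

variable {B W : Type} [Group W] {M : CoxeterMatrix B} {cs : CoxeterSystem M W}
  {L : Type} [AddCommGroup L] {R : RootLat L} (G : Geo cs R)

theorem rec0_mem_out [Fintype W] {O : Po W} {S : SLG O R} {y v a : W} :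
    a ∈ out S y v ↔ S.E v a ∧ O.Le a y := by
  simp [out]

/-- the height as a functional -/
noncomputable def rec0_H (R : RootLat L) : L →+ ℝ :=
  AddMonoidHom.mk' (fun v => (R.ht v : ℝ)) (fun a b => by simp [R.ht_add])

theorem rec0_H_pos {b : L} (hb : R.P b) : 0 < rec0_H R b := by
  have := R.ht_pos b hb
  show (0 : ℝ) < (R.ht b : ℝ)
  exact_mod_cast this

theorem rec0_edge {O : Po W} {S : SLG O R} (hI : Inst G O S) {v a : W} (h : S.E v a) :
    Up G v (S.lab v a) ∧ a = v * G.T (S.lab v a) := by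
  obtain ⟨b, hb, hab⟩ := (hI.E v a).mp h
  have h1 := hI.lab v b hb
  rw [← hab] at h1
  rw [h1]
  exact ⟨hb, hab⟩

theorem rec0_ne {u : W} {b c : L} (hb : Up G u b) (hc : Up G (u * G.T b) c) : b ≠ c := by
  intro h
  subst h
  have h1 := hc.u
  rw [Pool.Agent.H58.ZDE.rho_T G hb.q, hb.q, two_smul] at h1
  have h2 : b - (b + b) = -b := by abel
  rw [h2, map_neg] at h1
  exact R.P_neg hb.u h1

theorem rec0_glob {O : Po W} (S : SLG O R) (k g : L →+ ℝ) (c : ℝ) :
    glob S k - c • glob S g = glob S (k - c • g) := rfl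

/-- `φ` vanishes at negative elements -/
theorem rec0_neg [Fintype W] {O : Po W} {S : SLG O R} (hT : TiegSt S) (hg : GlobSt S)
    {y a : W} {φ : W → (W → W → ℝ) → ℤ[X]} (hφ : PhiAt S y φ a) (hne : a ≠ y)
    (h : W → W → ℝ) (hG : Gn S y a h) (hn : ∀ v ∈ out S y a, h a v < 0) : φ a h = 0 := by
  have hf : ∀ v ∈ out S y a, glob S (-rec0_H R) a v < 0 := by
    intro v hv
    have h1 := rec0_H_pos (S.lab_root (rec0_mem_out.mp hv).1).2
    show -(rec0_H R (S.lab a v)) < 0
    linarith
  have hfG : Gn S y a (glob S (-rec0_H R)) := ⟨hg a y _, fun v hv => (hf v hv).ne⟩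
  rw [hφ.sign h _ hG hfG (fun v hv => ⟨fun h1 => absurd h1 (not_lt.mpr (hn v hv).le),
    fun h1 => absurd h1 (not_lt.mpr (hf v hv).le)⟩)]
  obtain ⟨g', hP, hTF⟩ := hT a y {glob S (-rec0_H R)}
  rw [hφ.step hne _ g' hfG hP (fun b hb c hc hbc => hTF _ (Finset.mem_singleton_self _) b hb c hc hbc
    (Or.inl (hf b hb).ne))]
  have hz : Zs S y a φ (glob S (-rec0_H R)) g' = 0 := by
    unfold Zs
    apply Finset.sum_eq_zero
    intro v hv
    rw [Finset.mem_filter] at hv
    exact absurd hv.2 (not_lt.mpr (hf v hv.1).le)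
  rw [hz, mul_zero]

theorem rec0 [Fintype W] (hT : ∀ (O : Po W) (S : SLG O R), TiegSt S)
    (hgl : ∀ (O : Po W) (S : SLG O R), GlobSt S) : Rec0St G := by
  classical
  intro O S hI y φ hφ u i k g huy hne hgα hgp hk hkg hα
  have hgm := hgl O S
  have hαS : G.α i ∈ R.S := by rw [← G.αS]; exact Set.mem_range_self i
  have hαr := R.S_root _ hαS
  have hαP := R.S_pos _ hαS
  have hg0 : ∀ b, R.Q b b = 2 → R.P b → 0 ≤ g b := by
    intro b h1 h2
    by_cases h : b = G.α i
    · rw [h, hgα]
    · exact (hgp b h1 h2 h).le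
  have hH : ∀ b, R.P b → 0 < rec0_H R b := fun b hb => rec0_H_pos hb
  -- perturbed functional
  have hgd : ∀ (δ : ℝ) (b : L), (g + δ • rec0_H R) b = g b + δ * rec0_H R b := fun δ b => rfl
  have hgdpos : ∀ (δ : ℝ), 0 < δ → ∀ b, R.Q b b = 2 → R.P b → 0 < (g + δ • rec0_H R) b := by
    intro δ hδ b h1 h2
    rw [hgd]
    have := hg0 b h1 h2
    have := mul_pos hδ (hH b h2)
    linarith
  have hroot : ∀ v a, S.E v a → R.Q (S.lab v a) (S.lab v a) = 2 ∧ R.P (S.lab v a) := fun v a h =>
    S.lab_root h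
  -- conditions
  have C1 : ∀ᶠ δ in nhdsWithin (0 : ℝ) (Set.Ioi 0), ∀ a ∈ out S y u, ∀ c ∈ out S y u, a ≠ c →
      k (S.lab u a) * (g + δ • rec0_H R) (S.lab u c) ≠
        k (S.lab u c) * (g + δ • rec0_H R) (S.lab u a) := by
    rw [Filter.eventually_all_finset]
    intro a ha
    rw [Filter.eventually_all_finset]
    intro c hc
    by_cases hac : a = c
    · exact Filter.Eventually.of_forall (fun δ h => absurd hac h)
    · have hEa := (rec0_mem_out.mp ha).1
      have hEc := (rec0_mem_out.mp hc).1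
      have h0 := hkg (S.lab u a) (S.lab u c) (rec0_edge G hI hEa).1 (hroot _ _ hEc).1
        (hroot _ _ hEc).2 (fun h => hac (S.lab_inj hEa hEc h))
      have hcont : ContinuousAt (fun δ : ℝ => k (S.lab u a) * (g (S.lab u c) +
          δ * rec0_H R (S.lab u c)) - k (S.lab u c) * (g (S.lab u a) +
          δ * rec0_H R (S.lab u a))) 0 := by fun_prop
      have h1 : k (S.lab u a) * (g (S.lab u c) + 0 * rec0_H R (S.lab u c)) -
          k (S.lab u c) * (g (S.lab u a) + 0 * rec0_H R (S.lab u a)) ≠ 0 := by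
        rw [zero_mul, zero_mul, add_zero, add_zero]
        exact sub_ne_zero.mpr h0
      have h2 := hcont.eventually_ne h1
      refine (Filter.Eventually.filter_mono nhdsWithin_le_nhds h2).mono ?_
      intro δ hδ _
      rw [hgd, hgd]
      exact sub_ne_zero.mp hδ
  have C2 : ∀ᶠ δ in nhdsWithin (0 : ℝ) (Set.Ioi 0), ∀ a ∈ out S y u, ∀ v ∈ out S y a,
      S.lab u a ≠ G.α i →
      (k - (k (S.lab u a) / (g + δ • rec0_H R) (S.lab u a)) • (g + δ • rec0_H R)) (S.lab a v) ≠ 0 ∧
      (0 < (k - (k (S.lab u a) / (g + δ • rec0_H R) (S.lab u a)) • (g + δ • rec0_H R)) (S.lab a v) ↔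
        0 < (k - (k (S.lab u a) / g (S.lab u a)) • g) (S.lab a v)) ∧
      (k - (k (S.lab u a) / g (S.lab u a)) • g) (S.lab a v) ≠ 0 := by
    rw [Filter.eventually_all_finset]
    intro a ha
    rw [Filter.eventually_all_finset]
    intro v hv
    by_cases hla : S.lab u a = G.α i
    · exact Filter.Eventually.of_forall (fun δ h => absurd hla h)
    · have hEa := (rec0_mem_out.mp ha).1
      have hEv := (rec0_mem_out.mp hv).1
      obtain ⟨hUa, hae⟩ := rec0_edge G hI hEa
      obtain ⟨hUv, -⟩ := rec0_edge G hI hEv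
      have hlne : S.lab u a ≠ S.lab a v := rec0_ne G hUa (by rw [← hae]; exact hUv)
      have hga : 0 < g (S.lab u a) := hgp _ hUa.q hUa.p hla
      have h0 := hkg (S.lab u a) (S.lab a v) hUa hUv.q hUv.p hlne
      have hs0 : k (S.lab a v) - k (S.lab u a) / g (S.lab u a) * g (S.lab a v) ≠ 0 := by
        intro h
        apply h0
        field_simp at h
        linarith
      have hcont : ContinuousAt (fun δ : ℝ => k (S.lab a v) - k (S.lab u a) /
          (g (S.lab u a) + δ * rec0_H R (S.lab u a)) *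
          (g (S.lab a v) + δ * rec0_H R (S.lab a v))) 0 := by
        refine ContinuousAt.sub continuousAt_const (ContinuousAt.mul (ContinuousAt.div
          continuousAt_const (by fun_prop) ?_) (by fun_prop))
        rw [zero_mul, add_zero]
        exact hga.ne'
      have hval : (fun δ : ℝ => k (S.lab a v) - k (S.lab u a) /
          (g (S.lab u a) + δ * rec0_H R (S.lab u a)) *
          (g (S.lab a v) + δ * rec0_H R (S.lab a v))) 0 =
          k (S.lab a v) - k (S.lab u a) / g (S.lab u a) * g (S.lab a v) := by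
        simp
      rcases lt_or_gt_of_ne hs0 with h | h
      · have h2 := hcont.eventually_lt_const (by rw [← hval] at h; exact h)
        refine (Filter.Eventually.filter_mono nhdsWithin_le_nhds h2).mono ?_
        intro δ hδ _
        have hδ' : (k - (k (S.lab u a) / (g + δ • rec0_H R) (S.lab u a)) •
          (g + δ • rec0_H R)) (S.lab a v) < 0 := hδ
        have h' : (k - (k (S.lab u a) / g (S.lab u a)) • g) (S.lab a v) < 0 := h
        exact ⟨hδ'.ne, ⟨fun h3 => absurd h3 (not_lt.mpr hδ'.le),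
          fun h3 => absurd h3 (not_lt.mpr h'.le)⟩, h'.ne⟩
      · have h2 := hcont.eventually_const_lt (by rw [← hval] at h; exact h)
        refine (Filter.Eventually.filter_mono nhdsWithin_le_nhds h2).mono ?_
        intro δ hδ _
        have hδ' : 0 < (k - (k (S.lab u a) / (g + δ • rec0_H R) (S.lab u a)) •
          (g + δ • rec0_H R)) (S.lab a v) := hδ
        have h' : 0 < (k - (k (S.lab u a) / g (S.lab u a)) • g) (S.lab a v) := h
        exact ⟨hδ'.ne', ⟨fun _ => h', fun _ => hδ'⟩, h'.ne'⟩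
  have C3 : ∀ᶠ δ in nhdsWithin (0 : ℝ) (Set.Ioi 0), ∀ a ∈ out S y u, ∀ v ∈ out S y a,
      S.lab u a = G.α i → 0 < k (S.lab u a) →
      (k - (k (S.lab u a) / (g + δ • rec0_H R) (S.lab u a)) • (g + δ • rec0_H R)) (S.lab a v) < 0 := by
    rw [Filter.eventually_all_finset]
    intro a ha
    rw [Filter.eventually_all_finset]
    intro v hv
    by_cases hla : S.lab u a = G.α i ∧ 0 < k (S.lab u a)
    · obtain ⟨hla, hka⟩ := hla
      have hEa := (rec0_mem_out.mp ha).1
      have hEv := (rec0_mem_out.mp hv).1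
      obtain ⟨hUa, hae⟩ := rec0_edge G hI hEa
      obtain ⟨hUv, -⟩ := rec0_edge G hI hEv
      have hlne : S.lab u a ≠ S.lab a v := rec0_ne G hUa (by rw [← hae]; exact hUv)
      have hgv : 0 < g (S.lab a v) := hgp _ hUv.q hUv.p (fun h => hlne (hla.trans h.symm))
      have hHa := hH _ hUa.p
      have hcont : ContinuousAt (fun δ : ℝ => k (S.lab a v) * (δ * rec0_H R (S.lab u a)) -
          k (S.lab u a) * (g (S.lab a v) + δ * rec0_H R (S.lab a v))) 0 := by fun_prop
      have hval : (fun δ : ℝ => k (S.lab a v) * (δ * rec0_H R (S.lab u a)) -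
          k (S.lab u a) * (g (S.lab a v) + δ * rec0_H R (S.lab a v))) 0 < 0 := by
        have := mul_pos hka hgv
        simp only [zero_mul, mul_zero, add_zero, zero_sub]
        linarith
      have h2 := hcont.eventually_lt_const hval
      have h3 : ∀ᶠ δ in nhdsWithin (0 : ℝ) (Set.Ioi 0), δ ∈ Set.Ioi (0 : ℝ) :=
        eventually_mem_nhdsWithin
      refine ((Filter.Eventually.filter_mono nhdsWithin_le_nhds h2).and h3).mono ?_
      rintro δ ⟨hδ, hδ0⟩ _ _
      have hδ0' : 0 < δ := hδ0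
      have e1 : (k - (k (S.lab u a) / (g + δ • rec0_H R) (S.lab u a)) •
          (g + δ • rec0_H R)) (S.lab a v) = k (S.lab a v) - k (S.lab u a) /
          (g (S.lab u a) + δ * rec0_H R (S.lab u a)) *
          (g (S.lab a v) + δ * rec0_H R (S.lab a v)) := rfl
      have hga0 : g (S.lab u a) = 0 := by rw [hla, hgα]
      rw [e1, hga0, zero_add]
      have hpos : 0 < δ * rec0_H R (S.lab u a) := mul_pos hδ0' hHa
      have e2 : k (S.lab a v) - k (S.lab u a) / (δ * rec0_H R (S.lab u a)) *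
          (g (S.lab a v) + δ * rec0_H R (S.lab a v)) =
          (k (S.lab a v) * (δ * rec0_H R (S.lab u a)) -
          k (S.lab u a) * (g (S.lab a v) + δ * rec0_H R (S.lab a v))) /
          (δ * rec0_H R (S.lab u a)) := by
        field_simp
      rw [e2]
      exact div_neg_of_neg_of_pos hδ hpos
    · exact Filter.Eventually.of_forall (fun δ h h' => absurd ⟨h, h'⟩ hla)
  have h3 : ∀ᶠ δ in nhdsWithin (0 : ℝ) (Set.Ioi 0), δ ∈ Set.Ioi (0 : ℝ) :=
    eventually_mem_nhdsWithin
  obtain ⟨δ, ⟨⟨c1, c2⟩, c3⟩, hδ⟩ := (((C1.and C2).and C3).and h3).exists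
  have hδ0 : 0 < δ := hδ
  have hPs : ∀ v, Ps S y v (glob S (g + δ • rec0_H R)) := fun v =>
    ⟨hgm v y _, fun a ha => hgdpos δ hδ0 _ (hroot _ _ (rec0_mem_out.mp ha).1).1
      (hroot _ _ (rec0_mem_out.mp ha).1).2⟩
  have hGk : Gn S y u (glob S k) := ⟨hgm u y k, fun a ha =>
    hk _ (rec0_edge G hI (rec0_mem_out.mp ha).1).1⟩
  rw [(hφ u huy).step hne (glob S k) (glob S (g + δ • rec0_H R)) hGk (hPs u)
    (fun a ha c hc hac => c1 a ha c hc hac)]
  congr 1
  unfold Zs
  rw [Finset.sum_filter, Finset.sum_filter]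
  apply Finset.sum_congr rfl
  intro a ha
  have hEa := (rec0_mem_out.mp ha).1
  have hay := (rec0_mem_out.mp ha).2
  obtain ⟨hUa, hae⟩ := rec0_edge G hI hEa
  have hku : glob S k u a = k (S.lab u a) := rfl
  have hgu : glob S (g + δ • rec0_H R) u a = (g + δ • rec0_H R) (S.lab u a) := rfl
  by_cases hp : 0 < glob S k u a
  · rw [if_pos hp, rec0_glob, hku, hgu]
    by_cases hl : S.lab u a = G.α i
    · rw [if_neg (fun h => h.2 hl)]
      have hka : 0 < k (S.lab u a) := hp
      have hany : a ≠ y := by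
        rcases hα with h | ⟨-, h⟩
        · rw [← hl] at h
          exact absurd hka (not_lt.mpr h.le)
        · rw [hae, hl, G.Tα]
          exact h
      apply rec0_neg (hT O S) hgm (hφ a hay) hany
      · exact ⟨hgm a y _, fun v hv => (c3 a ha v hv hl hka).ne⟩
      · exact fun v hv => c3 a ha v hv hl hka
    · rw [if_pos ⟨hp, hl⟩]
      apply (hφ a hay).sign
      · exact ⟨hgm a y _, fun v hv => (c2 a ha v hv hl).1⟩
      · exact ⟨hgm a y _, fun v hv => (c2 a ha v hv hl).2.2⟩
      · exact fun v hv => (c2 a ha v hv hl).2.1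
  · rw [if_neg hp, if_neg (fun h => hp h.1)]

end

end Pool.Agent.H52.CIC
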