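import Pool.Agent.H52.CIC.StA

/-! Module REL4 of project CIC (helper5). -/

namespace Pool.Agent.H52.CIC

open Pool.Agent.H11.ZDE

variable {P : Type} {O : Po P} {L : Type} [AddCommGroup L] {R : RootLat L}

theorem rel4 (S : SLG O R) : Rel4St S := by
  intro x y a0 a1 a2 a3 b0 b1 b2 hp
  have ex0 := S.E_cov hp.x0.1 hp.x0.2
  have ex1 := S.E_cov hp.x1.1 hp.x1.2
  have ex2 := S.E_cov hp.x2.1 hp.x2.2
  have ex3 := S.E_cov hp.x3.1 hp.x3.2
  have ey0 := S.E_cov hp.y0.1 hp.y0.2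
  have ey1 := S.E_cov hp.y1.1 hp.y1.2
  have ey2 := S.E_cov hp.y2.1 hp.y2.2
  have e00 := S.E_cov hp.i00.1 hp.i00.2
  have e10 := S.E_cov hp.i10.1 hp.i10.2
  have e11 := S.E_cov hp.i11.1 hp.i11.2
  have e21 := S.E_cov hp.i21.1 hp.i21.2
  have e22 := S.E_cov hp.i22.1 hp.i22.2
  have e32 := S.E_cov hp.i32.1 hp.i32.2
  constructor
  · have s1 := S.tt_spec e11 ey1 e10 ey0 hp.nb0.symm
    have s2 := S.tt_spec e21 ey1 e22 ey2 hp.nb1
    have s3 := S.tt_spec ex1 e10 ex0 e00 hp.na0.symm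
    have s4 := S.tt_spec ex1 e11 ex2 e21 hp.na1
    have s5 := S.tt_spec ex2 e22 ex3 e32 hp.na2
    have s6 := S.tt_spec ex2 e21 ex1 e11 hp.na1.symm
    rw [s3, s4] at s1
    rw [s5, s6] at s2
    have h := s1.symm.trans s2
    have h' := sub_eq_zero.2 h
    unfold cc dd
    rw [← h']
    module
  · intro h hh
    have r1 := (hh a1 y hp.x1.1 (O.refl y)).1 b1 b0 e11 ey1 e10 ey0 hp.nb0.symm
    have r2 := (hh a2 y hp.x2.1 (O.refl y)).1 b1 b2 e21 ey1 e22 ey2 hp.nb1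
    have r3 := (hh x b0 (O.refl x) hp.y0.1).1 a1 a0 ex1 e10 ex0 e00 hp.na0.symm
    have r4 := (hh x b1 (O.refl x) hp.y1.1).1 a1 a2 ex1 e11 ex2 e21 hp.na1
    have r5 := (hh x b2 (O.refl x) hp.y2.1).1 a2 a3 ex2 e22 ex3 e32 hp.na2
    have r6 := (hh x b1 (O.refl x) hp.y1.1).1 a2 a1 ex2 e21 ex1 e11 hp.na1.symm
    rw [r3, r4] at r1
    rw [r5, r6] at r2
    unfold cc dd
    push_cast
    linear_combination r2 - r1

end Pool.Agent.H52.CIC
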