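import Pool.Agent.H45.CIC.Base

/-!
# Module RT of project CIC: the recursion of the modified R-polynomials
-/

namespace Pool.Agent.H52.CIC

open Pool.Agent.H11.ZDE Pool.Agent.H11.Ism Pool.Agent.H45.CIC Polynomial

namespace RtM

section lat
variable {L : Type} [AddCommGroup L] (R : RootLat L)

/-- the height as a real functional -/
noncomputable def htR : L →+ ℝ :=
  AddMonoidHom.mk' (fun a => (R.ht a : ℝ)) (fun a b => by rw [R.ht_add]; push_cast; rfl)

theorem htR_apply (a : L) : htR R a = R.ht a := rfl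

theorem htR_pos {a : L} (h : R.P a) : 1 ≤ htR R a := by
  rw [htR_apply]
  exact_mod_cast R.ht_pos a h

/-- the functional with value `-1/2` at the simple root `s` and positive at the other positive roots -/
noncomputable def k0 (s : L) : L →+ ℝ :=
  AddMonoidHom.mk' (fun a => (1 / 2 : ℝ) * htR R a + htR R (R.r s a)) (fun a b => by
    rw [map_add, map_add, map_add]; ring)

/-- the functional with value `0` at the simple root `s` and positive at the other positive roots -/
noncomputable def g0 (s : L) : L →+ ℝ :=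
  AddMonoidHom.mk' (fun a => htR R a + htR R (R.r s a)) (fun a b => by
    rw [map_add, map_add, map_add]; ring)

theorem k0_apply (s a : L) : k0 R s a = (1 / 2 : ℝ) * htR R a + htR R (R.r s a) := rfl

theorem g0_apply (s a : L) : g0 R s a = htR R a + htR R (R.r s a) := rfl

variable {R}

theorem ht_s {s : L} (hs : s ∈ R.S) : htR R s = 1 := by
  rw [htR_apply, R.S_ht s hs]; norm_num

theorem r_pos {s a : L} (hs : s ∈ R.S) (qa : R.Q a a = 2) (pa : R.P a) (hne : a ≠ s) : R.P (R.r s a) := by
  rw [R.r_apply]; exact R.S_refl s hs a qa pa hne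

theorem rr {s : L} (hs : s ∈ R.S) (a : L) : R.r s (R.r s a) = a := by
  have := congrArg (fun f => f a) (R.r_r (R.S_root s hs))
  simpa using this

theorem k0_pos {s a : L} (hs : s ∈ R.S) (qa : R.Q a a = 2) (pa : R.P a) (hne : a ≠ s) : 0 < k0 R s a := by
  rw [k0_apply]
  have h1 := htR_pos R pa
  have h2 := htR_pos R (r_pos hs qa pa hne)
  linarith

theorem g0_pos {s a : L} (hs : s ∈ R.S) (qa : R.Q a a = 2) (pa : R.P a) (hne : a ≠ s) : 0 < g0 R s a := by
  rw [g0_apply]
  have h1 := htR_pos R pa
  have h2 := htR_pos R (r_pos hs qa pa hne)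
  linarith

theorem k0_neg {s : L} (hs : s ∈ R.S) : k0 R s s < 0 := by
  rw [k0_apply, R.r_self (R.S_root s hs), map_neg, ht_s hs]
  norm_num

theorem g0_zero {s : L} (hs : s ∈ R.S) : g0 R s s = 0 := by
  rw [g0_apply, R.r_self (R.S_root s hs), map_neg]
  ring

theorem cmp_apply (k : L →+ ℝ) (s a : L) : cmp (R := R) k s a = k (R.r s a) := rfl

theorem cmp_pos {s a : L} (hs : s ∈ R.S) (qa : R.Q a a = 2) (pa : R.P a) : 0 < cmp (R := R) (k0 R s) s a := by
  rw [cmp_apply, k0_apply, rr hs]
  by_cases h : a = s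
  · subst h
    rw [R.r_self qa, map_neg, ht_s hs]
    norm_num
  · have h1 := htR_pos R pa
    have h2 := htR_pos R (r_pos hs qa pa h)
    linarith

end lat

variable {B W : Type} [Group W] {M : CoxeterMatrix B} {cs : CoxeterSystem M W}
  {L : Type} [AddCommGroup L] {R : RootLat L} (G : Geo cs R)

theorem al_S (i : B) : G.α i ∈ R.S := G.αS ▸ Set.mem_range_self i

theorem len_cases (x : W) (i : B) : cs.length (x * cs.simple i) < cs.length x ∨
    cs.length x < cs.length (x * cs.simple i) := by
  rcases cs.length_mul_simple x i with h | h <;> omega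

/-- an ascent in terms of `Up` -/
theorem up_asc {x : W} {i : B} (h : cs.length x < cs.length (x * cs.simple i)) : Up G x (G.α i) := by
  have hS := al_S G i
  refine ⟨R.S_root _ hS, R.S_pos _ hS, ?_⟩
  rw [pos_iff G _ (R.S_root _ hS) (R.S_pos _ hS), G.Tα]
  exact h

theorem up_desc {x : W} {i : B} (h : cs.length (x * cs.simple i) < cs.length x) : ¬ Up G x (G.α i) := by
  intro h1
  have := G.lt x _ h1.q h1.p h1.u
  rw [G.Tα] at this
  omega

theorem bru_s {x : W} {i : B} (h : cs.length (x * cs.simple i) < cs.length x) : Bru cs (x * cs.simple i) x :=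
  Relation.ReflTransGen.single ⟨_, cs.isReflection_simple i, (ss x i).symm, h⟩

theorem bru_s' {x : W} {i : B} (h : cs.length x < cs.length (x * cs.simple i)) : Bru cs x (x * cs.simple i) :=
  Relation.ReflTransGen.single ⟨_, cs.isReflection_simple i, rfl, h⟩

include G in
/-- lifting, both tops -/
theorem lift_dd {x y : W} {i : B} (hy : cs.length (y * cs.simple i) < cs.length y)
    (hx : cs.length (x * cs.simple i) < cs.length x) :
    Bru cs x y ↔ Bru cs (x * cs.simple i) (y * cs.simple i) := by
  constructor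
  · intro h
    have h1 := (lift_mx G i h).2
    unfold mn at h1
    rw [if_neg (by omega), if_neg (by omega)] at h1
    exact h1
  · intro h
    have h1 := (lift_mx G i h).1
    unfold mx at h1
    rw [ss, ss, if_pos hx, if_pos hy] at h1
    exact h1

include G in
/-- lifting, bottom and top -/
theorem lift_ud {x y : W} {i : B} (hy : cs.length (y * cs.simple i) < cs.length y)
    (hx : cs.length x < cs.length (x * cs.simple i)) (h : Bru cs x y) :
    Bru cs (x * cs.simple i) y ∧ Bru cs x (y * cs.simple i) := by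
  have h1 := lift_mx G i h
  have hy' : ¬ cs.length y < cs.length (y * cs.simple i) := by omega
  simp only [mn, mx, if_pos hx, if_neg hy'] at h1
  exact ⟨h1.1, h1.2⟩

variable [Fintype W]

theorem mem_out {O : Po W} {S : SLG O R} (hI : Inst G O S) {y u a : W} :
    a ∈ out S y u ↔ (∃ b, Up G u b ∧ a = u * G.T b) ∧ Bru cs a y := by
  classical
  unfold out
  rw [Finset.mem_filter, hI.E, hI.le]
  simp [Eg]

omit [Fintype W] in
theorem glob_val {O : Po W} {S : SLG O R} (hI : Inst G O S) {u : W} {b : L} (hb : Up G u b) (k : L →+ ℝ) :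
    glob S k u (u * G.T b) = k b := by
  unfold glob
  rw [hI.lab u b hb]

theorem gn_of {O : Po W} {S : SLG O R} (hI : Inst G O S) (hg : GlobSt S) (y u : W) (k : L →+ ℝ)
    (hk : ∀ b, Up G u b → k b ≠ 0) : Gn S y u (glob S k) := by
  refine ⟨hg u y k, ?_⟩
  intro a ha
  obtain ⟨⟨b, hb, rfl⟩, _⟩ := (mem_out G hI).1 ha
  rw [glob_val G hI hb]
  exact hk b hb

theorem sg_of {O : Po W} {S : SLG O R} (hI : Inst G O S) (y u : W) (k : L →+ ℝ) (h : W → W → ℝ)
    (hk : ∀ b, Up G u b → 0 < k b) (hh : ∀ a ∈ out S y u, 0 < h u a) : Sg S y u (glob S k) h := by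
  intro a ha
  have h1 := hh a ha
  obtain ⟨⟨b, hb, rfl⟩, _⟩ := (mem_out G hI).1 ha
  rw [glob_val G hI hb]
  exact ⟨fun _ => h1, fun _ => hk b hb⟩

theorem pos_of {O : Po W} {S : SLG O R} (hI : Inst G O S) (y u : W) (k : L →+ ℝ)
    (hk : ∀ b, Up G u b → 0 < k b) : ∀ a ∈ out S y u, 0 < glob S k u a := by
  intro a ha
  obtain ⟨⟨b, hb, rfl⟩, _⟩ := (mem_out G hI).1 ha
  rw [glob_val G hI hb]
  exact hk b hb

end RtM

open RtM

variable {B W : Type} [Group W] {M : CoxeterMatrix B} {cs : CoxeterSystem M W}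
  {L : Type} [AddCommGroup L] {R : RootLat L} (G : Geo cs R) [Fintype W]

open Classical in
/-- RT -/
theorem rt (hm : MmSt G) (hj : ∀ (O : Po W) (S : SLG O R), J1St S) (hg : ∀ (O : Po W) (S : SLG O R), GlobSt S) :
    RtSt G := by
  intro O S hI Φ hΦ
  have gl := hg O S
  have htp : ∀ u b, Up G u b → 0 < htR R b := fun u b hb => by
    have := htR_pos R hb.p
    linarith
  -- the last clause
  have last : ∀ x y h, Bru cs x y → Gn S y x h → (∀ a ∈ out S y x, 0 < h x a) →
      Φ y x h = Φ y x (glob S (htR R)) := by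
    intro x y h hxy hgn hpos
    refine (hΦ y x ((hI.le _ _).2 hxy)).sign h _ hgn
      (gn_of G hI gl y x _ (fun b hb => (htp x b hb).ne')) ?_
    intro a ha
    exact (sg_of G hI y x (htR R) h (htp x) hpos a ha).symm
  set Q : W → W → ℤ[X] := fun x y => if Bru cs x y then Φ y x (glob S (htR R)) else 0 with hQ
  have hQ1 : ∀ x y h, Bru cs x y → Gn S y x h → (∀ a ∈ out S y x, 0 < h x a) → Φ y x h = Q x y := by
    intro x y h hxy hgn hpos
    rw [last x y h hxy hgn hpos, hQ]
    simp only [if_pos hxy]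
  have hQ0 : ∀ x y, ¬ Bru cs x y → Q x y = 0 := by
    intro x y h
    rw [hQ]
    simp only [if_neg h]
  -- the mirror formula for `k0`
  have mir : ∀ x y (i : B), cs.length (y * cs.simple i) < cs.length y → Bru cs x y →
      Φ y x (glob S (k0 R (G.α i))) = Q (x * cs.simple i) (y * cs.simple i) := by
    intro x y i hy hxy
    have hS := al_S G i
    have hne : ∀ b, Up G x b → k0 R (G.α i) b ≠ 0 := by
      intro b hb
      by_cases h : b = G.α i
      · rw [h]; exact (k0_neg hS).ne
      · exact (k0_pos hS hb.q hb.p h).ne'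
    have h1 := hm O S hI y i (Φ y) (Φ (y * cs.simple i)) hy (hΦ y) (hΦ _) x (k0 R (G.α i))
      ((hI.le _ _).2 hxy) (k0_neg hS) hne
    rw [h1]
    split_ifs with h2
    · exact hQ1 _ _ _ h2 (gn_of G hI gl _ _ _ (fun b hb => (cmp_pos hS hb.q hb.p).ne'))
        (pos_of G hI _ _ _ (fun b hb => cmp_pos hS hb.q hb.p))
    · exact (hQ0 _ _ h2).symm
  have hdesc : ∀ x w i, cs.length (w * cs.simple i) < cs.length w → cs.length (x * cs.simple i) < cs.length x →
      Q x w = Q (x * cs.simple i) (w * cs.simple i) := by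
    intro x y i hy hx
    by_cases hxy : Bru cs x y
    · rw [← mir x y i hy hxy]
      have hp : ∀ b, Up G x b → 0 < k0 R (G.α i) b := by
        intro b hb
        refine k0_pos (al_S G i) hb.q hb.p ?_
        rintro rfl
        exact up_desc G hx hb
      exact (hQ1 _ _ _ hxy (gn_of G hI gl _ _ _ (fun b hb => (hp b hb).ne')) (pos_of G hI _ _ _ hp)).symm
    · rw [hQ0 _ _ hxy, hQ0]
      exact fun h => hxy ((lift_dd G hy hx).2 h)
  refine ⟨Q, ⟨hQ0, ?_, hdesc, ?_⟩, hQ1⟩
  · intro w
    rw [← hQ1 w w (glob S (htR R)) Relation.ReflTransGen.refl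
      (gn_of G hI gl _ _ _ (fun b hb => (htp w b hb).ne')) (pos_of G hI _ _ _ (htp w))]
    exact (hΦ w w (O.refl w)).at_top rfl _
  · intro x y i hy hx
    by_cases hxy : Bru cs x y
    · have hS := al_S G i
      have hua := up_asc G hx
      have hl := lift_ud G hy hx hxy
      have hTs : x * G.T (G.α i) = x * cs.simple i := by rw [G.Tα]
      have hx' : cs.length (x * cs.simple i * cs.simple i) < cs.length (x * cs.simple i) := by
        rw [ss]; exact hx
      have hw : x * cs.simple i ∈ out S y x :=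
        (mem_out G hI).2 ⟨⟨_, hua, hTs.symm⟩, hl.1⟩
      have hval : ∀ k : L →+ ℝ, glob S k x (x * cs.simple i) = k (G.α i) := by
        intro k
        rw [← hTs, glob_val G hI hua]
      have hout : ∀ b ∈ out S y x, b ≠ x * cs.simple i → ∃ c, Up G x c ∧ b = x * G.T c ∧ c ≠ G.α i := by
        intro b hb hne
        obtain ⟨⟨c, hc, rfl⟩, _⟩ := (mem_out G hI).1 hb
        refine ⟨c, hc, rfl, ?_⟩
        rintro rfl
        exact hne hTs
      have j := hj O S y (Φ y) x (x * cs.simple i) (glob S (g0 R (G.α i))) (glob S (htR R))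
        (glob S (k0 R (G.α i))) ((hI.le _ _).2 hxy) (hΦ y x ((hI.le _ _).2 hxy)) hw (gl _ _ _)
        (by rw [hval]; exact g0_zero hS)
        (by
          intro b hb hne
          obtain ⟨c, hc, rfl, hcne⟩ := hout b hb hne
          rw [glob_val G hI hc]
          exact (g0_pos hS hc.q hc.p hcne).ne')
        (gn_of G hI gl _ _ _ (fun b hb => (htp x b hb).ne'))
        (gn_of G hI gl _ _ _ (fun b hb => by
          by_cases h : b = G.α i
          · rw [h]; exact (k0_neg hS).ne
          · exact (k0_pos hS hb.q hb.p h).ne'))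
        (by
          intro b hb hne
          obtain ⟨c, hc, rfl, hcne⟩ := hout b hb hne
          rw [glob_val G hI hc, glob_val G hI hc, glob_val G hI hc]
          have p1 := htp x c hc
          have p2 := g0_pos hS hc.q hc.p hcne
          have p3 := k0_pos hS hc.q hc.p hcne
          exact ⟨⟨fun _ => p2, fun _ => p1⟩, ⟨fun _ => p2, fun _ => p3⟩⟩)
        (by rw [hval]; exact htp x _ hua)
        (by rw [hval]; exact k0_neg hS)
      have h1 : Φ y x (glob S (htR R)) = Q x y :=
        hQ1 _ _ _ hxy (gn_of G hI gl _ _ _ (fun b hb => (htp x b hb).ne')) (pos_of G hI _ _ _ (htp x))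
      have hp : ∀ b, Up G (x * cs.simple i) b → 0 < g0 R (G.α i) b := by
        intro b hb
        refine g0_pos hS hb.q hb.p ?_
        rintro rfl
        exact up_desc G hx' hb
      have h2 : Φ y (x * cs.simple i) (glob S (g0 R (G.α i))) = Q (x * cs.simple i) y :=
        hQ1 _ _ _ hl.1 (gn_of G hI gl _ _ _ (fun b hb => (hp b hb).ne')) (pos_of G hI _ _ _ hp)
      rw [← h1, j, h2, mir x y i hy hxy, hdesc _ _ i hy hx', ss]
    · have hy' := bru_s (cs := cs) hy
      rw [hQ0 _ _ hxy, hQ0, hQ0]
      · simp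
      · exact fun h => hxy (h.trans hy')
      · exact fun h => hxy ((bru_s' hx).trans (h.trans hy'))

end Pool.Agent.H52.CIC
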