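import Pool.Agent.H52.CIC.StG
import Pool.Agent.H11.Ism.GeoB
import Pool.Agent.H53.ZDE.K

/-!
# Project CIC, module SQC: the two factorisations of a path of length two
-/

namespace Pool.Agent.H52.CIC

open Pool.Agent.H11.ZDE Pool.Agent.H11.ZDE.RootLat Polynomial

section
variable {B W : Type} [Group W] {M : CoxeterMatrix B} {cs : CoxeterSystem M W}
  {L : Type} [AddCommGroup L] {R : RootLat L} (G : Geo cs R)

theorem sqc_rho {b : L} (hb : R.Q b b = 2) (x : W) (v : L) {k : ℤ} (hk : R.Q v b = k) :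
    G.ρ (x * G.T b) v = G.ρ x v - k • G.ρ x b := by
  rw [Pool.Agent.H58.ZDE.rho_Tk G hb x v hk, map_sub, map_zsmul]

/-- the second factor is determined by the first one -/
theorem sqc_snd {b c b'' c'' e : L} (hc : R.Q c'' c'' = 2) (pc : R.P c'') (he : R.Q e e = 2)
    (pe : R.P e) (h : G.T b * G.T c = G.T b'' * G.T c'') (h' : G.T b * G.T c = G.T b'' * G.T e) :
    c'' = e := by
  rw [h] at h'
  exact Pool.Agent.H58.ZDE.T_inj G hc he pc pe (mul_left_cancel h')

/-- SQC -/
theorem sqc : SqcSt G := by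
  intro u b c hb hc
  have hbc : b ≠ c := by
    rintro rfl
    have h1 := hc.u
    rw [sqc_rho G hb.q u b hb.q] at h1
    refine R.P_neg hb.u (R.P_cast h1 ?_)
    module
  have cn : ∀ b'' c'', Up G u b'' → Up G (u * G.T b'') c'' →
      u * G.T b * G.T c = u * G.T b'' * G.T c'' → G.T b * G.T c = G.T b'' * G.T c'' := by
    intro b'' c'' _ _ h
    rw [mul_assoc, mul_assoc] at h
    exact mul_left_cancel h
  have hcn := KMod.cn_stmt G b c
  have hmul : ∀ {b' c'}, G.T b * G.T c = G.T b' * G.T c' →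
      u * G.T b * G.T c = u * G.T b' * G.T c' := by
    intro b' c' h
    rw [mul_assoc, h, mul_assoc]
  rcases R.Q_cases' hb.q hc.q hb.p hc.p hbc with hq | hq | hq
  · -- `Q b c = -1`
    have hq' : R.Q c b = -1 := by rw [R.Q_comm]; exact hq
    have h1 := hc.u
    rw [sqc_rho G hb.q u c hq'] at h1
    have h2 : R.P (G.ρ u (b + c)) := R.P_cast h1 (by rw [map_add]; module)
    have hs : R.Q (b + c) (b + c) = 2 := Pool.Agent.H11.Ism.nadd G hb.q hc.q hq
    have dih := Pool.Agent.H11.Ism.dih G hb.q hc.q hq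
    have ps : R.P (b + c) := R.P_add hb.p hc.p
    rcases G.pos_or_neg u hc.q with hy | hy
    · -- type 2
      refine ⟨c, b + c, hbc.symm, ⟨hc.q, hc.p, hy⟩, ⟨hs, ps, ?_⟩, hmul dih.1,
        Or.inr (Or.inl ⟨hq, rfl, rfl⟩), ?_⟩
      · have hk : R.Q (b + c) c = 1 := by rw [R.Q_add, hq, hc.q]; norm_num
        rw [sqc_rho G hc.q u (b + c) hk]
        exact R.P_cast hb.u (by rw [map_add]; module)
      · intro b'' c'' h3 h4 h5
        have h6 := cn b'' c'' h3 h4 h5
        rcases hcn b'' c'' hb.q hb.p hc.q hc.p h3.q h3.p h4.q h4.p hbc h6 with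
          e | e | ⟨_, e⟩ | ⟨e, _⟩ | ⟨e, _⟩
        · exact Or.inl e
        · exact Or.inr e
        · exfalso
          subst e
          have e2 := sqc_snd G h4.q h4.p hb.q hb.p h6 dih.2.1
          subst e2
          have h7 := h4.u
          have hk : R.Q c'' (c'' + c) = 1 := by rw [R.Q_addr, hq, hb.q]; norm_num
          rw [sqc_rho G hs u c'' hk] at h7
          refine R.P_neg hy (R.P_cast h7 ?_)
          rw [map_add]; module
        · omega
        · omega
    · -- type 3
      refine ⟨b + c, b, ?_, ⟨hs, ps, h2⟩, ⟨hb.q, hb.p, ?_⟩, hmul dih.2.1,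
        Or.inr (Or.inr (Or.inl ⟨hq, rfl, rfl, hy⟩)), ?_⟩
      · intro e
        exact R.P_ne hc.p (by simpa using e)
      · have hk : R.Q b (b + c) = 1 := by rw [R.Q_addr, hq, hb.q]; norm_num
        rw [sqc_rho G hs u b hk]
        exact R.P_cast hy (by rw [map_add]; module)
      · intro b'' c'' h3 h4 h5
        have h6 := cn b'' c'' h3 h4 h5
        rcases hcn b'' c'' hb.q hb.p hc.q hc.p h3.q h3.p h4.q h4.p hbc h6 with
          e | e | ⟨_, e⟩ | ⟨e, _⟩ | ⟨e, _⟩
        · exact Or.inl e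
        · subst e
          exact (R.P_neg h3.u hy).elim
        · exact Or.inr e
        · omega
        · omega
  · -- `Q b c = 0`
    have hq' : R.Q c b = 0 := by rw [R.Q_comm]; exact hq
    have h1 := hc.u
    rw [sqc_rho G hb.q u c hq'] at h1
    have hy : R.P (G.ρ u c) := R.P_cast h1 (by module)
    refine ⟨c, b, hbc.symm, ⟨hc.q, hc.p, hy⟩, ⟨hb.q, hb.p, ?_⟩,
      hmul (Pool.Agent.H58.ZDE.T_mul_eq G hb.q hc.q hc.q hb.q (R.sw0 hq)),
      Or.inl ⟨hq, rfl, rfl⟩, ?_⟩
    · rw [sqc_rho G hc.q u b hq]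
      exact R.P_cast hb.u (by module)
    · intro b'' c'' h3 h4 h5
      have h6 := cn b'' c'' h3 h4 h5
      rcases hcn b'' c'' hb.q hb.p hc.q hc.p h3.q h3.p h4.q h4.p hbc h6 with
        e | e | ⟨e, _⟩ | ⟨e, _⟩ | ⟨e, _⟩
      · exact Or.inl e
      · exact Or.inr e
      · omega
      · omega
      · omega
  · -- `Q b c = 1`
    have hq' : R.Q c b = 1 := by rw [R.Q_comm]; exact hq
    have h1 := hc.u
    rw [sqc_rho G hb.q u c hq'] at h1
    have h2 : R.P (G.ρ u (c - b)) := R.P_cast h1 (by rw [map_sub]; module)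
    have hy : R.P (G.ρ u c) := R.P_cast (R.P_add h2 hb.u) (by rw [map_sub]; module)
    have hs : R.Q (c - b) (c - b) = 2 := by
      rw [R.Q_sub, R.Q_subr, R.Q_subr, hc.q, hb.q, hq, hq']; norm_num
    rcases R.P_root _ hs with hp | hp
    · -- type 4
      obtain ⟨d, hd⟩ : ∃ d, d = c - b := ⟨_, rfl⟩
      rw [← hd] at h2 hs hp
      have hc' : c = b + d := by rw [hd]; abel
      have hbd : R.Q d b = -1 := by rw [hd, R.Q_sub, hq', hb.q]; norm_num
      have hbd' : R.Q b d = -1 := by rw [R.Q_comm]; exact hbd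
      have dih := Pool.Agent.H11.Ism.dih G hb.q hs hbd'
      have hT : G.T b * G.T c = G.T d * G.T b := by rw [hc', dih.2.2.1]
      refine ⟨d, b, ?_, ⟨hs, hp, h2⟩, ⟨hb.q, hb.p, ?_⟩, hmul hT,
        Or.inr (Or.inr (Or.inr (Or.inl ⟨hq, hc', rfl⟩))), ?_⟩
      · intro e
        rw [e, hb.q] at hbd
        omega
      · rw [sqc_rho G hs u b hbd']
        refine R.P_cast hy ?_
        rw [hc', map_add]; module
      · intro b'' c'' h3 h4 h5
        have h6 := cn b'' c'' h3 h4 h5
        rcases hcn b'' c'' hb.q hb.p hc.q hc.p h3.q h3.p h4.q h4.p hbc h6 with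
          e | e | ⟨e, _⟩ | ⟨_, e⟩ | ⟨_, e⟩
        · exact Or.inl e
        · exfalso
          have hT2 : G.T b * G.T c = G.T b'' * G.T d := by
            rw [e, hc', ← dih.2.2.1, dih.2.2.2]
          have e2 := sqc_snd G h4.q h4.p hs hp h6 hT2
          subst e2
          subst e
          have h7 := h4.u
          have hk : R.Q c'' b'' = 1 := by rw [hc', R.Q_addr, hbd, hs]; norm_num
          rw [sqc_rho G hc.q u c'' hk] at h7
          refine R.P_neg hb.u (R.P_cast h7 ?_)
          rw [hc', map_add]; module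
        · omega
        · exfalso
          have h8 := h3.p
          rw [e] at h8
          refine R.P_neg hp (R.P_cast h8 ?_)
          rw [hd]; abel
        · exact Or.inr (by rw [e, hd])
    · -- type 5
      obtain ⟨d, hd⟩ : ∃ d, d = b - c := ⟨_, rfl⟩
      have hp' : R.P d := R.P_cast hp (by rw [hd]; abel)
      have hs' : R.Q d d = 2 := by
        rw [hd, R.Q_sub, R.Q_subr, R.Q_subr, hc.q, hb.q, hq, hq']; norm_num
      have hb' : b = c + d := by rw [hd]; abel
      have hcd : R.Q c d = -1 := by rw [hd, R.Q_subr, hq', hc.q]; norm_num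
      have hcd' : R.Q d c = -1 := by rw [R.Q_comm]; exact hcd
      have dih := Pool.Agent.H11.Ism.dih G hc.q hs' hcd
      have hT : G.T b * G.T c = G.T c * G.T d := by rw [hb', dih.2.1]
      have hn : R.P (-(G.ρ u d)) := R.P_cast h2 (by rw [hd, map_sub, map_sub]; abel)
      refine ⟨c, d, hbc.symm, ⟨hc.q, hc.p, hy⟩, ⟨hs', hp', ?_⟩, hmul hT,
        Or.inr (Or.inr (Or.inr (Or.inr ⟨hq, rfl, hb', hn⟩))), ?_⟩
      · rw [sqc_rho G hc.q u d hcd']
        refine R.P_cast hb.u ?_
        rw [hb', map_add]; module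
      · intro b'' c'' h3 h4 h5
        have h6 := cn b'' c'' h3 h4 h5
        rcases hcn b'' c'' hb.q hb.p hc.q hc.p h3.q h3.p h4.q h4.p hbc h6 with
          e | e | ⟨e, _⟩ | ⟨_, e⟩ | ⟨_, e⟩
        · exact Or.inl e
        · exact Or.inr e
        · omega
        · exfalso
          have h8 := h3.u
          rw [e, ← hd] at h8
          exact R.P_neg h8 hn
        · exfalso
          have h8 := h3.p
          rw [e] at h8
          refine R.P_neg hp' (R.P_cast h8 ?_)
          rw [hd]; abel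

end

end Pool.Agent.H52.CIC
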