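import Pool.Agent.H52.CIC.StA
import Pool.Agent.H52.CIC.StB

/-!
# Project CIC: module T2SM (ranks at most three)
-/

namespace Pool.Agent.H52.CIC

open Pool.Agent.H11.ZDE

namespace T2SMaux

variable {P : Type} {O : Po P} {L : Type} [AddCommGroup L] {R : RootLat L}

theorem E_rk (S : SLG O R) {u w : P} (h : S.E u w) : O.rk u < O.rk w := by
  obtain ⟨k, hk⟩ := S.E_odd h
  omega

/-- rank zero -/
theorem ff0 (S : SLG O R) (x : P) (f : P → ℝ) : Ff S x x f := by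
  refine ⟨0, Submodule.zero_mem _, fun a h1 h2 => ?_⟩
  have h3 := E_rk S h1
  by_cases h4 : a = x
  · rw [h4] at h3
    omega
  · have := O.rk_lt h2 h4
    omega

/-- rank one -/
theorem ff1 (S : SLG O R) (hg : GlobSt S) {x y : P} (hxy : O.Le x y)
    (hr : O.rk y = O.rk x + 1) (f : P → ℝ) : Ff S x y f := by
  have hE := S.E_cov hxy hr
  have hpos : 0 < R.ht (S.lab x y) := R.ht_pos _ (S.lab_root hE).2
  set c : ℝ := f y / (R.ht (S.lab x y) : ℝ) with hc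
  let φ : L →+ ℝ := AddMonoidHom.mk' (fun v => (R.ht v : ℝ) * c) (by
    intro a b
    rw [R.ht_add]
    push_cast
    ring)
  refine ⟨glob S φ, hg x y φ, fun a h1 h2 => ?_⟩
  have h3 := E_rk S h1
  have h4 : a = y := by
    by_contra hne
    have := O.rk_lt h2 hne
    omega
  rw [h4]
  change (R.ht (S.lab x y) : ℝ) * c = f y
  rw [hc]
  have : (R.ht (S.lab x y) : ℝ) ≠ 0 := by
    have : (0 : ℝ) < R.ht (S.lab x y) := by exact_mod_cast hpos
    exact this.ne'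
  field_simp

/-- rank two -/
theorem ff2 (S : SLG O R) (hg : GlobSt S) (h2 : Sep2St S) {x y : P} (hxy : O.Le x y)
    (hr : O.rk y = O.rk x + 2) (f : P → ℝ) : Ff S x y f := by
  have hne : x ≠ y := by
    rintro rfl
    omega
  obtain ⟨a1, l1, l2, r1⟩ := O.up hxy hne
  have e1 := S.E_cov l1 r1
  have e2 := S.E_cov l2 (by omega)
  obtain ⟨a2, hn, e3, e4, huniq⟩ := S.sq e1 e2
  obtain ⟨φ, p1, p2⟩ := h2 x a1 a2 e1 e3 hn.symm (f a1) (f a2)
  refine ⟨glob S φ, hg x y φ, fun a q1 q2 => ?_⟩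
  obtain ⟨k, hk⟩ := S.E_odd q1
  have hay : a ≠ y := by
    rintro rfl
    omega
  have hlt := O.rk_lt q2 hay
  have e5 := S.E_cov q2 (by omega)
  rcases huniq a q1 e5 with rfl | rfl
  · exact p1
  · exact p2

/-- a path of atoms and coatoms -/
theorem path (S : SLG O R) (hp : PathExSt S) {x y : P} (hxy : O.Le x y)
    (hr : O.rk y = O.rk x + 3) : ∃ a0 a1 a2 a3 b0 b1 b2, Path4 O x y a0 a1 a2 a3 b0 b1 b2 := by
  have hne : x ≠ y := by
    rintro rfl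
    omega
  obtain ⟨a1, l1, l2, r1⟩ := O.up hxy hne
  have hne' : a1 ≠ y := by
    rintro rfl
    omega
  obtain ⟨b1, l3, l4, r2⟩ := O.up l2 hne'
  have e1 := S.E_cov l1 r1
  have e2 := S.E_cov l3 r2
  obtain ⟨a2, hn, e3, e4, -⟩ := S.sq e1 e2
  obtain ⟨k, hk⟩ := S.E_odd e3
  obtain ⟨k', hk'⟩ := S.E_odd e4
  obtain ⟨a0, a3, b0, b2, hP⟩ := hp x y a1 a2 b1 hr ⟨l1, r1⟩ ⟨S.E_le e3, by omega⟩ hn.symm
    ⟨l3, r2⟩ ⟨S.E_le e4, by omega⟩ ⟨l4, by omega⟩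
  exact ⟨a0, a1, a2, a3, b0, b1, b2, hP⟩

end T2SMaux

open T2SMaux in
/-- T2SM: ranks at most three -/
theorem t2sm {P : Type} [Finite P] {O : Po P} {L L' : Type} [AddCommGroup L] [AddCommGroup L']
    {R : RootLat L} {R' : RootLat L'} (S : SLG O R) (S' : SLG O R') (hfpf : FpfSt S S')
    (hp : PathExSt S) (hcr : CrownSt S) (h2 : FpK2St S) (h3 : FpK3St S) (h4 : FpK4St S)
    (h2' : FpK2St S') (h3' : FpK3St S') (h4' : FpK4St S') (hg : GlobSt S) (hg' : GlobSt S')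
    (hs : Sep2St S) (hs' : Sep2St S') : T2SmSt S S' := by
  intro x y hxy hr
  by_cases hne : x = y
  · subst hne
    exact fun f => ⟨fun _ => ff0 S' x f, fun _ => ff0 S x f⟩
  have hlt := O.rk_lt hxy hne
  rcases (show O.rk y = O.rk x + 1 ∨ O.rk y = O.rk x + 2 ∨ O.rk y = O.rk x + 3 by omega) with
    h | h | h
  · exact fun f => ⟨fun _ => ff1 S' hg' hxy h f, fun _ => ff1 S hg hxy h f⟩
  · exact fun f => ⟨fun _ => ff2 S' hg' hs' hxy h f, fun _ => ff2 S hg hs hxy h f⟩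
  · refine hfpf x y (by omega) (fun f => ?_)
    obtain ⟨a0, a1, a2, a3, b0, b1, b2, hP⟩ := path S hp hxy h
    rcases hcr x y a0 a1 a2 a3 b0 b1 b2 hP with hK | hK | ⟨b3, hK⟩
    · exact ⟨fun _ => (h2' x y a0 a1 a2 a3 b0 b1 b2 hP hK).1 f,
        fun _ => (h2 x y a0 a1 a2 a3 b0 b1 b2 hP hK).1 f⟩
    · exact ⟨fun _ => (h3' x y a0 a1 a2 a3 b0 b1 b2 hP hK).1 f,
        fun _ => (h3 x y a0 a1 a2 a3 b0 b1 b2 hP hK).1 f⟩
    · rw [(h4 x y a0 a1 a2 a3 b0 b1 b2 b3 hP hK).1 f, (h4' x y a0 a1 a2 a3 b0 b1 b2 b3 hP hK).1 f]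

end Pool.Agent.H52.CIC
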