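import Pool.Agent.H52.CIC.StC

/-!
# Project CIC, module T2W: the spaces correspond along two embeddings
-/

namespace Pool.Agent.H52.CIC

open Pool.Agent.H11.ZDE

theorem t2w
    (hE : ∀ (P L L' : Type) [Finite P] [AddCommGroup L] [AddCommGroup L'] (R : RootLat L) (R' : RootLat L')
      (O : Po P) (S : SLG O R) (S' : SLG O R'), EdgeSt S S')
    (hT : ∀ (P L L' : Type) [Finite P] [AddCommGroup L] [AddCommGroup L'] (R : RootLat L) (R' : RootLat L')
      (O : Po P) (S : SLG O R) (S' : SLG O R'), GenP S → GenP S' → T2St S S')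
    (hS : PullSSt) (hF : PullFSt) (hG : PullGSt) : T2WSt := by
  intro P V V' L L' _ _ _ R R' OP O O' f f' S S' e e' g g'
  obtain ⟨S1, p1⟩ := hS P V L R OP O f S e
  obtain ⟨S2, p2⟩ := hS P V' L' R' OP O' f' S' e'
  have g1 : GenP S1 := hG P V L R OP O f S S1 e p1 g
  have g2 : GenP S2 := hG P V' L' R' OP O' f' S' S2 e' p2 g'
  have hEd : ∀ p q, S.E (f p) (f q) ↔ S'.E (f' p) (f' q) := by
    intro p q
    rw [← p1.E, ← p2.E]
    exact hE P L L' R R' OP S1 S2 p q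
  refine ⟨hEd, ?_⟩
  intro p q hpq h hh
  obtain ⟨fa, -⟩ := hF P V L R OP O f S S1 e p1
  obtain ⟨-, fb⟩ := hF P V' L' R' OP O' f' S' S2 e' p2
  have h1 := fa p q h hh
  have h2 : Ff S1 p q (fun a => h (f p) (f a)) := ⟨_, h1, fun a _ _ => rfl⟩
  obtain ⟨h3, h3m, h3v⟩ := (hT P L L' R R' OP S1 S2 g1 g2 p q hpq _).1 h2
  obtain ⟨h4, h4m, h4v⟩ := fb p q h3 hpq h3m
  refine ⟨h4, h4m, ?_⟩
  intro a ha haq
  rw [h4v]
  exact h3v a ((p2.E p a).2 ((hEd p a).1 ha)) haq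

end Pool.Agent.H52.CIC
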