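import Pool.Agent.H52.CIC.StB

/-!
# Project CIC, module T3: existence of the polynomials
-/

namespace Pool.Agent.H52.CIC

open Pool.Agent.H11.ZDE Polynomial

variable {P : Type} [Fintype P] {O : Po P} {L : Type} [AddCommGroup L] {R : RootLat L}

theorem t3_mem_out (S : SLG O R) {y u a : P} : a ∈ out S y u ↔ S.E u a ∧ O.Le a y := by
  classical
  unfold out
  simp

theorem t3_congr (S : SLG O R) {y u : P} {φ ψ : P → (P → P → ℝ) → Polynomial ℤ}
    (f g : P → P → ℝ) (h : ∀ a ∈ out S y u, φ a = ψ a) : Zs S y u φ f g = Zs S y u ψ f g := by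
  classical
  unfold Zs
  refine Finset.sum_congr rfl fun a ha => ?_
  rw [h a (Finset.mem_filter.1 ha).1]

/-- the sum does not depend on the choices -/
theorem t3_key (S : SLG O R) (hg : LingSt S) (hk : LinkSt S) (ht : TiegSt S) {x y : P}
    {φ : P → (P → P → ℝ) → Polynomial ℤ} (hxy : O.Le x y)
    (hφ : ∀ u, O.Le x u → u ≠ x → O.Le u y → PhiAt S y φ u) {f g f' g' : P → P → ℝ}
    (hf : Gn S y x f) (hf' : Gn S y x f') (hs : Sg S y x f f') (hgp : Ps S y x g)
    (hgp' : Ps S y x g') (h1 : TF S y x f g) (h2 : TF S y x f' g') :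
    Zs S y x φ f g = Zs S y x φ f' g' := by
  classical
  obtain ⟨k, hkp, hk2⟩ := ht x y {f, f'}
  have t1 : TF S y x f k := fun a ha b hb hab => hk2 f (by simp) a ha b hb hab (Or.inl (hf.ne a ha))
  have t2 : TF S y x f' k := fun a ha b hb hab =>
    hk2 f' (by simp) a ha b hb hab (Or.inl (hf'.ne a ha))
  rw [hg x y φ f g k hxy hφ hf hgp hkp h1 t1, hk x y φ f f' k hxy hφ hf hf' hs hkp t1 t2,
    hg x y φ f' k g' hxy hφ hf' hkp hgp' t2 h2]

theorem t3_step (S : SLG O R) (hg : LingSt S) (hk : LinkSt S) (ht : TiegSt S) (y : P) (n : ℕ) :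
    ∃ φ, ∀ u, O.Le u y → O.rk y ≤ O.rk u + n → PhiAt S y φ u := by
  classical
  induction n with
  | zero =>
    refine ⟨fun _ _ => 1, fun u hu hr => ?_⟩
    have huy : u = y := by
      by_contra h
      have := O.rk_lt hu h
      omega
    exact ⟨fun _ _ _ _ _ => rfl, fun h => absurd huy h, fun _ _ => rfl⟩
  | succ n ih =>
    obtain ⟨φ0, h0⟩ := ih
    have hG : ∀ (u : P) (h : P → P → ℝ), ∃ g, Gn S y u h → Ps S y u g ∧ TF S y u h g := by
      intro u h
      by_cases hh : Gn S y u h
      swap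
      · exact ⟨0, fun h => absurd h hh⟩
      obtain ⟨g, hg1, hg2⟩ := ht u y {h}
      exact ⟨g, fun _ => ⟨hg1, fun a ha b hb hab =>
        hg2 h (by simp) a ha b hb hab (Or.inl (hh.ne a ha))⟩⟩
    choose G hG using hG
    refine ⟨fun u h => if O.rk y = O.rk u + (n + 1) then X * Zs S y u φ0 h (G u h) else φ0 u h,
      fun u hu hr => ?_⟩
    have hlt : ∀ a ∈ out S y u, O.rk u < O.rk a := by
      intro a ha
      obtain ⟨ha1, -⟩ := (t3_mem_out S).1 ha
      obtain ⟨k, hk⟩ := S.E_odd ha1
      omega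
    have hcg : ∀ f g, Zs S y u (fun u h => if O.rk y = O.rk u + (n + 1) then
        X * Zs S y u φ0 h (G u h) else φ0 u h) f g = Zs S y u φ0 f g := by
      intro f g
      refine t3_congr S f g fun a ha => ?_
      funext h
      have := hlt a ha
      rw [if_neg (by omega)]
    by_cases hr' : O.rk y = O.rk u + (n + 1)
    · have hφ : ∀ u', O.Le u u' → u' ≠ u → O.Le u' y → PhiAt S y φ0 u' := by
        intro u' h1 h2 h3
        have := O.rk_lt h1 h2.symm
        exact h0 u' h3 (by omega)
      refine ⟨?_, ?_, ?_⟩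
      · intro h h' hh hh' hs
        simp only [if_pos hr']
        rw [t3_key S hg hk ht hu hφ hh hh' hs (hG u h hh).1 (hG u h' hh').1 (hG u h hh).2
          (hG u h' hh').2]
      · intro huy f g hf hgp htf
        rw [hcg]
        simp only [if_pos hr']
        rw [t3_key S hg hk ht hu hφ hf hf (fun _ _ => Iff.rfl) (hG u f hf).1 hgp (hG u f hf).2 htf]
      · rintro rfl
        omega
    · have hp := h0 u hu (by omega)
      refine ⟨?_, ?_, ?_⟩
      · intro h h' hh hh' hs
        simp only [if_neg hr']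
        exact hp.sign h h' hh hh' hs
      · intro huy f g hf hgp htf
        rw [hcg]
        simp only [if_neg hr']
        exact hp.step huy f g hf hgp htf
      · intro huy h
        simp only [if_neg hr']
        exact hp.at_top huy h

/-- T3 -/
theorem t3 (S : SLG O R) (hg : LingSt S) (hk : LinkSt S) (ht : TiegSt S) : T3St S := by
  intro y
  obtain ⟨φ, h⟩ := t3_step S hg hk ht y (O.rk y)
  exact ⟨φ, fun u hu => h u hu (by omega)⟩

end Pool.Agent.H52.CIC
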