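import Pool.Agent.H52.CIC.StA

/-! Module TC of project CIC. -/

namespace Pool.Agent.H52.CIC

open Pool.Agent.H11.ZDE

variable {P : Type} {O : Po P} {L L' : Type} [AddCommGroup L] [AddCommGroup L'] {R : RootLat L} {R' : RootLat L'}

theorem tc_rk_lt (S : SLG O R) {u w : P} (h : S.E u w) : O.rk u < O.rk w := by
  obtain ⟨k, hk⟩ := S.E_odd h
  omega

theorem tc_rk_le {u w : P} (h : O.Le u w) : O.rk u ≤ O.rk w := by
  by_cases e : u = w
  · rw [e]
  · exact (O.rk_lt h e).le

theorem tc_half (S : SLG O R) (S' : SLG O R') (he : EdgeSt S S') (hgl' : GlueSt S') {x y : P}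
    (hxy : O.Le x y) (hr : O.rk x + 4 ≤ O.rk y)
    (hT : ∀ u w, O.Le x u → O.Le u w → O.Le w y → ¬ (u = x ∧ w = y) → T2At S S' u w)
    (hG : ∀ a, Cv O x a → O.Le a y → GoodAt S S' x a y) (f : P → ℝ) (hf : Fp S x y f) :
    Fp S' x y f := by
  obtain ⟨h, hh, hv⟩ := hf
  apply hgl' x y f hxy hr
  · intro b hxb hby
    have hne : b ≠ y := by
      rintro rfl
      have := hby.2
      omega
    refine (hT x b (O.refl x) hxb hby.1 (fun hc => hne hc.2) f).1 ?_
    refine ⟨h, fun u w h1 h2 => hh u w h1 (O.trans h2 hby.1), ?_⟩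
    intro a ha hab
    refine hv a ha (O.trans hab hby.1) ?_
    rintro rfl
    have := tc_rk_le hab
    have := hby.2
    omega
  · intro a hxa hay
    have hax : a ≠ x := by
      rintro rfl
      have := hxa.2
      omega
    have hany : a ≠ y := by
      rintro rfl
      have := hxa.2
      omega
    have m1 : h ∈ FS S a y := fun u w h1 h2 => hh u w (O.trans hxa.1 h1) h2
    obtain ⟨k, hk, hkv⟩ := (hT a y hxa.1 hay (O.refl y) (fun hc => hax hc.1) (h a)).1
      ⟨h, m1, fun _ _ _ => rfl⟩
    obtain ⟨g, hg, hgv⟩ := hG a hxa hay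
    refine ⟨k - f a • g, (FS S' a y).sub_mem hk ((FS S' a y).smul_mem _ hg), ?_⟩
    intro w a' haw hwy hwne hxa' ha'w hne
    have hEa : S.E x a := S.E_cov hxa.1 hxa.2
    have e1 : S.E a w := (he a w).2 haw
    have e2 : S.E x a' := (he x a').2 hxa'
    have e3 : S.E a' w := (he a' w).2 ha'w
    have r1 := (hh x w (O.refl x) hwy).1 a a' hEa e1 e2 e3 (Ne.symm hne)
    have v1 : h x a = f a := hv a hEa hay hany
    have v2 : h x a' = f a' := by
      refine hv a' e2 (O.trans (S.E_le e3) hwy) ?_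
      rintro rfl
      have := tc_rk_lt S e3
      have := tc_rk_le hwy
      omega
    have v3 := hkv w haw hwy
    have v4 := hgv w haw hwy hwne
    simp only [Pi.sub_apply, Pi.smul_apply, smul_eq_mul]
    rw [v3, v4, r1, v1, v2]
    unfold cf
    ring

theorem tc (S : SLG O R) (S' : SLG O R') (he : EdgeSt S S') (hgl : GlueSt S) (hgl' : GlueSt S')
    (hfpf : FpfSt S S') (hgsy : GsySt S S') : TcSt S S' := by
  intro x y hxy hr hT hG
  apply hfpf x y (by omega)
  intro f
  constructor
  · exact tc_half S S' he hgl' hxy hr hT hG f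
  · refine tc_half S' S (fun u w => (he u w).symm) hgl hxy hr ?_ ?_ f
    · intro u w h1 h2 h3 h4 f'
      exact (hT u w h1 h2 h3 h4 f').symm
    · intro a ha hay
      have hax : a ≠ x := by
        rintro rfl
        have := ha.2
        omega
      exact hgsy x a y (hT a y ha.1 hay (O.refl y) (fun hc => hax hc.1)) (hG a ha hay)

end Pool.Agent.H52.CIC
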