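import Pool.Agent.H52.CIC.StA

/-!
# Project CIC, module TEL: telescoping around a coatom in rank four
-/

namespace Pool.Agent.H52.CIC

open Pool.Agent.H11.ZDE

variable {P : Type} {O : Po P} {L L' : Type} [AddCommGroup L] [AddCommGroup L'] {R : RootLat L} {R' : RootLat L'}

/-- value on the edge `a → w` -/
theorem tel_ga (S : SLG O R) (S' : SLG O R') (he : EdgeSt S S') {x a w b : P} (φ : L →+ ℝ)
    {k : P → P → ℝ} (hk : k ∈ FS S' x b)
    (hkf : ∀ c, S'.E x c → O.Le c b → k x c = φ (S.lab x c))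
    (hxa : Cv O x a) (haw : Cv O a w) (hwb : O.Le w b) :
    k a w = φ (S.lab a w) - φ (S.lab x a) * cf S S' x a w := by
  have e1 : S'.E x a := S'.E_cov hxa.1 hxa.2
  have e2 : S'.E a w := S'.E_cov haw.1 haw.2
  obtain ⟨a', hne, e3, e4, -⟩ := S'.sq e1 e2
  have hr := (hk x w (O.refl x) hwb).1 a a' e1 e2 e3 e4 hne.symm
  have hs := S.tt_spec ((he _ _).2 e1) ((he _ _).2 e2) ((he _ _).2 e3) ((he _ _).2 e4) hne.symm
  have h1 : k x a' = φ (S.lab x a') := hkf a' e3 (O.trans (S'.E_le e4) hwb)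
  have h2 : k x a = φ (S.lab x a) := hkf a e1 (O.trans (S'.E_le e2) hwb)
  have h3 : φ (S.lab a w) = φ (S.lab x a') + (S.tt x a w : ℝ) * φ (S.lab x a) := by
    rw [hs, map_add, map_zsmul, zsmul_eq_mul]
  rw [hr, h1, h2, h3]
  unfold cf
  ring

/-- value on the edge `v → b` -/
theorem tel_gb (S : SLG O R) (S' : SLG O R') (he : EdgeSt S S') {x a v w b : P} (φ : L →+ ℝ)
    {k : P → P → ℝ} (hk : k ∈ FS S' x b)
    (hkf : ∀ c, S'.E x c → O.Le c b → k x c = φ (S.lab x c))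
    (hxa : Cv O x a) (hav : Cv O a v) (haw : Cv O a w) (hvb : Cv O v b) (hwb : Cv O w b)
    (hvw : v ≠ w) :
    k v b = (φ (S.lab a w) - φ (S.lab x a) * cf S S' x a w) +
      S'.tt a v b * (φ (S.lab a v) - φ (S.lab x a) * cf S S' x a v) := by
  have hr := (hk a b hxa.1 (O.refl b)).1 v w (S'.E_cov hav.1 hav.2) (S'.E_cov hvb.1 hvb.2)
    (S'.E_cov haw.1 haw.2) (S'.E_cov hwb.1 hwb.2) hvw
  rw [hr, tel_ga S S' he φ hk hkf hxa haw hwb.1, tel_ga S S' he φ hk hkf hxa hav hvb.1]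

/-- TEL -/
theorem tel (S : SLG O R) (S' : SLG O R') (he : EdgeSt S S') (hpx : PathExSt S')
    (hcr : CrownSt S') (h2 : FpK2St S') (h3 : FpK3St S') (h4 : FpK4St S') (hg : GlobSt S) :
    TelSt S S' := by
  intro x y b hxb hby hrk hT
  have hd : ∀ a v v', ∃ d : ℝ, Corner O x y b a v v' → (GoodAt S S' x a y ↔ d = 0) ∧
      ∃ v'' v''' b' b'', Path4 O a y v'' v v' v''' b' b b'' ∧
        d = cf S S' x a v'' + cc S' a y v v' b' b * cf S S' x a v +
          dd S' a y v v' b b'' * cf S S' x a v' - cf S S' x a v''' ∧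
        ∀ ψ : P → ℝ, Fp S' a y ψ → ψ v'' + cc S' a y v v' b' b * ψ v +
          dd S' a y v v' b b'' * ψ v' - ψ v''' = 0 := by
    intro a v v'
    by_cases hc : Corner O x y b a v v'
    swap
    · exact ⟨0, fun h => absurd h hc⟩
    have hay : O.rk y = O.rk a + 3 := by
      have := hc.xa.2
      omega
    obtain ⟨v'', v''', b', b'', hp⟩ := hpx a y v v' b hay hc.av hc.av' hc.ne hc.vb hc.vb' hby
    refine ⟨_, fun _ => ⟨?_, v'', v''', b', b'', hp, rfl, ?_⟩⟩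
    · rcases hcr a y _ _ _ _ _ _ _ hp with hk | hk | ⟨b3, hk⟩
      · obtain ⟨hF, c1, c2⟩ := h2 a y _ _ _ _ _ _ _ hp hk
        refine ⟨fun _ => ?_, fun _ => hF _⟩
        rw [c1, c2, hk.1, hk.2.1]
        push_cast
        ring
      · obtain ⟨hF, c1, c2⟩ := h3 a y _ _ _ _ _ _ _ hp hk
        refine ⟨fun _ => ?_, fun _ => hF _⟩
        rw [c1, c2, hk.1]
        push_cast
        ring
      · obtain ⟨hF, c1, c2, -⟩ := h4 a y _ _ _ _ _ _ _ _ hp hk
        unfold GoodAt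
        rw [hF, c1, c2]
        push_cast
        constructor <;> intro h <;> linarith
    · intro ψ hψ
      rcases hcr a y _ _ _ _ _ _ _ hp with hk | hk | ⟨b3, hk⟩
      · obtain ⟨hF, c1, c2⟩ := h2 a y _ _ _ _ _ _ _ hp hk
        rw [c1, c2, hk.1, hk.2.1]
        push_cast
        ring
      · obtain ⟨hF, c1, c2⟩ := h3 a y _ _ _ _ _ _ _ hp hk
        rw [c1, c2, hk.1]
        push_cast
        ring
      · obtain ⟨hF, c1, c2, -⟩ := h4 a y _ _ _ _ _ _ _ _ hp hk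
        have := (hF ψ).1 hψ
        rw [c1, c2]
        push_cast
        linarith
  choose d hd using hd
  refine ⟨d, fun a v v' hc => (hd a v v' hc).1, fun φ => ?_⟩
  have hK : ∀ c, ∃ k : P → P → ℝ, Cv O c y → O.Le x c → k ∈ FS S' x c ∧
      ∀ e, S'.E x e → O.Le e c → k x e = φ (S.lab x e) := by
    intro c
    by_cases hc : Cv O c y ∧ O.Le x c
    swap
    · exact ⟨0, fun h1 h2 => absurd ⟨h1, h2⟩ hc⟩
    have hcy : c ≠ y := by
      rintro rfl
      have := hc.1.2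
      omega
    have h1 : Ff S x c (fun e => φ (S.lab x e)) := ⟨glob S φ, hg x c φ, fun e _ _ => rfl⟩
    obtain ⟨k, hk, hk2⟩ := (hT x c (O.refl x) hc.2 hc.1.1 (fun h => hcy h.2) _).1 h1
    exact ⟨k, fun _ _ => ⟨hk, hk2⟩⟩
  choose K hK using hK
  have hB : ∀ v, ∃ b', Cv O v b → ∀ b0, b0 ≠ b → Cv O v b0 → Cv O b0 y → b0 = b' := by
    intro v
    by_cases hv : Cv O v b
    swap
    · exact ⟨v, fun h => absurd h hv⟩
    obtain ⟨b', -, -, -, hu⟩ := S'.sq (S'.E_cov hv.1 hv.2) (S'.E_cov hby.1 hby.2)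
    exact ⟨b', fun _ b0 h1 h2 h3 => (hu b0 (S'.E_cov h2.1 h2.2) (S'.E_cov h3.1 h3.2)).resolve_left h1⟩
  choose B hB using hB
  refine ⟨fun v => K (B v) v (B v) + S'.tt v b y * K b v b, fun a v v' hc => ?_⟩
  obtain ⟨-, v'', v''', b', b'', hp, hde, hψ⟩ := hd a v v' hc
  have hb1 : b' = B v := hB v hc.vb b' hp.nb0 hp.i10 hp.y0
  have hb2 : b'' = B v' := hB v' hc.vb' b'' hp.nb1.symm hp.i22 hp.y2
  simp only []
  rw [← hb1, ← hb2]
  have hxv : O.Le x v := O.trans hc.xa.1 hc.av.1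
  have hxv' : O.Le x v' := O.trans hc.xa.1 hc.av'.1
  obtain ⟨k1, k1'⟩ := hK b' hp.y0 (O.trans hxv hp.i10.1)
  obtain ⟨k2, k2'⟩ := hK b'' hp.y2 (O.trans hxv' hp.i22.1)
  obtain ⟨k3, k3'⟩ := hK b hby hxb
  have hay : a ≠ x := by
    rintro rfl
    have := hc.xa.2
    omega
  have hzero := hψ (fun w => φ (S.lab a w)) (by
    have h1 : Ff S a y (fun e => φ (S.lab a e)) := ⟨glob S φ, hg a y φ, fun e _ _ => rfl⟩
    obtain ⟨k, hk, hk2⟩ := (hT a y hc.xa.1 (O.trans hc.av.1 (O.trans hc.vb.1 hby.1)) (O.refl y)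
      (fun h => hay h.1) _).1 h1
    exact ⟨k, hk, fun e e1 e2 _ => hk2 e e1 e2⟩)
  simp only [tel_gb S S' he φ k1 k1' hc.xa hp.x1 hp.x0 hp.i10 hp.i00 hp.na0.symm,
    tel_gb S S' he φ k2 k2' hc.xa hp.x2 hp.x3 hp.i22 hp.i32 hp.na2,
    tel_gb S S' he φ k3 k3' hc.xa hp.x1 hp.x2 hp.i11 hp.i21 hp.na1,
    tel_gb S S' he φ k3 k3' hc.xa hp.x2 hp.x1 hp.i21 hp.i11 hp.na1.symm]
  rw [hde]
  simp only [cc, dd] at hzero ⊢
  push_cast at hzero ⊢
  linear_combination hzero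

end Pool.Agent.H52.CIC
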