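import Pool.Agent.H52.CIC.StC

/-!
# Project CIC, module TIEG: positive elements without ties
-/

namespace Pool.Agent.H52.CIC

open Pool.Agent.H11.ZDE Filter Topology

variable {P : Type} [Fintype P] {O : Po P} {L : Type} [AddCommGroup L] {R : RootLat L}

theorem tieg_mem (S : SLG O R) {y u a : P} : a ∈ out S y u ↔ S.E u a ∧ O.Le a y := by
  unfold out
  simp

/-- the form attached to `μ`, `b`, `c` -/
noncomputable def tiegForm (S : SLG O R) (u : P) (i : (P → P → ℝ) × P × P) : (L →+ ℝ) →ₗ[ℝ] ℝ where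
  toFun ψ := i.1 u i.2.1 * ψ (S.lab u i.2.2) - i.1 u i.2.2 * ψ (S.lab u i.2.1)
  map_add' ψ ψ' := by
    simp only [AddMonoidHom.add_apply]
    ring
  map_smul' c ψ := by
    simp only [AddMonoidHom.smul_apply, smul_eq_mul, RingHom.id_apply]
    ring

theorem tieg (S : SLG O R) (hA : AvoidSt) (hg : GlobSt S) (h2 : Sep2St S) (hh : HtSt S) :
    TiegSt S := by
  classical
  intro u y s
  obtain ⟨φ, hφ⟩ := hh
  set I : Finset ((P → P → ℝ) × P × P) :=
    (s ×ˢ (out S y u) ×ˢ (out S y u)).filter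
      (fun i => i.2.1 ≠ i.2.2 ∧ (i.1 u i.2.1 ≠ 0 ∨ i.1 u i.2.2 ≠ 0)) with hI
  have hne : ∀ i ∈ I, tiegForm S u i ≠ 0 := by
    rintro ⟨μ, b, c⟩ hi h0
    simp only [hI, Finset.mem_filter, Finset.mem_product] at hi
    obtain ⟨⟨-, hb, hc⟩, hbc, hor⟩ := hi
    have Eb := ((tieg_mem S).1 hb).1
    have Ec := ((tieg_mem S).1 hc).1
    rcases hor with h | h
    · obtain ⟨ψ, e1, e2⟩ := h2 u b c Eb Ec hbc 0 1
      have := LinearMap.congr_fun h0 ψ
      simp only [tiegForm, LinearMap.coe_mk, AddHom.coe_mk, LinearMap.zero_apply] at this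
      simp only [glob] at e1 e2
      rw [e1, e2] at this
      apply h
      linarith
    · obtain ⟨ψ, e1, e2⟩ := h2 u b c Eb Ec hbc 1 0
      have := LinearMap.congr_fun h0 ψ
      simp only [tiegForm, LinearMap.coe_mk, AddHom.coe_mk, LinearMap.zero_apply] at this
      simp only [glob] at e1 e2
      rw [e1, e2] at this
      apply h
      linarith
  obtain ⟨ψ, hψ⟩ := hA (L →+ ℝ) _ I (tiegForm S u) hne
  have ev1 : ∀ᶠ ε : ℝ in 𝓝[>] 0, ∀ a ∈ out S y u, 0 < φ (S.lab u a) + ε * ψ (S.lab u a) := by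
    rw [Filter.eventually_all_finset]
    intro a ha
    have hp : 0 < φ (S.lab u a) := (hφ u y).pos a ha
    have hc : Tendsto (fun ε : ℝ => φ (S.lab u a) + ε * ψ (S.lab u a)) (𝓝 0)
        (𝓝 (φ (S.lab u a) + 0 * ψ (S.lab u a))) := by
      exact (continuous_const.add (continuous_id.mul continuous_const)).tendsto 0
    rw [zero_mul, add_zero] at hc
    exact (hc.eventually (lt_mem_nhds hp)).filter_mono nhdsWithin_le_nhds
  have ev2 : ∀ᶠ ε : ℝ in 𝓝[>] 0, ∀ i ∈ I, tiegForm S u i φ + ε * tiegForm S u i ψ ≠ 0 := by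
    rw [Filter.eventually_all_finset]
    intro i hi
    have hk := hψ i hi
    by_cases h0 : tiegForm S u i φ = 0
    · filter_upwards [self_mem_nhdsWithin] with ε hε
      rw [h0, zero_add]
      exact mul_ne_zero (ne_of_gt hε) hk
    · have hc : Tendsto (fun ε : ℝ => tiegForm S u i φ + ε * tiegForm S u i ψ) (𝓝 0)
          (𝓝 (tiegForm S u i φ + 0 * tiegForm S u i ψ)) := by
        exact (continuous_const.add (continuous_id.mul continuous_const)).tendsto 0
      rw [zero_mul, add_zero] at hc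
      exact (hc.eventually_ne h0).filter_mono nhdsWithin_le_nhds
  obtain ⟨ε, h1, h3⟩ := (ev1.and ev2).exists
  refine ⟨glob S (φ + ε • ψ), ⟨hg u y _, fun a ha => ?_⟩, ?_⟩
  · have := h1 a ha
    simpa [glob] using this
  · intro μ hμ b hb c hc hbc hor heq
    have hi : ((μ, b, c) : (P → P → ℝ) × P × P) ∈ I := by
      simp only [hI, Finset.mem_filter, Finset.mem_product]
      exact ⟨⟨hμ, hb, hc⟩, hbc, hor⟩
    apply h3 _ hi
    simp only [glob, AddMonoidHom.add_apply, AddMonoidHom.smul_apply, smul_eq_mul] at heq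
    simp only [tiegForm, LinearMap.coe_mk, AddHom.coe_mk]
    linarith

end Pool.Agent.H52.CIC
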