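import Pool.Agent.H52.CIC.Rel0

/-!
# Project CIC: module UPS (helper12)
-/

namespace Pool.Agent.H52.CIC

open Pool.Agent.H11.ZDE Pool.Agent.H11.ZDE.RootLat

section
variable {B W : Type} [Group W] {M : CoxeterMatrix B} {cs : CoxeterSystem M W}
  {L : Type} [AddCommGroup L] {R : RootLat L} {G : Geo cs R}

theorem ups0 : ∀ u (i : B) b, R.Q b b = 2 → R.P b → b ≠ G.α i →
    (Up G u b ↔ Up G (u * cs.simple i) (R.r (G.α i) b)) ∧
    u * cs.simple i * G.T (R.r (G.α i) b) = u * G.T b * cs.simple i := by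
  intro u i b qb pb hb
  refine ⟨⟨fun h => h.mir i hb, fun h => ⟨qb, pb, ?_⟩⟩, mirT G u i qb⟩
  have := h.u
  rwa [rho_sr] at this

end

end Pool.Agent.H52.CIC
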