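import Pool.Agent.H3.CIC.Bas

/-!
# Project CIC: module VCH
-/

set_option linter.unusedSimpArgs false

namespace Pool.Agent.H52.CIC

open Pool.Agent.H11.ZDE Pool.Agent.H11.ZDE.RootLat G3

variable {B W : Type} [Group W] {M : CoxeterMatrix B} {cs : CoxeterSystem M W}
  {L : Type} [AddCommGroup L] {R : RootLat L} (G : Geo cs R)

theorem vch (hw : WsSt G) (hv : VertSt G) : VchSt G := by
  intro x z i h hx hF u
  induction hn : cs.length u using Nat.strong_induction_on generalizing u with
  | _ n IH =>
  intro hxu hu hz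
  by_cases hne : x = u
  · rw [hne]
  · obtain ⟨v, b, hxv, hva, hvb, e, hl⟩ := (hw x u i hx hu hxu hne).1
    have hvu : Bru cs v u := by rw [e]; exact up_bru G hvb
    have h1 := IH (cs.length v) (by omega) v rfl hxv hva ((lift_bb G hvu hva hu).trans hz)
    have h2 := hv v b i h hva hvb (by rw [← e]; exact hu) (hF v _ hxv (by rw [← e]; exact hz))
    rw [← h1, ← h2, e]

end Pool.Agent.H52.CIC
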