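import Pool.Agent.H3.CIC.Bas

/-!
# Project CIC: module VERT
-/

set_option linter.unusedSimpArgs false

namespace Pool.Agent.H52.CIC

open Pool.Agent.H11.ZDE Pool.Agent.H11.ZDE.RootLat G3

variable {B W : Type} [Group W] {M : CoxeterMatrix B} {cs : CoxeterSystem M W}
  {L : Type} [AddCommGroup L] {R : RootLat L} (G : Geo cs R)

theorem vert : VertSt G := by
  intro u b i h ua ub hb H
  have qa := al_q G i
  have pa := al_p G i
  have hne : b ≠ G.α i := by
    rintro rfl
    have h1 := hb.u
    rw [rho_Tk G u qa (G.α i) qa] at h1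
    refine R.P_neg ua.u (R.P_cast h1 ?_)
    rw [← map_neg]; congr 1; module
  have hTs : ∀ v : W, v * cs.simple i = v * G.T (G.α i) := fun v => by rw [G.Tα]
  rcases R.Q_cases' ub.q qa ub.p pa hne with q | q | q
  · exact (H.a b (G.α i) ub ua q (by rw [hTs])).1
  · exact H.o b (G.α i) ub ua q (by rw [hTs])
  · -- b = α + δ
    have q' : R.Q (G.α i) b = 1 := by rw [R.Q_comm]; exact q
    have h1 := hb.u
    rw [rho_Tk G u ub.q (G.α i) q'] at h1
    have qd : R.Q (b - G.α i) (b - G.α i) = 2 := by
      rw [R.Q_sub, R.Q_subr, R.Q_subr, ub.q, qa, q, q']; norm_num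
    have pd : R.P (b - G.α i) := by
      have := R.S_refl _ (al_mem G i) b ub.q ub.p hne
      rw [q] at this
      exact R.P_cast this (by module)
    have e : G.α i + (b - G.α i) = b := by abel
    have qad : R.Q (G.α i) (b - G.α i) = -1 := by rw [R.Q_subr, q', qa]; norm_num
    have hd := (Pool.Agent.H11.Ism.dih G qa qd qad).2.1
    have h2 := (H.b (G.α i) (b - G.α i) ua (by rw [e]; exact ub) qd pd ?_ qad ?_).2
    · rw [e] at h2
      exact h2
    · refine R.P_cast h1 ?_
      rw [← map_neg]; congr 1; module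
    · rw [hTs, mul_assoc, mul_assoc, hd, e]

end Pool.Agent.H52.CIC
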