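import Pool.Agent.H52.CIC.StG
import Pool.Agent.H11.Ism.GeoB

/-! Module WS of project CIC (helper95): chains of elements with ascent `s_i`. -/

namespace Pool.Agent.H52.CIC

open Pool.Agent.H11.ZDE

section
variable {B W : Type} [Group W] {M : CoxeterMatrix B} {cs : CoxeterSystem M W}
  {L : Type} [AddCommGroup L] {R : RootLat L} (G : Geo cs R)

include G

theorem ws_up (i : B) (u : W) : Up G u (G.α i) ↔ cs.length u < cs.length (u * cs.simple i) := by
  have hiS : G.α i ∈ R.S := G.αS ▸ Set.mem_range_self i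
  have h := Pool.Agent.H11.Ism.pos_iff G u (R.S_root _ hiS) (R.S_pos _ hiS)
  rw [G.Tα i] at h
  constructor
  · intro hu
    exact h.1 hu.u
  · intro hu
    exact ⟨R.S_root _ hiS, R.S_pos _ hiS, h.2 hu⟩

theorem ws_len (i : B) (u : W) :
    (cs.length u < cs.length (u * cs.simple i) ∧ cs.length (u * cs.simple i) = cs.length u + 1) ∨
    (¬ cs.length u < cs.length (u * cs.simple i) ∧ cs.length u = cs.length (u * cs.simple i) + 1) := by
  have _ := G
  rcases cs.length_mul_simple u i with h1 | h1 <;> omega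

/-- a cover of a bottom element is `x s` or a bottom element -/
theorem ws_asc (i : B) {x y : W} (hx : cs.length x < cs.length (x * cs.simple i)) (h : Bru cs x y)
    (hl : cs.length y = cs.length x + 1) (hne : y ≠ x * cs.simple i) :
    cs.length y < cs.length (y * cs.simple i) := by
  by_contra hy
  apply hne
  have h1 := (Pool.Agent.H11.Ism.lift_mx G i h).2
  unfold Pool.Agent.H11.Ism.mn at h1
  rw [if_pos hx, if_neg hy] at h1
  rcases ws_len G i y with h2 | h2
  · exact absurd h2.1 hy
  · rcases Pool.Agent.H58.ZDE.bru_len h1 with h3 | h3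
    · rw [h3, Pool.Agent.H11.Ism.ss]
    · omega

theorem ws_cov {x y : W} (h : Bru cs x y) (hl : cs.length y = cs.length x + 1) :
    ∃ b, Up G x b ∧ y = x * G.T b := by
  obtain ⟨b, q, p, e⟩ := Pool.Agent.H11.Ism.cov_root G h hl
  refine ⟨b, ⟨q, p, (Pool.Agent.H11.Ism.pos_iff G x q p).2 ?_⟩, e⟩
  rw [← e]
  omega

theorem ws_dia (i : B) {x y : W} (hx : cs.length x < cs.length (x * cs.simple i)) (h : Bru cs x y)
    (hl : cs.length y = cs.length x + 2) :
    ∃ z, Bru cs x z ∧ Bru cs z y ∧ cs.length z = cs.length x + 1 ∧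
      cs.length z < cs.length (z * cs.simple i) := by
  obtain ⟨a, b, hab, a1, a2, a3, b1, b2, b3⟩ := Pool.Agent.H11.Ism.geo_diamond G h hl
  by_cases ha : a = x * cs.simple i
  · have hb : b ≠ x * cs.simple i := fun e => hab (ha.trans e.symm)
    exact ⟨b, b1, b2, b3, ws_asc G i hx b1 b3 hb⟩
  · exact ⟨a, a1, a2, a3, ws_asc G i hx a1 a3 ha⟩

theorem ws : WsSt G := by
  intro x u i hx hu h hne
  rw [ws_up G] at hx hu
  obtain ⟨⟨z, z1, z2, z3⟩, ⟨t, t1, t2, t3⟩⟩ := Pool.Agent.H11.Ism.exists_covers G h hne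
  constructor
  · -- down
    have key : ∃ v, Bru cs x v ∧ Bru cs v u ∧ cs.length u = cs.length v + 1 ∧
        cs.length v < cs.length (v * cs.simple i) := by
      by_cases ht : cs.length t < cs.length (t * cs.simple i)
      · exact ⟨t, t1, t2, t3, ht⟩
      · have h1 := (Pool.Agent.H11.Ism.lift_mx G i t1).2
        unfold Pool.Agent.H11.Ism.mn at h1
        rw [if_pos hx, if_neg ht] at h1
        have h2 : Bru cs (t * cs.simple i) t := by
          have h3 := (Pool.Agent.H11.Ism.le_mx G i t).2.2.1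
          unfold Pool.Agent.H11.Ism.mn at h3
          rwa [if_neg ht] at h3
        rcases ws_len G i t with h4 | h4
        · exact absurd h4.1 ht
        · obtain ⟨v, v1, v2, v3, v4⟩ := ws_dia G i (x := t * cs.simple i) (y := u)
            (by rw [Pool.Agent.H11.Ism.ss]; omega) (h2.trans t2) (by omega)
          exact ⟨v, h1.trans v1, v2, by omega, v4⟩
    obtain ⟨v, v1, v2, v3, v4⟩ := key
    obtain ⟨b, hb, e⟩ := ws_cov G v2 v3
    exact ⟨v, b, v1, (ws_up G i v).2 v4, hb, e, v3⟩
  · have key : ∃ v, Bru cs x v ∧ Bru cs v u ∧ cs.length v = cs.length x + 1 ∧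
        cs.length v < cs.length (v * cs.simple i) := by
      by_cases hz : z = x * cs.simple i
      · have hzu : z ≠ u := by
          intro e
          have : cs.length (z * cs.simple i) = cs.length x := by rw [hz, Pool.Agent.H11.Ism.ss]
          rw [← e] at hu
          omega
        obtain ⟨⟨y, y1, y2, y3⟩, _⟩ := Pool.Agent.H11.Ism.exists_covers G z2 hzu
        obtain ⟨v, v1, v2, v3, v4⟩ := ws_dia G i hx (z1.trans y1) (by omega)
        exact ⟨v, v1, v2.trans y2, v3, v4⟩
      · exact ⟨z, z1, z2, z3, ws_asc G i hx z1 z3 hz⟩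
    obtain ⟨v, v1, v2, v3, v4⟩ := key
    obtain ⟨b, hb, e⟩ := ws_cov G v1 v3
    refine ⟨b, hb, ?_, ?_, ?_⟩
    · rw [← e]; exact v2
    · rw [← e]; exact (ws_up G i v).2 v4
    · rw [← e]; exact v3

end

end Pool.Agent.H52.CIC
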