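import Pool.Agent.H52.CIC.ATOM3
import Pool.Agent.H52.CIC.AVOID
import Pool.Agent.H52.CIC.BAD
import Pool.Agent.H52.CIC.BIG
import Pool.Agent.H52.CIC.CFB
import Pool.Agent.H52.CIC.CMP
import Pool.Agent.H52.CIC.CONN
import Pool.Agent.H52.CIC.CONV
import Pool.Agent.H52.CIC.COUNT
import Pool.Agent.H52.CIC.CROSS
import Pool.Agent.H52.CIC.CROWN
import Pool.Agent.H52.CIC.E1
import Pool.Agent.H52.CIC.EDGE
import Pool.Agent.H52.CIC.EMB2
import Pool.Agent.H52.CIC.ENDW
import Pool.Agent.H52.CIC.EUL0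
import Pool.Agent.H52.CIC.EUL4
import Pool.Agent.H52.CIC.FHX1
import Pool.Agent.H52.CIC.FHX2
import Pool.Agent.H52.CIC.FIN
import Pool.Agent.H52.CIC.FNS3
import Pool.Agent.H52.CIC.FONE
import Pool.Agent.H52.CIC.FPF
import Pool.Agent.H52.CIC.FPK2
import Pool.Agent.H52.CIC.FPK3
import Pool.Agent.H52.CIC.FPK4
import Pool.Agent.H52.CIC.FSFG
import Pool.Agent.H52.CIC.FSQ
import Pool.Agent.H52.CIC.FTOP
import Pool.Agent.H52.CIC.FTWO
import Pool.Agent.H52.CIC.GA
import Pool.Agent.H52.CIC.GB1
import Pool.Agent.H52.CIC.GB2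
import Pool.Agent.H52.CIC.GENG
import Pool.Agent.H52.CIC.GENW
import Pool.Agent.H52.CIC.GEOEX
import Pool.Agent.H52.CIC.GLOB
import Pool.Agent.H52.CIC.GLUE
import Pool.Agent.H52.CIC.GSY
import Pool.Agent.H52.CIC.IND2
import Pool.Agent.H52.CIC.IND3
import Pool.Agent.H52.CIC.INJ
import Pool.Agent.H52.CIC.INST
import Pool.Agent.H52.CIC.J1
import Pool.Agent.H52.CIC.J2
import Pool.Agent.H52.CIC.JUMP
import Pool.Agent.H52.CIC.KK
import Pool.Agent.H52.CIC.LAT4
import Pool.Agent.H52.CIC.LAT5
import Pool.Agent.H52.CIC.LBE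
import Pool.Agent.H52.CIC.LING
import Pool.Agent.H52.CIC.LINK
import Pool.Agent.H52.CIC.MIR
import Pool.Agent.H52.CIC.MM
import Pool.Agent.H52.CIC.PATH
import Pool.Agent.H52.CIC.PATHEX
import Pool.Agent.H52.CIC.PULLF
import Pool.Agent.H52.CIC.PULLG
import Pool.Agent.H52.CIC.PULLO
import Pool.Agent.H52.CIC.PULLS
import Pool.Agent.H52.CIC.REC0
import Pool.Agent.H52.CIC.REL4
import Pool.Agent.H52.CIC.RT
import Pool.Agent.H52.CIC.SEP
import Pool.Agent.H52.CIC.SQC
import Pool.Agent.H52.CIC.T2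
import Pool.Agent.H52.CIC.T2SM
import Pool.Agent.H52.CIC.T2W
import Pool.Agent.H52.CIC.T3
import Pool.Agent.H52.CIC.TC
import Pool.Agent.H52.CIC.TEL
import Pool.Agent.H52.CIC.TIEG
import Pool.Agent.H52.CIC.UPS
import Pool.Agent.H52.CIC.VCH
import Pool.Agent.H52.CIC.VERT
import Pool.Agent.H52.CIC.WS

/-!
# Project CIC: assembly

All modules together: combinatorial invariance of the Kazhdan-Lusztig polynomials for all finite
simply laced Coxeter groups (`cic_all : CicSt`, the statement is in `StG.lean`).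
-/

namespace Pool.Agent.H52.CIC

open Pool.Agent.H11.ZDE Pool.Agent.H29.Ism

section one

variable {P : Type} {O : Po P} {L : Type} [AddCommGroup L] {R : RootLat L} (S : SLG O R)

theorem all_sep2 : Sep2St S := sep2 S (ind2 R)

theorem all_sep3 : Sep3St S := sep3 S (ind3 R)

theorem all_crown [Finite P] : CrownSt S := crown S (lat4 R) (lat5 R) (atom3 S) (rel4 S)

theorem all_k2 : FpK2St S := fpk2 S (glob_mem S) (all_sep2 S) (rel4 S)

theorem all_k3 : FpK3St S := fpk3 S (glob_mem S) (all_sep3 S) (rel4 S) (atom3 S)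

theorem all_k4 : FpK4St S := fpk4 S (glob_mem S) (all_sep3 S) (rel4 S) (atom3 S)

end one

/-- the spaces agree -/
theorem all_t2 {P : Type} [Finite P] {O : Po P} {L L' : Type} [AddCommGroup L] [AddCommGroup L']
    {R : RootLat L} {R' : RootLat L'} (S : SLG O R) (S' : SLG O R') (g : GenP S) (g' : GenP S') :
    T2St S S' := by
  have he := edge S S'
  have hf := fpf S S' he
  have gl := glue S g (inj S)
  have gl' := glue S' g' (inj S')
  have htel := tel S S' he (pathex S') (all_crown S') (all_k2 S') (all_k3 S') (all_k4 S')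
    (glob_mem S)
  have hkk := kk S S' htel (pathex S) (all_crown S) (all_k4 S) (all_sep2 S) (all_sep3 S) (atom3 S)
  have hbad := bad S S' (pathex S') (all_crown S') (all_k2 S') (all_k3 S')
  exact t2 S S'
    (t2sm S S' hf (pathex S) (all_crown S) (all_k2 S) (all_k3 S) (all_k4 S) (all_k2 S')
      (all_k3 S') (all_k4 S') (glob_mem S) (glob_mem S') (all_sep2 S) (all_sep2 S'))
    (tc S S' he gl gl' hf (gsy S S' he))
    (big S S' he gl' (cfb S S' he (glob_mem S) (ind2 R)) (glob_mem S) (all_sep2 S))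
    (count S S' hkk hbad)

section two

variable {P : Type} [Fintype P] {O : Po P} {L : Type} [AddCommGroup L] {R : RootLat L}
  (S : SLG O R)

theorem all_ht : HtSt S := ht S (glob_mem S)

theorem all_tieg : TiegSt S := tieg S avoid (glob_mem S) (all_sep2 S) (all_ht S)

theorem all_j1 : J1St S := j1 S (all_tieg S)

theorem all_cross : CrossSt S :=
  cross S (jump S (all_j1 S) (j2 S (all_tieg S) (glob_mem S) (all_sep2 S) (trv S)) (trv S)
    (fsmono S)) (trv S) (fsmono S)

theorem all_path : PathSt S := path S (all_cross S) endw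

theorem all_t3 : T3St S :=
  t3 S (ling S (all_path S) (all_cross S) avoid (all_sep3 S) (glob_mem S))
    (link S (all_path S) (all_cross S) avoid (all_sep3 S) (glob_mem S)) (all_tieg S)

end two

theorem all_t2w : T2WSt :=
  t2w (fun _ _ _ _ _ _ _ _ _ S S' => edge S S')
    (fun _ _ _ _ _ _ _ _ _ S S' g g' => all_t2 S S' g g') pulls pullf pullg

theorem all_cmp : CmpSt := cmpp all_t2w (fun _ _ _ _ _ _ S => all_tieg S)

section cox

variable {B W : Type} [Group W] {M : CoxeterMatrix B} {cs : CoxeterSystem M W} {L : Type}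
  [AddCommGroup L] {R : RootLat L} (G : Geo cs R)

theorem all_inst [Finite W] : InstSt G :=
  inst G (lbe G) (par G) (fsq G (sqc G) (lbe G)) (ftt G (sqc G) (lbe G)) (ftwo G (sqc G))
    (fone G (sqc G) (lbe G)) (fstt G) (fhx1 G (lbe G)) (fhx2 G (sqc G) (lbe G))
    (ftop G (sqc G) (lbe G)) (fns3 G (lbe G)) (conn G) (eul4 (eul0 G))

theorem all_genw : GenwSt G := by
  have hv : VchSt G := vch G (ws G) (vert G)
  have he : E1St G := e1 hv (mir G)
  exact genw G (geng G (ga (vert G) (mir G) (ws G) hv he) (gb1 G) (gb2 G hv (mir G) he))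
    (fsfg G (sqc G) (lbe G))

theorem all_rt [Fintype W] : RtSt G :=
  rt G (mm G (rec0 G (fun _ S => all_tieg S) (fun _ S => glob_mem S)) ups0)
    (fun _ S => all_j1 S) (fun _ S => glob_mem S)

end cox

/-- **Combinatorial invariance of the Kazhdan-Lusztig polynomials for all finite simply laced
Coxeter groups.** -/
theorem cic_all : CicSt :=
  fin_cic (fun cs sl => geoex cs sl) (fun G => all_inst G) (fun G => all_genw G)
    (fun S => all_t3 S) (fun S => all_ht S) (fun G => all_rt G) conv' pullo all_t2w all_cmp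
    (fun G G' => fun hf hg _ _ h => emb2 G G' hf hg h)

end Pool.Agent.H52.CIC
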