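import Pool.Agent.H11.ZDE.Lat

/-!
# Project CIC: combinatorial invariance for finite simply laced Coxeter groups, abstract definitions

`Po P` : graded posets (on `P`) with connected atoms and the Euler relation in rank 4.
`SLG O R` : a labelled graph on such a poset, with labels in the positive roots of the lattice `R`,
which has the local properties of the Bruhat graph of a finite simply laced Coxeter group
(labels of right multiplications). `FS S x y` : the functions on the edges of `[x, y]` which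
are linear on the squares and the hexagons.
-/

namespace Pool.Agent.H52.CIC

open Pool.Agent.H11.ZDE

/-- graded posets with connected atoms and the Euler relation in rank 4 -/
structure Po (P : Type) where
  Le : P → P → Prop
  rk : P → ℕ
  refl : ∀ x, Le x x
  trans : ∀ {x y z}, Le x y → Le y z → Le x z
  rk_lt : ∀ {x y}, Le x y → x ≠ y → rk x < rk y
  up : ∀ {x y}, Le x y → x ≠ y → ∃ z, Le x z ∧ Le z y ∧ rk z = rk x + 1
  down : ∀ {x y}, Le x y → x ≠ y → ∃ z, Le x z ∧ Le z y ∧ rk y = rk z + 1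
  conn : ∀ {x y a b}, rk x + 2 ≤ rk y → Le x a → rk a = rk x + 1 → Le a y →
    Le x b → rk b = rk x + 1 → Le b y →
    Relation.ReflTransGen (fun c d => Le x d ∧ rk d = rk x + 1 ∧
      ∃ v, Le c v ∧ Le d v ∧ rk v = rk x + 2 ∧ Le v y) a b
  euler : ∀ {x y}, Le x y → rk y = rk x + 4 →
    {v | Le x v ∧ Le v y ∧ rk v = rk x + 1}.ncard + {v | Le x v ∧ Le v y ∧ rk v = rk x + 3}.ncard =
      {v | Le x v ∧ Le v y ∧ rk v = rk x + 2}.ncard + 2

/-- a hexagon of the graph `E`: `u` below `a ≠ a'` below `w ≠ w'` below `z` -/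
def Hex {P : Type} (E : P → P → Prop) (u a a' w w' z : P) : Prop :=
  a ≠ a' ∧ w ≠ w' ∧ E u a ∧ E u a' ∧ E a w ∧ E a w' ∧ E a' w ∧ E a' w' ∧ E w z ∧ E w' z

/-- simply laced labelled graphs on a graded poset -/
structure SLG {P : Type} (O : Po P) {L : Type} [AddCommGroup L] (R : RootLat L) where
  E : P → P → Prop
  lab : P → P → L
  tt : P → P → P → ℤ
  E_le : ∀ {u w}, E u w → O.Le u w
  E_odd : ∀ {u w}, E u w → ∃ k, O.rk w = O.rk u + 2 * k + 1
  E_cov : ∀ {u w}, O.Le u w → O.rk w = O.rk u + 1 → E u w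
  lab_root : ∀ {u w}, E u w → R.Q (lab u w) (lab u w) = 2 ∧ R.P (lab u w)
  lab_inj : ∀ {u v w}, E u v → E u w → lab u v = lab u w → v = w
  /-- the other middle of a path of length two -/
  sq : ∀ {u a w}, E u a → E a w → ∃ a', a' ≠ a ∧ E u a' ∧ E a' w ∧
    ∀ a'', E u a'' → E a'' w → a'' = a ∨ a'' = a'
  tt_spec : ∀ {u a a' w}, E u a → E a w → E u a' → E a' w → a ≠ a' →
    lab a w = lab u a' + tt u a w • lab u a
  two : ∀ {u a a' w w' w''}, E u a → E u a' → a ≠ a' → E a w → E a' w → E a w' → E a' w' →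
    E a w'' → E a' w'' → w = w' ∨ w = w'' ∨ w' = w''
  one : ∀ {u a a' w w' z z'}, E u a → E u a' → a ≠ a' → E a w → E a' w → E a w' → E a' w' →
    w ≠ w' → E w z → E w' z → E w z' → E w' z' → z = z'
  /-- every long edge is the long edge of a hexagon -/
  st : ∀ {u z}, E u z → O.rk u + 1 < O.rk z → ∃ a a' w w', Hex E u a a' w w' z
  hx1 : ∀ {u a a' z}, E u a → E u a' → E u z → lab u z = lab u a + lab u a' →
    ∃ w w', Hex E u a a' w w' z
  hx2 : ∀ {u a a' w w' z}, Hex E u a a' w w' z → E u z ∧ lab u z = lab u a + lab u a'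
  top : ∀ {u a a' w w' z v}, Hex E u a a' w w' z → E z v → ¬ E a v
  ns3 : ∀ {u a b c d}, E u a → E u b → E u c → E u d → O.rk d = O.rk u + 1 →
    lab u d ≠ lab u a + lab u b + lab u c

variable {P : Type} {O : Po P} {L : Type} [AddCommGroup L] {R : RootLat L}

/-- the linear relations for the function `h` on edges with bottom `u` and top `w`: the squares and
the long edge -/
def RelP (S : SLG O R) (h : P → P → ℝ) (u w : P) : Prop :=
  (∀ a a', S.E u a → S.E a w → S.E u a' → S.E a' w → a ≠ a' → h a w = h u a' + S.tt u a w * h u a) ∧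
  (∀ a a', S.E u a → S.E u a' → S.E u w → S.lab u w = S.lab u a + S.lab u a' → h u w = h u a + h u a')

/-- the functions on the edges of `[x, y]` which satisfy the relations -/
def FS (S : SLG O R) (x y : P) : Submodule ℝ (P → P → ℝ) where
  carrier := {h | ∀ u w, O.Le x u → O.Le w y → RelP S h u w}
  add_mem' := by
    intro h h' h1 h2 u w hu hw
    obtain ⟨p1, p2⟩ := h1 u w hu hw
    obtain ⟨q1, q2⟩ := h2 u w hu hw
    refine ⟨fun a a' e1 e2 e3 e4 e5 => ?_, fun a a' e1 e2 e3 e4 => ?_⟩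
    · simp only [Pi.add_apply, p1 a a' e1 e2 e3 e4 e5, q1 a a' e1 e2 e3 e4 e5]
      ring
    · simp only [Pi.add_apply, p2 a a' e1 e2 e3 e4, q2 a a' e1 e2 e3 e4]
      ring
  zero_mem' := by
    intro u w hu hw
    refine ⟨fun a a' e1 e2 e3 e4 e5 => ?_, fun a a' e1 e2 e3 e4 => ?_⟩ <;> simp
  smul_mem' := by
    intro c h h1 u w hu hw
    obtain ⟨p1, p2⟩ := h1 u w hu hw
    refine ⟨fun a a' e1 e2 e3 e4 e5 => ?_, fun a a' e1 e2 e3 e4 => ?_⟩
    · simp only [Pi.smul_apply, smul_eq_mul, p1 a a' e1 e2 e3 e4 e5]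
      ring
    · simp only [Pi.smul_apply, smul_eq_mul, p2 a a' e1 e2 e3 e4]
      ring

theorem mem_FS {S : SLG O R} {x y : P} {h : P → P → ℝ} :
    h ∈ FS S x y ↔ ∀ u w, O.Le x u → O.Le w y → RelP S h u w := Iff.rfl

/-- generation: in rank at least four, a function which satisfies all relations of `[x, y]` except
possibly those with bottom `x` and top `y` is (up to its value at `x → y`) in `FS S x y` -/
def GenP (S : SLG O R) : Prop := ∀ x y h, O.Le x y → O.rk x + 4 ≤ O.rk y →
  (∀ u w, O.Le x u → O.Le w y → ¬ (u = x ∧ w = y) → RelP S h u w) →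
  ∃ h' ∈ FS S x y, ∀ u w, O.Le x u → S.E u w → O.Le w y → ¬ (u = x ∧ w = y) → h' u w = h u w

/-- `f` is given on the edges `x → a`, `a ≤ y`, by an element of `FS S x y` -/
def Ff (S : SLG O R) (x y : P) (f : P → ℝ) : Prop :=
  ∃ h ∈ FS S x y, ∀ a, S.E x a → O.Le a y → h x a = f a

/-- the same, for the edges `x → a` with `a ≠ y` -/
def Fp (S : SLG O R) (x y : P) (f : P → ℝ) : Prop :=
  ∃ h ∈ FS S x y, ∀ a, S.E x a → O.Le a y → a ≠ y → h x a = f a

/-- the function on edges given by a linear function of the labels -/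
def glob (S : SLG O R) (φ : L →+ ℝ) : P → P → ℝ := fun u w => φ (S.lab u w)

section phi

variable [Fintype P]

/-- out-edges of `u` in `[u, y]` -/
noncomputable def out (S : SLG O R) (y u : P) : Finset P := by
  classical exact Finset.univ.filter (fun a => S.E u a ∧ O.Le a y)

/-- generic element at `u` -/
structure Gn (S : SLG O R) (y u : P) (h : P → P → ℝ) : Prop where
  mem : h ∈ FS S u y
  ne : ∀ a ∈ out S y u, h u a ≠ 0

/-- same signs at `u` -/
def Sg (S : SLG O R) (y u : P) (h h' : P → P → ℝ) : Prop := ∀ a ∈ out S y u, (0 < h u a ↔ 0 < h' u a)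

/-- positive element at `u` -/
structure Ps (S : SLG O R) (y u : P) (g : P → P → ℝ) : Prop where
  mem : g ∈ FS S u y
  pos : ∀ a ∈ out S y u, 0 < g u a

/-- no ties -/
def TF (S : SLG O R) (y u : P) (f g : P → P → ℝ) : Prop :=
  ∀ a ∈ out S y u, ∀ b ∈ out S y u, a ≠ b → f u a * g u b ≠ f u b * g u a

/-- the sum over the positive out-edges -/
noncomputable def Zs (S : SLG O R) (y u : P) (φ : P → (P → P → ℝ) → Polynomial ℤ) (f g : P → P → ℝ) :
    Polynomial ℤ := by
  classical exact ∑ a ∈ (out S y u).filter (fun a => 0 < f u a), φ a (f - (f u a / g u a) • g)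

/-- `φ` is correct at `u` -/
structure PhiAt (S : SLG O R) (y : P) (φ : P → (P → P → ℝ) → Polynomial ℤ) (u : P) : Prop where
  sign : ∀ h h', Gn S y u h → Gn S y u h' → Sg S y u h h' → φ u h = φ u h'
  step : u ≠ y → ∀ f g, Gn S y u f → Ps S y u g → TF S y u f g →
    φ u f = Polynomial.X * Zs S y u φ f g
  at_top : u = y → ∀ h, φ u h = 1

end phi

end Pool.Agent.H52.CIC
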