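import Pool.Agent.H52.CIC.StG
import Pool.Agent.H29.Ism.Basic
import Pool.Agent.H11.Ism.GeoB

/-! Project CIC: module EUL0, the alternating sum over a Bruhat interval is zero. -/

namespace Pool.Agent.H52.CIC

open Pool.Agent.H11.ZDE Pool.Agent.H29.Ism

section
variable {W : Type} [Group W] [Fintype W] (B : BSys W)

open Classical in
/-- the interval -/
noncomputable def eul0_I (x y : W) : Finset W := Finset.univ.filter (fun v => B.Le x v ∧ B.Le v y)

/-- the alternating sum -/
noncomputable def eul0_N (x y : W) : ℤ := ∑ v ∈ eul0_I B x y, (-1 : ℤ) ^ B.len v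

theorem eul0_mem (x y v : W) : v ∈ eul0_I B x y ↔ B.Le x v ∧ B.Le v y := by
  simp [eul0_I]

/-- the case of an ascent of the bottom -/
theorem eul0_asc {s x y : W} (hs : s ∈ B.S) (hy : B.len (y * s) < B.len y)
    (hx : B.len x < B.len (x * s)) : eul0_N B x y = 0 := by
  unfold eul0_N
  apply Finset.sum_involution (fun v _ => v * s)
  · intro v _
    rcases B.s_len hs v with h | h
    · rw [h.1, pow_succ]; ring
    · rw [h.1, pow_succ]; ring
  · intro v _ _
    exact BSys.s_ne hs v
  · intro v hv
    rw [eul0_mem] at hv ⊢
    rcases B.s_len hs v with h | h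
    · exact ⟨B.trans hv.1 h.2, (B.lift_ud hs hv.2 hy (by omega)).2⟩
    · exact ⟨(B.lift_ud hs hv.1 (by omega) hx).1, B.trans h.2 hv.2⟩
  · intro v _
    exact BSys.sq' hs v

open Classical in
/-- the alternating sum is zero -/
theorem eul0_zero : ∀ n : ℕ, ∀ x y : W, B.len y ≤ n → B.Le x y → x ≠ y → eul0_N B x y = 0 := by
  intro n
  induction n with
  | zero =>
    intro x y hn hxy hne
    have := B.len_lt hxy hne
    omega
  | succ n ih =>
    intro x y hn hxy hne
    obtain ⟨s, hs, hy⟩ := B.desc hxy hne
    by_cases hx : B.len x < B.len (x * s)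
    · exact eul0_asc B hs hy hx
    · rcases B.s_len hs x with h | ⟨hxl, hxx⟩
      · omega
      · have hx' : B.len (x * s) < B.len (x * s * s) := by rw [BSys.sq' hs]; omega
        have h0 : eul0_N B (x * s) y = 0 := eul0_asc B hs hy hx'
        have hle : B.Le (x * s) (y * s) := B.lift_dd hs hxy hy (by omega)
        have hne' : x * s ≠ y * s := fun h => hne (mul_right_cancel h)
        have h1 : eul0_N B (x * s) (y * s) = 0 := ih _ _ (by omega) hle hne'
        have h2 : eul0_N B x (y * s) = 0 := by
          by_cases hxy' : B.Le x (y * s)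
          · apply ih _ _ (by omega) hxy'
            intro h
            have : x * s = y := by rw [h, BSys.sq' hs]
            rw [this] at hxl
            rw [← h] at hy
            omega
          · unfold eul0_N
            apply Finset.sum_eq_zero
            intro v hv
            rw [eul0_mem] at hv
            exact absurd (B.trans hv.1 hv.2) hxy'
        have hsub1 : eul0_I B x y ⊆ eul0_I B (x * s) y := by
          intro v hv
          rw [eul0_mem] at hv ⊢
          exact ⟨B.trans hxx hv.1, hv.2⟩
        have hsub2 : eul0_I B x (y * s) ⊆ eul0_I B (x * s) (y * s) := by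
          intro v hv
          rw [eul0_mem] at hv ⊢
          exact ⟨B.trans hxx hv.1, hv.2⟩
        have hys : B.Le (y * s) y := (BSys.down_cov hs hy).1
        have hdiff : eul0_I B (x * s) y \ eul0_I B x y =
            eul0_I B (x * s) (y * s) \ eul0_I B x (y * s) := by
          ext v
          simp only [Finset.mem_sdiff, eul0_mem]
          constructor
          · rintro ⟨⟨h3, h4⟩, h5⟩
            have h6 : ¬ B.Le x v := fun h => h5 ⟨h, h4⟩
            have h7 : B.len v < B.len (v * s) := by
              by_contra hc
              rcases B.s_len hs v with h | h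
              · omega
              · apply h6
                have := (B.lift_ud hs h3 (by omega) hx').2
                rwa [BSys.sq' hs] at this
            exact ⟨⟨h3, (B.lift_ud hs h4 hy h7).1⟩, fun h => h6 h.1⟩
          · rintro ⟨⟨h3, h4⟩, h5⟩
            have h6 : ¬ B.Le x v := fun h => h5 ⟨h, h4⟩
            exact ⟨⟨h3, B.trans h4 hys⟩, fun h => h6 h.1⟩
        have e1 := Finset.sum_sdiff (f := fun v => (-1 : ℤ) ^ B.len v) hsub1
        have e2 := Finset.sum_sdiff (f := fun v => (-1 : ℤ) ^ B.len v) hsub2
        rw [hdiff] at e1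
        unfold eul0_N at h0 h1 h2 ⊢
        linarith

open Classical in
theorem eul0_card {x y : W} (h : B.Le x y) (hne : x ≠ y) :
    {v | B.Le x v ∧ B.Le v y ∧ Even (B.len v)}.ncard =
      {v | B.Le x v ∧ B.Le v y ∧ ¬ Even (B.len v)}.ncard := by
  have h0 := eul0_zero B _ x y le_rfl h hne
  have e1 : ({v | B.Le x v ∧ B.Le v y ∧ Even (B.len v)} : Set W).ncard =
      ((eul0_I B x y).filter (fun v => Even (B.len v))).card := by
    rw [← Set.ncard_coe_finset]
    congr 1
    ext v
    simp [eul0_mem, and_assoc]
  have e2 : ({v | B.Le x v ∧ B.Le v y ∧ ¬ Even (B.len v)} : Set W).ncard =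
      ((eul0_I B x y).filter (fun v => ¬ Even (B.len v))).card := by
    rw [← Set.ncard_coe_finset]
    congr 1
    ext v
    simp [eul0_mem, and_assoc]
  rw [e1, e2]
  unfold eul0_N at h0
  rw [← Finset.sum_filter_add_sum_filter_not _ (fun v => Even (B.len v))] at h0
  rw [Finset.sum_congr rfl (fun v hv => Even.neg_one_pow (Finset.mem_filter.mp hv).2),
    Finset.sum_congr (s₁ := (eul0_I B x y).filter (fun v => ¬ Even (B.len v))) rfl (fun v hv => Odd.neg_one_pow
      (Nat.not_even_iff_odd.mp (Finset.mem_filter.mp hv).2))] at h0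
  simp only [Finset.sum_const, nsmul_eq_mul, mul_one, mul_neg] at h0
  have h1 : (((eul0_I B x y).filter (fun v => Even (B.len v))).card : ℤ) =
    (((eul0_I B x y).filter (fun v => ¬ Even (B.len v))).card : ℤ) := by linarith
  exact_mod_cast h1

end

section
variable {B W : Type} [Group W] {M : CoxeterMatrix B} {cs : CoxeterSystem M W}
  {L : Type} [AddCommGroup L] {R : RootLat L}

/-- module EUL0 -/
theorem eul0 [Finite W] (G : Geo cs R) : Eul0St cs := by
  have := Fintype.ofFinite W
  intro x y h hne
  exact eul0_card (Pool.Agent.H11.Ism.geoB G) h hne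

end

end Pool.Agent.H52.CIC
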