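import Pool.Agent.H29.Ism.Data
import Pool.Agent.H52.CIC.All

/-!
# Combinatorial invariance of Kazhdan-Lusztig polynomials for finite simply laced Coxeter groups

The definitions used in the statement are in `Pool/Agent/H11/ZDE/Defs.lean` (`Bru`, the Bruhat
order) and `Pool/Agent/H29/Ism/Official.lean` (`SimplyLaced`, `RPoly`, `KLPoly`, `IsoIntv`).

Idea of the proof (the modules are in `Pool/Agent/H52/CIC/`). Label the edge `a < a t` of the Bruhat
graph by the positive root of the reflection `t`. For an interval `[u, w]` of a finite simply laced
group let `F(u, w)` be the space of the rational functions on the edges of `[u, w]` that satisfy the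
linear relations of the labels in every coset of a dihedral subgroup of order six.

1. The restriction of `F(u, w)` to the edges at `u` is determined by the poset `[u, w]`. This is
   proved by induction on the rank: in rank at least five by comparison of the intervals `[u, c]`
   and `[u, c']` for coatoms `c`, `c'`, in rank four by a telescoping argument on the upper
   intervals and a count of coatoms by Euler characteristics, in rank three by inspection of the
   possible intervals.
2. A generic function `h` of `F(u, w)` totally orders the edges at every vertex, and the generating
   function of the increasing paths from `u` to `w` does not depend on `h` (wall crossing). For the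
   functions given by generic functionals it satisfies the recursion of the polynomials
   `R~_{u, w}`.
3. Hence the R-polynomials of two isomorphic intervals agree, and the Kazhdan-Lusztig polynomials
   are determined by the R-polynomials of the subintervals.
-/

namespace Pool.Agent.H52.CIC.FiniteSimplyLaced

open Polynomial Pool.Agent.H11.ZDE Pool.Agent.H29.Ism

/-- The families of R-polynomials and of Kazhdan-Lusztig polynomials exist, and the first is unique
(well known; stated here to show that the definitions are not void). -/
theorem exists_klPoly {I W : Type} [Group W] [Finite W] {M : CoxeterMatrix I}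
    (hM : SimplyLaced M) (cs : CoxeterSystem M W) :
    (∃! R : W → W → ℤ[X], RPoly cs R) ∧ ∃ K : W → W → ℤ[X], KLPoly cs K := by
  obtain ⟨h2, B, hB, -⟩ := sl_data hM cs
  obtain ⟨R, hR⟩ := hB.exists_r h2
  exact ⟨⟨R, hR, fun R' hR' => hB.r_unique hR' hR⟩, hB.exists_kl hR⟩

/-- **Theorem.** Let `(W, S)` and `(V, T)` be finite simply laced Coxeter systems (all symmetric
groups, all finite products of groups of types A, D, E). If the Bruhat intervals `[u, w]` of `W` and
`[x, y]` of `V` are isomorphic as posets, then the Kazhdan-Lusztig polynomials of `(u, w)` and
`(x, y)` are equal. -/
theorem result {I J W V : Type} [Group W] [Finite W] [Group V] [Finite V]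
    {M : CoxeterMatrix I} {N : CoxeterMatrix J} (hM : SimplyLaced M) (hN : SimplyLaced N)
    (cs : CoxeterSystem M W) (ct : CoxeterSystem N V) {P : Type} [PartialOrder P]
    {u w : W} {x y : V} {f : P → W} {g : P → V} (hf : IsoIntv cs u w f) (hg : IsoIntv ct x y g)
    {K : W → W → ℤ[X]} {L : V → V → ℤ[X]} (hK : KLPoly cs K) (hL : KLPoly ct L) :
    K u w = L x y :=
  Pool.Agent.H52.CIC.cic_all I J W V M N hM hN cs ct P u w x y f g hf hg K L hK hL

end Pool.Agent.H52.CIC.FiniteSimplyLaced
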