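import Pool.Agent.H3.CIC.Bas

/-!
# Project CIC: module GB2
-/

set_option linter.unusedSimpArgs false

namespace Pool.Agent.H52.CIC

open Pool.Agent.H11.ZDE Pool.Agent.H11.ZDE.RootLat

variable {B W : Type} [Group W] {M : CoxeterMatrix B} {cs : CoxeterSystem M W}
  {L : Type} [AddCommGroup L] {R : RootLat L} (G : Geo cs R)

namespace G3

/-- the mirror formula for edges with both lower ends above `x` -/
theorem k0 (hM : MirSt G) {x y : W} {i : B} {h : W → L → ℝ} {ν : ℝ} (hy : ¬ Up G y (G.α i))
    (hR : ∀ u w, Bru cs x u → Up G u (G.α i) → Bru cs w y → RelG G h u w)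
    (hV : ∀ u, Bru cs x u → Up G u (G.α i) → Bru cs (u * cs.simple i) y → h u (G.α i) = ν)
    {v : W} {c : L} (xv : Bru cs x v) (xvs : Bru cs x (v * cs.simple i)) (uc : Up G v c) (hc : c ≠ G.α i)
    (hvy : Bru cs (v * G.T c) y) :
    h v c = h (v * cs.simple i) (R.r (G.α i) c) + (R.Q c (G.α i) : ℝ) * ν := by
  have hvy' := stab G hy hvy
  have vy : Bru cs v y := (up_bru G uc).trans hvy
  by_cases hv : Up G v (G.α i)
  · rw [hM v c i h hv uc hc (hR _ _ xv hv hvy) (hR _ _ xv hv hvy'), hV v xv hv (stab G hy vy)]
  · have hvs := (up_flip G v i).2 hv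
    have e1 := T_s G v i uc.q
    have h1 := hM (v * cs.simple i) (R.r (G.α i) c) i h hvs (up_mir G hc uc) (r_ne G i uc.p)
      (hR _ _ xvs hvs (by rw [e1]; exact hvy')) (hR _ _ xvs hvs (by rw [e1, sss]; exact hvy))
    rw [sss, rr, hV _ xvs hvs (by rw [sss]; exact vy), q_r] at h1
    rw [h1]; push_cast; ring

end G3

open G3

open Classical in
theorem gb2 (hC : VchSt G) (hM : MirSt G) (hE : E1St G) : Gb2St G := by
  intro x y i hxy hl hxs hys hxys hG h hP
  have hx : ¬ Up G x (G.α i) := (up_flip G x i).1 hxs
  have hy : ¬ Up G y (G.α i) := (nup_al G y i).2 hys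
  have hys' : Up G (y * cs.simple i) (G.α i) := (up_flip G y i).2 hy
  have hTs : ∀ v : W, v * cs.simple i = v * G.T (G.α i) := fun v => by rw [G.Tα]
  have yy : Bru cs (y * cs.simple i) y := down_s G hy
  have xx : Bru cs (x * cs.simple i) x := down_s G hx
  have qa := al_q G i
  have pa := al_p G i
  -- relations of `h` with a bottom which is not `x`
  have hR : ∀ u w, Bru cs x u → Up G u (G.α i) → Bru cs w y → RelG G h u w := by
    intro u w h1 h2 h3
    refine hP u w h1 h3 ?_
    rintro ⟨rfl, _⟩
    exact hx h2
  set ν : ℝ := h (y * cs.simple i) (G.α i) with hν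
  have hV : ∀ u, Bru cs x u → Up G u (G.α i) → Bru cs (u * cs.simple i) y → h u (G.α i) = ν := by
    intro u h1 h2 h3
    have h4 : Bru cs u (y * cs.simple i) := (lift_bt G ((stab' G hy h3)) h2 hy).1
    refine (hC u y i h h2 ?_ (y * cs.simple i) h4 hys' (by rw [sss]; exact bru_rfl y)).symm
    intro u' w h5 h6
    refine hP u' w (h1.trans h5) h6 ?_
    rintro ⟨e, _⟩
    rw [e] at h5
    exact hx (bru_anti h1 h5 ▸ h2)
  -- the mirror formula for `h`
  have K0 : ∀ v c, Bru cs x v → Bru cs x (v * cs.simple i) → Up G v c → c ≠ G.α i → Bru cs (v * G.T c) y →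
      h v c = h (v * cs.simple i) (R.r (G.α i) c) + (R.Q c (G.α i) : ℝ) * ν :=
    fun v c h1 h2 h3 h4 h5 => k0 G hM hy hR hV h1 h2 h3 h4 h5
  -- the extended function
  set hs : W → L → ℝ := fun u b => if Bru cs x u then h u b else if b = G.α i then ν else mir G i ν h u b with hhs
  have hs1 : ∀ u b, Bru cs x u → hs u b = h u b := fun u b h1 => by simp only [hhs, if_pos h1]
  have hs2 : ∀ u, ¬ Bru cs x u → hs u (G.α i) = ν := fun u h1 => by simp only [hhs, if_neg h1, if_true]
  have hs3 : ∀ u b, ¬ Bru cs x u → b ≠ G.α i → hs u b = mir G i ν h u b := fun u b h1 h2 => by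
    simp only [hhs, if_neg h1, if_neg h2]
  -- the mirror formula for `hs`
  have K : ∀ v c, Bru cs x (v * cs.simple i) → Up G v c → c ≠ G.α i → Bru cs (v * G.T c) y →
      hs v c = mir G i ν h v c := by
    intro v c h1 h2 h3 h4
    by_cases hv : Bru cs x v
    · rw [hs1 _ _ hv, K0 v c hv h1 h2 h3 h4]; rfl
    · exact hs3 _ _ hv h3
  -- vertical edges
  have V : ∀ v, Up G v (G.α i) → Bru cs (v * cs.simple i) y → hs v (G.α i) = ν := by
    intro v h1 h2
    by_cases hv : Bru cs x v
    · rw [hs1 _ _ hv, hV v hv h1 h2]
    · exact hs2 _ hv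
  have hPs : PFG G (x * cs.simple i) (y * cs.simple i) hs := by
    intro u w hu hw hne
    have hwy : Bru cs w y := hw.trans yy
    by_cases xu : Bru cs x u
    · -- the relation of `h`
      have H : RelG G h u w := by
        refine hP u w xu hwy ?_
        rintro ⟨_, e⟩
        rw [e] at hw
        exact hy (bru_anti hw yy ▸ hys')
      have xT : ∀ b, Up G u b → Bru cs x (u * G.T b) := fun b hb => xu.trans (up_bru G hb)
      refine ⟨?_, ?_, ?_, ?_⟩
      · intro b c ub uc q e
        rw [hs1 _ _ (xT b ub), hs1 _ _ xu]
        exact H.o b c ub uc q e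
      · intro b c ub uc q e
        rw [hs1 _ _ (xT b ub), hs1 _ _ (xT c uc), hs1 _ _ xu, hs1 _ _ xu]
        exact H.a b c ub uc q e
      · intro b c ub ubc qc pc nc q e
        rw [hs1 _ _ (xT b ub), hs1 _ _ (xT _ ubc), hs1 _ _ xu, hs1 _ _ xu]
        exact H.b b c ub ubc qc pc nc q e
      · intro b c ub uc q e
        rw [hs1 _ _ xu, hs1 _ _ xu, hs1 _ _ xu]
        exact H.s b c ub uc q e
    · -- `u` is a bottom, `u s ≥ x`
      have ubt : Up G u (G.α i) := by
        by_contra h1
        have := (lift_bt G hu hxs h1).2
        rw [sss] at this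
        exact xu this
      have xus : Bru cs x (u * cs.simple i) := by
        have := lift_bb G hu hxs ubt
        rwa [sss] at this
      have H : RelG G h (u * cs.simple i) (w * cs.simple i) := by
        refine hP _ _ xus (stab G hy hwy) ?_
        rintro ⟨e1, e2⟩
        exact hne ⟨by rw [← e1, sss], by rw [← e2, sss]⟩
      have H' : w ≠ y → RelG G h (u * cs.simple i) w := fun h1 =>
        hP _ _ xus hwy (fun h2 => h1 h2.2)
      have wy : w ≠ y := by
        rintro rfl
        exact hy (bru_anti hw yy ▸ hys')
      have H2 : RelG G h (u * cs.simple i) w := H' wy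
      have xT : ∀ b, Up G u b → b ≠ G.α i → Bru cs x (u * G.T b * cs.simple i) := by
        intro b hb hba
        rw [← T_s G u i hb.q]
        exact xus.trans (up_bru G (up_mir G hba hb))
      have al_u : G.ρ u (G.α i) = G.ρ u (G.α i) := rfl
      refine ⟨?_, ?_, ?_, ?_⟩
      · intro b c ub uc q e
        have u1 : Up G (u * G.T b) c := by
          refine ⟨uc.q, uc.p, ?_⟩
          rw [rho_Tk G u ub.q c (k := 0) (by rw [R.Q_comm]; exact q)]
          exact R.P_cast uc.u (by congr 1; module)
        have u2 : Up G (u * G.T c) b := by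
          refine ⟨ub.q, ub.p, ?_⟩
          rw [rho_Tk G u uc.q b (k := 0) q]
          exact R.P_cast ub.u (by congr 1; module)
        have e2 : w = u * G.T c * G.T b := by
          rw [e, mul_assoc, mul_assoc, Pool.Agent.H58.ZDE.T_mul_eq G ub.q uc.q uc.q ub.q (R.sw0 q)]
        have y1 : Bru cs (u * G.T b * G.T c) y := by rw [← e]; exact hwy
        have y2 : Bru cs (u * G.T c * G.T b) y := by rw [← e2]; exact hwy
        have y3 : Bru cs (u * G.T c) y := (up_bru G u2).trans y2
        by_cases cb : b = G.α i
        · subst cb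
          have ca : c ≠ G.α i := by rintro rfl; rw [qa] at q; omega
          rw [← hTs, hs1 _ _ xus, K u c xus uc ca y3]
          unfold mir
          rw [r_al G i (k := 0) (by rw [R.Q_comm]; exact q), R.Q_comm, q, show c - (0 : ℤ) • G.α i = c by module]
          push_cast; ring
        · by_cases ca : c = G.α i
          · subst ca
            rw [V u ubt (stab G hy ((up_bru G ub).trans ((up_bru G u1).trans y1))),
              V _ u1 (by rw [hTs]; exact y1)]
          · rw [K _ c (xT b ub cb) u1 ca y1, K u c xus uc ca y3]
            exact mir_o ν H ub uc q e cb ca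
      · intro b c ub uc q e
        have u1 : Up G (u * G.T b) c := by
          refine ⟨uc.q, uc.p, ?_⟩
          rw [rho_Tk G u ub.q c (k := -1) (by rw [R.Q_comm]; exact q)]
          refine R.P_cast (R.P_add ub.u uc.u) ?_
          rw [← map_add]; congr 1; module
        have qbc := Pool.Agent.H11.Ism.nadd G ub.q uc.q q
        have u2 : Up G (u * G.T c) (b + c) := by
          refine ⟨qbc, R.P_add ub.p uc.p, ?_⟩
          rw [rho_Tk G u uc.q (b + c) (k := 1) (by rw [R.Q_add, q, uc.q]; norm_num)]
          exact R.P_cast ub.u (by congr 1; module)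
        have bca : b + c ≠ G.α i := al_ne_add G i ub.p uc.p
        obtain ⟨d1, d2, d3, d4⟩ := Pool.Agent.H11.Ism.dih G ub.q uc.q q
        have e2 : w = u * G.T c * G.T (b + c) := by
          rw [e, mul_assoc, mul_assoc, d1]
        have y1 : Bru cs (u * G.T b * G.T c) y := by rw [← e]; exact hwy
        have y2 : Bru cs (u * G.T c * G.T (b + c)) y := by rw [← e2]; exact hwy
        have y3 : Bru cs (u * G.T c) y := (up_bru G u2).trans y2
        have y4 : Bru cs (u * G.T b) y := (up_bru G u1).trans y1
        by_cases ca : c = G.α i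
        · subst ca
          have cb : b ≠ G.α i := by rintro rfl; rw [qa] at q; omega
          rw [V u ubt (stab G hy ((up_bru G ub).trans y4)), V _ u1 (by rw [hTs]; exact y1)]
          refine ⟨rfl, ?_⟩
          rw [← hTs, hs1 _ _ xus, K u b xus ub cb y4]
          unfold mir
          rw [r_al G i q, q, show b - (-1 : ℤ) • G.α i = b + G.α i by module]
          push_cast; ring
        · by_cases cb : b = G.α i
          · subst cb
            have q' : R.Q c (G.α i) = -1 := by rw [R.Q_comm]; exact q
            -- relation of `h` at `u s`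
            have v1 : Up G (u * cs.simple i) c := by
              refine ⟨uc.q, uc.p, ?_⟩
              rw [rho_s, r_al G i q']
              refine R.P_cast (R.P_add ub.u uc.u) ?_
              rw [← map_add]; congr 1; module
            have v2 : Up G (u * cs.simple i) (c + G.α i) := by
              refine ⟨by rw [add_comm]; exact qbc, R.P_add uc.p pa, ?_⟩
              rw [rho_s, r_al G i (k := 1) (by rw [R.Q_add, q', qa]; norm_num)]
              exact R.P_cast uc.u (by congr 1; module)
            have v3 : R.P (-(G.ρ (u * cs.simple i) (G.α i))) := by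
              rw [rho_s, R.r_self qa]
              exact R.P_cast ubt.u (by rw [map_neg, neg_neg])
            have ew : w = u * cs.simple i * G.T c := by rw [e, ← hTs]
            obtain ⟨f1, f2⟩ := H.b c (G.α i) v1 v2 qa pa v3 q' (by rw [ew, hTs (u * cs.simple i * G.T c)])
            have wup : Up G w (G.α i) := by
              refine ⟨qa, pa, ?_⟩
              rw [ew, rho_Tk G _ uc.q _ q, rho_s, map_sub, map_smul, R.r_self qa, r_al G i q']
              exact R.P_cast uc.u (by congr 1; module)
            have xw : Bru cs x w := by rw [ew]; exact xus.trans (up_bru G v1)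
            rw [← ew, hV w xw wup (stab G hy hwy)] at f1
            rw [← hTs, hs1 _ _ xus, K u c xus uc ca y3, V u ubt (stab G hy ((up_bru G uc).trans y3))]
            have g1 : mir G i ν h u c = h (u * cs.simple i) (c + G.α i) - ν := by
              unfold mir
              rw [r_al G i q', q', show c - (-1 : ℤ) • G.α i = c + G.α i by module]
              push_cast; ring
            rw [g1]
            refine ⟨by rw [f1]; ring, ?_⟩
            rw [K _ _ (xT c uc ca) u2 bca y2]
            unfold mir
            rw [← T_s G u i uc.q, r_al G i q', r_al G i (k := 1) (by rw [R.Q_add, q', qa]; norm_num),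
              show c - (-1 : ℤ) • G.α i = c + G.α i by module,
              show G.α i + c - (1 : ℤ) • G.α i = c by module, f2, R.Q_add, qa, q']
            push_cast
            linarith
          · rw [K _ c (xT b ub cb) u1 ca y1, K u c xus uc ca y3, K _ _ (xT c uc ca) u2 bca y2,
              K u b xus ub cb y4]
            exact mir_a ν H ub uc q e cb ca
      · intro b c ub ubc qc pc nc q e
        have ca : c ≠ G.α i := by
          rintro rfl
          exact R.P_neg ubt.u nc
        have u1 : Up G (u * G.T b) c := by
          refine ⟨qc, pc, ?_⟩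
          rw [rho_Tk G u ub.q c (k := -1) (by rw [R.Q_comm]; exact q)]
          exact R.P_cast ubc.u (by congr 1; module)
        have u2 : Up G (u * G.T (b + c)) b := by
          refine ⟨ub.q, ub.p, ?_⟩
          rw [rho_Tk G u ubc.q b (k := 1) (by rw [R.Q_addr, q, ub.q]; norm_num)]
          refine R.P_cast nc ?_
          rw [← map_neg]; congr 1; module
        have bca : b + c ≠ G.α i := al_ne_add G i ub.p pc
        obtain ⟨d1, d2, d3, d4⟩ := Pool.Agent.H11.Ism.dih G ub.q qc q
        have e2 : w = u * G.T (b + c) * G.T b := by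
          rw [e, mul_assoc, mul_assoc, d2]
        have y1 : Bru cs (u * G.T b * G.T c) y := by rw [← e]; exact hwy
        have y2 : Bru cs (u * G.T (b + c) * G.T b) y := by rw [← e2]; exact hwy
        have y3 : Bru cs (u * G.T (b + c)) y := (up_bru G u2).trans y2
        have y4 : Bru cs (u * G.T b) y := (up_bru G u1).trans y1
        by_cases cb : b = G.α i
        · subst cb
          have q' : R.Q c (G.α i) = -1 := by rw [R.Q_comm]; exact q
          rw [V u ubt (stab G hy ((up_bru G ubc).trans y3)), V _ u2 (by rw [hTs]; exact y2), ← hTs,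
            hs1 _ _ xus, K u _ xus ubc bca y3]
          refine ⟨?_, rfl⟩
          unfold mir
          rw [r_al G i (k := 1) (by rw [R.Q_add, q', qa]; norm_num),
              show G.α i + c - (1 : ℤ) • G.α i = c by module, R.Q_add, qa, q']
          push_cast; ring
        · rw [K _ c (xT b ub cb) u1 ca y1, K u _ xus ubc bca y3, K _ _ (xT _ ubc bca) u2 cb y2,
              K u b xus ub cb y4]
          exact mir_b ν H ub ubc qc pc nc q e cb ca
      · -- long edges
        have key : ∀ b, Up G u b → R.Q b (G.α i) = -1 → w = u * G.T (b + G.α i) →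
            hs u (b + G.α i) = hs u b + hs u (G.α i) := by
          intro b ub q e
          have q' : R.Q (G.α i) b = -1 := by rw [R.Q_comm]; exact q
          have cb : b ≠ G.α i := by rintro rfl; rw [qa] at q; omega
          have qbc := Pool.Agent.H11.Ism.nadd G ub.q qa q
          have bca : b + G.α i ≠ G.α i := al_ne_add G i ub.p pa
          have ubc : Up G u (b + G.α i) := by
            refine ⟨qbc, R.P_add ub.p pa, ?_⟩
            rw [map_add]; exact R.P_add ub.u ubt.u
          have v1 : Up G (u * cs.simple i) b := by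
            refine ⟨ub.q, ub.p, ?_⟩
            rw [rho_s, r_al G i q]
            refine R.P_cast (R.P_add ub.u ubt.u) ?_
            rw [← map_add]; congr 1; module
          have v2 : Up G (u * cs.simple i) (b + G.α i) := by
            refine ⟨qbc, R.P_add ub.p pa, ?_⟩
            rw [rho_s, r_al G i (k := 1) (by rw [R.Q_add, q, qa]; norm_num)]
            exact R.P_cast ub.u (by congr 1; module)
          have v3 : R.P (-(G.ρ (u * cs.simple i) (G.α i))) := by
            rw [rho_s, R.r_self qa]
            exact R.P_cast ubt.u (by rw [map_neg, neg_neg])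
          have e3 : R.r (G.α i) (b + G.α i) = b := by
            rw [r_al G i (k := 1) (by rw [R.Q_add, q, qa]; norm_num)]; module
          have e4 : u * cs.simple i * G.T b = w * cs.simple i := by
            rw [e, ← T_s G u i qbc, e3]
          have e5 : u * cs.simple i * G.T b * G.T (G.α i) = w := by
            rw [e4, ← hTs, sss]
          obtain ⟨f1, f2⟩ := H2.b b (G.α i) v1 v2 qa pa v3 q e5.symm
          have wsup : Up G (w * cs.simple i) (G.α i) := by
            refine ⟨qa, pa, ?_⟩
            rw [← e4, rho_Tk G _ ub.q _ q', rho_s, map_sub, map_smul, R.r_self qa, r_al G i q]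
            exact R.P_cast ub.u (by congr 1; module)
          have xws : Bru cs x (w * cs.simple i) := by rw [← e4]; exact xus.trans (up_bru G v1)
          rw [e4, hV _ xws wsup (by rw [sss]; exact hwy)] at f1
          have y3 : Bru cs (u * G.T (b + G.α i)) y := by rw [← e]; exact hwy
          rw [V u ubt (stab G hy ((up_bru G ubc).trans y3)), hs3 u _ xu bca, hs3 u _ xu cb]
          unfold mir
          rw [e3, r_al G i q, R.Q_add, q, qa, show b - (-1 : ℤ) • G.α i = b + G.α i by module]
          push_cast
          linarith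
        intro b c ub uc q e
        by_cases ca : c = G.α i
        · subst ca
          exact key b ub q e
        · by_cases cb : b = G.α i
          · subst cb
            rw [add_comm, key c uc (by rw [R.Q_comm]; exact q) (by rw [e, add_comm]), add_comm]
          · have bca : b + c ≠ G.α i := al_ne_add G i ub.p uc.p
            rw [hs3 u _ xu bca, hs3 u _ xu cb, hs3 u _ xu ca]
            exact mir_s ν H ub uc q e cb ca
  obtain ⟨h1, hF1, hV1⟩ := hG hs hPs
  have lx : cs.length (x * cs.simple i) + 1 = cs.length x := by
    have := (nup_al G x i).1 hx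
    rcases cs.length_mul_simple x i with h | h <;> omega
  have ly : cs.length (y * cs.simple i) + 1 = cs.length y := by
    rcases cs.length_mul_simple y i with h | h <;> omega
  have nxx : ¬ Bru cs x (x * cs.simple i) := by
    intro h2
    have := bru_lenle h2
    omega
  have hν1 : h1 (x * cs.simple i) (G.α i) = ν := by
    rw [hV1 _ _ (bru_rfl _) hxs (by rw [← hTs, sss]; exact hxys) ?_, hs2 _ nxx]
    rintro ⟨_, e⟩
    rw [← hTs, sss] at e
    have := congrArg cs.length e
    omega
  obtain ⟨h2, hF2, hα2, hV2⟩ := hE (x * cs.simple i) y i h1 ν hxs hys (xx.trans hxys) hF1 (fun _ => hν1.symm)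
  refine ⟨h2, fun u w hu hw => hF2 u w (xx.trans hu) hw, ?_⟩
  intro u b xu ub hb hne
  -- edges inside the lower part
  have low : ∀ u b, Bru cs (x * cs.simple i) u → Up G u b → Bru cs (u * G.T b) (y * cs.simple i) →
      ¬ (u = x * cs.simple i ∧ u * G.T b = y * cs.simple i) → h2 u b = hs u b := by
    intro u b g1 g2 g3 g4
    rw [hV2 u b g1 g2 g3, hV1 u b g1 g2 g3 g4]
  by_cases hlow : Bru cs (u * G.T b) (y * cs.simple i)
  · rw [low u b (xx.trans xu) ub hlow, hs1 _ _ xu]
    rintro ⟨e, _⟩
    exact nxx (e ▸ xu)
  · have vt : ¬ Up G (u * G.T b) (G.α i) := fun h3 => hlow (lift_bt G hb h3 hy).1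
    have hV2' : ∀ u, Bru cs (x * cs.simple i) u → Up G u (G.α i) → Bru cs (u * cs.simple i) y →
        h2 u (G.α i) = ν := by
      intro u g1 g2 g3
      rw [← hα2]
      exact hC (x * cs.simple i) y i h2 hxs hF2 u g1 g2 g3
    by_cases ba : b = G.α i
    · subst ba
      rw [hV2' u (xx.trans xu) ub (by rw [hTs]; exact hb), hV u xu ub (by rw [hTs]; exact hb)]
    · have xus : Bru cs (x * cs.simple i) (u * cs.simple i) := by
        by_cases ut : Up G u (G.α i)
        · exact (xx.trans xu).trans (up_s G ut)
        · exact lift_tt G xu hx ut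
      have k1 := k0 G hM hy (fun u w g1 _ g3 => hF2 u w g1 g3) hV2' (xx.trans xu) xus ub ba hb
      have e1 := T_s G u i ub.q
      rw [k1, low _ _ xus (up_mir G ba ub) (by rw [e1]; exact lift_tt G hb vt hy)]
      · by_cases xus' : Bru cs x (u * cs.simple i)
        · rw [hs1 _ _ xus', K0 u b xu xus' ub ba hb]
        · rw [hs3 _ _ xus' (r_ne G i ub.p)]
          unfold mir
          rw [sss, rr, q_r]
          push_cast; ring
      · rintro ⟨e2, e3⟩
        rw [e1] at e3
        exact hne ⟨mul_right_cancel e2, mul_right_cancel e3⟩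

end Pool.Agent.H52.CIC
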