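import Pool.Agent.H52.CIC.StG
import Pool.Agent.H11.Ism.GeoB

/-!
# Project CIC, module LBE: labels of edges, edges have odd length
-/

namespace Pool.Agent.H52.CIC

open Pool.Agent.H11.ZDE Pool.Agent.H11.ZDE.RootLat

section
variable {B W : Type} [Group W] {M : CoxeterMatrix B} {cs : CoxeterSystem M W}
  {L : Type} [AddCommGroup L] {R : RootLat L} (G : Geo cs R)

theorem lbe : LbeSt G := by
  intro u b hb
  have key : ∀ c, Up G u c → u * G.T b = u * G.T c → b = c := fun c hc h =>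
    Pool.Agent.H58.ZDE.T_inj G hb.q hc.q hb.p hc.p (mul_left_cancel h)
  refine ⟨?_, key⟩
  have h : ∃ b', Up G u b' ∧ u * G.T b = u * G.T b' := ⟨b, hb, rfl⟩
  unfold lb
  rw [dif_pos h]
  exact (key _ h.choose_spec.1 h.choose_spec.2).symm

theorem par : ParSt G := by
  intro u b hb
  have h1 := G.lt u b hb.q hb.p hb.u
  have h2 := cs.length_mul_mod_two u (G.T b)
  have h3 : Odd (cs.length (G.T b)) :=
    ((G.refl (G.T b)).2 ⟨b, hb.q, hb.p, rfl⟩).odd_length
  obtain ⟨m, hm⟩ := h3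
  refine ⟨(cs.length (u * G.T b) - cs.length u - 1) / 2, ?_⟩
  omega

end

end Pool.Agent.H52.CIC
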