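import Pool.Agent.H52.CIC.StG
import Pool.Agent.H11.Ism.GeoB

/-!
# Project CIC: edges of the relations, mirror images, lifting (helper12)
-/

namespace Pool.Agent.H52.CIC

open Pool.Agent.H11.ZDE Pool.Agent.H11.ZDE.RootLat

section
variable {B W : Type} [Group W] {M : CoxeterMatrix B} {cs : CoxeterSystem M W}
  {L : Type} [AddCommGroup L] {R : RootLat L} {G : Geo cs R}

/-! ### Bruhat order -/

theorem bru_rfl (x : W) : Bru cs x x := Relation.ReflTransGen.refl

theorem bru_tr {x y z : W} (h : Bru cs x y) (h' : Bru cs y z) : Bru cs x z :=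
  Relation.ReflTransGen.trans h h'

theorem Up.bru {u : W} {b : L} (h : Up G u b) : Bru cs u (u * G.T b) :=
  G.bru_of_pos h.q h.p h.u

theorem Up.len {u : W} {b : L} (h : Up G u b) : cs.length u < cs.length (u * G.T b) :=
  G.lt u b h.q h.p h.u

/-! ### the types of relations -/

theorem Up.sumQ {b c : L} (hb : R.Q b b = 2) (hc : R.Q c c = 2) (h : R.Q b c = -1) :
    R.Q (b + c) (b + c) = 2 := by
  rw [R.Q_add, R.Q_addr, R.Q_addr, hb, R.Q_comm c b, h, hc]; norm_num

/-- type `o` -/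
theorem relO {u : W} {b c : L} (hb : Up G u b) (hc : Up G u c) (h : R.Q b c = 0) :
    Up G (u * G.T b) c ∧ Up G (u * G.T c) b ∧ u * G.T b * G.T c = u * G.T c * G.T b := by
  refine ⟨⟨hc.q, hc.p, ?_⟩, ⟨hb.q, hb.p, ?_⟩, ?_⟩
  · rw [G.ρr u hb.q, R.Q_comm, h]
    exact R.P_cast hc.u (by congr 1; module)
  · rw [G.ρr u hc.q, h]
    exact R.P_cast hb.u (by congr 1; module)
  · rw [mul_assoc, mul_assoc]
    congr 1
    exact Pool.Agent.H58.ZDE.T_mul_eq G hb.q hc.q hc.q hb.q (R.sw0 h)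

/-- type `a` -/
theorem relA {u : W} {b c : L} (hb : Up G u b) (hc : Up G u c) (h : R.Q b c = -1) :
    Up G (u * G.T b) c ∧ Up G (u * G.T c) (b + c) ∧
      u * G.T b * G.T c = u * G.T c * G.T (b + c) := by
  have hs := Up.sumQ hb.q hc.q h
  refine ⟨⟨hc.q, hc.p, ?_⟩, ⟨hs, R.P_add hb.p hc.p, ?_⟩, ?_⟩
  · rw [G.ρr u hb.q, R.Q_comm, h]
    refine R.P_cast (R.P_add hc.u hb.u) ?_
    rw [← map_add]; congr 1; module
  · rw [G.ρr u hc.q, R.Q_add, h, hc.q]
    exact R.P_cast hb.u (by congr 1; module)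
  · obtain ⟨r1, -, -, -⟩ := Pool.Agent.H11.Ism.dih G hb.q hc.q h
    rw [mul_assoc, mul_assoc, r1]

/-- type `b` -/
theorem relB {u : W} {b c : L} (hb : Up G u b) (hbc : Up G u (b + c)) (qc : R.Q c c = 2)
    (pc : R.P c) (nc : R.P (-(G.ρ u c))) (h : R.Q b c = -1) :
    Up G (u * G.T b) c ∧ Up G (u * G.T (b + c)) b ∧
      u * G.T b * G.T c = u * G.T (b + c) * G.T b := by
  refine ⟨⟨qc, pc, ?_⟩, ⟨hb.q, hb.p, ?_⟩, ?_⟩
  · rw [G.ρr u hb.q, R.Q_comm, h]
    refine R.P_cast hbc.u ?_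
    congr 1; module
  · rw [G.ρr u hbc.q, R.Q_addr, h, hb.q]
    refine R.P_cast nc ?_
    rw [← map_neg]; congr 1; module
  · obtain ⟨-, r2, -, -⟩ := Pool.Agent.H11.Ism.dih G hb.q qc h
    rw [mul_assoc, mul_assoc, r2]

/-- type `s` -/
theorem relS {u : W} {b c : L} (hb : Up G u b) (hc : Up G u c) (h : R.Q b c = -1) :
    Up G u (b + c) ∧ Bru cs (u * G.T b) (u * G.T (b + c)) ∧
      Bru cs (u * G.T c) (u * G.T (b + c)) := by
  have hs := Up.sumQ hb.q hc.q h
  have ps := R.P_add hb.p hc.p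
  have h' : R.Q c b = -1 := by rw [R.Q_comm]; exact h
  -- one half, for both orders
  have key : ∀ {b c : L}, Up G u b → Up G u c → R.Q b c = -1 →
      Bru cs (u * G.T b) (u * G.T (b + c)) := by
    intro b c hb hc h
    obtain ⟨h1, -, -⟩ := relA hb hc h
    obtain ⟨-, r2, -, -⟩ := Pool.Agent.H11.Ism.dih G hb.q hc.q h
    have h2 : Up G (u * G.T b * G.T c) b := by
      refine ⟨hb.q, hb.p, ?_⟩
      rw [G.ρr _ hc.q, h, G.ρr u hb.q]
      refine R.P_cast hc.u ?_
      congr 1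
      rw [R.Q_sub, R.Q_smul, R.Q_comm c b, h, hb.q]
      module
    have h3 := bru_tr h1.bru h2.bru
    have h4 : u * G.T b * G.T c * G.T b = u * G.T (b + c) := by
      rw [mul_assoc u, r2, ← mul_assoc, mul_assoc _ (G.T b) (G.T b), G.TT hb.q, mul_one]
    rwa [h4] at h3
  refine ⟨⟨hs, ps, by rw [map_add]; exact R.P_add hb.u hc.u⟩, key hb hc h, ?_⟩
  have := key hc hb h'
  rwa [add_comm] at this

/-- the relations only depend on the values on the edges between `u` and `w` -/
theorem RelG.congr {h h' : W → L → ℝ} {u w : W} (H : RelG G h u w)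
    (hh : ∀ v c, Bru cs u v → Up G v c → Bru cs (v * G.T c) w → h' v c = h v c) :
    RelG G h' u w := by
  refine ⟨?_, ?_, ?_, ?_⟩
  · intro b c hb hc hq hw
    obtain ⟨h1, h2, h3⟩ := relO hb hc hq
    rw [hh _ _ hb.bru h1 (by rw [hw]; exact bru_rfl _),
      hh _ _ (bru_rfl _) hc (by rw [hw, h3]; exact h2.bru)]
    exact H.o b c hb hc hq hw
  · intro b c hb hc hq hw
    obtain ⟨h1, h2, h3⟩ := relA hb hc hq
    rw [hh _ _ hb.bru h1 (by rw [hw]; exact bru_rfl _),
      hh _ _ (bru_rfl _) hc (by rw [hw, h3]; exact h2.bru),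
      hh _ _ hc.bru h2 (by rw [hw, h3]; exact bru_rfl _),
      hh _ _ (bru_rfl _) hb (by rw [hw]; exact h1.bru)]
    exact H.a b c hb hc hq hw
  · intro b c hb hbc qc pc nc hq hw
    obtain ⟨h1, h2, h3⟩ := relB hb hbc qc pc nc hq
    rw [hh _ _ hb.bru h1 (by rw [hw]; exact bru_rfl _),
      hh _ _ (bru_rfl _) hbc (by rw [hw, h3]; exact h2.bru),
      hh _ _ hbc.bru h2 (by rw [hw, h3]; exact bru_rfl _),
      hh _ _ (bru_rfl _) hb (by rw [hw]; exact h1.bru)]
    exact H.b b c hb hbc qc pc nc hq hw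
  · intro b c hb hc hq hw
    obtain ⟨h1, h2, h3⟩ := relS hb hc hq
    rw [hh _ _ (bru_rfl _) h1 (by rw [hw]; exact bru_rfl _),
      hh _ _ (bru_rfl _) hb (by rw [hw]; exact h2),
      hh _ _ (bru_rfl _) hc (by rw [hw]; exact h3)]
    exact H.s b c hb hc hq hw

/-- the relations are linear -/
theorem RelG.add {h h' : W → L → ℝ} {u w : W} (H : RelG G h u w) (H' : RelG G h' u w) :
    RelG G (fun v c => h v c + h' v c) u w := by
  refine ⟨?_, ?_, ?_, ?_⟩
  · intro b c hb hc hq hw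
    simp only [H.o b c hb hc hq hw, H'.o b c hb hc hq hw]
  · intro b c hb hc hq hw
    simp only [(H.a b c hb hc hq hw).1, (H'.a b c hb hc hq hw).1, (H.a b c hb hc hq hw).2,
      (H'.a b c hb hc hq hw).2]
    exact ⟨trivial, by ring⟩
  · intro b c hb hbc qc pc nc hq hw
    simp only [(H.b b c hb hbc qc pc nc hq hw).1, (H'.b b c hb hbc qc pc nc hq hw).1,
      (H.b b c hb hbc qc pc nc hq hw).2, (H'.b b c hb hbc qc pc nc hq hw).2]
    exact ⟨by ring, trivial⟩
  · intro b c hb hc hq hw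
    simp only [H.s b c hb hc hq hw, H'.s b c hb hc hq hw]
    ring

theorem RelG.sub {h h' : W → L → ℝ} {u w : W} (H : RelG G h u w) (H' : RelG G h' u w) :
    RelG G (fun v c => h v c - h' v c) u w := by
  refine ⟨?_, ?_, ?_, ?_⟩
  · intro b c hb hc hq hw
    simp only [H.o b c hb hc hq hw, H'.o b c hb hc hq hw]
  · intro b c hb hc hq hw
    simp only [(H.a b c hb hc hq hw).1, (H'.a b c hb hc hq hw).1, (H.a b c hb hc hq hw).2,
      (H'.a b c hb hc hq hw).2]
    exact ⟨trivial, by ring⟩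
  · intro b c hb hbc qc pc nc hq hw
    simp only [(H.b b c hb hbc qc pc nc hq hw).1, (H'.b b c hb hbc qc pc nc hq hw).1,
      (H.b b c hb hbc qc pc nc hq hw).2, (H'.b b c hb hbc qc pc nc hq hw).2]
    exact ⟨by ring, trivial⟩
  · intro b c hb hc hq hw
    simp only [H.s b c hb hc hq hw, H'.s b c hb hc hq hw]
    ring

/-! ### simple roots and mirror images -/

theorem aQ (G : Geo cs R) (i : B) : R.Q (G.α i) (G.α i) = 2 :=
  R.S_root _ (G.αS ▸ Set.mem_range_self i)

theorem aP (G : Geo cs R) (i : B) : R.P (G.α i) :=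
  R.S_pos _ (G.αS ▸ Set.mem_range_self i)

theorem aT (G : Geo cs R) (u : W) (i : B) : u * G.T (G.α i) = u * cs.simple i := by rw [G.Tα]

theorem rr {a : L} (h : R.Q a a = 2) (b : L) : R.r a (R.r a b) = b := by
  have := congrArg (fun f => f b) (R.r_r h)
  simpa using this

theorem rho_s (G : Geo cs R) (u : W) (i : B) (b : L) :
    G.ρ (u * cs.simple i) b = G.ρ u (R.r (G.α i) b) := by
  rw [map_mul, ← G.Tα i, G.ρT _ (aQ G i), Module.End.mul_apply]

theorem rho_sr (G : Geo cs R) (u : W) (i : B) (b : L) :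
    G.ρ (u * cs.simple i) (R.r (G.α i) b) = G.ρ u b := by
  rw [rho_s, rr (aQ G i)]

theorem mirP (G : Geo cs R) (i : B) {b : L} (qb : R.Q b b = 2) (pb : R.P b) (hb : b ≠ G.α i) :
    R.P (R.r (G.α i) b) := by
  rw [R.r_apply]
  exact R.S_refl _ (G.αS ▸ Set.mem_range_self i) b qb pb hb

theorem mir_ne (G : Geo cs R) (i : B) {b : L} (pb : R.P b) : R.r (G.α i) b ≠ G.α i := by
  intro h
  have h2 : b = - G.α i := by
    have := congrArg (R.r (G.α i)) h
    rw [rr (aQ G i), R.r_self (aQ G i)] at this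
    exact this
  rw [h2] at pb
  exact R.P_neg (aP G i) pb

/-- mirror image of an edge -/
theorem Up.mir {u : W} {b : L} (h : Up G u b) (i : B) (hb : b ≠ G.α i) :
    Up G (u * cs.simple i) (R.r (G.α i) b) :=
  ⟨by rw [R.Q_r (aQ G i)]; exact h.q, mirP G i h.q h.p hb, by rw [rho_sr]; exact h.u⟩

theorem Up.ne {u : W} {b : L} (h : Up G u b) {a : L} (ha : ¬ R.P a) : b ≠ a := by
  rintro rfl
  exact ha h.p

theorem mirT (G : Geo cs R) (u : W) (i : B) {b : L} (qb : R.Q b b = 2) :
    u * cs.simple i * G.T (R.r (G.α i) b) = u * G.T b * cs.simple i := by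
  rw [← G.Tα i, mul_assoc, mul_assoc]
  congr 1
  have q1 : R.Q (R.r (G.α i) b) (R.r (G.α i) b) = 2 := by rw [R.Q_r (aQ G i)]; exact qb
  symm
  apply Pool.Agent.H58.ZDE.T_mul_eq G qb (aQ G i) (aQ G i) q1
  rw [R.conj (aQ G i)]

theorem ss (x : W) (i : B) : x * cs.simple i * cs.simple i = x := by
  rw [mul_assoc, cs.simple_mul_simple_self, mul_one]

/-- the simple root is not a sum of two positive vectors of the lattice -/
theorem a_ne_add (G : Geo cs R) (i : B) {b c : L} (pb : R.P b) (pc : R.P c) :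
    b + c ≠ G.α i := by
  intro h
  have h1 := R.ht_pos b pb
  have h2 := R.ht_pos c pc
  have h3 := R.S_ht _ (G.αS ▸ Set.mem_range_self i)
  rw [← h, R.ht_add] at h3
  omega

/-! ### bottoms and tops -/

theorem up_iff (G : Geo cs R) (u : W) (i : B) :
    Up G u (G.α i) ↔ cs.length u < cs.length (u * cs.simple i) := by
  rw [← aT G u i]
  constructor
  · intro h; exact h.len
  · intro h
    exact ⟨aQ G i, aP G i, (Pool.Agent.H11.Ism.pos_iff G u (aQ G i) (aP G i)).2 h⟩

theorem not_up_iff (G : Geo cs R) (u : W) (i : B) :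
    ¬ Up G u (G.α i) ↔ cs.length (u * cs.simple i) < cs.length u := by
  rw [up_iff]
  rcases cs.length_mul_simple u i with h | h <;> omega

theorem up_s_iff (G : Geo cs R) (u : W) (i : B) :
    Up G (u * cs.simple i) (G.α i) ↔ cs.length (u * cs.simple i) < cs.length u := by
  rw [up_iff, ss]

theorem neg_of_not_up {u : W} {i : B} (h : ¬ Up G u (G.α i)) : R.P (-(G.ρ u (G.α i))) := by
  rcases G.pos_or_neg u (aQ G i) with h1 | h1
  · exact absurd ⟨aQ G i, aP G i, h1⟩ h
  · exact h1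

/-- bottom above a bottom -/
theorem low_low {x u : W} {i : B} (hx : Up G x (G.α i)) (h : Bru cs x u) :
    Bru cs x (u * cs.simple i) := by
  by_cases hu : Up G u (G.α i)
  · have := hu.bru
    rw [aT] at this
    exact bru_tr h this
  · have h1 := (Pool.Agent.H11.Ism.lift_mx G i h).2
    rw [up_iff] at hx hu
    unfold Pool.Agent.H11.Ism.mn at h1
    rwa [if_pos hx, if_neg hu] at h1

/-- a bottom below a top is below its bottom -/
theorem bot_le {u y : W} {i : B} (hu : Up G u (G.α i)) (_hy : cs.length (y * cs.simple i) < cs.length y)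
    (h : Bru cs u y) : Bru cs u (y * cs.simple i) := low_low hu h

theorem top_s (G : Geo cs R) {u y : W} {i : B} (hy : cs.length (y * cs.simple i) < cs.length y)
    (h : Bru cs u y) : Bru cs (u * cs.simple i) y := by
  have hy' : ¬ cs.length y < cs.length (y * cs.simple i) := by omega
  have h1 := (Pool.Agent.H11.Ism.lift_mx G i h).1
  have h2 := (Pool.Agent.H11.Ism.le_mx G i u).2.1
  have h3 : Pool.Agent.H11.Ism.mx cs i y = y := by
    unfold Pool.Agent.H11.Ism.mx
    rw [if_neg hy']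
  rw [h3] at h1
  exact bru_tr h2 h1

/-- an element below a top `y` and not below `y s` is a top and its bottom is below `y s` -/
theorem top_of {w y : W} {i : B} (hy : cs.length (y * cs.simple i) < cs.length y)
    (h : Bru cs w y) (hn : ¬ Bru cs w (y * cs.simple i)) :
    ¬ Up G w (G.α i) ∧ Bru cs (w * cs.simple i) (y * cs.simple i) := by
  have h0 : ¬ Up G w (G.α i) := fun h' => hn (bot_le h' hy h)
  refine ⟨h0, ?_⟩
  have h1 := (Pool.Agent.H11.Ism.lift_mx G i h).2
  rw [up_iff] at h0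
  have hy' : ¬ cs.length y < cs.length (y * cs.simple i) := by omega
  unfold Pool.Agent.H11.Ism.mn at h1
  rwa [if_neg h0, if_neg hy'] at h1

/-- bottoms of comparable elements: mirror of an inequality -/
theorem bru_s (G : Geo cs R) {u w : W} {i : B} (h : Bru cs u w) (hw : cs.length (w * cs.simple i) < cs.length w)
    (hu : cs.length (u * cs.simple i) < cs.length u) :
    Bru cs (u * cs.simple i) (w * cs.simple i) := by
  have h1 := (Pool.Agent.H11.Ism.lift_mx G i h).2
  unfold Pool.Agent.H11.Ism.mn at h1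
  rwa [if_neg (by omega), if_neg (by omega)] at h1

end

end Pool.Agent.H52.CIC
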