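import Pool.Agent.H52.CIC.StG
import Pool.Agent.H11.Ism.GeoB

/-!
# Project CIC: the squares over two given edges (used in FONE, FHX2, FTOP)
-/

namespace Pool.Agent.H52.CIC

open Pool.Agent.H11.ZDE Pool.Agent.H11.ZDE.RootLat

section
variable {B W : Type} [Group W] {M : CoxeterMatrix B} {cs : CoxeterSystem M W}
  {L : Type} [AddCommGroup L] {R : RootLat L} (G : Geo cs R)

/-- the five kinds of squares over the edges `u → u T_b`, `u → u T_b'` -/
theorem sqTwo (hS : SqcSt G) (hL : LbeSt G) {u : W} {b b' c c' : L} (hb : Up G u b)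
    (hb' : Up G u b') (hne : b ≠ b') (hc : Up G (u * G.T b) c) (hc' : Up G (u * G.T b') c')
    (h : u * G.T b * G.T c = u * G.T b' * G.T c') :
    (R.Q b b' = 0 ∧ c = b' ∧ c' = b) ∨ (R.Q b b' = -1 ∧ c = b' ∧ c' = b + b') ∨
    (R.Q b b' = -1 ∧ c = b + b' ∧ c' = b) ∨
    (R.Q b b' = 1 ∧ b' = b + c ∧ c' = b ∧ R.P (-(G.ρ u c))) ∨
    (R.Q b b' = 1 ∧ c = b' ∧ b = b' + c' ∧ R.P (-(G.ρ u c'))) := by
  obtain ⟨b1, c1, hne1, hb1, hc1, he1, hcase, huniq⟩ := hS u b c hb hc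
  have e1 : b' = b1 := by
    rcases huniq b' c' hb' hc' h with h1 | h1
    · exact absurd h1.symm hne
    · exact h1
  subst e1
  have e2 : c' = c1 := by
    apply (hL (u * G.T b') c' hc').2 c1 hc1
    rw [← h, he1]
  subst e2
  rcases hcase with ⟨q, e3, e4⟩ | ⟨q, e3, e4⟩ | ⟨q, e3, e4, e5⟩ | ⟨q, e3, e4⟩ | ⟨q, e3, e4, e5⟩
  · left
    subst e3
    exact ⟨q, rfl, e4⟩
  · right; left
    subst e3
    exact ⟨q, rfl, e4⟩
  · right; right; right; left
    refine ⟨?_, e3, e4, e5⟩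
    rw [e3, R.Q_addr, hb.q, q]
    norm_num
  · right; right; left
    refine ⟨?_, e3, e4⟩
    have e6 : b' = c - b := by rw [e3]; abel
    rw [e6, R.Q_subr, hb.q, q]
    norm_num
  · right; right; right; right
    subst e3
    exact ⟨q, rfl, e4, e5⟩

/-- if the two edges have two common covers -/
theorem sqPair (hS : SqcSt G) (hL : LbeSt G) {u w w' : W} {b b' : L} (hb : Up G u b)
    (hb' : Up G u b') (hne : b ≠ b') (h1 : Eg G (u * G.T b) w) (h2 : Eg G (u * G.T b') w)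
    (h3 : Eg G (u * G.T b) w') (h4 : Eg G (u * G.T b') w') (hw : w ≠ w') :
    R.Q b b' = -1 ∧ Up G (u * G.T b) b' ∧ Up G (u * G.T b) (b + b') ∧
    ((w = u * G.T b * G.T b' ∧ w' = u * G.T b * G.T (b + b')) ∨
      (w' = u * G.T b * G.T b' ∧ w = u * G.T b * G.T (b + b'))) := by
  obtain ⟨c, hc, rfl⟩ := h1
  obtain ⟨c', hc', e1⟩ := h2
  obtain ⟨d, hd, rfl⟩ := h3
  obtain ⟨d', hd', e2⟩ := h4
  have hcd : c ≠ d := fun h => hw (by rw [h])
  have n1 : ∀ c' d' : L, R.P c' → R.P d' → b = b' + c' → b' = b + d' → False := by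
    intro c' d' p1 p2 f1 f2
    have : c' + d' = 0 := by
      rw [f2] at f1
      have f3 : b + 0 = b + (c' + d') := by
        conv_lhs => rw [f1]
        abel
      exact (add_left_cancel f3).symm
    exact R.P_ne (R.P_add p1 p2) this
  rcases sqTwo G hS hL hb hb' hne hc hc' e1 with
    ⟨q, x1, x2⟩ | ⟨q, x1, x2⟩ | ⟨q, x1, x2⟩ | ⟨q, x1, x2, x3⟩ | ⟨q, x1, x2, x3⟩ <;>
  rcases sqTwo G hS hL hb hb' hne hd hd' e2 with
    ⟨r, y1, y2⟩ | ⟨r, y1, y2⟩ | ⟨r, y1, y2⟩ | ⟨r, y1, y2, y3⟩ | ⟨r, y1, y2, y3⟩ <;>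
  first
  | (exfalso; omega)
  | (exfalso; exact hcd (x1.trans y1.symm))
  | (exfalso; exact n1 _ _ hc'.p hd.p x2 y1)
  | (exfalso; exact n1 _ _ hd'.p hc.p y2 x1)
  | (exfalso; exact hcd (add_left_cancel (x1.symm.trans y1)))
  | (subst x1; subst y1; exact ⟨q, hc, hd, Or.inl ⟨rfl, rfl⟩⟩)
  | (subst x1; subst y1; exact ⟨q, hd, hc, Or.inr ⟨rfl, rfl⟩⟩)

/-- the top of a hexagon -/
theorem sqTop (hS : SqcSt G) (hL : LbeSt G) {u w w' z : W} {b b' : L} (hb : Up G u b)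
    (hb' : Up G u b') (hne : b ≠ b') (h1 : Eg G (u * G.T b) w) (h2 : Eg G (u * G.T b') w)
    (h3 : Eg G (u * G.T b) w') (h4 : Eg G (u * G.T b') w') (hw : w ≠ w') (h5 : Eg G w z)
    (h6 : Eg G w' z) : R.Q b b' = -1 ∧ Up G u (b + b') ∧ z = u * G.T (b + b') := by
  obtain ⟨q, u1, u2, hcase⟩ := sqPair G hS hL hb hb' hne h1 h2 h3 h4 hw
  have hup : Up G u (b + b') := by
    refine ⟨?_, R.P_add hb.p hb'.p, ?_⟩
    · rw [R.Q_add, R.Q_addr, R.Q_addr, hb.q, hb'.q, R.Q_comm b' b, q]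
      norm_num
    · rw [map_add]
      exact R.P_add hb.u hb'.u
  refine ⟨q, hup, ?_⟩
  have hne2 : b' ≠ b + b' := by
    intro h
    have : b = 0 := right_eq_add.1 h
    exact R.P_ne hb.p this
  have key : ∀ x y : W, x = u * G.T b * G.T b' → y = u * G.T b * G.T (b + b') → Eg G x z →
      Eg G y z → z = u * G.T (b + b') := by
    intro x y hx hy h7 h8
    subst hx
    subst hy
    obtain ⟨c, hc, rfl⟩ := h7
    obtain ⟨c', hc', e1⟩ := h8
    have q2 : R.Q b' (b + b') = 1 := by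
      rw [R.Q_addr, hb'.q, R.Q_comm, q]
      norm_num
    have hfin : c = b → u * G.T b * G.T b' * G.T c = u * G.T (b + b') := by
      intro h
      subst h
      rw [mul_assoc u, Pool.Agent.H58.ZDE.T_mul_eq G hb.q hb'.q hup.q hb.q (R.swm hb.q q),
        ← mul_assoc u, Pool.Agent.H11.Ism.TTx G _ hb.q]
    rcases sqTwo G hS hL u1 u2 hne2 hc hc' e1 with
      ⟨r, y1, y2⟩ | ⟨r, y1, y2⟩ | ⟨r, y1, y2⟩ | ⟨r, y1, y2, y3⟩ | ⟨r, y1, y2, y3⟩
    · omega
    · omega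
    · omega
    · apply hfin
      rw [add_comm b b'] at y1
      exact (add_left_cancel y1).symm
    · exfalso
      have : b + c' = 0 := by
        have f3 : b' + 0 = b' + (b + c') := by
          conv_lhs => rw [add_zero, y2]
          abel
        exact (add_left_cancel f3).symm
      exact R.P_ne (R.P_add hb.p hc'.p) this
  rcases hcase with ⟨x1, x2⟩ | ⟨x1, x2⟩
  · exact key w w' x1 x2 h5 h6
  · exact key w' w x1 x2 h6 h5

end

end Pool.Agent.H52.CIC
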