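import Pool.Agent.H52.CIC.Defs

/-!
# Project CIC: statements of the abstract part (one structure, two structures)
-/

namespace Pool.Agent.H52.CIC

open Pool.Agent.H11.ZDE

variable {P : Type} {O : Po P} {L L' : Type} [AddCommGroup L] [AddCommGroup L'] {R : RootLat L} {R' : RootLat L'}

/-- covers -/
def Cv (O : Po P) (x y : P) : Prop := O.Le x y ∧ O.rk y = O.rk x + 1

/-! ### lattice -/

/-- IND2: two different positive roots can be given arbitrary values -/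
def Ind2St (R : RootLat L) : Prop := ∀ a b, R.Q a a = 2 → R.P a → R.Q b b = 2 → R.P b → a ≠ b →
  ∀ r t : ℝ, ∃ φ : L →+ ℝ, φ a = r ∧ φ b = t

/-- IND3: three different positive roots, none of which is the sum of the two others, can be given
arbitrary values -/
def Ind3St (R : RootLat L) : Prop := ∀ a b c, R.Q a a = 2 → R.P a → R.Q b b = 2 → R.P b →
  R.Q c c = 2 → R.P c → a ≠ b → a ≠ c → b ≠ c → a ≠ b + c → b ≠ a + c → c ≠ a + b →
  ∀ r t v : ℝ, ∃ φ : L →+ ℝ, φ a = r ∧ φ b = t ∧ φ c = v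

/-- LAT4 -/
def Lat4St (R : RootLat L) : Prop := ∀ (l : Fin 4 → L) (c d : ℤ), (∀ i, R.Q (l i) (l i) = 2) → (∀ i, R.P (l i)) →
  Function.Injective l → (∀ i j k, i ≠ j → i ≠ k → j ≠ k → l i ≠ l j + l k) →
  l 3 ≠ l 0 + l 1 + l 2 → l 0 ≠ l 1 + l 2 + l 3 →
  l 0 + c • l 1 + d • l 2 - l 3 = 0 → (c = 1 ∧ d = -1) ∨ (c = -1 ∧ d = 1)

/-- LAT5 -/
def Lat5St (R : RootLat L) : Prop := ∀ (l : Fin 5 → L) (c d : ℤ), (∀ i, R.Q (l i) (l i) = 2) → (∀ i, R.P (l i)) →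
  Function.Injective l → (∀ i j k, i ≠ j → i ≠ k → j ≠ k → l i ≠ l j + l k) →
  (c = 1 ∨ c = -1) → (d = 1 ∨ d = -1) →
  l 0 + c • l 1 - c • l 2 - l 3 = 0 → l 1 + d • l 2 - d • l 3 - l 4 = 0 → False

/-! ### one structure: basic facts -/

/-- GLOB: linear functions of the labels are in all spaces `FS` -/
def GlobSt (S : SLG O R) : Prop := ∀ x y (φ : L →+ ℝ), glob S φ ∈ FS S x y

/-- INJ: an element of `FS` is determined by its values at the bottom -/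
def InjSt (S : SLG O R) : Prop := ∀ x y h h', h ∈ FS S x y → h' ∈ FS S x y → O.rk x + 2 ≤ O.rk y →
  (∀ a, S.E x a → O.Le a y → a ≠ y → h x a = h' x a) →
  ∀ u w, O.Le x u → S.E u w → O.Le w y → h u w = h' u w

/-- GLUE -/
def GlueSt (S : SLG O R) : Prop := ∀ x y f, O.Le x y → O.rk x + 4 ≤ O.rk y →
  (∀ b, O.Le x b → Cv O b y → Ff S x b f) →
  (∀ a, Cv O x a → O.Le a y → ∃ h ∈ FS S a y, ∀ w a', S.E a w → O.Le w y → w ≠ y → S.E x a' → S.E a' w →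
    a' ≠ a → h a w = f a' + S.tt x a w * f a) → Fp S x y f

/-- ATOM3: the label of an atom is not the sum of two labels at `x` -/
def Atom3St (S : SLG O R) : Prop := ∀ x a b c, S.E x a → S.E x b → Cv O x c →
  S.lab x c ≠ S.lab x a + S.lab x b

/-! ### rank three -/

/-- a path of atoms `a0, a1, a2, a3` and coatoms `b0, b1, b2` in the rank three interval `[x, y]` -/
structure Path4 (O : Po P) (x y a0 a1 a2 a3 b0 b1 b2 : P) : Prop where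
  rk : O.rk y = O.rk x + 3
  x0 : Cv O x a0
  x1 : Cv O x a1
  x2 : Cv O x a2
  x3 : Cv O x a3
  y0 : Cv O b0 y
  y1 : Cv O b1 y
  y2 : Cv O b2 y
  i00 : Cv O a0 b0
  i10 : Cv O a1 b0
  i11 : Cv O a1 b1
  i21 : Cv O a2 b1
  i22 : Cv O a2 b2
  i32 : Cv O a3 b2
  na0 : a0 ≠ a1
  na1 : a1 ≠ a2
  na2 : a2 ≠ a3
  nb0 : b0 ≠ b1
  nb1 : b1 ≠ b2

/-- PATHEX: paths exist -/
def PathExSt (_S : SLG O R) : Prop := ∀ x y a1 a2 b1, O.rk y = O.rk x + 3 → Cv O x a1 → Cv O x a2 → a1 ≠ a2 →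
  Cv O a1 b1 → Cv O a2 b1 → Cv O b1 y → ∃ a0 a3 b0 b2, Path4 O x y a0 a1 a2 a3 b0 b1 b2

/-- coefficient of `a1` -/
def cc (S : SLG O R) (x y a1 a2 b0 b1 : P) : ℤ := S.tt x a1 b0 + S.tt a1 b1 y * S.tt x a1 b1 - S.tt a2 b1 y

/-- coefficient of `a2` -/
def dd (S : SLG O R) (x y a1 a2 b1 b2 : P) : ℤ := S.tt a1 b1 y - S.tt x a2 b2 - S.tt a2 b1 y * S.tt x a2 b1

/-- REL4 -/
def Rel4St (S : SLG O R) : Prop := ∀ x y a0 a1 a2 a3 b0 b1 b2, Path4 O x y a0 a1 a2 a3 b0 b1 b2 →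
  S.lab x a0 + cc S x y a1 a2 b0 b1 • S.lab x a1 + dd S x y a1 a2 b1 b2 • S.lab x a2 - S.lab x a3 = 0 ∧
  ∀ h ∈ FS S x y, h x a0 + cc S x y a1 a2 b0 b1 * h x a1 + dd S x y a1 a2 b1 b2 * h x a2 - h x a3 = 0

/-- case of two atoms -/
def K2 (O : Po P) (x y a0 a1 a2 a3 : P) : Prop := a0 = a2 ∧ a3 = a1 ∧
  ∀ a, Cv O x a → O.Le a y → a = a1 ∨ a = a2

/-- case of three atoms -/
def K3 (O : Po P) (x y a0 a1 a2 a3 : P) : Prop := a0 = a3 ∧ a0 ≠ a2 ∧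
  ∀ a, Cv O x a → O.Le a y → a = a0 ∨ a = a1 ∨ a = a2

/-- case of four atoms -/
def K4 (O : Po P) (x y a0 a1 a2 a3 b0 b1 b2 b3 : P) : Prop := a0 ≠ a2 ∧ a0 ≠ a3 ∧ a1 ≠ a3 ∧
  b0 ≠ b2 ∧ b0 ≠ b3 ∧ b1 ≠ b3 ∧ b2 ≠ b3 ∧ Cv O b3 y ∧ Cv O a3 b3 ∧ Cv O a0 b3 ∧
  (∀ a, Cv O x a → O.Le a y → a = a0 ∨ a = a1 ∨ a = a2 ∨ a = a3) ∧
  (∀ b, Cv O b y → O.Le x b → b = b0 ∨ b = b1 ∨ b = b2 ∨ b = b3)

/-- CROWN -/
def CrownSt (_S : SLG O R) : Prop := ∀ x y a0 a1 a2 a3 b0 b1 b2, Path4 O x y a0 a1 a2 a3 b0 b1 b2 →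
  K2 O x y a0 a1 a2 a3 ∨ K3 O x y a0 a1 a2 a3 ∨ ∃ b3, K4 O x y a0 a1 a2 a3 b0 b1 b2 b3

/-- FPK2 -/
def FpK2St (S : SLG O R) : Prop := ∀ x y a0 a1 a2 a3 b0 b1 b2, Path4 O x y a0 a1 a2 a3 b0 b1 b2 →
  K2 O x y a0 a1 a2 a3 → (∀ f, Fp S x y f) ∧ cc S x y a1 a2 b0 b1 = 1 ∧ dd S x y a1 a2 b1 b2 = -1

/-- FPK3 -/
def FpK3St (S : SLG O R) : Prop := ∀ x y a0 a1 a2 a3 b0 b1 b2, Path4 O x y a0 a1 a2 a3 b0 b1 b2 →
  K3 O x y a0 a1 a2 a3 → (∀ f, Fp S x y f) ∧ cc S x y a1 a2 b0 b1 = 0 ∧ dd S x y a1 a2 b1 b2 = 0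

/-- FPK4 -/
def FpK4St (S : SLG O R) : Prop := ∀ x y a0 a1 a2 a3 b0 b1 b2 b3, Path4 O x y a0 a1 a2 a3 b0 b1 b2 →
  K4 O x y a0 a1 a2 a3 b0 b1 b2 b3 → (∀ f, Fp S x y f ↔ f a0 - f a1 + f a2 - f a3 = 0) ∧
    cc S x y a1 a2 b0 b1 = -1 ∧ dd S x y a1 a2 b1 b2 = 1 ∧
    S.lab x a0 - S.lab x a1 + S.lab x a2 - S.lab x a3 = 0

/-! ### two structures -/

/-- EDGE: the edges are determined by the poset -/
def EdgeSt (S : SLG O R) (S' : SLG O R') : Prop := ∀ u w, S.E u w ↔ S'.E u w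

/-- the spaces agree on `[x, y]` -/
def T2At (S : SLG O R) (S' : SLG O R') (x y : P) : Prop := ∀ f, Ff S x y f ↔ Ff S' x y f

/-- FPF: from `Fp` to `Ff` -/
def FpfSt (S : SLG O R) (S' : SLG O R') : Prop := ∀ x y, O.rk x + 2 ≤ O.rk y →
  (∀ f, Fp S x y f ↔ Fp S' x y f) → T2At S S' x y

/-- T2S: ranks at most three -/
def T2SmSt (S : SLG O R) (S' : SLG O R') : Prop := ∀ x y, O.Le x y → O.rk y ≤ O.rk x + 3 → T2At S S' x y

/-- difference of the transport coefficients -/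
def cf (S : SLG O R) (S' : SLG O R') (x a : P) : P → ℝ := fun w => (S.tt x a w : ℝ) - S'.tt x a w

/-- good atoms -/
def GoodAt (S : SLG O R) (S' : SLG O R') (x a y : P) : Prop := Fp S' a y (cf S S' x a)

/-- CFB: the differences restricted to coatoms are in the spaces -/
def CfbSt (S : SLG O R) (S' : SLG O R') : Prop := ∀ x a b, Cv O x a → O.Le a b → O.rk x + 2 ≤ O.rk b →
  T2At S S' x b → T2At S S' a b → Ff S' a b (cf S S' x a)

/-- TC: if all atoms are good then the spaces agree -/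
def TcSt (S : SLG O R) (S' : SLG O R') : Prop := ∀ x y, O.Le x y → O.rk x + 4 ≤ O.rk y →
  (∀ u w, O.Le x u → O.Le u w → O.Le w y → ¬ (u = x ∧ w = y) → T2At S S' u w) →
  (∀ a, Cv O x a → O.Le a y → GoodAt S S' x a y) → T2At S S' x y

/-- GSY: goodness is symmetric -/
def GsySt (S : SLG O R) (S' : SLG O R') : Prop := ∀ x a y, T2At S S' a y → GoodAt S S' x a y → GoodAt S' S x a y

/-- BIG: rank at least five -/
def BigSt (S : SLG O R) (S' : SLG O R') : Prop := ∀ x y, O.Le x y → O.rk x + 5 ≤ O.rk y →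
  (∀ u w, O.Le x u → O.Le u w → O.Le w y → ¬ (u = x ∧ w = y) → T2At S S' u w) →
  ∀ a, Cv O x a → O.Le a y → GoodAt S S' x a y

/-- a corner of the rank four interval `[x, y]` at the coatom `b` -/
structure Corner (O : Po P) (x y b a v v' : P) : Prop where
  xa : Cv O x a
  av : Cv O a v
  av' : Cv O a v'
  vb : Cv O v b
  vb' : Cv O v' b
  ne : v ≠ v'

/-- TEL: telescoping around a coatom in rank four -/
def TelSt (S : SLG O R) (S' : SLG O R') : Prop := ∀ x y b, O.Le x b → Cv O b y → O.rk y = O.rk x + 4 →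
  (∀ u w, O.Le x u → O.Le u w → O.Le w y → ¬ (u = x ∧ w = y) → T2At S S' u w) →
  ∃ d : P → P → P → ℝ, (∀ a v v', Corner O x y b a v v' → (GoodAt S S' x a y ↔ d a v v' = 0)) ∧
    ∀ φ : L →+ ℝ, ∃ H : P → ℝ, ∀ a v v', Corner O x y b a v v' →
      φ (S.lab x a) * d a v v' = H v' - H v

/-- KK: the dichotomy at a coatom in rank four -/
def KkSt (S : SLG O R) (S' : SLG O R') : Prop := ∀ x y b, O.Le x b → Cv O b y → O.rk y = O.rk x + 4 →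
  (∀ u w, O.Le x u → O.Le u w → O.Le w y → ¬ (u = x ∧ w = y) → T2At S S' u w) →
  (∀ a, Cv O x a → O.Le a b → GoodAt S S' x a y) ∨
  ((∀ a, Cv O x a → O.Le a b → ¬ GoodAt S S' x a y) ∧ {v | O.Le x v ∧ Cv O v b}.ncard = 4)

/-- BAD: the upper interval of a bad atom is a crown with four atoms -/
def BadSt (S : SLG O R) (S' : SLG O R') : Prop := ∀ x y a, Cv O x a → O.Le a y → O.rk y = O.rk x + 4 →
  ¬ GoodAt S S' x a y → {v | Cv O a v ∧ O.Le v y}.ncard = 4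

/-- COUNT: all atoms are good in rank four -/
def CountSt (S : SLG O R) (S' : SLG O R') : Prop := ∀ x y, O.Le x y → O.rk y = O.rk x + 4 →
  (∀ u w, O.Le x u → O.Le u w → O.Le w y → ¬ (u = x ∧ w = y) → T2At S S' u w) →
  ∀ a, Cv O x a → O.Le a y → GoodAt S S' x a y

/-- T2 -/
def T2St (S : SLG O R) (S' : SLG O R') : Prop := ∀ x y, O.Le x y → T2At S S' x y

end Pool.Agent.H52.CIC
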