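import Pool.Agent.H52.CIC.StA
import Pool.Agent.H52.CIC.StB

/-!
# Project CIC: statements of the comparison part
-/

namespace Pool.Agent.H52.CIC

open Pool.Agent.H11.ZDE Polynomial

variable {P V V' : Type} {L L' : Type} [AddCommGroup L] [AddCommGroup L'] {R : RootLat L} {R' : RootLat L'}

/-- `f` is an isomorphism of `(P, O')` onto a convex part of `(V, O)` -/
structure Emb (O' : Po P) (O : Po V) (f : P → V) : Prop where
  inj : Function.Injective f
  le : ∀ p q, O'.Le p q ↔ O.Le (f p) (f q)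
  conv : ∀ p q v, O.Le (f p) v → O.Le v (f q) → ∃ r, f r = v
  rk : ∀ p q, O'.Le p q → O'.rk q + O.rk (f p) = O'.rk p + O.rk (f q)

/-- PULLO -/
def PullOSt : Prop := ∀ (P V : Type) (O : Po V) (f : P → V), Function.Injective f →
  (∀ p q v, O.Le (f p) v → O.Le v (f q) → ∃ r, f r = v) →
  ∃ O' : Po P, (∀ p q, O'.Le p q ↔ O.Le (f p) (f q)) ∧ (∀ p, O'.rk p = O.rk (f p)) ∧ Emb O' O f

/-- `S'` is the restriction of `S` along `f` -/
structure Pulled {O' : Po P} {O : Po V} (S' : SLG O' R) (S : SLG O R) (f : P → V) : Prop where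
  E : ∀ p q, S'.E p q ↔ S.E (f p) (f q)
  lab : ∀ p q, S'.lab p q = S.lab (f p) (f q)
  tt : ∀ p q r, S'.tt p q r = S.tt (f p) (f q) (f r)

/-- PULLS -/
def PullSSt : Prop := ∀ (P V L : Type) [AddCommGroup L] (R : RootLat L) (O' : Po P) (O : Po V) (f : P → V)
  (S : SLG O R), Emb O' O f → ∃ S' : SLG O' R, Pulled S' S f

/-- PULLF: transfer of the spaces -/
def PullFSt : Prop := ∀ (P V L : Type) [AddCommGroup L] (R : RootLat L) (O' : Po P) (O : Po V) (f : P → V)
  (S : SLG O R) (S' : SLG O' R), Emb O' O f → Pulled S' S f →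
  (∀ p q h, h ∈ FS S (f p) (f q) → (fun a b => h (f a) (f b)) ∈ FS S' p q) ∧
  (∀ p q h', O'.Le p q → h' ∈ FS S' p q → ∃ h ∈ FS S (f p) (f q), ∀ a b, h (f a) (f b) = h' a b)

/-- PULLG: transfer of the generation property -/
def PullGSt : Prop := ∀ (P V L : Type) [AddCommGroup L] (R : RootLat L) (O' : Po P) (O : Po V) (f : P → V)
  (S : SLG O R) (S' : SLG O' R), Emb O' O f → Pulled S' S f → GenP S → GenP S'

/-- T2W: the spaces correspond along `f` and `f'` -/
def T2WSt : Prop := ∀ (P V V' L L' : Type) [Finite P] [AddCommGroup L] [AddCommGroup L'] (R : RootLat L)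
  (R' : RootLat L') (OP : Po P) (O : Po V) (O' : Po V') (f : P → V) (f' : P → V') (S : SLG O R) (S' : SLG O' R'),
  Emb OP O f → Emb OP O' f' → GenP S → GenP S' →
  (∀ p q, S.E (f p) (f q) ↔ S'.E (f' p) (f' q)) ∧
  ∀ p q, OP.Le p q → ∀ h ∈ FS S (f p) (f q), ∃ h' ∈ FS S' (f' p) (f' q),
    ∀ a, S.E (f p) (f a) → OP.Le a q → h' (f' p) (f' a) = h (f p) (f a)

/-- CMP: comparison of the polynomials -/
def CmpSt : Prop := ∀ (P V V' L L' : Type) [Finite P] [Fintype V] [Fintype V'] [AddCommGroup L]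
  [AddCommGroup L'] (R : RootLat L) (R' : RootLat L') (OP : Po P) (O : Po V) (O' : Po V') (f : P → V)
  (f' : P → V') (S : SLG O R) (S' : SLG O' R'), Emb OP O f → Emb OP O' f' → GenP S → GenP S' →
  ∀ q φ φ', (∀ u, O.Le u (f q) → PhiAt S (f q) φ u) → (∀ u, O'.Le u (f' q) → PhiAt S' (f' q) φ' u) →
  ∀ p h h', OP.Le p q → Gn S (f q) (f p) h → Gn S' (f' q) (f' p) h' →
    (∀ a, S.E (f p) (f a) → OP.Le a q → (0 < h (f p) (f a) ↔ 0 < h' (f' p) (f' a))) →
    φ (f p) h = φ' (f' p) h'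

end Pool.Agent.H52.CIC
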