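import Pool.Agent.H52.CIC.StA

/-! Module T2 of project CIC (helper5). -/

namespace Pool.Agent.H52.CIC

open Pool.Agent.H11.ZDE

variable {P : Type} {O : Po P} {L L' : Type} [AddCommGroup L] [AddCommGroup L'] {R : RootLat L}
  {R' : RootLat L'}

theorem t2 (S : SLG O R) (S' : SLG O R') (h1 : T2SmSt S S') (h2 : TcSt S S') (h3 : BigSt S S')
    (h4 : CountSt S S') : T2St S S' := by
  have key : ∀ n : ℕ, ∀ x y, O.Le x y → O.rk y ≤ O.rk x + n → T2At S S' x y := by
    intro n
    induction n using Nat.strong_induction_on with
    | _ n ih =>
      intro x y hxy hr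
      by_cases hsm : O.rk y ≤ O.rk x + 3
      · exact h1 x y hxy hsm
      · have hprop : ∀ u w, O.Le x u → O.Le u w → O.Le w y → ¬ (u = x ∧ w = y) →
            T2At S S' u w := by
          intro u w hu huw hw hne
          have r1 : O.rk x ≤ O.rk u := by
            by_cases h : x = u
            · rw [h]
            · exact (O.rk_lt hu h).le
          have r2 : O.rk w ≤ O.rk y := by
            by_cases h : w = y
            · rw [h]
            · exact (O.rk_lt hw h).le
          have r3 : O.rk x < O.rk u ∨ O.rk w < O.rk y := by
            by_cases h : x = u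
            · right
              exact O.rk_lt hw (fun h' => hne ⟨h.symm, h'⟩)
            · left
              exact O.rk_lt hu h
          exact ih (n - 1) (by omega) u w huw (by omega)
        refine h2 x y hxy (by omega) hprop ?_
        by_cases h5 : O.rk y = O.rk x + 4
        · exact h4 x y hxy h5 hprop
        · exact h3 x y hxy (by omega) hprop
  intro x y hxy
  exact key (O.rk y) x y hxy (by omega)

end Pool.Agent.H52.CIC
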